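import Pool.Agent.H43.G.R_seed8.H442R2.EHI.Ram
import Pool.Agent.H43.G.R_seed8.H336R2.V.TotLog

/-! T10: the model has the right main term in progressions. -/

set_option autoImplicit false

namespace Pool.Agent.H442R2.EHI

open Finset
open Pool.Agent.H469R2.NK (e norm_e e_add)

namespace Mdl

/-- partial summation with decreasing weights -/
theorem abel_bound (c : ℕ → ℂ) (w : ℕ → ℝ) (B : ℝ) (x : ℕ) (hx : 2 ≤ x)
    (hw : ∀ n, 2 ≤ n → w (n + 1) ≤ w n) (hw0 : ∀ n, 2 ≤ n → 0 ≤ w n)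
    (hB : ∀ y, 2 ≤ y → ‖∑ n ∈ Icc 2 y, c n‖ ≤ B) :
    ‖∑ n ∈ Icc 2 x, c n * (w n : ℂ)‖ ≤ B * w 2 := by
  have key : ∀ x, 2 ≤ x → ∃ R : ℂ, ∑ n ∈ Icc 2 x, c n * (w n : ℂ) =
      R + (∑ n ∈ Icc 2 x, c n) * (w x : ℂ) ∧ ‖R‖ ≤ B * (w 2 - w x) := by
    intro x hx
    induction x, hx using Nat.le_induction with
    | base => exact ⟨0, by simp, by simp⟩
    | succ x hx ih =>
      obtain ⟨R, h1, h2⟩ := ih
      refine ⟨R + (∑ n ∈ Icc 2 x, c n) * ((w x : ℂ) - (w (x + 1) : ℂ)), ?_, ?_⟩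
      · rw [sum_Icc_succ_top (by omega), sum_Icc_succ_top (by omega), h1]
        ring
      · have h3 : ‖(∑ n ∈ Icc 2 x, c n) * ((w x : ℂ) - (w (x + 1) : ℂ))‖ ≤ B * (w x - w (x + 1)) := by
          rw [norm_mul, ← Complex.ofReal_sub, Complex.norm_real, Real.norm_eq_abs,
            abs_of_nonneg (by linarith [hw x hx])]
          exact mul_le_mul_of_nonneg_right (hB x hx) (by linarith [hw x hx])
        calc _ ≤ ‖R‖ + ‖(∑ n ∈ Icc 2 x, c n) * ((w x : ℂ) - (w (x + 1) : ℂ))‖ := norm_add_le _ _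
          _ ≤ B * (w 2 - w x) + B * (w x - w (x + 1)) := add_le_add h2 h3
          _ = _ := by ring
  obtain ⟨R, h1, h2⟩ := key x hx
  rw [h1]
  have h3 : ‖(∑ n ∈ Icc 2 x, c n) * (w x : ℂ)‖ ≤ B * w x := by
    rw [norm_mul, Complex.norm_real, Real.norm_eq_abs, abs_of_nonneg (hw0 x hx)]
    exact mul_le_mul_of_nonneg_right (hB x hx) (hw0 x hx)
  calc _ ≤ ‖R‖ + ‖(∑ n ∈ Icc 2 x, c n) * (w x : ℂ)‖ := norm_add_le _ _
    _ ≤ B * (w 2 - w x) + B * w x := add_le_add h2 h3
    _ = _ := by ring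

theorem w_anti (n : ℕ) (hn : 2 ≤ n) : 1 / Real.log ((n + 1 : ℕ) : ℝ) ≤ 1 / Real.log (n : ℝ) := by
  have h1 : (1 : ℝ) < n := by exact_mod_cast (by omega : 1 < n)
  have h2 : 0 < Real.log n := Real.log_pos h1
  apply one_div_le_one_div_of_le h2
  apply Real.log_le_log (by linarith)
  push_cast
  linarith

theorem w_nonneg (n : ℕ) : 0 ≤ 1 / Real.log (n : ℝ) := by
  have := Real.log_natCast_nonneg n
  positivity

theorem w_two : 1 / Real.log ((2 : ℕ) : ℝ) ≤ 2 := by
  have := Real.log_two_gt_d9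
  rw [div_le_iff₀ (by push_cast; linarith)]
  push_cast
  linarith

theorem count (y d a : ℕ) (hd : 1 ≤ d) (hy : 1 ≤ y) :
    |(((Icc 2 y).filter (fun n => n ≡ a [MOD d])).card : ℝ) - ((y : ℝ) - 1) / d| ≤ 1 := by
  have e0 : Icc 2 y = Ioc 1 y := by
    ext i; simp only [mem_Icc, mem_Ioc]; omega
  rw [e0]
  have h := Nat.Ioc_filter_modEq_card 1 y (by omega : 0 < d) a
  have h1 : ((((Ioc 1 y).filter (fun n => n ≡ a [MOD d])).card : ℤ) : ℝ) =
      ((max (⌊((y : ℚ) - a) / d⌋ - ⌊(((1 : ℕ) : ℚ) - a) / d⌋) 0 : ℤ) : ℝ) := by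
    rw [h]
  rw [Int.cast_natCast] at h1
  rw [h1]
  have hd0 : (0 : ℚ) < d := by exact_mod_cast hd
  have f1 := Int.floor_le (((y : ℚ) - a) / d)
  have f2 := Int.lt_floor_add_one (((y : ℚ) - a) / d)
  have f3 := Int.floor_le ((((1 : ℕ) : ℚ) - a) / d)
  have f4 := Int.lt_floor_add_one ((((1 : ℕ) : ℚ) - a) / d)
  set u := ⌊((y : ℚ) - a) / d⌋
  set v := ⌊(((1 : ℕ) : ℚ) - a) / d⌋
  have hmono : v ≤ u := by
    apply Int.floor_le_floor
    have : ((1 : ℕ) : ℚ) ≤ y := by exact_mod_cast hy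
    gcongr
  rw [max_eq_left (by omega)]
  have e1 : ((y : ℚ) - a) / d - (((1 : ℕ) : ℚ) - a) / d = ((y : ℚ) - 1) / d := by
    push_cast; ring
  have g1 : ((u - v : ℤ) : ℚ) - ((y : ℚ) - 1) / d ≤ 1 := by
    rw [← e1]; push_cast at *; linarith
  have g2 : -1 ≤ ((u - v : ℤ) : ℚ) - ((y : ℚ) - 1) / d := by
    rw [← e1]; push_cast at *; linarith
  have g1' : ((u - v : ℤ) : ℝ) - ((y : ℝ) - 1) / d ≤ 1 := by
    have := (Rat.cast_le (K := ℝ)).2 g1
    push_cast at this ⊢
    exact this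
  have g2' : -1 ≤ ((u - v : ℤ) : ℝ) - ((y : ℝ) - 1) / d := by
    have := (Rat.cast_le (K := ℝ)).2 g2
    push_cast at this ⊢
    exact this
  rw [abs_le]
  exact ⟨g2', g1'⟩

/-- the main term of the reciprocals of logarithms in a progression -/
theorem prog (x d a : ℕ) (hx : 2 ≤ x) (hd : 1 ≤ d) :
    ‖(∑ n ∈ (Icc 2 x).filter (fun n => n ≡ a [MOD d]), ((1 / Real.log n : ℝ) : ℂ)) -
      ((lis x / d : ℝ) : ℂ)‖ ≤ 2 := by
  have h := abel_bound (fun n => (if n ≡ a [MOD d] then (1 : ℂ) else 0) - 1 / d)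
    (fun n => 1 / Real.log (n : ℝ)) 1 x hx (fun n hn => w_anti n hn) (fun n _ => w_nonneg n) (by
      intro y hy
      rw [sum_sub_distrib, ← sum_filter, sum_const, sum_const, nsmul_eq_mul, mul_one, Nat.card_Icc,
        nsmul_eq_mul]
      have h1 := count y d a hd (by omega)
      have e1 : ((((Icc 2 y).filter (fun n => n ≡ a [MOD d])).card : ℕ) : ℂ) -
          ((y + 1 - 2 : ℕ) : ℂ) * (1 / (d : ℂ)) =
          (((((Icc 2 y).filter (fun n => n ≡ a [MOD d])).card : ℝ) - ((y : ℝ) - 1) / d : ℝ) : ℂ) := by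
        rw [show y + 1 - 2 = y - 1 by omega, Nat.cast_sub (by omega)]
        push_cast
        ring
      rw [e1, Complex.norm_real, Real.norm_eq_abs]
      exact h1)
  have e2 : ∑ n ∈ Icc 2 x, ((if n ≡ a [MOD d] then (1 : ℂ) else 0) - 1 / d) *
      ((1 / Real.log (n : ℝ) : ℝ) : ℂ) =
      (∑ n ∈ (Icc 2 x).filter (fun n => n ≡ a [MOD d]), ((1 / Real.log n : ℝ) : ℂ)) -
      ((lis x / d : ℝ) : ℂ) := by
    rw [sum_filter]
    unfold lis
    rw [Complex.ofReal_div, Complex.ofReal_sum, Finset.sum_div, ← sum_sub_distrib]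
    refine sum_congr rfl fun n _ => ?_
    rw [sub_mul]
    congr 1
    · split_ifs <;> simp
    · push_cast
      ring
  rw [e2] at h
  refine h.trans ?_
  have := w_two
  linarith

/-- full and partial periods -/
theorem period_bound (q d r K : ℕ) (hq : 1 ≤ q) (hd : ¬ q ∣ d) :
    ‖∑ k ∈ range K, cq q (r + d * k)‖ ≤ q * (Nat.totient q : ℝ) := by
  have hfull : ∀ t : ℕ, ∑ k ∈ range (t * q), cq q (r + d * k) = 0 := by
    intro t
    induction t with
    | zero => simp
    | succ t ih =>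
      rw [Nat.succ_mul, sum_range_add, ih, zero_add]
      have := cq_period q d (r + d * (t * q)) hq hd
      rw [← this]
      refine sum_congr rfl fun k _ => ?_
      congr 1
      ring
  have hK : K = (K / q) * q + K % q := by
    rw [mul_comm]; exact (Nat.div_add_mod K q).symm
  rw [hK, sum_range_add, hfull, zero_add]
  calc _ ≤ ∑ k ∈ range (K % q), ‖cq q (r + d * ((K / q) * q + k))‖ := norm_sum_le _ _
    _ ≤ ∑ k ∈ range (K % q), (Nat.totient q : ℝ) := sum_le_sum fun k _ => cq_norm q _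
    _ = ((K % q : ℕ) : ℝ) * (Nat.totient q : ℝ) := by rw [sum_const, card_range, nsmul_eq_mul]
    _ ≤ _ := by
        have : K % q ≤ q := (Nat.mod_lt K (by omega)).le
        gcongr

theorem filter_image (y d a : ℕ) (hd : 1 ≤ d) : ∃ K : ℕ,
    (range (y + 1)).filter (fun n => n ≡ a [MOD d]) = (range K).image (fun k => a % d + d * k) := by
  have hr : a % d < d := Nat.mod_lt a (by omega)
  refine ⟨if a % d ≤ y then (y - a % d) / d + 1 else 0, ?_⟩
  ext n
  simp only [mem_filter, mem_range, mem_image]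
  constructor
  · rintro ⟨hn, hmod⟩
    have h1 : n % d = a % d := hmod
    have h2 : n = a % d + d * (n / d) := by
      rw [← h1, add_comm]; exact (Nat.div_add_mod n d).symm
    have h3 : a % d ≤ y := by
      have : a % d ≤ n := by rw [← h1]; exact Nat.mod_le n d
      omega
    rw [if_pos h3]
    refine ⟨n / d, ?_, h2.symm⟩
    have h4 : n / d ≤ (y - a % d) / d := by
      rw [Nat.le_div_iff_mul_le (by omega)]
      have : n / d * d = d * (n / d) := mul_comm _ _
      omega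
    omega
  · rintro ⟨k, hk, rfl⟩
    split_ifs at hk with h3
    · have h4 : k ≤ (y - a % d) / d := by omega
      rw [Nat.le_div_iff_mul_le (by omega)] at h4
      have : k * d = d * k := mul_comm _ _
      refine ⟨by omega, ?_⟩
      unfold Nat.ModEq
      rw [Nat.add_mul_mod_self_left, Nat.mod_mod]
    · omega

theorem partial_bound (y q d a : ℕ) (hq : 1 ≤ q) (hd1 : 1 ≤ d) (hd : ¬ q ∣ d) :
    ‖∑ n ∈ (Icc 2 y).filter (fun n => n ≡ a [MOD d]), cq q n‖ ≤ 3 * q * (Nat.totient q : ℝ) := by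
  obtain ⟨K, hK⟩ := filter_image y d a hd1
  have h1 : ‖∑ n ∈ (range (y + 1)).filter (fun n => n ≡ a [MOD d]), cq q n‖ ≤
      q * (Nat.totient q : ℝ) := by
    rw [hK, sum_image]
    · exact period_bound q d (a % d) K hq hd
    · intro k _ l _ hkl
      simp only at hkl
      have : d * k = d * l := by omega
      exact Nat.eq_of_mul_eq_mul_left (by omega) this
  have hsub : (Icc 2 y).filter (fun n => n ≡ a [MOD d]) ⊆
      (range (y + 1)).filter (fun n => n ≡ a [MOD d]) := by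
    apply filter_subset_filter
    intro n hn
    rw [mem_Icc] at hn
    rw [mem_range]; omega
  have h2 := sum_sdiff (f := fun n => cq q n) hsub
  have h3 : ‖∑ n ∈ (range (y + 1)).filter (fun n => n ≡ a [MOD d]) \
      (Icc 2 y).filter (fun n => n ≡ a [MOD d]), cq q n‖ ≤ 2 * (Nat.totient q : ℝ) := by
    refine (norm_sum_le _ _).trans ?_
    refine (sum_le_sum fun k _ => cq_norm q k).trans ?_
    rw [sum_const, nsmul_eq_mul]
    have h4 : ((range (y + 1)).filter (fun n => n ≡ a [MOD d]) \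
      (Icc 2 y).filter (fun n => n ≡ a [MOD d])).card ≤ 2 := by
      calc _ ≤ (range 2).card := by
            apply card_le_card
            intro n hn
            simp only [mem_sdiff, mem_filter, mem_range, mem_Icc, not_and] at hn
            rw [mem_range]
            by_contra hc
            exact hn.2 ⟨by omega, by omega⟩ hn.1.2
        _ = 2 := card_range 2
    have h5 : (((range (y + 1)).filter (fun n => n ≡ a [MOD d]) \
      (Icc 2 y).filter (fun n => n ≡ a [MOD d])).card : ℝ) ≤ 2 := by exact_mod_cast h4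
    gcongr
  have h6 : ∑ n ∈ (Icc 2 y).filter (fun n => n ≡ a [MOD d]), cq q n =
      ∑ n ∈ (range (y + 1)).filter (fun n => n ≡ a [MOD d]), cq q n -
      ∑ n ∈ (range (y + 1)).filter (fun n => n ≡ a [MOD d]) \
      (Icc 2 y).filter (fun n => n ≡ a [MOD d]), cq q n := by
    rw [← h2]; ring
  rw [h6]
  have hq1 : (1 : ℝ) ≤ q := by exact_mod_cast hq
  have ht : (0 : ℝ) ≤ (Nat.totient q : ℝ) := by positivity
  calc _ ≤ _ := norm_sub_le _ _
    _ ≤ q * (Nat.totient q : ℝ) + 2 * (Nat.totient q : ℝ) := add_le_add h1 h3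
    _ ≤ _ := by nlinarith

theorem S_bound (x q d a : ℕ) (hx : 2 ≤ x) (hq : 1 ≤ q) (hd1 : 1 ≤ d) (hd : ¬ q ∣ d) :
    ‖∑ n ∈ (Icc 2 x).filter (fun n => n ≡ a [MOD d]), cq q n * ((1 / Real.log n : ℝ) : ℂ)‖ ≤
      6 * q * (Nat.totient q : ℝ) := by
  have h := abel_bound (fun n => if n ≡ a [MOD d] then cq q n else 0)
    (fun n => 1 / Real.log (n : ℝ)) (3 * q * (Nat.totient q : ℝ)) x hx (fun n hn => w_anti n hn)
    (fun n _ => w_nonneg n) (by
      intro y _
      rw [← sum_filter]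
      exact partial_bound y q d a hq hd1 hd)
  have e2 : ∑ n ∈ Icc 2 x, (if n ≡ a [MOD d] then cq q n else 0) * ((1 / Real.log (n : ℝ) : ℝ) : ℂ) =
      ∑ n ∈ (Icc 2 x).filter (fun n => n ≡ a [MOD d]), cq q n * ((1 / Real.log n : ℝ) : ℂ) := by
    rw [sum_filter]
    refine sum_congr rfl fun n _ => ?_
    split_ifs <;> simp
  rw [e2] at h
  refine h.trans ?_
  have h2 := w_two
  have h3 : (0 : ℝ) ≤ 3 * q * (Nat.totient q : ℝ) := by positivity
  calc _ ≤ 3 * q * (Nat.totient q : ℝ) * 2 := mul_le_mul_of_nonneg_left h2 h3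
    _ = _ := by ring

/-! ### totients -/

theorem prod_lower (S : Finset ℕ) (hS : ∀ p ∈ S, 2 ≤ p) :
    1 / ((S.card : ℝ) + 1) ≤ ∏ p ∈ S, (1 - (p : ℝ)⁻¹) := by
  induction S using Finset.induction_on_max with
  | empty => simp
  | insert a S ha ih =>
    have hnot : a ∉ S := fun h => lt_irrefl _ (ha a h)
    have hcard : S.card + 2 ≤ a := by
      have hsub : S ⊆ Ico 2 a := by
        intro p hp
        rw [mem_Ico]
        exact ⟨hS p (mem_insert_of_mem hp), ha p hp⟩
      have := card_le_card hsub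
      rw [Nat.card_Ico] at this
      have := hS a (mem_insert_self a S)
      omega
    rw [prod_insert hnot, card_insert_of_notMem hnot]
    have h1 := ih (fun p hp => hS p (mem_insert_of_mem hp))
    have hc : ((S.card : ℝ) + 2) ≤ a := by exact_mod_cast hcard
    have hc0 : (0 : ℝ) ≤ S.card := by positivity
    have ha0 : (0 : ℝ) < a := by linarith
    have h2 : 1 - 1 / ((S.card : ℝ) + 2) ≤ 1 - (a : ℝ)⁻¹ := by
      have : (a : ℝ)⁻¹ ≤ 1 / ((S.card : ℝ) + 2) := by
        rw [one_div]; gcongr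
      linarith
    have h3 : 0 ≤ 1 - 1 / ((S.card : ℝ) + 2) := by
      rw [sub_nonneg, div_le_one (by linarith)]; linarith
    calc 1 / (((S.card + 1 : ℕ) : ℝ) + 1) = (1 - 1 / ((S.card : ℝ) + 2)) * (1 / ((S.card : ℝ) + 1)) := by
          push_cast
          field_simp
          ring
      _ ≤ (1 - (a : ℝ)⁻¹) * ∏ p ∈ S, (1 - (p : ℝ)⁻¹) :=
          mul_le_mul h2 h1 (by positivity) (h3.trans h2)

theorem tot_lower (k : ℕ) (hk : 1 ≤ k) : (k : ℝ) ≤ 2 * (1 + Real.log k) * (Nat.totient k : ℝ) := by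
  have h1 : (Nat.totient k : ℝ) = k * ∏ p ∈ k.primeFactors, (1 - (p : ℝ)⁻¹) := by
    have := Nat.totient_eq_mul_prod_factors k
    have h2 : (((Nat.totient k : ℕ) : ℚ) : ℝ) =
      (((k : ℚ) * ∏ p ∈ k.primeFactors, (1 - (p : ℚ)⁻¹) : ℚ) : ℝ) := by rw [this]
    push_cast at h2
    exact h2
  have h2 := prod_lower k.primeFactors (fun p hp => (Nat.prime_of_mem_primeFactors hp).two_le)
  have h3 : 2 ^ k.primeFactors.card ≤ k := by
    calc 2 ^ k.primeFactors.card ≤ ∏ p ∈ k.primeFactors, p :=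
          pow_card_le_prod _ _ _ (fun p hp => (Nat.prime_of_mem_primeFactors hp).two_le)
      _ ≤ k := Nat.le_of_dvd (by omega) (Nat.prod_primeFactors_dvd k)
  have hk0 : (0 : ℝ) < k := by exact_mod_cast hk
  have h4 : (k.primeFactors.card : ℝ) * Real.log 2 ≤ Real.log k := by
    have h5 : ((2 : ℝ) ^ k.primeFactors.card) ≤ k := by exact_mod_cast h3
    have h6 := Real.log_le_log (by positivity) h5
    rwa [Real.log_pow] at h6
  have h7 := Real.log_two_gt_d9
  have hlog : 0 ≤ Real.log k := Real.log_natCast_nonneg k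
  have hcard0 : (0 : ℝ) ≤ k.primeFactors.card := by positivity
  have h8 : (k.primeFactors.card : ℝ) + 1 ≤ 2 * (1 + Real.log k) := by nlinarith
  rw [h1]
  have h9 : 1 ≤ 2 * (1 + Real.log k) * ∏ p ∈ k.primeFactors, (1 - (p : ℝ)⁻¹) := by
    calc (1 : ℝ) = ((k.primeFactors.card : ℝ) + 1) * (1 / ((k.primeFactors.card : ℝ) + 1)) := by
          field_simp
      _ ≤ 2 * (1 + Real.log k) * ∏ p ∈ k.primeFactors, (1 - (p : ℝ)⁻¹) :=
          mul_le_mul h8 h2 (by positivity) (by positivity)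
  nlinarith

theorem inv_tot (k : ℕ) (hk : 1 ≤ k) : 1 / (Nat.totient k : ℝ) ≤ 2 * (1 + Real.log k) / k := by
  have h1 : (0 : ℝ) < Nat.totient k := by exact_mod_cast Nat.totient_pos.2 hk
  have h2 : (0 : ℝ) < k := by exact_mod_cast hk
  rw [div_le_div_iff₀ h1 h2, one_mul]
  exact tot_lower k hk

theorem tail_sum (Q N : ℕ) (hQ : 1 ≤ Q) :
    ∑ q ∈ Ioc Q N, (1 + Real.log q) / (q : ℝ) ^ 2 ≤ (3 + Real.log Q) / Q := by
  rcases le_or_gt N Q with h | h
  · rw [Ioc_eq_empty (by omega), sum_empty]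
    have := Real.log_natCast_nonneg Q
    positivity
  · have key : ∀ N, Q ≤ N → ∑ q ∈ Ioc Q N, (1 + Real.log q) / (q : ℝ) ^ 2 ≤
        (3 + Real.log Q) / Q - (3 + Real.log N) / N := by
      intro N hN
      induction N, hN using Nat.le_induction with
      | base => simp
      | succ n hn ih =>
        rw [sum_Ioc_succ_top (by omega)]
        have hn0 : (1 : ℝ) ≤ n := by exact_mod_cast (hQ.trans hn)
        have hn0' : (0 : ℝ) < n := by linarith
        have hl : Real.log ((n : ℝ) + 1) - Real.log n ≤ 1 / n := by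
          rw [← Real.log_div (by positivity) (by positivity)]
          have := Real.log_le_sub_one_of_pos (x := ((n : ℝ) + 1) / n) (by positivity)
          refine this.trans (le_of_eq ?_)
          field_simp
          ring
        have hl0 : 0 ≤ Real.log ((n : ℝ) + 1) := Real.log_nonneg (by linarith)
        have h3 : (1 + Real.log ((n : ℝ) + 1)) / ((n : ℝ) + 1) ^ 2 ≤
            (3 + Real.log n) / n - (3 + Real.log ((n : ℝ) + 1)) / ((n : ℝ) + 1) := by
          have h4 : (3 + Real.log ((n : ℝ) + 1) - 1 / n) / n - (3 + Real.log ((n : ℝ) + 1)) / ((n : ℝ) + 1) ≤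
              (3 + Real.log n) / n - (3 + Real.log ((n : ℝ) + 1)) / ((n : ℝ) + 1) := by
            gcongr
            linarith
          refine le_trans ?_ h4
          rw [div_sub_div _ _ (by positivity) (by positivity), div_le_div_iff₀ (by positivity) (by positivity)]
          set l := Real.log ((n : ℝ) + 1) with hl'
          have e1 : (3 + l - 1 / (n : ℝ)) * ((n : ℝ) + 1) - n * (3 + l) = 3 + l - 1 - 1 / n := by
            field_simp
            ring
          rw [e1]
          have h5 : 1 / (n : ℝ) ≤ 1 := by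
            rw [div_le_one hn0']; exact hn0
          have h6 : (3 + l - 1 - 1 / (n : ℝ)) * ((n : ℝ) + 1) ^ 2 =
            (l + 2) * ((n : ℝ) + 1) ^ 2 - ((n : ℝ) + 1) ^ 2 / n := by
            field_simp
            ring
          rw [h6]
          have h7 : ((n : ℝ) + 1) ^ 2 / n = n + 2 + 1 / n := by field_simp; ring
          rw [h7]
          nlinarith [mul_nonneg hl0 hn0'.le]
        push_cast
        linarith
    have h1 := key N h.le
    have h2 : 0 ≤ (3 + Real.log N) / N := by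
      have := Real.log_natCast_nonneg N
      positivity
    linarith

/-- the estimate for a single modulus -/
theorem fixed (x Q d a : ℕ) (hx : 2 ≤ x) (hQ : 1 ≤ Q) (hd : 1 ≤ d) (ha : a.Coprime d) :
    ‖(∑ n ∈ (Icc 2 x).filter (fun n => n ≡ a [MOD d]), gg Q n / (Real.log n : ℂ)) -
        ((lis x / (Nat.totient d : ℝ) : ℝ) : ℂ)‖ ≤
      8 * (Q : ℝ) ^ 2 + lis x / d * ∑ q ∈ (d.divisors.filter Squarefree).filter (fun q => Q < q),
        (1 : ℝ) / (Nat.totient q : ℝ) := by
  classical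
  have hlis : 0 ≤ lis x := sum_nonneg fun n _ => w_nonneg n
  have hd0 : (0 : ℝ) < d := by exact_mod_cast hd
  set F := (Icc 2 x).filter (fun n => n ≡ a [MOD d]) with hF
  set P : ℂ := ∑ n ∈ F, ((1 / Real.log n : ℝ) : ℂ) with hP
  set S : ℕ → ℂ := fun q => ∑ n ∈ F, cq q n * ((1 / Real.log n : ℝ) : ℂ) with hS
  -- exchange
  have e1 : ∑ n ∈ F, gg Q n / (Real.log n : ℂ) =
      ∑ q ∈ Icc 1 Q, (((ArithmeticFunction.moebius q : ℤ) : ℂ) / (Nat.totient q : ℂ)) * S q := by
    simp only [gg, hS, Finset.sum_div, mul_sum]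
    rw [sum_comm]
    refine sum_congr rfl fun q _ => sum_congr rfl fun n _ => ?_
    push_cast
    ring
  have hcop : ∀ q, q ∣ d → S q = ((ArithmeticFunction.moebius q : ℤ) : ℂ) * P := by
    intro q hq
    simp only [hS, hP, mul_sum]
    refine sum_congr rfl fun n hn => ?_
    rw [hF, mem_filter] at hn
    have h1 : n.Coprime d := by
      have := hn.2.gcd_eq
      unfold Nat.Coprime at ha ⊢
      rw [this]
      exact ha
    rw [cq_coprime q n (Nat.pos_of_dvd_of_pos hq (by omega)) (h1.coprime_dvd_right hq)]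
  set A : ℝ := ∑ q ∈ (d.divisors.filter Squarefree).filter (fun q => q ≤ Q),
    (1 : ℝ) / (Nat.totient q : ℝ) with hA
  set T : ℝ := ∑ q ∈ (d.divisors.filter Squarefree).filter (fun q => Q < q),
    (1 : ℝ) / (Nat.totient q : ℝ) with hT
  set R : ℂ := ∑ q ∈ (Icc 1 Q).filter (fun q => ¬ q ∣ d),
    (((ArithmeticFunction.moebius q : ℤ) : ℂ) / (Nat.totient q : ℂ)) * S q with hR
  have hA0 : 0 ≤ A := sum_nonneg fun q _ => by positivity
  have hT0 : 0 ≤ T := sum_nonneg fun q _ => by positivity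
  have e2 : ∑ q ∈ (Icc 1 Q).filter (fun q => q ∣ d),
      (((ArithmeticFunction.moebius q : ℤ) : ℂ) / (Nat.totient q : ℂ)) * S q = (A : ℂ) * P := by
    have h1 : ∀ q ∈ (Icc 1 Q).filter (fun q => q ∣ d),
        (((ArithmeticFunction.moebius q : ℤ) : ℂ) / (Nat.totient q : ℂ)) * S q =
        if Squarefree q then (((1 : ℝ) / (Nat.totient q : ℝ) : ℝ) : ℂ) * P else 0 := by
      intro q hq
      rw [mem_filter] at hq
      rw [hcop q hq.2]
      split_ifs with hsq
      · have h2 : ((ArithmeticFunction.moebius q : ℤ) : ℂ) * ((ArithmeticFunction.moebius q : ℤ) : ℂ) = 1 := by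
          have h3 := ArithmeticFunction.moebius_sq_eq_one_of_squarefree hsq
          rw [sq] at h3
          exact_mod_cast h3
        calc _ = (((ArithmeticFunction.moebius q : ℤ) : ℂ) * ((ArithmeticFunction.moebius q : ℤ) : ℂ)) /
              (Nat.totient q : ℂ) * P := by ring
          _ = _ := by rw [h2]; push_cast; ring
      · rw [ArithmeticFunction.moebius_eq_zero_of_not_squarefree hsq]
        simp
    rw [sum_congr rfl h1, ← sum_filter, ← sum_mul, hA, Complex.ofReal_sum]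
    congr 1
    refine sum_congr ?_ fun _ _ => rfl
    ext q
    simp only [mem_filter, mem_Icc, Nat.mem_divisors]
    constructor
    · rintro ⟨⟨⟨h1, h2⟩, h3⟩, h4⟩
      exact ⟨⟨⟨h3, by omega⟩, h4⟩, h2⟩
    · rintro ⟨⟨⟨h3, _⟩, h4⟩, h2⟩
      exact ⟨⟨⟨Nat.pos_of_dvd_of_pos h3 (by omega), h2⟩, h3⟩, h4⟩
  have e3 : ∑ n ∈ F, gg Q n / (Real.log n : ℂ) = (A : ℂ) * P + R := by
    rw [e1, ← sum_filter_add_sum_filter_not (Icc 1 Q) (fun q => q ∣ d), e2]
  have e4 : lis x / (Nat.totient d : ℝ) = lis x / d * (A + T) := by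
    have h1 := H336V.TotLog.div_totient d hd
    have h2 : A + T = ∑ q ∈ d.divisors.filter Squarefree, (1 : ℝ) / Nat.totient q := by
      rw [hA, hT, ← sum_filter_add_sum_filter_not (d.divisors.filter Squarefree) (fun q => q ≤ Q)]
      congr 1
      refine sum_congr ?_ fun _ _ => rfl
      ext q; simp only [mem_filter, not_le]
    rw [h2, ← h1]
    have h3 : (0 : ℝ) < Nat.totient d := by exact_mod_cast Nat.totient_pos.2 hd
    field_simp
  have e5 : (∑ n ∈ F, gg Q n / (Real.log n : ℂ)) - ((lis x / (Nat.totient d : ℝ) : ℝ) : ℂ) =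
      (A : ℂ) * (P - ((lis x / d : ℝ) : ℂ)) + R - ((lis x / d * T : ℝ) : ℂ) := by
    rw [e3, e4]
    push_cast
    ring
  have hP2 : ‖P - ((lis x / d : ℝ) : ℂ)‖ ≤ 2 := prog x d a hx hd
  have hAQ : A ≤ Q := by
    calc A ≤ ∑ q ∈ Icc 1 Q, (1 : ℝ) := by
          refine le_trans (sum_le_sum (g := fun _ => (1 : ℝ)) fun q hq => ?_) ?_
          · rw [mem_filter, mem_filter, Nat.mem_divisors] at hq
            have : 0 < q := Nat.pos_of_dvd_of_pos hq.1.1.1 (by omega)
            have h3 : (1 : ℝ) ≤ Nat.totient q := by exact_mod_cast Nat.totient_pos.2 this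
            rw [div_le_one (by linarith)]
            exact h3
          · apply sum_le_sum_of_subset_of_nonneg
            · intro q hq
              rw [mem_filter, mem_filter, Nat.mem_divisors] at hq
              have : 0 < q := Nat.pos_of_dvd_of_pos hq.1.1.1 (by omega)
              rw [mem_Icc]; omega
            · intros; norm_num
      _ = Q := by simp
  have hRb : ‖R‖ ≤ 6 * (Q : ℝ) ^ 2 := by
    calc ‖R‖ ≤ ∑ q ∈ (Icc 1 Q).filter (fun q => ¬ q ∣ d),
          ‖(((ArithmeticFunction.moebius q : ℤ) : ℂ) / (Nat.totient q : ℂ)) * S q‖ := norm_sum_le _ _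
      _ ≤ ∑ q ∈ (Icc 1 Q).filter (fun q => ¬ q ∣ d), 6 * (Q : ℝ) := by
          refine sum_le_sum fun q hq => ?_
          rw [mem_filter, mem_Icc] at hq
          have hS1 : ‖S q‖ ≤ 6 * q * (Nat.totient q : ℝ) := S_bound x q d a hx hq.1.1 hd hq.2
          have h3 : (0 : ℝ) < Nat.totient q := by exact_mod_cast Nat.totient_pos.2 hq.1.1
          have hmu : ‖((ArithmeticFunction.moebius q : ℤ) : ℂ)‖ ≤ 1 := by
            rw [Complex.norm_intCast]
            exact_mod_cast ArithmeticFunction.abs_moebius_le_one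
          rw [norm_mul, norm_div, Complex.norm_natCast]
          calc _ ≤ 1 / (Nat.totient q : ℝ) * (6 * q * (Nat.totient q : ℝ)) := by gcongr
            _ = 6 * q := by field_simp
            _ ≤ 6 * Q := by
                have : (q : ℝ) ≤ Q := by exact_mod_cast hq.1.2
                linarith
      _ ≤ ∑ q ∈ Icc 1 Q, 6 * (Q : ℝ) := by
          apply sum_le_sum_of_subset_of_nonneg (filter_subset _ _)
          intros; positivity
      _ = 6 * (Q : ℝ) ^ 2 := by
          rw [sum_const, Nat.card_Icc, nsmul_eq_mul, Nat.add_sub_cancel]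
          ring
  have hQ1 : (1 : ℝ) ≤ Q := by exact_mod_cast hQ
  rw [e5]
  calc _ ≤ ‖(A : ℂ) * (P - ((lis x / d : ℝ) : ℂ)) + R‖ + ‖((lis x / d * T : ℝ) : ℂ)‖ := norm_sub_le _ _
    _ ≤ (‖(A : ℂ) * (P - ((lis x / d : ℝ) : ℂ))‖ + ‖R‖) + ‖((lis x / d * T : ℝ) : ℂ)‖ := by
        gcongr; exact norm_add_le _ _
    _ ≤ (A * 2 + 6 * (Q : ℝ) ^ 2) + lis x / d * T := by
        rw [norm_mul, Complex.norm_real, Complex.norm_real, Real.norm_of_nonneg hA0,
          Real.norm_of_nonneg (by positivity)]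
        gcongr
    _ ≤ _ := by nlinarith

end Mdl

open Mdl

/-- T10 (Model.lean). The model has the right main term in progressions. -/
theorem model : ∃ C : ℝ, ∀ x Q D a : ℕ, 2 ≤ x → 1 ≤ Q → 1 ≤ D →
    ∑ d ∈ (Ioc D (2 * D)).filter (fun d => a.Coprime d),
      ‖(∑ n ∈ (Icc 2 x).filter (fun n => n ≡ a [MOD d]), gg Q n / (Real.log n : ℂ)) -
        ((lis x / (Nat.totient d : ℝ) : ℝ) : ℂ)‖ ≤
      C * (x * (1 + Real.log Q) ^ 2 / Q + x * (1 + Real.log D) ^ 2 / D + D * (Q : ℝ) ^ 5) := by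
  classical
  refine ⟨16, fun x Q D a hx hQ hD => ?_⟩
  have hD1 : (1 : ℝ) ≤ D := by exact_mod_cast hD
  have hD0 : (0 : ℝ) < D := by linarith
  have hQ1 : (1 : ℝ) ≤ Q := by exact_mod_cast hQ
  have hx2 : (2 : ℝ) ≤ x := by exact_mod_cast hx
  have hlis : 0 ≤ lis x := sum_nonneg fun n _ => w_nonneg n
  have hlis2 : lis x ≤ 2 * x := by
    unfold lis
    calc ∑ n ∈ Icc 2 x, 1 / Real.log (n : ℝ) ≤ ∑ n ∈ Icc 2 x, (2 : ℝ) := by
          refine sum_le_sum fun n hn => ?_
          rw [mem_Icc] at hn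
          refine le_trans ?_ w_two
          have h1 : (0 : ℝ) < Real.log ((2 : ℕ) : ℝ) := Real.log_pos (by norm_num)
          apply one_div_le_one_div_of_le h1
          apply Real.log_le_log (by norm_num)
          exact_mod_cast hn.1
      _ = ((x + 1 - 2 : ℕ) : ℝ) * 2 := by rw [sum_const, Nat.card_Icc, nsmul_eq_mul]
      _ ≤ x * 2 := by
          have : x + 1 - 2 ≤ x := by omega
          have : ((x + 1 - 2 : ℕ) : ℝ) ≤ x := by exact_mod_cast this
          linarith
      _ = 2 * x := by ring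
  have hlD : 0 ≤ Real.log D := Real.log_natCast_nonneg D
  have hlQ : 0 ≤ Real.log Q := Real.log_natCast_nonneg Q
  -- step 1: single moduli
  have s1 : ∑ d ∈ (Ioc D (2 * D)).filter (fun d => a.Coprime d),
      ‖(∑ n ∈ (Icc 2 x).filter (fun n => n ≡ a [MOD d]), gg Q n / (Real.log n : ℂ)) -
        ((lis x / (Nat.totient d : ℝ) : ℝ) : ℂ)‖ ≤
      ∑ d ∈ Ioc D (2 * D), (8 * (Q : ℝ) ^ 2 + 2 * x / D *
        ∑ q ∈ Ioc Q (2 * D), if q ∣ d then (1 : ℝ) / (Nat.totient q : ℝ) else 0) := by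
    refine le_trans (sum_le_sum fun d hd => ?_) (sum_le_sum_of_subset_of_nonneg (filter_subset _ _) ?_)
    · rw [mem_filter, mem_Ioc] at hd
      have hd1 : 1 ≤ d := by omega
      refine (fixed x Q d a hx hQ hd1 hd.2).trans ?_
      have h1 : lis x / d ≤ 2 * x / D := by
        have : (D : ℝ) ≤ d := by exact_mod_cast hd.1.1.le
        gcongr
      have h2 : ∑ q ∈ (d.divisors.filter Squarefree).filter (fun q => Q < q),
          (1 : ℝ) / (Nat.totient q : ℝ) ≤
          ∑ q ∈ Ioc Q (2 * D), if q ∣ d then (1 : ℝ) / (Nat.totient q : ℝ) else 0 := by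
        rw [← sum_filter]
        apply sum_le_sum_of_subset_of_nonneg
        · intro q hq
          rw [mem_filter, mem_filter, Nat.mem_divisors] at hq
          rw [mem_filter, mem_Ioc]
          exact ⟨⟨hq.2, (Nat.le_of_dvd (by omega) hq.1.1.1).trans hd.1.2⟩, hq.1.1.1⟩
        · intros; positivity
      have h3 : 0 ≤ ∑ q ∈ (d.divisors.filter Squarefree).filter (fun q => Q < q),
          (1 : ℝ) / (Nat.totient q : ℝ) := sum_nonneg fun q _ => by positivity
      gcongr
    · intro d _ _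
      have : 0 ≤ ∑ q ∈ Ioc Q (2 * D), if q ∣ d then (1 : ℝ) / (Nat.totient q : ℝ) else 0 :=
        sum_nonneg fun q _ => by split_ifs <;> positivity
      positivity
  -- step 2: the double sum
  have s2 : ∑ d ∈ Ioc D (2 * D), (∑ q ∈ Ioc Q (2 * D), if q ∣ d then (1 : ℝ) / (Nat.totient q : ℝ) else 0) ≤
      D * (2 * ((3 + Real.log Q) / Q)) + 8 * (1 + Real.log D) ^ 2 := by
    rw [sum_comm]
    have h1 : ∀ q ∈ Ioc Q (2 * D), (∑ d ∈ Ioc D (2 * D), if q ∣ d then (1 : ℝ) / (Nat.totient q : ℝ) else 0) ≤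
        D * (2 * ((1 + Real.log q) / (q : ℝ) ^ 2)) + 2 * (1 + Real.log (2 * D)) * (1 / q) := by
      intro q hq
      rw [mem_Ioc] at hq
      have hq1 : 1 ≤ q := by omega
      have hq0 : (0 : ℝ) < q := by exact_mod_cast hq1
      have hlq : 0 ≤ Real.log q := Real.log_natCast_nonneg q
      have hcard : (((Ioc D (2 * D)).filter (fun d => q ∣ d)).card : ℝ) ≤ D / q + 1 := by
        have h2 := Nat.Ioc_filter_modEq_card D (2 * D) (by omega : 0 < q) 0
        have h3 : (Ioc D (2 * D)).filter (fun d => q ∣ d) = (Ioc D (2 * D)).filter (fun d => d ≡ 0 [MOD q]) := by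
          refine filter_congr fun d _ => ?_
          rw [Nat.modEq_zero_iff_dvd]
        rw [h3]
        have f1 := Int.floor_le ((((2 * D : ℕ) : ℚ) - ((0 : ℕ) : ℚ)) / q)
        have f4 := Int.lt_floor_add_one (((D : ℚ) - ((0 : ℕ) : ℚ)) / q)
        set u := ⌊(((2 * D : ℕ) : ℚ) - ((0 : ℕ) : ℚ)) / q⌋
        set v := ⌊((D : ℚ) - ((0 : ℕ) : ℚ)) / q⌋
        have g1 : ((max (u - v) 0 : ℤ) : ℚ) ≤ (D : ℚ) / q + 1 := by
          rw [Int.cast_max]
          apply max_le
          · push_cast at *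
            have : (2 * (D : ℚ) - 0) / q - (D - 0) / q = D / q := by ring
            linarith
          · push_cast; positivity
        rw [← h2] at g1
        have := (Rat.cast_le (K := ℝ)).2 g1
        push_cast at this ⊢
        exact this
      have h4 := inv_tot q hq1
      have h5 : Real.log q ≤ Real.log (2 * D) := by
        apply Real.log_le_log hq0
        exact_mod_cast hq.2
      rw [← sum_filter, sum_const, nsmul_eq_mul]
      calc _ ≤ (D / q + 1) * (2 * (1 + Real.log q) / q) := by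
            have : 0 ≤ (1 : ℝ) / (Nat.totient q : ℝ) := by positivity
            gcongr
        _ = D * (2 * ((1 + Real.log q) / (q : ℝ) ^ 2)) + 2 * (1 + Real.log q) * (1 / q) := by
            field_simp
        _ ≤ _ := by gcongr
    refine (sum_le_sum h1).trans ?_
    rw [sum_add_distrib, ← mul_sum, ← mul_sum, ← mul_sum]
    have h2 := tail_sum Q (2 * D) hQ
    have h3 : ∑ q ∈ Ioc Q (2 * D), (1 : ℝ) / q ≤ 1 + Real.log (2 * D) := by
      calc ∑ q ∈ Ioc Q (2 * D), (1 : ℝ) / q ≤ ∑ q ∈ Icc 1 (2 * D), (1 : ℝ) / q := by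
            apply sum_le_sum_of_subset_of_nonneg
            · intro q hq; rw [mem_Ioc] at hq; rw [mem_Icc]; omega
            · intros; positivity
        _ = ((harmonic (2 * D) : ℚ) : ℝ) := by
            rw [harmonic_eq_sum_Icc]; push_cast
            refine sum_congr rfl fun i _ => by rw [one_div]
        _ ≤ _ := by
            have := harmonic_le_one_add_log (2 * D)
            push_cast at this
            exact this
    have h4 : Real.log (2 * D) ≤ 1 + Real.log D := by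
      rw [Real.log_mul (by norm_num) hD0.ne']
      have := Real.log_two_lt_d9
      linarith
    have h5 : 0 ≤ 1 + Real.log (2 * D) := by
      have : 0 ≤ Real.log (2 * (D : ℝ)) := Real.log_nonneg (by linarith)
      linarith
    calc _ ≤ D * (2 * ((3 + Real.log Q) / Q)) + 2 * (1 + Real.log (2 * D)) * (1 + Real.log (2 * D)) := by
          gcongr
      _ ≤ D * (2 * ((3 + Real.log Q) / Q)) + 2 * (2 * (1 + Real.log D)) * (2 * (1 + Real.log D)) := by
          have h6 : 1 + Real.log (2 * D) ≤ 2 * (1 + Real.log D) := by linarith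
          gcongr
      _ = _ := by ring
  have hcardD : ∑ d ∈ Ioc D (2 * D), (8 * (Q : ℝ) ^ 2) = D * (8 * (Q : ℝ) ^ 2) := by
    rw [sum_const, Nat.card_Ioc, nsmul_eq_mul]
    congr 2
    omega
  refine s1.trans ?_
  rw [sum_add_distrib, hcardD, ← mul_sum]
  have h6 : (3 + Real.log Q) / Q ≤ 3 * ((1 + Real.log Q) ^ 2 / Q) := by
    rw [← mul_div_assoc]
    gcongr
    nlinarith
  have h7 : (Q : ℝ) ^ 2 ≤ (Q : ℝ) ^ 5 := pow_le_pow_right₀ hQ1 (by norm_num)
  calc D * (8 * (Q : ℝ) ^ 2) + 2 * x / D * ∑ d ∈ Ioc D (2 * D),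
        (∑ q ∈ Ioc Q (2 * D), if q ∣ d then (1 : ℝ) / (Nat.totient q : ℝ) else 0)
      ≤ D * (8 * (Q : ℝ) ^ 5) + 2 * x / D * (D * (2 * (3 * ((1 + Real.log Q) ^ 2 / Q))) +
          8 * (1 + Real.log D) ^ 2) := by
        have h8 : D * (2 * ((3 + Real.log Q) / Q)) + 8 * (1 + Real.log D) ^ 2 ≤
          D * (2 * (3 * ((1 + Real.log Q) ^ 2 / Q))) + 8 * (1 + Real.log D) ^ 2 := by gcongr
        have h9 := s2.trans h8
        gcongr
    _ = 8 * (D * (Q : ℝ) ^ 5) + 12 * (x * (1 + Real.log Q) ^ 2 / Q) +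
          16 * (x * (1 + Real.log D) ^ 2 / D) := by
        field_simp
        ring
    _ ≤ _ := by
        have a1 : 0 ≤ D * (Q : ℝ) ^ 5 := by positivity
        have a2 : 0 ≤ x * (1 + Real.log Q) ^ 2 / Q := by positivity
        linarith

end Pool.Agent.H442R2.EHI
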