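import Pool.Agent.H43.G.R_seed8.H442R2.EHI.Core1

/-!
Second moment.
-/

namespace Pool.Agent.H442R2.EHI

open Finset Filter
open Pool.Agent.H469R2.NK (e norm_e e_add conj_e e_zero)

lemma evt_log_pow (k : ℕ) (s : ℝ) (hs : 0 < s) : ∀ᶠ x : ℕ in atTop,
    Real.log x ^ k ≤ (x : ℝ) ^ s := by
  have h := (isLittleO_log_rpow_rpow_atTop (k : ℝ) hs).bound (show (0:ℝ) < 1 by norm_num)
  have h2 := tendsto_natCast_atTop_atTop (R := ℝ) |>.eventually h
  filter_upwards [h2, eventually_ge_atTop 1] with x hx hx1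
  have hx1' : (1:ℝ) ≤ x := by exact_mod_cast hx1
  have hl : 0 ≤ Real.log x := Real.log_nonneg hx1'
  rw [Real.rpow_natCast, Real.norm_of_nonneg (by positivity), Real.norm_of_nonneg (by positivity),
    one_mul] at hx
  exact hx

lemma evt_log_ge (M : ℝ) : ∀ᶠ x : ℕ in atTop, M ≤ Real.log x :=
  (Real.tendsto_log_atTop.comp tendsto_natCast_atTop_atTop).eventually_ge_atTop M

open Classical in
lemma minor_sm (x Q D A K K1 a0 : ℕ) (hK : 1 ≤ K) (hQ : 1 ≤ Q) (hD : 4 ≤ D) (hDK : D * K ≤ x)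
    (hAx : A ≤ x) (hKA : 2 * K ≤ A) (hQK : Q ≤ K)
    (hΔ : (1 / (2 * (D : ℝ)) + (K : ℝ) / (2 * (A : ℝ))) * Q ≤ 1 / 8) (σ : ℤ)
    (hσ : σ = 1 ∨ σ = -1) :
    ∑ a ∈ Ioc a0 (a0 + A), ∑ d ∈ Ioc D (2 * D), ‖∑ k ∈ Ioc K1 K,
      ∑ h ∈ (range (16 * x + 1)).filter (fun h : ℕ =>
        ¬ Maj Q ((1 / (2 * (D : ℝ)) + (K : ℝ) / (2 * (A : ℝ))) * Q / K)
          ((h : ℝ) / ((16 * x + 1 : ℕ) : ℝ))), ch x Q (16 * x + 1) h *
        e (-(((a : ℝ) + σ * d * k) * h / ((16 * x + 1 : ℕ) : ℝ)))‖ ^ 2 ≤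
      10000 * A * (1 + Real.log K) * (K / Q) * ∑ n ∈ Icc 1 x, ‖ff x Q n‖ ^ 2 := by
  set Δ : ℝ := 1 / (2 * (D : ℝ)) + (K : ℝ) / (2 * (A : ℝ)) with hΔdef
  set N := 16 * x + 1 with hN
  have hKr : (0:ℝ) < K := by exact_mod_cast hK
  have hDr : (0:ℝ) < D := by exact_mod_cast (by omega : 0 < D)
  have hAr : (0:ℝ) < A := by exact_mod_cast (by omega : 0 < A)
  have hQr : (0:ℝ) < Q := by exact_mod_cast hQ
  have hΔ0 : 0 < Δ := by positivity
  set c : ℕ → ℂ := fun h => if Maj Q (Δ * Q / K) ((h : ℝ) / (N : ℝ)) then 0 else ch x Q N h with hc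
  have h1 := minor N K D A hK hD (by rw [hN]; nlinarith) (by omega) hKA a0 σ hσ (Ioc K1 K)
    (by intro k hk; rw [mem_Ioc] at hk; rw [mem_Icc]; omega) c (100 * K / Q) (by
      intro h _ hch
      rw [hc] at hch
      by_cases hm : Maj Q (Δ * Q / K) ((h : ℝ) / (N : ℝ))
      · simp [hm] at hch
      · apply dioph K Q hQ hQK Δ hΔ0 hΔ
        intro q hq b
        by_contra hle
        push Not at hle
        exact hm ⟨q, hq, b, hle⟩)
  have h2 : ∀ (a d k : ℕ), ∑ h ∈ range N, c h * e (-(((a : ℝ) + σ * d * k) * h / N)) =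
      ∑ h ∈ (range N).filter (fun h : ℕ => ¬ Maj Q (Δ * Q / K) ((h : ℝ) / (N : ℝ))),
        ch x Q N h * e (-(((a : ℝ) + σ * d * k) * h / N)) := by
    intro a d k
    rw [sum_filter]
    refine sum_congr rfl fun h _ => ?_
    rw [hc]
    by_cases hm : Maj Q (Δ * Q / K) ((h : ℝ) / (N : ℝ)) <;> simp [hm]
  simp only [h2] at h1
  refine h1.trans ?_
  have h3 : ∑ h ∈ range N, ‖c h‖ ^ 2 ≤ ∑ h ∈ range N, ‖ch x Q N h‖ ^ 2 := by
    refine sum_le_sum fun h _ => ?_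
    rw [hc]
    by_cases hm : Maj Q (Δ * Q / K) ((h : ℝ) / (N : ℝ))
    · simp only [hm, if_true]; simp
    · simp only [hm, if_false]; exact le_rfl
  have h4 := ch_parseval x Q N (by omega)
  have hlog : 0 ≤ Real.log K := Real.log_nonneg (by exact_mod_cast hK)
  have hNr : (0:ℝ) ≤ N := Nat.cast_nonneg _
  calc 100 * (A : ℝ) * N * (1 + Real.log K) * (100 * K / Q) * ∑ h ∈ range N, ‖c h‖ ^ 2
      ≤ 100 * (A : ℝ) * N * (1 + Real.log K) * (100 * K / Q) *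
        ∑ h ∈ range N, ‖ch x Q N h‖ ^ 2 := by gcongr
    _ = 10000 * A * (1 + Real.log K) * (K / Q) * (N * ∑ h ∈ range N, ‖ch x Q N h‖ ^ 2) := by ring
    _ = _ := by rw [h4]

lemma norm_add_sq_le (u v : ℂ) : ‖u + v‖ ^ 2 ≤ 2 * ‖u‖ ^ 2 + 2 * ‖v‖ ^ 2 := by
  have h := norm_add_le u v
  have h2 : ‖u + v‖ ^ 2 ≤ (‖u‖ + ‖v‖) ^ 2 := pow_le_pow_left₀ (norm_nonneg _) h 2
  nlinarith [sq_nonneg (‖u‖ - ‖v‖)]

lemma second_moment (ε : ℝ) (hε : 0 < ε) (E1 E2 U : ℕ) (hE1 : U + 4 ≤ E1) :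
    ∃ B x0 : ℕ, ∀ x : ℕ, x0 ≤ x → ∀ Q D A a0 K1 : ℕ, (Q : ℝ) ≤ Real.log x ^ E1 →
    Real.log x ^ E1 ≤ 2 * Q → (x : ℝ) ^ (1 / 2 : ℝ) ≤ D → (D : ℝ) ≤ (x : ℝ) ^ (1 - ε) →
    x * Real.log x ^ B ≤ (A : ℝ) * D → a0 + A ≤ x → K1 ≤ x / D →
    ((x / D : ℕ) : ℝ) ≤ K1 * Real.log x ^ E2 → ∀ σ : ℤ, σ = 1 ∨ σ = -1 →
    ∑ a ∈ Ioc a0 (a0 + A), ∑ d ∈ Ioc D (2 * D), ‖∑ k ∈ Ioc K1 (x / D),
      ffz x Q ((a : ℤ) + σ * d * k)‖ ^ 2 ≤ A * x * (x / D : ℕ) / Real.log x ^ U := by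
  classical
  obtain ⟨x1, hmaj⟩ := major_sm (ε / 2) (by linarith) E1 E2 (6 * E1 + U + 1)
  obtain ⟨C, hC⟩ := ff_sq
  set B := E1 + 1 with hB
  have hev : ∀ᶠ x : ℕ in atTop, x1 ≤ x ∧ 3 ≤ x ∧ 160000 ≤ Real.log x ∧
      Real.log x ^ B ≤ (x : ℝ) ^ (1 / 2 : ℝ) ∧ Real.log x ^ (E1 + 1) ≤ (x : ℝ) ^ (ε / 2) ∧
      (16:ℝ) ≤ (x : ℝ) ^ (1 / 2 : ℝ) ∧ 2 * |C| ≤ Real.log x ∧
      (1 + E1 * Real.log (Real.log x)) ^ 2 ≤ Real.log x / 1 ∧
      Real.log x ^ (8 * E1) ≤ (x : ℝ) ^ (1 : ℝ) := by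
    have hlogs : ∀ᶠ x : ℕ in atTop, (1 + E1 * Real.log (Real.log x)) ^ 2 ≤ Real.log x / 1 := by
      have h := (isLittleO_log_rpow_atTop (show (0:ℝ) < 1 / 4 by norm_num)).bound
        (show (0:ℝ) < 1 / (2 * (E1 + 1)) by positivity)
      have h2 := (Real.tendsto_log_atTop.comp (tendsto_natCast_atTop_atTop (R := ℝ))).eventually h
      filter_upwards [h2, evt_log_ge 16] with x hx hx2
      simp only [Function.comp] at hx
      have hl : 0 ≤ Real.log (Real.log x) := Real.log_nonneg (by linarith)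
      have hL0 : 0 < Real.log x := by linarith
      rw [Real.norm_of_nonneg hl, Real.norm_of_nonneg (by positivity)] at hx
      set y := Real.log x ^ (1 / 4 : ℝ) with hy
      have hy0 : 0 ≤ y := by positivity
      have hy4 : y ^ 4 = Real.log x := by
        rw [hy, ← Real.rpow_natCast, ← Real.rpow_mul hL0.le]; norm_num
      have hy2 : 2 ≤ y := by
        by_contra hlt
        push Not at hlt
        have : y ^ 4 < 2 ^ 4 := pow_lt_pow_left₀ hlt hy0 (by norm_num)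
        rw [hy4] at this; linarith
      have h5 : E1 * Real.log (Real.log x) ≤ y / 2 := by
        calc E1 * Real.log (Real.log x) ≤ E1 * (1 / (2 * (E1 + 1)) * y) := by gcongr
          _ ≤ y / 2 := by
            have : (E1:ℝ) / (E1 + 1) ≤ 1 := by
              rw [div_le_one (by positivity)]; linarith
            calc E1 * (1 / (2 * ((E1:ℝ) + 1)) * y) = (E1 / (E1 + 1)) * (y / 2) := by
                  field_simp
              _ ≤ 1 * (y / 2) := by gcongr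
              _ = _ := one_mul _
      have h6 : 1 + E1 * Real.log (Real.log x) ≤ y := by linarith
      have h7 : 0 ≤ 1 + E1 * Real.log (Real.log x) := by positivity
      calc (1 + E1 * Real.log (Real.log x)) ^ 2 ≤ y ^ 2 := by gcongr
        _ ≤ y ^ 4 := by nlinarith [sq_nonneg y, mul_nonneg hy0 hy0]
        _ = Real.log x / 1 := by rw [hy4, div_one]
    filter_upwards [eventually_ge_atTop x1, eventually_ge_atTop 3, evt_log_ge 160000,
      evt_log_pow B (1 / 2) (by norm_num), evt_log_pow (E1 + 1) (ε / 2) (by linarith),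
      eventually_ge_atTop 256, evt_log_ge (2 * |C|), hlogs,
      evt_log_pow (8 * E1) 1 (by norm_num)] with x h1 h2 h3 h4 h5 h6 h7 h8 h9
    refine ⟨h1, h2, h3, h4, h5, ?_, h7, h8, h9⟩
    have : (256:ℝ) ≤ x := by exact_mod_cast h6
    calc (16:ℝ) = (256:ℝ) ^ (1 / 2 : ℝ) := by
          rw [show (256:ℝ) = 16 ^ (2:ℝ) by norm_num, ← Real.rpow_mul (by norm_num)]; norm_num
      _ ≤ _ := by gcongr
  obtain ⟨x0, hx0⟩ := eventually_atTop.mp hev
  refine ⟨B, x0, fun x hx Q D A a0 K1 hQL hQL2 hD hDε hAD haA hK1 hKK1 σ hσ => ?_⟩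
  obtain ⟨hx1, hx3, hL, hLB, hLε, h16, hCL, hloglog, hL8⟩ := hx0 x hx
  set L := Real.log x with hLdef
  have hL0 : 0 < L := by linarith
  have hxr : (3:ℝ) ≤ x := by exact_mod_cast hx3
  have hx0' : (0:ℝ) < x := by linarith
  have hQ1 : 1 ≤ Q := by
    have : (0:ℝ) < Q := by
      have : 0 < L ^ E1 := by positivity
      linarith
    exact_mod_cast this
  have hQr : (1:ℝ) ≤ Q := by exact_mod_cast hQ1
  have hDr : (16:ℝ) ≤ D := h16.trans hD
  have hD16 : 16 ≤ D := by exact_mod_cast hDr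
  set K := x / D with hKdef
  have hDK : D * K ≤ x := Nat.mul_div_le x D
  have hDK' : (D:ℝ) * K ≤ x := by exact_mod_cast hDK
  have hKreal : (x:ℝ) / D < K + 1 := by
    rw [div_lt_iff₀ (by linarith)]
    have := Nat.lt_mul_div_succ x (show 0 < D by omega)
    have h2 : (x:ℝ) < D * (K + 1) := by exact_mod_cast this
    linarith
  have hxε : (x:ℝ) ^ ε ≤ x / D := by
    rw [le_div_iff₀ (by linarith)]
    calc (x:ℝ) ^ ε * D ≤ (x:ℝ) ^ ε * (x:ℝ) ^ (1 - ε) := by gcongr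
      _ = x := by rw [← Real.rpow_add hx0']; simp
  have hLe1 : L ^ E1 ≤ (x:ℝ) ^ (ε / 2) := by
    refine le_trans ?_ hLε
    exact pow_le_pow_right₀ (by linarith) (by omega)
  have hbig : (160000:ℝ) ≤ (x:ℝ) ^ (ε / 2) := by
    refine le_trans ?_ hLε
    calc (160000:ℝ) ≤ L := hL
      _ = L ^ 1 := (pow_one L).symm
      _ ≤ L ^ (E1 + 1) := pow_le_pow_right₀ (by linarith) (by omega)
  have hKε : (x:ℝ) ^ (ε / 2) ≤ K := by
    have h1 : (x:ℝ) ^ ε = (x:ℝ) ^ (ε / 2) * (x:ℝ) ^ (ε / 2) := by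
      rw [← Real.rpow_add hx0']; congr 1; ring
    nlinarith
  have hK1' : 1 ≤ K := by
    have : (1:ℝ) ≤ K := by linarith
    exact_mod_cast this
  have hKr : (1:ℝ) ≤ K := by exact_mod_cast hK1'
  have hDK2 : x ≤ 2 * D * K := by
    have := Nat.lt_mul_div_succ x (show 0 < D by omega)
    have h3 : D * (x / D + 1) ≤ 2 * D * K := by
      rw [← hKdef]; nlinarith
    omega
  have hA0 : (0:ℝ) < A := by
    have : 0 < (A:ℝ) * D := lt_of_lt_of_le (by positivity) hAD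
    by_contra hneg
    push Not at hneg
    nlinarith
  have hAx : A ≤ x := by omega
  have hKA : (K:ℝ) * L ^ B ≤ A := by
    have h1 : (D:ℝ) * (K * L ^ B) ≤ D * A := by
      calc (D:ℝ) * (K * L ^ B) = (D * K) * L ^ B := by ring
        _ ≤ x * L ^ B := by gcongr
        _ ≤ A * D := hAD
        _ = D * A := by ring
    exact le_of_mul_le_mul_left h1 (by linarith)
  have hLB2 : (2:ℝ) ≤ L ^ B := by
    calc (2:ℝ) ≤ L := by linarith
      _ = L ^ 1 := (pow_one L).symm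
      _ ≤ L ^ B := pow_le_pow_right₀ (by linarith) (by omega)
  have h2KA : 2 * K ≤ A := by
    have : (2:ℝ) * K ≤ A := by nlinarith
    exact_mod_cast this
  have hQK : Q ≤ K := by
    have : (Q:ℝ) ≤ K := hQL.trans (hLe1.trans hKε)
    exact_mod_cast this
  set Δ : ℝ := 1 / (2 * (D : ℝ)) + (K : ℝ) / (2 * (A : ℝ)) with hΔdef
  have hΔ0 : 0 ≤ Δ := by positivity
  have hLB0 : (0:ℝ) < L ^ B := by positivity
  have hΔle : Δ ≤ 1 / L ^ B := by
    have h1 : 1 / (2 * (D:ℝ)) ≤ 1 / (2 * L ^ B) := by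
      apply one_div_le_one_div_of_le (by positivity)
      have := hLB.trans hD
      linarith
    have h2 : (K : ℝ) / (2 * (A : ℝ)) ≤ 1 / (2 * L ^ B) := by
      rw [div_le_div_iff₀ (by positivity) (by positivity)]
      nlinarith
    calc Δ ≤ 1 / (2 * L ^ B) + 1 / (2 * L ^ B) := by rw [hΔdef]; linarith
      _ = 1 / L ^ B := by field_simp; norm_num
  have hΔQ : Δ * Q ≤ 1 / 8 := by
    calc Δ * Q ≤ 1 / L ^ B * L ^ E1 := by gcongr
      _ = 1 / L := by rw [hB, pow_succ]; field_simp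
      _ ≤ 1 / 8 := by
        apply one_div_le_one_div_of_le (by norm_num); linarith
  set δ : ℝ := Δ * Q / K with hδ
  have hδ0 : 0 ≤ δ := by positivity
  have hδK : δ * K ≤ 1 := by
    rw [hδ, div_mul_cancel₀ _ (by positivity)]
    linarith
  -- the sum of squares
  have hsq : ∑ n ∈ Icc 1 x, ‖ff x Q n‖ ^ 2 ≤ x * L ^ 2 := by
    refine (hC x Q (by omega) hQ1).trans ?_
    have h1 : Real.log Q ≤ E1 * Real.log L := by
      rw [← Real.log_pow]
      exact Real.log_le_log (by linarith) hQL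
    have h2 : (1 + Real.log Q) ^ 2 ≤ L := by
      have h0 : 0 ≤ Real.log Q := Real.log_nonneg hQr
      calc (1 + Real.log Q) ^ 2 ≤ (1 + E1 * Real.log L) ^ 2 := by gcongr
        _ ≤ L := by simpa using hloglog
    have h3 : (Q:ℝ) ^ 8 ≤ x := by
      calc (Q:ℝ) ^ 8 ≤ (L ^ E1) ^ 8 := by gcongr
        _ = L ^ (8 * E1) := by rw [← pow_mul]; congr 1; ring
        _ ≤ x := by simpa using hL8
    calc C * (x * (1 + Real.log Q) ^ 2 + (Q:ℝ) ^ 8)
        ≤ |C| * (x * L + x * L) := by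
          apply mul_le_mul (le_abs_self C) _ (by positivity) (abs_nonneg C)
          have : (x:ℝ) ≤ x * L := by nlinarith
          gcongr
          linarith
      _ = (2 * |C|) * (x * L) := by ring
      _ ≤ L * (x * L) := by gcongr
      _ = x * L ^ 2 := by ring
  -- decomposition
  set N := 16 * x + 1 with hN
  set S := Classical.choose (major_decomp x Q N (by omega) δ) with hS
  obtain ⟨hS1, -, -⟩ := Classical.choose_spec (major_decomp x Q N (by omega) δ)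
  rw [← hS] at hS1
  have hdec : ∀ a ∈ Ioc a0 (a0 + A), ∀ d ∈ Ioc D (2 * D), ∀ k ∈ Ioc K1 K,
      ffz x Q ((a : ℤ) + σ * d * k) =
      (∑ h ∈ (range N).filter (fun h : ℕ => ¬ Maj Q δ ((h : ℝ) / (N : ℝ))), ch x Q N h *
        e (-(((a : ℝ) + σ * d * k) * h / (N : ℝ)))) +
      ∑ p ∈ Pairs Q, ∑ h ∈ S p, ch x Q N h * e (-(((a : ℝ) + σ * ((d : ℝ) * k)) * h / (N : ℝ))) := by
    intro a ha d hd k hk
    rw [mem_Ioc] at ha hd hk
    have hdk : (d:ℤ) * k ≤ 2 * x := by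
      have : d * k ≤ 2 * x := by nlinarith
      exact_mod_cast this
    have hdk0 : (0:ℤ) ≤ (d:ℤ) * k := by positivity
    have hax : (a:ℤ) ≤ x := by exact_mod_cast (by omega : a ≤ x)
    rw [← ch_inv x Q N (by omega) ((a : ℤ) + σ * d * k) (by
      rcases hσ with rfl | rfl
      · have : ((a : ℤ) + 1 * d * k) = a + d * k := by ring
        rw [this]; omega
      · have : ((a : ℤ) + -1 * d * k) = a - d * k := by ring
        rw [this]; omega) (by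
      rcases hσ with rfl | rfl
      · have : ((a : ℤ) + 1 * d * k) = a + d * k := by ring
        rw [this]; omega
      · have : ((a : ℤ) + -1 * d * k) = a - d * k := by ring
        rw [this]; omega)]
    have h5 := hS1 ((a : ℤ) + σ * d * k)
    have h6 : (((a : ℤ) + σ * d * k : ℤ) : ℝ) = (a : ℝ) + σ * ((d : ℝ) * k) := by push_cast; ring
    have h7 : (a : ℝ) + σ * d * k = (a : ℝ) + σ * ((d : ℝ) * k) := by ring
    rw [h6] at h5 ⊢
    rw [h7, ← h5, ← sum_filter_add_sum_filter_not (range N) (fun h : ℕ => Maj Q δ ((h : ℝ) / (N : ℝ)))]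
    rw [add_comm]
  have hmin := minor_sm x Q D A K K1 a0 hK1' hQ1 (by omega) hDK hAx h2KA hQK hΔQ σ hσ
  have hmaj' : ∀ a ∈ Ioc a0 (a0 + A), ∑ d ∈ Ioc D (2 * D), ‖∑ k ∈ Ioc K1 K,
      ∑ p ∈ Pairs Q, ∑ h ∈ S p, ch x Q N h *
        e (-(((a : ℝ) + σ * ((d : ℝ) * k)) * h / (N : ℝ)))‖ ^ 2 ≤
      (Q : ℝ) ^ 6 * (x * K / L ^ (6 * E1 + U + 1)) := by
    intro a _
    exact hmaj x hx1 Q D K K1 δ hQ1 hQL (by omega) hDK hDK2 hKε hK1 hKK1 hδ0 hδK hsq (a:ℝ) σ hσ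
  have hlogK : Real.log K ≤ L := by
    apply Real.log_le_log (by linarith)
    have : K ≤ x := Nat.div_le_self x D
    exact_mod_cast this
  have hbound1 : 10000 * (A:ℝ) * (1 + Real.log K) * (K / Q) * ∑ n ∈ Icc 1 x, ‖ff x Q n‖ ^ 2 ≤
      A * x * K / (4 * L ^ U) := by
    have hLE : (0:ℝ) < L ^ E1 := by positivity
    have h1 : (K:ℝ) / Q ≤ 2 * K / L ^ E1 := by
      rw [div_le_div_iff₀ (by linarith) hLE]
      nlinarith
    have hpow : L ^ (U + 4) ≤ L ^ E1 := pow_le_pow_right₀ (by linarith) hE1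
    calc 10000 * (A:ℝ) * (1 + Real.log K) * (K / Q) * ∑ n ∈ Icc 1 x, ‖ff x Q n‖ ^ 2
        ≤ 10000 * (A:ℝ) * (L + L) * (2 * K / L ^ E1) * (x * L ^ 2) := by
          gcongr
          linarith
      _ = 40000 * (A * x * K) * L ^ 3 / L ^ E1 := by ring
      _ ≤ 40000 * (A * x * K) * L ^ 3 / L ^ (U + 4) := by gcongr
      _ = 40000 * (A * x * K) / (L ^ U * L) := by
          rw [pow_add, show L ^ 4 = L ^ 3 * L by ring]
          field_simp
      _ ≤ A * x * K / (4 * L ^ U) := by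
          rw [div_le_div_iff₀ (by positivity) (by positivity)]
          have : 0 ≤ (A:ℝ) * x * K * L ^ U := by positivity
          nlinarith
  have hbound2 : (A:ℝ) * ((Q : ℝ) ^ 6 * (x * K / L ^ (6 * E1 + U + 1))) ≤
      A * x * K / (4 * L ^ U) := by
    have hQ6 : (Q:ℝ) ^ 6 ≤ L ^ (6 * E1) := by
      calc (Q:ℝ) ^ 6 ≤ (L ^ E1) ^ 6 := by gcongr
        _ = L ^ (6 * E1) := by rw [← pow_mul]; congr 1; ring
    calc (A:ℝ) * ((Q : ℝ) ^ 6 * (x * K / L ^ (6 * E1 + U + 1)))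
        ≤ A * (L ^ (6 * E1) * (x * K / L ^ (6 * E1 + U + 1))) := by gcongr
      _ = A * x * K / (L ^ U * L) := by
          rw [show 6 * E1 + U + 1 = 6 * E1 + (U + 1) by ring, pow_add L (6 * E1), pow_succ]
          field_simp
      _ ≤ A * x * K / (4 * L ^ U) := by
          rw [div_le_div_iff₀ (by positivity) (by positivity)]
          have : 0 ≤ (A:ℝ) * x * K * L ^ U := by positivity
          nlinarith
  calc ∑ a ∈ Ioc a0 (a0 + A), ∑ d ∈ Ioc D (2 * D), ‖∑ k ∈ Ioc K1 K,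
        ffz x Q ((a : ℤ) + σ * d * k)‖ ^ 2
      ≤ ∑ a ∈ Ioc a0 (a0 + A), ∑ d ∈ Ioc D (2 * D), (2 * ‖∑ k ∈ Ioc K1 K,
        ∑ h ∈ (range N).filter (fun h : ℕ => ¬ Maj Q δ ((h : ℝ) / (N : ℝ))), ch x Q N h *
        e (-(((a : ℝ) + σ * d * k) * h / (N : ℝ)))‖ ^ 2 + 2 * ‖∑ k ∈ Ioc K1 K,
        ∑ p ∈ Pairs Q, ∑ h ∈ S p, ch x Q N h *
        e (-(((a : ℝ) + σ * ((d : ℝ) * k)) * h / (N : ℝ)))‖ ^ 2) := by
        refine sum_le_sum fun a ha => sum_le_sum fun d hd => ?_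
        rw [sum_congr rfl (hdec a ha d hd), sum_add_distrib]
        exact norm_add_sq_le _ _
    _ = 2 * ∑ a ∈ Ioc a0 (a0 + A), ∑ d ∈ Ioc D (2 * D), ‖∑ k ∈ Ioc K1 K,
        ∑ h ∈ (range N).filter (fun h : ℕ => ¬ Maj Q δ ((h : ℝ) / (N : ℝ))), ch x Q N h *
        e (-(((a : ℝ) + σ * d * k) * h / (N : ℝ)))‖ ^ 2 + 2 * ∑ a ∈ Ioc a0 (a0 + A),
        ∑ d ∈ Ioc D (2 * D), ‖∑ k ∈ Ioc K1 K,
        ∑ p ∈ Pairs Q, ∑ h ∈ S p, ch x Q N h *
        e (-(((a : ℝ) + σ * ((d : ℝ) * k)) * h / (N : ℝ)))‖ ^ 2 := by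
        simp only [sum_add_distrib, mul_sum]
    _ ≤ 2 * (A * x * K / (4 * L ^ U)) + 2 * (A * x * K / (4 * L ^ U)) := by
        gcongr
        · exact hmin.trans hbound1
        · refine (sum_le_sum hmaj').trans ?_
          rw [sum_const, Nat.card_Ioc, nsmul_eq_mul]
          simpa using hbound2
    _ = A * x * K / L ^ U := by field_simp; norm_num

end Pool.Agent.H442R2.EHI
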