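import Pool.Agent.H43.G.R_seed8.H442R2.EHI.Dft

/-!
Decomposition of the major arcs.
-/

namespace Pool.Agent.H442R2.EHI

open Finset
open Pool.Agent.H469R2.NK (e norm_e e_add conj_e e_zero)

/-- `α` is within `δ` of a fraction with denominator `≤ Q` -/
def Maj (Q : ℕ) (δ α : ℝ) : Prop := ∃ q ∈ Icc 1 Q, ∃ b : ℤ, |α - (b : ℝ) / (q : ℝ)| ≤ δ

lemma maj_rep {Q N : ℕ} (hN : 1 ≤ N) {δ : ℝ} {h : ℕ} (hm : Maj Q δ ((h : ℝ) / N)) :
    ∃ (q b : ℕ) (h' : ℤ), q ∈ Icc 1 Q ∧ b < q ∧ b.Coprime q ∧ (∃ t : ℤ, h' = h - t * N) ∧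
      |(h' : ℝ) / N - (b : ℝ) / (q : ℝ)| ≤ δ := by
  obtain ⟨q0, hq0, b0, hb0⟩ := hm
  rw [mem_Icc] at hq0
  have hN0 : (N : ℝ) ≠ 0 := by positivity
  set g : ℕ := Int.gcd b0 q0 with hg
  have hgpos : 0 < g := by
    rw [hg]; exact Int.gcd_pos_of_ne_zero_right _ (by omega)
  obtain ⟨b1, hb1⟩ : (g : ℤ) ∣ b0 := Int.gcd_dvd_left ..
  obtain ⟨q1, hq1⟩ : g ∣ q0 := by
    have : (g : ℤ) ∣ (q0 : ℤ) := Int.gcd_dvd_right ..
    exact_mod_cast this
  have hq1pos : 0 < q1 := by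
    rcases Nat.eq_zero_or_pos q1 with h0 | h0
    · subst h0; omega
    · exact h0
  have hq1le : q1 ≤ Q := by
    have : q1 ≤ q0 := by rw [hq1]; exact Nat.le_mul_of_pos_left _ hgpos
    omega
  have hcop : Int.gcd b1 q1 = 1 := by
    have h1 : g = g * Int.gcd b1 q1 := by
      conv_lhs => rw [hg, hb1]
      rw [hq1]
      push_cast
      rw [Int.gcd_mul_left]
      simp
    have : g * 1 = g * Int.gcd b1 q1 := by omega
    exact (Nat.eq_of_mul_eq_mul_left hgpos this).symm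
  have hfrac : (b0 : ℝ) / q0 = (b1 : ℝ) / q1 := by
    rw [hb1, hq1]
    have : (g : ℝ) ≠ 0 := by positivity
    have : (q1 : ℝ) ≠ 0 := by positivity
    push_cast
    field_simp
  have hq1z : (q1 : ℤ) ≠ 0 := by omega
  set t : ℤ := b1 / q1 with ht
  set b : ℕ := (b1 % q1).toNat with hb
  have hmod0 : 0 ≤ b1 % q1 := Int.emod_nonneg _ hq1z
  have hmod1 : b1 % q1 < q1 := Int.emod_lt_of_pos _ (by omega)
  have hbz : (b : ℤ) = b1 % q1 := Int.toNat_of_nonneg hmod0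
  have hdecomp : b1 = q1 * t + b := by
    rw [hbz, ht]; exact (Int.mul_ediv_add_emod b1 q1).symm
  refine ⟨q1, b, h - t * N, by rw [mem_Icc]; omega, by omega, ?_, ⟨t, rfl⟩, ?_⟩
  · have h2 : Int.gcd (b : ℤ) q1 = 1 := by
      rw [← hcop, hdecomp]
      rw [Int.gcd_comm, Int.gcd_comm (_ + _)]
      simp
    rw [Nat.Coprime]
    simpa [Int.gcd_natCast_natCast] using h2
  · have hq1r : (q1 : ℝ) ≠ 0 := by positivity
    have h3 : ((h - t * N : ℤ) : ℝ) / N - (b : ℝ) / q1 = (h : ℝ) / N - (b1 : ℝ) / q1 := by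
      have h4 : (b1 : ℝ) = q1 * t + b := by exact_mod_cast hdecomp
      rw [h4]; push_cast; field_simp; ring
    rw [h3, ← hfrac]
    exact hb0

/-- the pairs `(q, b)` -/
def Pairs (Q : ℕ) : Finset (ℕ × ℕ) := (Icc 1 Q) ×ˢ (range Q)

lemma card_pairs (Q : ℕ) : (Pairs Q).card = Q * Q := by simp [Pairs]

open Classical in
lemma major_decomp (x Q N : ℕ) (hN : 1 ≤ N) (δ : ℝ) : ∃ S : ℕ × ℕ → Finset ℤ,
    (∀ m : ℤ, ∑ h ∈ (range N).filter (fun h : ℕ => Maj Q δ ((h : ℝ) / N)),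
      ch x Q N h * e (-((m : ℝ) * h / N)) =
      ∑ p ∈ Pairs Q, ∑ h ∈ S p, ch x Q N h * e (-((m : ℝ) * h / N))) ∧
    (∀ p ∈ Pairs Q, ∀ h ∈ S p, p.2.Coprime p.1 ∧ |(h : ℝ) / N - (p.2 : ℝ) / (p.1 : ℝ)| ≤ δ) ∧
    (∀ p ∈ Pairs Q, ∑ h ∈ S p, ‖ch x Q N h‖ ^ 2 ≤ ∑ h ∈ range N, ‖ch x Q N h‖ ^ 2) := by
  set M := (range N).filter (fun h : ℕ => Maj Q δ ((h : ℝ) / N)) with hM
  have hex : ∀ h : ℕ, ∃ (q b : ℕ) (h' : ℤ), h ∈ M → (q ∈ Icc 1 Q ∧ b < q ∧ b.Coprime q ∧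
      (∃ t : ℤ, h' = h - t * N) ∧ |(h' : ℝ) / N - (b : ℝ) / (q : ℝ)| ≤ δ) := by
    intro h
    by_cases hm : h ∈ M
    · obtain ⟨q, b, h', hh⟩ := maj_rep (Q := Q) hN (mem_filter.mp hm).2
      exact ⟨q, b, h', fun _ => hh⟩
    · exact ⟨0, 0, 0, fun h0 => absurd h0 hm⟩
  choose qf bf hf hspec using hex
  have hinj : Set.InjOn hf (M : Set ℕ) := by
    intro h hh h2 hh2 heq
    obtain ⟨_, _, _, ⟨t, ht⟩, _⟩ := hspec h hh
    obtain ⟨_, _, _, ⟨t2, ht2⟩, _⟩ := hspec h2 hh2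
    have h3 : (h : ℤ) < N := by
      have := mem_range.mp (mem_filter.mp hh).1
      exact_mod_cast this
    have h4 : (h2 : ℤ) < N := by
      have := mem_range.mp (mem_filter.mp hh2).1
      exact_mod_cast this
    rw [ht, ht2] at heq
    have h5 : (h : ℤ) - h2 = (t - t2) * N := by linarith
    have hNz : (0:ℤ) < N := by exact_mod_cast hN
    rcases lt_trichotomy (t - t2) 0 with h6 | h6 | h6
    · have : (t - t2) * N ≤ -N := by nlinarith
      omega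
    · rw [h6, zero_mul] at h5
      omega
    · have : (N:ℤ) ≤ (t - t2) * N := by nlinarith
      omega
  set S : ℕ × ℕ → Finset ℤ := fun p => (M.filter (fun h => (qf h, bf h) = p)).image hf with hS
  have hsum : ∀ (p : ℕ × ℕ) (F : ℤ → ℂ),
      ∑ h ∈ S p, F h = ∑ h ∈ M.filter (fun h => (qf h, bf h) = p), F (hf h) := by
    intro p F
    rw [hS]
    refine sum_image ?_
    intro a ha b hb
    exact hinj (mem_filter.mp ha).1 (mem_filter.mp hb).1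
  have hsumR : ∀ (p : ℕ × ℕ) (F : ℤ → ℝ),
      ∑ h ∈ S p, F h = ∑ h ∈ M.filter (fun h => (qf h, bf h) = p), F (hf h) := by
    intro p F
    rw [hS]
    refine sum_image ?_
    intro a ha b hb
    exact hinj (mem_filter.mp ha).1 (mem_filter.mp hb).1
  have hmaps : ∀ h ∈ M, (qf h, bf h) ∈ Pairs Q := by
    intro h hh
    obtain ⟨h1, h2, _⟩ := hspec h hh
    rw [mem_Icc] at h1
    simp only [Pairs, mem_product, mem_Icc, mem_range]
    omega
  have hch : ∀ h ∈ M, ch x Q N (hf h) = ch x Q N h := by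
    intro h hh
    obtain ⟨_, _, _, ⟨t, ht⟩, _⟩ := hspec h hh
    rw [ht, ch_periodic x Q N hN]
  refine ⟨S, ?_, ?_, ?_⟩
  · intro m
    rw [← sum_fiberwise_of_maps_to hmaps]
    refine sum_congr rfl fun p _ => ?_
    rw [hsum]
    refine sum_congr rfl fun h hh => ?_
    have hhM := (mem_filter.mp hh).1
    rw [hch h hhM]
    obtain ⟨_, _, _, ⟨t, ht⟩, _⟩ := hspec h hhM
    congr 1
    have hN0 : (N : ℝ) ≠ 0 := by positivity
    have : -((m : ℝ) * (hf h : ℝ) / N) = -((m : ℝ) * h / N) + ((m * t : ℤ) : ℝ) := by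
      rw [ht]; push_cast; field_simp; ring
    rw [this, e_add_int]
  · intro p _ h hh
    rw [hS, mem_image] at hh
    obtain ⟨h0, hh0, rfl⟩ := hh
    rw [mem_filter] at hh0
    obtain ⟨_, _, h3, _, h5⟩ := hspec h0 hh0.1
    rw [← hh0.2]
    exact ⟨h3, h5⟩
  · intro p _
    rw [hsumR]
    calc ∑ h ∈ M.filter (fun h => (qf h, bf h) = p), ‖ch x Q N (hf h)‖ ^ 2
        = ∑ h ∈ M.filter (fun h => (qf h, bf h) = p), ‖ch x Q N h‖ ^ 2 := by
          refine sum_congr rfl fun h hh => ?_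
          rw [hch h (mem_filter.mp hh).1]
      _ ≤ ∑ h ∈ range N, ‖ch x Q N h‖ ^ 2 := by
          apply sum_le_sum_of_subset_of_nonneg
          · intro h hh
            exact (mem_filter.mp (mem_filter.mp hh).1).1
          · intros; positivity

end Pool.Agent.H442R2.EHI
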