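import Pool.Agent.H43.G.R_seed8.H442R2.EHI.Defs

/-!
Discrete Fourier expansion of `ff`.
-/

namespace Pool.Agent.H442R2.EHI

open Finset
open Pool.Agent.H469R2.NK (e norm_e e_add conj_e e_zero)

lemma e_int (m : ℤ) : e (m : ℝ) = 1 := by
  unfold e
  have : (((2 * Real.pi * (m : ℝ) : ℝ) : ℂ) * Complex.I) = (m : ℂ) * (2 * Real.pi * Complex.I) := by
    push_cast; ring
  rw [this, Complex.exp_int_mul_two_pi_mul_I]

lemma e_add_int (x : ℝ) (m : ℤ) : e (x + m) = e x := by
  rw [e_add, e_int, mul_one]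

lemma e_pow (x : ℝ) (n : ℕ) : e x ^ n = e (n * x) := by
  induction n with
  | zero => simp [e_zero]
  | succ n ih => rw [pow_succ, ih, ← e_add]; congr 1; push_cast; ring

lemma e_eq_one_iff (x : ℝ) : e x = 1 ↔ ∃ m : ℤ, x = m := by
  constructor
  · intro h
    unfold e at h
    rw [Complex.exp_eq_one_iff] at h
    obtain ⟨m, hm⟩ := h
    refine ⟨m, ?_⟩
    have h1 : ((2 * Real.pi * x : ℝ) : ℂ) = ((m * (2 * Real.pi) : ℝ) : ℂ) := by
      have hI : Complex.I ≠ 0 := Complex.I_ne_zero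
      apply mul_right_cancel₀ hI
      rw [hm]; push_cast; ring
    have h2 : 2 * Real.pi * x = m * (2 * Real.pi) := by exact_mod_cast h1
    have hp := Real.pi_pos
    have : (2 * Real.pi) * (x - m) = 0 := by linarith
    rcases mul_eq_zero.mp this with h3 | h3
    · linarith
    · linarith
  · rintro ⟨m, rfl⟩; exact e_int m

/-- orthogonality modulo `N` -/
lemma sum_e_range (N : ℕ) (hN : 1 ≤ N) (j : ℤ) :
    ∑ h ∈ range N, e ((j : ℝ) * h / N) = if (N : ℤ) ∣ j then (N : ℂ) else 0 := by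
  have hN0 : (N : ℝ) ≠ 0 := by positivity
  have hterm : ∀ h ∈ range N, e ((j : ℝ) * h / N) = (e ((j : ℝ) / N)) ^ h := by
    intro h _
    rw [e_pow]; congr 1; ring
  rw [sum_congr rfl hterm]
  split_ifs with hd
  · obtain ⟨m, hm⟩ := hd
    have : e ((j : ℝ) / N) = 1 := by
      rw [e_eq_one_iff]
      refine ⟨m, ?_⟩
      rw [hm]; push_cast; field_simp
    rw [this]; simp
  · have hne : e ((j : ℝ) / N) ≠ 1 := by
      intro h
      rw [e_eq_one_iff] at h
      obtain ⟨m, hm⟩ := h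
      apply hd
      refine ⟨m, ?_⟩
      rw [div_eq_iff hN0] at hm
      have : (j : ℝ) = ((N * m : ℤ) : ℝ) := by rw [hm]; push_cast; ring
      exact_mod_cast this
    rw [geom_sum_eq hne]
    have : e ((j : ℝ) / N) ^ N = 1 := by
      rw [e_pow, e_eq_one_iff]
      exact ⟨j, by field_simp⟩
    rw [this, sub_self, zero_div]

/-- the function `ff` on the integers -/
noncomputable def ffz (x Q : ℕ) (m : ℤ) : ℂ := if 1 ≤ m then ff x Q m.toNat else 0

/-- discrete Fourier coefficients -/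
noncomputable def ch (x Q N : ℕ) (h : ℤ) : ℂ :=
  (1 / (N : ℂ)) * ∑ n ∈ Icc 1 x, ff x Q n * e ((n : ℝ) * ((h : ℝ) / N))

lemma ff_zero_of_gt {x Q n : ℕ} (h : x < n) : ff x Q n = 0 := by
  unfold ff
  rw [if_neg (by omega)]

lemma ch_inv (x Q N : ℕ) (hN : 1 ≤ N) (m : ℤ) (h1 : (x : ℤ) - N < m) (h2 : m ≤ N) :
    ∑ h ∈ range N, ch x Q N h * e (-((m : ℝ) * h / N)) = ffz x Q m := by
  have hN0 : (N : ℂ) ≠ 0 := by
    exact_mod_cast (by omega : N ≠ 0)
  have e1 : ∀ h ∈ range N, ch x Q N h * e (-((m : ℝ) * h / N)) =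
      ∑ n ∈ Icc 1 x, (1 / (N : ℂ)) * (ff x Q n * e ((((n : ℤ) - m : ℤ) : ℝ) * h / N)) := by
    intro h _
    unfold ch
    rw [mul_sum, sum_mul]
    refine sum_congr rfl fun n _ => ?_
    have : e ((((n : ℤ) - m : ℤ) : ℝ) * h / N) =
        e ((n : ℝ) * (((h : ℤ) : ℝ) / N)) * e (-((m : ℝ) * h / N)) := by
      rw [← e_add]; congr 1; push_cast; ring
    rw [this]; ring
  rw [sum_congr rfl e1, sum_comm]
  have e2 : ∀ n ∈ Icc 1 x, ∑ h ∈ range N,
      (1 / (N : ℂ)) * (ff x Q n * e ((((n : ℤ) - m : ℤ) : ℝ) * h / N)) =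
      if (n : ℤ) = m then ff x Q n else 0 := by
    intro n hn
    rw [mem_Icc] at hn
    rw [← mul_sum, ← mul_sum, sum_e_range N hN]
    by_cases hnm : (n : ℤ) = m
    · rw [if_pos hnm, if_pos (by rw [hnm, sub_self]; exact dvd_zero _)]
      field_simp
    · rw [if_neg hnm, if_neg]
      · simp
      · intro hd
        obtain ⟨t, ht⟩ := hd
        have hNz : (0:ℤ) < N := by exact_mod_cast hN
        have hn1 : (1:ℤ) ≤ n := by exact_mod_cast hn.1
        have hn2 : (n:ℤ) ≤ x := by exact_mod_cast hn.2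
        rcases lt_trichotomy t 0 with h | h | h
        · have : (N:ℤ) * t ≤ -N := by nlinarith
          omega
        · rw [h, mul_zero] at ht
          omega
        · have : (N:ℤ) ≤ N * t := by nlinarith
          omega
  rw [sum_congr rfl e2]
  unfold ffz
  by_cases hm : 1 ≤ m
  · rw [if_pos hm]
    by_cases hmx : m ≤ x
    · rw [sum_eq_single m.toNat]
      · rw [if_pos (by omega)]
      · intro b _ hb
        rw [if_neg (by omega)]
      · intro hb
        exfalso; apply hb; rw [mem_Icc]; omega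
    · rw [ff_zero_of_gt (by omega)]
      apply sum_eq_zero
      intro n hn
      rw [mem_Icc] at hn
      rw [if_neg (by omega)]
  · rw [if_neg hm]
    apply sum_eq_zero
    intro n hn
    rw [mem_Icc] at hn
    rw [if_neg (by omega)]

/-- Parseval -/
lemma ch_parseval (x Q N : ℕ) (hN : x + 1 ≤ N) :
    (N : ℝ) * ∑ h ∈ range N, ‖ch x Q N h‖ ^ 2 = ∑ n ∈ Icc 1 x, ‖ff x Q n‖ ^ 2 := by
  have hN1 : 1 ≤ N := by omega
  have hN0 : (N : ℂ) ≠ 0 := by exact_mod_cast (by omega : N ≠ 0)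
  have key : ((N : ℝ) * ∑ h ∈ range N, ‖ch x Q N h‖ ^ 2 : ℂ) =
      ∑ n ∈ Icc 1 x, (‖ff x Q n‖ ^ 2 : ℂ) := by
    have e0 : ∀ h ∈ range N, ((‖ch x Q N h‖ : ℂ) ^ 2) =
        ∑ n ∈ Icc 1 x, ∑ n' ∈ Icc 1 x, (1 / (N : ℂ)) ^ 2 * (ff x Q n * (starRingEnd ℂ) (ff x Q n')) *
          e ((((n : ℤ) - n' : ℤ) : ℝ) * h / N) := by
      intro h _
      have : ((‖ch x Q N h‖ : ℂ) ^ 2) = ch x Q N h * (starRingEnd ℂ) (ch x Q N h) := by
        rw [Complex.mul_conj, Complex.normSq_eq_norm_sq]; push_cast; rfl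
      rw [this]
      unfold ch
      rw [map_mul, map_sum, map_div₀, map_one, map_natCast]
      rw [show ∀ a b c d : ℂ, a * b * (c * d) = (a * c) * (b * d) from fun a b c d => by ring]
      rw [sum_mul_sum, mul_sum]
      refine sum_congr rfl fun n _ => ?_
      rw [mul_sum]
      refine sum_congr rfl fun n' _ => ?_
      rw [map_mul, conj_e]
      have : e ((((n : ℤ) - n' : ℤ) : ℝ) * h / N) =
          e ((n : ℝ) * (((h : ℤ) : ℝ) / N)) * e (-((n' : ℝ) * (((h : ℤ) : ℝ) / N))) := by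
        rw [← e_add]; congr 1; push_cast; ring
      rw [this]; ring
    push_cast
    rw [sum_congr rfl e0, sum_comm, mul_sum]
    refine sum_congr rfl fun n hn => ?_
    rw [sum_comm, mul_sum]
    rw [sum_eq_single n]
    · rw [← mul_sum, sum_e_range N hN1, if_pos (by simp)]
      have : (starRingEnd ℂ) (ff x Q n) * ff x Q n = (‖ff x Q n‖ : ℂ) ^ 2 := by
        rw [mul_comm, Complex.mul_conj, Complex.normSq_eq_norm_sq]; push_cast; rfl
      rw [← this]
      field_simp
    · intro n' hn' hne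
      rw [← mul_sum, sum_e_range N hN1, if_neg, mul_zero, mul_zero]
      rw [mem_Icc] at hn hn'
      rintro ⟨t, ht⟩
      have hNz : (x:ℤ) < N := by exact_mod_cast hN
      rcases lt_trichotomy t 0 with h | h | h
      · have : (N:ℤ) * t ≤ -N := by nlinarith
        omega
      · rw [h, mul_zero] at ht
        apply hne; omega
      · have : (N:ℤ) ≤ N * t := by nlinarith
        omega
    · intro h; exact absurd hn h
  exact_mod_cast key

lemma ch_periodic (x Q N : ℕ) (hN : 1 ≤ N) (h t : ℤ) : ch x Q N (h - t * N) = ch x Q N h := by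
  unfold ch
  congr 1
  refine sum_congr rfl fun n _ => ?_
  congr 1
  have hN0 : (N : ℝ) ≠ 0 := by positivity
  have : (n : ℝ) * ((h - t * N : ℤ) / N) = (n : ℝ) * ((h : ℝ) / N) + ((-(n * t) : ℤ) : ℝ) := by
    push_cast; field_simp; ring
  rw [this, e_add_int]

end Pool.Agent.H442R2.EHI
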