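import Pool.Agent.H43.G.R_seed8.H442R2.EHI.Defs

/-!
T1 of the EHI project: a finite large-sieve type inequality in two variables (minor arcs).
-/

namespace Pool.Agent.H442R2.EHI

open Finset
open Pool.Agent.H469R2.NK (e norm_e e_add conj_e e_zero)

namespace MinorAux

lemma e_int (n : ℤ) : e (n : ℝ) = 1 := by
  unfold e
  rw [Complex.exp_eq_one_iff]
  exact ⟨n, by push_cast; ring⟩

lemma e_eq_one {x : ℝ} (h : e x = 1) : ∃ n : ℤ, x = n := by
  unfold e at h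
  rw [Complex.exp_eq_one_iff] at h
  obtain ⟨n, hn⟩ := h
  refine ⟨n, ?_⟩
  have h2 : ((2 * Real.pi * x : ℝ) : ℂ) = ((n * (2 * Real.pi) : ℝ) : ℂ) := by
    have hI : Complex.I ≠ 0 := Complex.I_ne_zero
    apply mul_right_cancel₀ hI
    rw [hn]; push_cast; ring
  have h3 : 2 * Real.pi * x = n * (2 * Real.pi) := by exact_mod_cast h2
  have hp : (2 * Real.pi) ≠ 0 := by positivity
  have : 2 * Real.pi * (x - n) = 0 := by linarith
  rcases mul_eq_zero.mp this with h | h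
  · exact absurd h hp
  · linarith

lemma e_nat_mul (n : ℕ) (x : ℝ) : e ((n : ℝ) * x) = e x ^ n := by
  unfold e
  rw [← Complex.exp_nat_mul]
  congr 1
  push_cast
  ring

lemma sum_period (N : ℕ) (hN : 0 < N) (u : ℤ) :
    ∑ a ∈ range N, e ((u : ℝ) * a / N) = if (N : ℤ) ∣ u then (N : ℂ) else 0 := by
  have hN0 : (N : ℝ) ≠ 0 := by exact_mod_cast hN.ne'
  split_ifs with h
  · obtain ⟨w, rfl⟩ := h
    have : ∀ a ∈ range N, e ((((N : ℤ) * w : ℤ) : ℝ) * a / N) = 1 := by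
      intro a _
      have : (((N : ℤ) * w : ℤ) : ℝ) * a / N = ((w * a : ℤ) : ℝ) := by
        push_cast
        field_simp
      rw [this, e_int]
    rw [sum_congr rfl this]
    simp
  · have h1 : ∀ a ∈ range N, e ((u : ℝ) * a / N) = e ((u : ℝ) / N) ^ a := by
      intro a _
      rw [← e_nat_mul]
      congr 1; ring
    rw [sum_congr rfl h1]
    have hz : e ((u : ℝ) / N) ≠ 1 := by
      intro hz
      obtain ⟨n, hn⟩ := e_eq_one hz
      apply h
      refine ⟨n, ?_⟩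
      have : (u : ℝ) = N * n := by
        field_simp at hn
        linarith
      exact_mod_cast this
    rw [geom_sum_eq hz]
    have : e ((u : ℝ) / N) ^ N = 1 := by
      rw [← e_nat_mul]
      have : (N : ℝ) * ((u : ℝ) / N) = (u : ℝ) := by field_simp
      rw [this, e_int]
    rw [this]; simp

lemma parseval2 {ι : Type*} (N : ℕ) (hN : 0 < N) (I : Finset ι) (u v : ι → ℤ)
    (z : ι → ℂ) :
    ∑ a ∈ range N, ∑ d ∈ range N, ‖∑ i ∈ I, z i * (e ((u i : ℝ) * a / N) * e ((v i : ℝ) * d / N))‖ ^ 2 ≤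
      (N : ℝ) ^ 2 * ∑ i ∈ I, ‖z i‖ ^ 2 *
        ((I.filter (fun i' => (N : ℤ) ∣ u i - u i' ∧ (N : ℤ) ∣ v i - v i')).card : ℝ) := by
  classical
  -- expand
  set rel : ι → ι → ℝ := fun i i' =>
    if (N : ℤ) ∣ u i - u i' ∧ (N : ℤ) ∣ v i - v i' then 1 else 0 with hrel
  have key : ((∑ a ∈ range N, ∑ d ∈ range N,
      ‖∑ i ∈ I, z i * (e ((u i : ℝ) * a / N) * e ((v i : ℝ) * d / N))‖ ^ 2 : ℝ) : ℂ) =
      ∑ i ∈ I, ∑ i' ∈ I, z i * (starRingEnd ℂ) (z i') * ((N : ℂ) ^ 2 * (rel i i' : ℂ)) := by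
    push_cast
    have h1 : ∀ a ∈ range N, ∀ d ∈ range N,
        ((‖∑ i ∈ I, z i * (e ((u i : ℝ) * a / N) * e ((v i : ℝ) * d / N))‖ : ℂ)) ^ 2 =
        ∑ i ∈ I, ∑ i' ∈ I, z i * (starRingEnd ℂ) (z i') *
          (e (((u i - u i' : ℤ) : ℝ) * a / N) * e (((v i - v i' : ℤ) : ℝ) * d / N)) := by
      intro a _ d _
      rw [← Complex.mul_conj', map_sum, sum_mul_sum]
      apply sum_congr rfl; intro i _
      apply sum_congr rfl; intro i' _
      rw [map_mul, map_mul, conj_e, conj_e]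
      have e1 : e (((u i - u i' : ℤ) : ℝ) * a / N) =
          e ((u i : ℝ) * a / N) * e (-((u i' : ℝ) * a / N)) := by
        rw [← e_add]; congr 1; push_cast; ring
      have e2 : e (((v i - v i' : ℤ) : ℝ) * d / N) =
          e ((v i : ℝ) * d / N) * e (-((v i' : ℝ) * d / N)) := by
        rw [← e_add]; congr 1; push_cast; ring
      rw [e1, e2]; ring
    rw [sum_congr rfl (fun a ha => sum_congr rfl (h1 a ha))]
    have h2 : ∀ a ∈ range N, ∑ d ∈ range N, ∑ i ∈ I, ∑ i' ∈ I, z i * (starRingEnd ℂ) (z i') *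
          (e (((u i - u i' : ℤ) : ℝ) * a / N) * e (((v i - v i' : ℤ) : ℝ) * d / N)) =
        ∑ i ∈ I, ∑ i' ∈ I, z i * (starRingEnd ℂ) (z i') *
          (e (((u i - u i' : ℤ) : ℝ) * a / N) *
            ∑ d ∈ range N, e (((v i - v i' : ℤ) : ℝ) * d / N)) := by
      intro a _
      rw [sum_comm]
      apply sum_congr rfl; intro i _
      rw [sum_comm]
      apply sum_congr rfl; intro i' _
      rw [mul_sum, mul_sum]
    rw [sum_congr rfl h2, sum_comm]
    apply sum_congr rfl; intro i _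
    rw [sum_comm]
    apply sum_congr rfl; intro i' _
    rw [← mul_sum, ← sum_mul, sum_period N hN, sum_period N hN]
    congr 1
    simp only [hrel]
    by_cases h3 : (N : ℤ) ∣ u i - u i' <;> by_cases h4 : (N : ℤ) ∣ v i - v i' <;>
      simp [h3, h4, sq]
  have hrel0 : ∀ i i', 0 ≤ rel i i' := by
    intro i i'; simp only [hrel]; split_ifs <;> norm_num
  have hsymm : ∀ i i', rel i i' = rel i' i := by
    intro i i'
    simp only [hrel]
    congr 1
    rw [← dvd_neg (b := u i - u i'), neg_sub, ← dvd_neg (b := v i - v i'), neg_sub]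
  have hbound : ‖∑ i ∈ I, ∑ i' ∈ I, z i * (starRingEnd ℂ) (z i') * ((N : ℂ) ^ 2 * (rel i i' : ℂ))‖ ≤
      (N : ℝ) ^ 2 * ∑ i ∈ I, ∑ i' ∈ I, (‖z i‖ ^ 2 / 2 + ‖z i'‖ ^ 2 / 2) * rel i i' := by
    refine (norm_sum_le _ _).trans ?_
    rw [mul_sum]
    apply sum_le_sum; intro i _
    refine (norm_sum_le _ _).trans ?_
    rw [mul_sum]
    apply sum_le_sum; intro i' _
    rw [norm_mul, norm_mul, norm_mul, norm_pow, Complex.norm_natCast, Complex.norm_real,
      RCLike.norm_conj, Real.norm_of_nonneg (hrel0 i i')]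
    have : ‖z i‖ * ‖z i'‖ ≤ ‖z i‖ ^ 2 / 2 + ‖z i'‖ ^ 2 / 2 := by
      nlinarith [sq_nonneg (‖z i‖ - ‖z i'‖)]
    have h5 : 0 ≤ (N : ℝ) ^ 2 * rel i i' := mul_nonneg (by positivity) (hrel0 i i')
    calc ‖z i‖ * ‖z i'‖ * ((N : ℝ) ^ 2 * rel i i')
        ≤ (‖z i‖ ^ 2 / 2 + ‖z i'‖ ^ 2 / 2) * ((N : ℝ) ^ 2 * rel i i') :=
          mul_le_mul_of_nonneg_right this h5
      _ = _ := by ring
  have hsum : ∑ i ∈ I, ∑ i' ∈ I, (‖z i‖ ^ 2 / 2 + ‖z i'‖ ^ 2 / 2) * rel i i' =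
      ∑ i ∈ I, ‖z i‖ ^ 2 * ∑ i' ∈ I, rel i i' := by
    have h6 : ∑ i ∈ I, ∑ i' ∈ I, (‖z i'‖ ^ 2 / 2) * rel i i' =
        ∑ i ∈ I, ∑ i' ∈ I, (‖z i‖ ^ 2 / 2) * rel i i' := by
      rw [sum_comm]
      apply sum_congr rfl; intro i _
      apply sum_congr rfl; intro i' _
      rw [hsymm i' i]
    have h7 : ∑ i ∈ I, ∑ i' ∈ I, (‖z i‖ ^ 2 / 2 + ‖z i'‖ ^ 2 / 2) * rel i i' =
        ∑ i ∈ I, ∑ i' ∈ I, (‖z i‖ ^ 2 / 2) * rel i i' +
        ∑ i ∈ I, ∑ i' ∈ I, (‖z i'‖ ^ 2 / 2) * rel i i' := by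
      rw [← sum_add_distrib]
      apply sum_congr rfl; intro i _
      rw [← sum_add_distrib]
      apply sum_congr rfl; intro i' _
      ring
    rw [h7, h6, ← sum_add_distrib]
    apply sum_congr rfl; intro i _
    rw [← sum_add_distrib, mul_sum]
    apply sum_congr rfl; intro i' _
    ring
  have hcard : ∀ i ∈ I, ∑ i' ∈ I, rel i i' =
      ((I.filter (fun i' => (N : ℤ) ∣ u i - u i' ∧ (N : ℤ) ∣ v i - v i')).card : ℝ) := by
    intro i _
    simp only [hrel]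
    rw [← sum_filter, sum_const, nsmul_eq_mul, mul_one]
  rw [hsum] at hbound
  rw [← key, Complex.norm_real, Real.norm_of_nonneg (by positivity)] at hbound
  refine hbound.trans (le_of_eq ?_)
  congr 1
  apply sum_congr rfl; intro i hi
  rw [hcard i hi]

/-- lower bound for a short geometric sum -/
lemma weight (H : ℕ) (t : ℝ) (ht : 0 < t) (hH : (H : ℝ) * t ≤ 1 / 2) :
    (2 / Real.pi) * H ≤ ‖∑ j ∈ range H, e ((j : ℝ) * t)‖ := by
  have hpi := Real.pi_pos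
  have hns : ∀ x : ℝ, ‖e x - 1‖ = 2 * |Real.sin (Real.pi * x)| := by
    intro x
    unfold e
    have h1 : ((2 * Real.pi * x : ℝ) : ℂ) * Complex.I = Complex.I * ((2 * Real.pi * x : ℝ) : ℂ) := by
      ring
    rw [h1, Complex.norm_exp_I_mul_ofReal_sub_one]
    rw [norm_mul, Real.norm_eq_abs, Real.norm_eq_abs, abs_of_pos (by norm_num : (0:ℝ) < 2)]
    congr 3; ring
  have h1 : (∑ j ∈ range H, e ((j : ℝ) * t)) * (e t - 1) = e ((H : ℝ) * t) - 1 := by
    have : ∀ j ∈ range H, e ((j : ℝ) * t) = e t ^ j := fun j _ => e_nat_mul j t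
    rw [sum_congr rfl this, geom_sum_mul, e_nat_mul]
  have h2 : ‖∑ j ∈ range H, e ((j : ℝ) * t)‖ * (2 * |Real.sin (Real.pi * t)|) =
      2 * |Real.sin (Real.pi * (H * t))| := by
    rw [← hns, ← norm_mul, h1, hns]
  rcases Nat.eq_zero_or_pos H with h0 | hpos
  · subst h0; simp
  have hHt : 0 < (H : ℝ) * t := by positivity
  have h3 : (2 / Real.pi) * (Real.pi * (H * t)) ≤ Real.sin (Real.pi * (H * t)) := by
    apply Real.mul_le_sin (by positivity)
    nlinarith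
  have h4 : |Real.sin (Real.pi * t)| ≤ Real.pi * t := by
    have := Real.abs_sin_le_abs (x := Real.pi * t)
    rwa [abs_of_pos (by positivity : 0 < Real.pi * t)] at this
  have h5 : (2 / Real.pi) * (Real.pi * (H * t)) ≤ |Real.sin (Real.pi * (H * t))| :=
    h3.trans (le_abs_self _)
  have h6 : 2 * ((2 / Real.pi) * (Real.pi * (H * t))) ≤
      ‖∑ j ∈ range H, e ((j : ℝ) * t)‖ * (2 * (Real.pi * t)) := by
    calc 2 * ((2 / Real.pi) * (Real.pi * (H * t))) ≤ 2 * |Real.sin (Real.pi * (H * t))| := by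
          linarith
      _ = ‖∑ j ∈ range H, e ((j : ℝ) * t)‖ * (2 * |Real.sin (Real.pi * t)|) := h2.symm
      _ ≤ _ := by gcongr
  have h7 : 2 * ((2 / Real.pi) * (Real.pi * (H * t))) = ((2 / Real.pi) * H) * (2 * (Real.pi * t)) := by
    ring
  rw [h7] at h6
  exact le_of_mul_le_mul_right h6 (by positivity)

/-- cardinality of a set of integers of small diameter -/
lemma card_diam (X : Finset ℕ) (k M : ℕ) (hk : 1 ≤ k)
    (h : ∀ x ∈ X, ∀ y ∈ X, (k : ℤ) * ((y : ℤ) - x) < M) : (X.card : ℝ) ≤ (M : ℝ) / k + 1 := by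
  rcases X.eq_empty_or_nonempty with h0 | hne
  · subst h0; simp; positivity
  · have h1 : X ⊆ Icc (X.min' hne) (X.max' hne) := by
      intro x hx
      rw [mem_Icc]
      exact ⟨X.min'_le x hx, X.le_max' x hx⟩
    have h2 := card_le_card h1
    rw [Nat.card_Icc] at h2
    have h3 := h _ (X.min'_mem hne) _ (X.max'_mem hne)
    have h4 : X.min' hne ≤ X.max' hne := X.min'_le _ (X.max'_mem hne)
    have h5 : (X.card : ℝ) ≤ ((X.max' hne : ℝ) - X.min' hne) + 1 := by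
      have : X.card + X.min' hne ≤ X.max' hne + 1 := by omega
      have : ((X.card + X.min' hne : ℕ) : ℝ) ≤ ((X.max' hne + 1 : ℕ) : ℝ) := by exact_mod_cast this
      push_cast at this; linarith
    have h6 : (k : ℝ) * ((X.max' hne : ℝ) - X.min' hne) < M := by exact_mod_cast h3
    have hk0 : (0 : ℝ) < k := by exact_mod_cast hk
    have h7 : ((X.max' hne : ℝ) - X.min' hne) ≤ (M : ℝ) / k := by
      rw [le_div_iff₀ hk0]; linarith
    linarith

/-- relation between two members of a fibre -/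
lemma fibre_rel (N K H H2 : ℕ) (hKH : 4 * K * H ≤ N) (hH2 : 8 * H2 ≤ N) (hN : 0 < N)
    (σ : ℤ) (hσ : σ = 1 ∨ σ = -1) (j h k k1 j' : ℤ) (hk1 : 0 ≤ k1) (hk1K : k1 ≤ K)
    (x px ph y py ph' : ℤ) (hx0 : 0 ≤ x) (hxH : x < H) (hy0 : 0 ≤ y) (hyH : y < H)
    (hpx0 : 0 ≤ px) (hpxH : px < H2) (hpy0 : 0 ≤ py) (hpyH : py < H2)
    (h1 : (N : ℤ) ∣ (j - h) - (x - ph)) (h2 : (N : ℤ) ∣ (j' - σ * k * h) - (px - σ * k1 * ph))
    (h3 : (N : ℤ) ∣ (j - h) - (y - ph')) (h4 : (N : ℤ) ∣ (j' - σ * k * h) - (py - σ * k1 * ph')) :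
    py - px = σ * k1 * (y - x) := by
  obtain ⟨s, hs⟩ := h1
  obtain ⟨t, ht⟩ := h2
  obtain ⟨s', hs'⟩ := h3
  obtain ⟨t', ht'⟩ := h4
  set P : ℤ := (σ * k1 * s' - t') - (σ * k1 * s - t) with hP
  have e1 : py - px = σ * k1 * (y - x) + N * P := by
    have a1 : ph = N * s - j + h + x := by linarith
    have a2 : ph' = N * s' - j + h + y := by linarith
    subst a1 a2
    rw [hP]
    linear_combination ht - ht'
  have hKH' : 4 * ((K : ℤ) * H) ≤ N := by
    have : ((4 * K * H : ℕ) : ℤ) ≤ N := by exact_mod_cast hKH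
    push_cast at this; linarith
  have hH2' : 8 * (H2 : ℤ) ≤ N := by exact_mod_cast hH2
  have hN' : (0 : ℤ) < N := by exact_mod_cast hN
  have b1 : |k1 * (y - x)| ≤ (K : ℤ) * H := by
    rw [abs_mul, abs_of_nonneg hk1]
    have : |y - x| ≤ H := by rw [abs_le]; constructor <;> linarith
    exact mul_le_mul hk1K this (abs_nonneg _) (by positivity)
  have b2 : |σ * k1 * (y - x)| ≤ (K : ℤ) * H := by
    rcases hσ with rfl | rfl
    · simpa using b1
    · rw [show (-1 : ℤ) * k1 * (y - x) = -(k1 * (y - x)) by ring, abs_neg]; exact b1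
  have b3 : |py - px| ≤ H2 := by rw [abs_le]; constructor <;> linarith
  have hP0 : P = 0 := by
    by_contra hne
    have : 1 ≤ |P| := Int.one_le_abs hne
    have c1 : |(N : ℤ) * P| = N * |P| := by rw [abs_mul, abs_of_pos hN']
    have c2 : (N : ℤ) * P = (py - px) - σ * k1 * (y - x) := by linarith
    have c3 : |(N : ℤ) * P| ≤ |py - px| + |σ * k1 * (y - x)| := by rw [c2]; exact abs_sub _ _
    nlinarith
  rw [e1, hP0]; ring

/-- size of a fibre -/
lemma fibre (N K D A H H2 : ℕ) (hN : 0 < N) (hD : 1 ≤ D) (hA : 1 ≤ A)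
    (hKH : 4 * K * H ≤ N) (hH2 : 8 * H2 ≤ N) (hAH : 2 * A * H ≤ N) (hDH : 2 * D * H2 ≤ N)
    (σ : ℤ) (hσ : σ = 1 ∨ σ = -1) (j h k k1 j' : ℕ) (hk1 : 1 ≤ k1) (hk1K : k1 ≤ K)
    (hj : j < H) (hj' : j' < H2) :
    ((((range H ×ˢ range H2) ×ˢ range N).filter (fun p : (ℕ × ℕ) × ℕ =>
      (N : ℤ) ∣ ((j : ℤ) - h) - ((p.1.1 : ℤ) - p.2) ∧
      (N : ℤ) ∣ ((j' : ℤ) - σ * k * h) - ((p.1.2 : ℤ) - σ * k1 * p.2))).card : ℝ) ≤
    if nint ((((k1 : ℤ) - k : ℤ) : ℝ) * ((h : ℝ) / N)) ≤ 1 / (2 * (D : ℝ)) + (K : ℝ) / (2 * (A : ℝ))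
      then (H2 : ℝ) / k1 + 1 else 0 := by
  classical
  set F := (((range H ×ˢ range H2) ×ˢ range N).filter (fun p : (ℕ × ℕ) × ℕ =>
      (N : ℤ) ∣ ((j : ℤ) - h) - ((p.1.1 : ℤ) - p.2) ∧
      (N : ℤ) ∣ ((j' : ℤ) - σ * k * h) - ((p.1.2 : ℤ) - σ * k1 * p.2))) with hF
  have hmem : ∀ p ∈ F, p.1.1 < H ∧ p.1.2 < H2 ∧ p.2 < N ∧
      (N : ℤ) ∣ ((j : ℤ) - h) - ((p.1.1 : ℤ) - p.2) ∧
      (N : ℤ) ∣ ((j' : ℤ) - σ * k * h) - ((p.1.2 : ℤ) - σ * k1 * p.2) := by
    intro p hp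
    rw [hF, mem_filter, mem_product, mem_product, mem_range, mem_range, mem_range] at hp
    exact ⟨hp.1.1.1, hp.1.1.2, hp.1.2, hp.2.1, hp.2.2⟩
  have hrel : ∀ p ∈ F, ∀ q ∈ F, (q.1.2 : ℤ) - p.1.2 = σ * k1 * ((q.1.1 : ℤ) - p.1.1) := by
    intro p hp q hq
    obtain ⟨p1, p2, p3, p4, p5⟩ := hmem p hp
    obtain ⟨q1, q2, q3, q4, q5⟩ := hmem q hq
    exact fibre_rel N K H H2 hKH hH2 hN σ hσ j h k k1 j' (by positivity) (by exact_mod_cast hk1K)
      p.1.1 p.1.2 p.2 q.1.1 q.1.2 q.2 (by positivity) (by exact_mod_cast p1) (by positivity)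
      (by exact_mod_cast q1) (by positivity) (by exact_mod_cast p2) (by positivity)
      (by exact_mod_cast q2) p4 p5 q4 q5
  have hinj : Set.InjOn (fun p : (ℕ × ℕ) × ℕ => p.1.1) (F : Set ((ℕ × ℕ) × ℕ)) := by
    intro p hp q hq hpq
    have hp' := mem_coe.mp hp
    have hq' := mem_coe.mp hq
    have hpq' : p.1.1 = q.1.1 := hpq
    have h1 := hrel p hp' q hq'
    rw [hpq', sub_self, mul_zero] at h1
    have h2 : p.1.2 = q.1.2 := by omega
    obtain ⟨_, _, p3, p4, _⟩ := hmem p hp'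
    obtain ⟨_, _, q3, q4, _⟩ := hmem q hq'
    have h3 : (N : ℤ) ∣ (p.2 : ℤ) - q.2 := by
      have := dvd_sub p4 q4
      rw [hpq'] at this
      have e : ((j : ℤ) - h) - ((q.1.1 : ℤ) - p.2) - (((j : ℤ) - h) - ((q.1.1 : ℤ) - q.2)) =
        (p.2 : ℤ) - q.2 := by ring
      rwa [e] at this
    have h4 : (p.2 : ℤ) - q.2 = 0 := by
      apply Int.eq_zero_of_abs_lt_dvd h3
      rw [abs_lt]; constructor <;> omega
    have h5 : p.2 = q.2 := by omega
    exact Prod.ext (Prod.ext hpq' h2) h5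
  split_ifs with hcond
  · rw [← card_image_of_injOn hinj]
    apply card_diam _ k1 H2 hk1
    intro x hx y hy
    rw [mem_image] at hx hy
    obtain ⟨p, hp, rfl⟩ := hx
    obtain ⟨q, hq, rfl⟩ := hy
    have h1 := hrel p hp q hq
    obtain ⟨_, p2, _⟩ := hmem p hp
    obtain ⟨_, q2, _⟩ := hmem q hq
    rcases hσ with h | h
    · subst h
      have : (k1 : ℤ) * ((q.1.1 : ℤ) - p.1.1) = (q.1.2 : ℤ) - p.1.2 := by linarith
      rw [this]; omega
    · subst h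
      have : (k1 : ℤ) * ((q.1.1 : ℤ) - p.1.1) = (p.1.2 : ℤ) - q.1.2 := by linarith
      rw [this]; omega
  · have : F = ∅ := by
      rw [eq_empty_iff_forall_notMem]
      intro p hp
      apply hcond
      obtain ⟨p1, p2, p3, ⟨s, hs⟩, ⟨t, ht⟩⟩ := hmem p hp
      -- the integer close to `(k1 - k) h / N`
      have hN0 : (0 : ℝ) < N := by exact_mod_cast hN
      have key : ∃ P : ℤ, (((k1 : ℤ) - k) * h : ℤ) - N * P =
          σ * ((p.1.2 : ℤ) - j') + k1 * ((j : ℤ) - p.1.1) := by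
        refine ⟨-(k1 * s) + σ * t, ?_⟩
        have a1 : (p.2 : ℤ) = N * s - j + h + p.1.1 := by linarith
        rw [a1] at ht
        rcases hσ with h | h <;> subst h
        · linear_combination ht
        · linear_combination -ht
      obtain ⟨P, hP⟩ := key
      have hb : |(((((k1 : ℤ) - k) * h : ℤ) - N * P : ℤ) : ℝ)| ≤ (H2 : ℝ) + K * H := by
        rw [hP]
        push_cast
        have c1 : |(σ : ℝ) * ((p.1.2 : ℝ) - j')| ≤ H2 := by
          have : |(p.1.2 : ℝ) - j'| ≤ H2 := by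
            have i1 : (p.1.2 : ℝ) ≤ H2 := by exact_mod_cast p2.le
            have i2 : (j' : ℝ) ≤ H2 := by exact_mod_cast hj'.le
            have i3 : (0 : ℝ) ≤ p.1.2 := by positivity
            have i4 : (0 : ℝ) ≤ j' := by positivity
            rw [abs_le]; constructor <;> linarith
          rcases hσ with h | h <;> subst h
          · simpa using this
          · simp only [Int.cast_neg, Int.cast_one, neg_mul, one_mul, abs_neg]; exact this
        have c2 : |(k1 : ℝ) * ((j : ℝ) - p.1.1)| ≤ K * H := by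
          rw [abs_mul, abs_of_nonneg (by positivity : (0:ℝ) ≤ k1)]
          have : |(j : ℝ) - p.1.1| ≤ H := by
            have i1 : (p.1.1 : ℝ) ≤ H := by exact_mod_cast p1.le
            have i2 : (j : ℝ) ≤ H := by exact_mod_cast hj.le
            have i3 : (0 : ℝ) ≤ p.1.1 := by positivity
            have i4 : (0 : ℝ) ≤ j := by positivity
            rw [abs_le]; constructor <;> linarith
          exact mul_le_mul (by exact_mod_cast hk1K) this (abs_nonneg _) (by positivity)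
        exact (abs_add_le _ _).trans (add_le_add c1 c2)
      have h1 : nint ((((k1 : ℤ) - k : ℤ) : ℝ) * ((h : ℝ) / N)) ≤
          |(((k1 : ℤ) - k : ℤ) : ℝ) * ((h : ℝ) / N) - (P : ℤ)| := round_le _ _
      refine h1.trans ?_
      have h2 : (((k1 : ℤ) - k : ℤ) : ℝ) * ((h : ℝ) / N) - (P : ℤ) =
          (((((k1 : ℤ) - k) * h : ℤ) - N * P : ℤ) : ℝ) / N := by
        push_cast; field_simp
      rw [h2, abs_div, abs_of_pos hN0]
      have h3 : ((H2 : ℝ) + K * H) / N ≤ 1 / (2 * (D : ℝ)) + (K : ℝ) / (2 * (A : ℝ)) := by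
        rw [add_div]
        have hD0 : (0 : ℝ) < D := by exact_mod_cast hD
        have hA0 : (0 : ℝ) < A := by exact_mod_cast hA
        have i1 : 2 * (D : ℝ) * H2 ≤ N := by exact_mod_cast hDH
        have i2 : 2 * (A : ℝ) * H ≤ N := by exact_mod_cast hAH
        apply add_le_add
        · rw [div_le_div_iff₀ hN0 (by positivity)]; linarith
        · rw [div_le_div_iff₀ hN0 (by positivity)]
          nlinarith [(by positivity : (0:ℝ) ≤ K)]
      exact (div_le_div_of_nonneg_right hb hN0.le).trans h3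
    rw [this]; simp

/-- summing the fibre bound over `k, k1` -/
lemma fibre_sum (K H2 : ℕ) (T : Finset ℕ) (hT : T ⊆ Icc 1 K) (Δ α R : ℝ)
    (hR : (nu K Δ α : ℝ) ≤ R) :
    ∑ k ∈ T, ∑ k1 ∈ T, (if nint ((((k1 : ℤ) - k : ℤ) : ℝ) * α) ≤ Δ
      then (H2 : ℝ) / k1 + 1 else 0) ≤ R * (H2 * (1 + Real.log K) + K) := by
  classical
  rw [sum_comm]
  have h1 : ∀ k1 ∈ T, ∑ k ∈ T, (if nint ((((k1 : ℤ) - k : ℤ) : ℝ) * α) ≤ Δ
      then (H2 : ℝ) / k1 + 1 else 0) ≤ ((H2 : ℝ) / k1 + 1) * R := by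
    intro k1 hk1
    rw [← sum_filter, sum_const, nsmul_eq_mul, mul_comm]
    apply mul_le_mul_of_nonneg_left _ (by positivity)
    refine le_trans ?_ hR
    unfold nu
    have hk1' := mem_Icc.mp (hT hk1)
    rw [← card_image_of_injective (T.filter (fun k : ℕ =>
      nint ((((k1 : ℤ) - k : ℤ) : ℝ) * α) ≤ Δ)) (f := fun k : ℕ => (k1 : ℤ) - k)
      (by intro a b hab; simp only at hab; omega)]
    refine Nat.cast_le.mpr (card_le_card ?_)
    intro g hg
    rw [mem_image] at hg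
    obtain ⟨k, hk, rfl⟩ := hg
    rw [mem_filter] at hk
    have hk' := mem_Icc.mp (hT hk.1)
    rw [mem_filter, mem_Icc]
    exact ⟨⟨by omega, by omega⟩, hk.2⟩
  refine (sum_le_sum h1).trans ?_
  have hR0 : 0 ≤ R := le_trans (Nat.cast_nonneg _) hR
  rw [← sum_mul, mul_comm]
  apply mul_le_mul_of_nonneg_left _ hR0
  have h2 : ∑ k1 ∈ T, ((H2 : ℝ) / k1 + 1) ≤ ∑ k1 ∈ Icc 1 K, ((H2 : ℝ) / k1 + 1) :=
    sum_le_sum_of_subset_of_nonneg hT (fun _ _ _ => by positivity)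
  refine h2.trans ?_
  rw [sum_add_distrib, sum_const, Nat.card_Icc, Nat.add_sub_cancel, nsmul_eq_mul, mul_one]
  have h3 : ∑ k1 ∈ Icc 1 K, (H2 : ℝ) / k1 = H2 * ∑ k1 ∈ Icc 1 K, (k1 : ℝ)⁻¹ := by
    rw [mul_sum]; apply sum_congr rfl; intro k _; ring
  rw [h3]
  have h4 : ∑ k1 ∈ Icc 1 K, (k1 : ℝ)⁻¹ ≤ 1 + Real.log K := by
    have := harmonic_le_one_add_log K
    rw [harmonic_eq_sum_Icc] at this
    push_cast at this
    exact this
  have h5 : (0 : ℝ) ≤ H2 := by positivity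
  nlinarith

end MinorAux

open MinorAux in
/-- T1. Minor arcs: a finite large-sieve type inequality in two variables. -/
theorem minor (N K D A : ℕ) (hK : 1 ≤ K) (hD : 4 ≤ D) (hN : 8 * D * K ≤ N) (hNA : 8 * A ≤ N)
    (hA : 2 * K ≤ A) (a0 : ℕ) (σ : ℤ) (hσ : σ = 1 ∨ σ = -1) (T : Finset ℕ) (hT : T ⊆ Icc 1 K)
    (c : ℕ → ℂ) (R : ℝ)
    (hR : ∀ h ∈ range N, c h ≠ 0 →
      (nu K (1 / (2 * (D : ℝ)) + (K : ℝ) / (2 * (A : ℝ))) ((h : ℝ) / N) : ℝ) ≤ R) :
    ∑ a ∈ Ioc a0 (a0 + A), ∑ d ∈ Ioc D (2 * D),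
      ‖∑ k ∈ T, ∑ h ∈ range N, c h * e (-(((a : ℝ) + σ * d * k) * h / N))‖ ^ 2 ≤
      100 * A * N * (1 + Real.log K) * R * ∑ h ∈ range N, ‖c h‖ ^ 2 := by
  classical
  -- parameters
  obtain ⟨H, hHdef⟩ : ∃ H, H = N / (2 * A) := ⟨_, rfl⟩
  obtain ⟨H2, hH2def⟩ : ∃ H2, H2 = N / (2 * D) := ⟨_, rfl⟩
  have hA1 : 2 ≤ A := by omega
  have hNpos : 0 < N := by omega
  have hH4 : 4 ≤ H := by
    rw [hHdef]; exact (Nat.le_div_iff_mul_le (by omega)).mpr (by omega)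
  have hH24 : 4 * K ≤ H2 := by
    rw [hH2def]; exact (Nat.le_div_iff_mul_le (by omega)).mpr (by nlinarith)
  have hAH : 2 * A * H ≤ N := by rw [hHdef]; exact Nat.mul_div_le N (2 * A)
  have hDH : 2 * D * H2 ≤ N := by rw [hH2def]; exact Nat.mul_div_le N (2 * D)
  have hKH : 4 * K * H ≤ N := le_trans (by nlinarith) hAH
  have h8 : 8 * H2 ≤ N := le_trans (by nlinarith) hDH
  have hNH : N < 2 * A * (H + 1) := by
    rw [hHdef]
    exact Nat.lt_mul_div_succ N (by omega)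
  have hAN : A ≤ N := by omega
  have hDN : D ≤ N := by nlinarith
  have hN0 : (0 : ℝ) < N := by exact_mod_cast hNpos
  have hA0 : (0 : ℝ) < A := by exact_mod_cast (by omega : 0 < A)
  have hD0 : (0 : ℝ) < D := by exact_mod_cast (by omega : 0 < D)
  have hH0 : (0 : ℝ) < H := by exact_mod_cast (by omega : 0 < H)
  have hH20 : (0 : ℝ) < H2 := by exact_mod_cast (by omega : 0 < H2)
  have hpi := Real.pi_pos
  -- the sums
  set S : ℕ → ℕ → ℂ := fun a d =>
    ∑ k ∈ T, ∑ h ∈ range N, c h * e (-(((a : ℝ) + σ * d * k) * h / N)) with hS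
  set W : ℕ → ℂ := fun a => ∑ j ∈ range H, e ((j : ℝ) * (((a : ℝ) + 1) / N)) with hW
  set V : ℕ → ℂ := fun d => ∑ j ∈ range H2, e ((j : ℝ) * (((d : ℝ) + 1) / N)) with hV
  have hshift : ∀ (m n : ℕ) (f : ℕ → ℝ), ∑ a ∈ Ioc m (m + n), f a =
      ∑ a ∈ range n, f (m + 1 + a) := by
    intro m n f
    have : Ioc m (m + n) = Ico (m + 1) (m + n + 1) := by
      ext x; rw [mem_Ioc, mem_Ico]; omega
    rw [this, sum_Ico_eq_sum_range]
    congr 2; omega
  have hL : ∑ a ∈ Ioc a0 (a0 + A), ∑ d ∈ Ioc D (2 * D), ‖S a d‖ ^ 2 =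
      ∑ a ∈ range A, ∑ d ∈ range D, ‖S (a0 + 1 + a) (D + 1 + d)‖ ^ 2 := by
    rw [hshift]
    apply sum_congr rfl; intro a _
    rw [two_mul D, hshift]
  have hWb : ∀ a ∈ range A, (2 / Real.pi) * H ≤ ‖W a‖ := by
    intro a ha
    apply weight H (((a : ℝ) + 1) / N) (by positivity)
    have h1 : ((a : ℝ) + 1) ≤ A := by exact_mod_cast mem_range.mp ha
    have h2 : 2 * (A : ℝ) * H ≤ N := by exact_mod_cast hAH
    rw [mul_div_assoc', div_le_div_iff₀ hN0 (by norm_num)]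
    nlinarith
  have hVb : ∀ d ∈ range D, (2 / Real.pi) * H2 ≤ ‖V d‖ := by
    intro d hd
    apply weight H2 (((d : ℝ) + 1) / N) (by positivity)
    have h1 : ((d : ℝ) + 1) ≤ D := by exact_mod_cast mem_range.mp hd
    have h2 : 2 * (D : ℝ) * H2 ≤ N := by exact_mod_cast hDH
    rw [mul_div_assoc', div_le_div_iff₀ hN0 (by norm_num)]
    nlinarith
  -- the constant
  set κ : ℝ := (Real.pi ^ 2 / 4 / (H * H2)) ^ 2 with hκ
  have hstep : ∀ a ∈ range A, ∀ d ∈ range D, ‖S (a0 + 1 + a) (D + 1 + d)‖ ^ 2 ≤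
      κ * ‖W a * V d * S (a0 + 1 + a) (D + 1 + d)‖ ^ 2 := by
    intro a ha d hd
    have h1 := hWb a ha
    have h2 := hVb d hd
    have h3 : (2 / Real.pi) * H * ((2 / Real.pi) * H2) ≤ ‖W a‖ * ‖V d‖ :=
      mul_le_mul h1 h2 (by positivity) (norm_nonneg _)
    have h4 : ‖S (a0 + 1 + a) (D + 1 + d)‖ ≤
        (Real.pi ^ 2 / 4 / (H * H2)) * ‖W a * V d * S (a0 + 1 + a) (D + 1 + d)‖ := by
      rw [norm_mul, norm_mul, ← mul_assoc]
      have h5 : 1 ≤ (Real.pi ^ 2 / 4 / (H * H2)) * (‖W a‖ * ‖V d‖) := by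
        calc (1 : ℝ) = (Real.pi ^ 2 / 4 / (H * H2)) * ((2 / Real.pi) * H * ((2 / Real.pi) * H2)) := by
              field_simp; norm_num
          _ ≤ _ := mul_le_mul_of_nonneg_left h3 (by positivity)
      calc ‖S (a0 + 1 + a) (D + 1 + d)‖ = 1 * ‖S (a0 + 1 + a) (D + 1 + d)‖ := (one_mul _).symm
        _ ≤ _ := mul_le_mul_of_nonneg_right h5 (norm_nonneg _)
    calc ‖S (a0 + 1 + a) (D + 1 + d)‖ ^ 2 ≤
        ((Real.pi ^ 2 / 4 / (H * H2)) * ‖W a * V d * S (a0 + 1 + a) (D + 1 + d)‖) ^ 2 := by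
          gcongr
      _ = _ := by rw [mul_pow]
  -- index set
  set I : Finset (((ℕ × ℕ) × ℕ) × ℕ) := ((range H ×ˢ range H2) ×ˢ range N) ×ˢ T with hI
  set u : (((ℕ × ℕ) × ℕ) × ℕ) → ℤ := fun i => (i.1.1.1 : ℤ) - i.1.2 with hu
  set v : (((ℕ × ℕ) × ℕ) × ℕ) → ℤ := fun i => (i.1.1.2 : ℤ) - σ * i.2 * i.1.2 with hv
  set z : (((ℕ × ℕ) × ℕ) × ℕ) → ℂ := fun i => c i.1.2 *
    e (((i.1.1.1 : ℝ) + i.1.1.2 - ((a0 : ℝ) + 1 + σ * (D + 1) * i.2) * i.1.2) / N) with hz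
  have hexp : ∀ a d : ℕ, W a * V d * S (a0 + 1 + a) (D + 1 + d) =
      ∑ i ∈ I, z i * (e ((u i : ℝ) * a / N) * e ((v i : ℝ) * d / N)) := by
    intro a d
    have h1 : ∀ i ∈ I, z i * (e ((u i : ℝ) * a / N) * e ((v i : ℝ) * d / N)) =
        e ((i.1.1.1 : ℝ) * (((a : ℝ) + 1) / N)) * (e ((i.1.1.2 : ℝ) * (((d : ℝ) + 1) / N)) *
          (c i.1.2 * e (-((((a0 + 1 + a : ℕ) : ℝ) + σ * ((D + 1 + d : ℕ) : ℝ) * i.2) *
            i.1.2 / N)))) := by
      intro i _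
      simp only [hz, hu, hv]
      have h2 : e (((i.1.1.1 : ℝ) + i.1.1.2 - ((a0 : ℝ) + 1 + σ * (D + 1) * i.2) * i.1.2) / N) *
          (e ((((i.1.1.1 : ℤ) - i.1.2 : ℤ) : ℝ) * a / N) *
            e ((((i.1.1.2 : ℤ) - σ * i.2 * i.1.2 : ℤ) : ℝ) * d / N)) =
          e ((i.1.1.1 : ℝ) * (((a : ℝ) + 1) / N)) * (e ((i.1.1.2 : ℝ) * (((d : ℝ) + 1) / N)) *
            e (-((((a0 + 1 + a : ℕ) : ℝ) + σ * ((D + 1 + d : ℕ) : ℝ) * i.2) * i.1.2 / N))) := by
        rw [← e_add, ← e_add, ← e_add, ← e_add]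
        congr 1
        push_cast
        field_simp
        ring
      rw [mul_assoc, h2]
      ring
    rw [sum_congr rfl h1, hI, sum_product, sum_product, sum_product]
    simp only [hW, hV, hS]
    simp only [← mul_sum]
    rw [← sum_mul]
    rw [mul_assoc]
    congr 1
    rw [← sum_mul]
    congr 1
    rw [sum_comm]
    apply sum_congr rfl; intro k _
    rw [mul_sum]
  -- extension to full periods
  have hfull : ∑ a ∈ range A, ∑ d ∈ range D, ‖S (a0 + 1 + a) (D + 1 + d)‖ ^ 2 ≤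
      κ * ∑ a ∈ range N, ∑ d ∈ range N,
        ‖∑ i ∈ I, z i * (e ((u i : ℝ) * a / N) * e ((v i : ℝ) * d / N))‖ ^ 2 := by
    have hκ0 : 0 ≤ κ := by positivity
    calc ∑ a ∈ range A, ∑ d ∈ range D, ‖S (a0 + 1 + a) (D + 1 + d)‖ ^ 2
        ≤ ∑ a ∈ range A, ∑ d ∈ range D,
          κ * ‖W a * V d * S (a0 + 1 + a) (D + 1 + d)‖ ^ 2 :=
          sum_le_sum (fun a ha => sum_le_sum (hstep a ha))
      _ = κ * ∑ a ∈ range A, ∑ d ∈ range D, ‖W a * V d * S (a0 + 1 + a) (D + 1 + d)‖ ^ 2 := by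
          rw [mul_sum]; apply sum_congr rfl; intro a _; rw [mul_sum]
      _ ≤ κ * ∑ a ∈ range N, ∑ d ∈ range N, ‖W a * V d * S (a0 + 1 + a) (D + 1 + d)‖ ^ 2 := by
          apply mul_le_mul_of_nonneg_left _ hκ0
          calc ∑ a ∈ range A, ∑ d ∈ range D, ‖W a * V d * S (a0 + 1 + a) (D + 1 + d)‖ ^ 2
              ≤ ∑ a ∈ range A, ∑ d ∈ range N, ‖W a * V d * S (a0 + 1 + a) (D + 1 + d)‖ ^ 2 := by
                apply sum_le_sum; intro a _
                exact sum_le_sum_of_subset_of_nonneg (range_subset_range.mpr hDN)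
                  (fun _ _ _ => by positivity)
            _ ≤ _ := sum_le_sum_of_subset_of_nonneg (range_subset_range.mpr hAN)
                  (fun _ _ _ => by positivity)
      _ = _ := by
          congr 1
          apply sum_congr rfl; intro a _
          apply sum_congr rfl; intro d _
          rw [hexp]
  have hpars := parseval2 N hNpos I u v z
  -- counting
  have hcount : ∑ i ∈ I, ‖z i‖ ^ 2 *
        ((I.filter (fun i' => (N : ℤ) ∣ u i - u i' ∧ (N : ℤ) ∣ v i - v i')).card : ℝ) ≤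
      (H * H2) * ((R * (H2 * (1 + Real.log K) + K)) * ∑ h ∈ range N, ‖c h‖ ^ 2) := by
    have hcard : ∀ i ∈ I,
        ((I.filter (fun i' => (N : ℤ) ∣ u i - u i' ∧ (N : ℤ) ∣ v i - v i')).card : ℝ) =
        ∑ k1 ∈ T, ((((range H ×ˢ range H2) ×ˢ range N).filter (fun p : (ℕ × ℕ) × ℕ =>
          (N : ℤ) ∣ ((i.1.1.1 : ℤ) - i.1.2) - ((p.1.1 : ℤ) - p.2) ∧
          (N : ℤ) ∣ ((i.1.1.2 : ℤ) - σ * i.2 * i.1.2) -
            ((p.1.2 : ℤ) - σ * k1 * p.2))).card : ℝ) := by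
      intro i _
      rw [card_filter, hI, sum_product_right]
      push_cast
      apply sum_congr rfl; intro k1 _
      rw [card_filter]
      push_cast
      apply sum_congr rfl; intro p _
      simp only [hu, hv]
    have hzn : ∀ i ∈ I, ‖z i‖ = ‖c i.1.2‖ := by
      intro i _
      simp only [hz]
      rw [norm_mul, norm_e, mul_one]
    have h1 : ∑ i ∈ I, ‖z i‖ ^ 2 *
        ((I.filter (fun i' => (N : ℤ) ∣ u i - u i' ∧ (N : ℤ) ∣ v i - v i')).card : ℝ) =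
        ∑ i ∈ I, ‖c i.1.2‖ ^ 2 *
        ∑ k1 ∈ T, ((((range H ×ˢ range H2) ×ˢ range N).filter (fun p : (ℕ × ℕ) × ℕ =>
          (N : ℤ) ∣ ((i.1.1.1 : ℤ) - i.1.2) - ((p.1.1 : ℤ) - p.2) ∧
          (N : ℤ) ∣ ((i.1.1.2 : ℤ) - σ * i.2 * i.1.2) -
            ((p.1.2 : ℤ) - σ * k1 * p.2))).card : ℝ) := by
      apply sum_congr rfl; intro i hi
      rw [hzn i hi, hcard i hi]
    rw [h1, hI, sum_product, sum_product]
    have h2 : ∀ y ∈ range H ×ˢ range H2, ∑ h ∈ range N, ∑ k ∈ T, ‖c h‖ ^ 2 *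
        ∑ k1 ∈ T, ((((range H ×ˢ range H2) ×ˢ range N).filter (fun p : (ℕ × ℕ) × ℕ =>
          (N : ℤ) ∣ ((y.1 : ℤ) - h) - ((p.1.1 : ℤ) - p.2) ∧
          (N : ℤ) ∣ ((y.2 : ℤ) - σ * k * h) -
            ((p.1.2 : ℤ) - σ * k1 * p.2))).card : ℝ) ≤
        (R * (H2 * (1 + Real.log K) + K)) * ∑ h ∈ range N, ‖c h‖ ^ 2 := by
      intro y hy
      rw [mem_product, mem_range, mem_range] at hy
      rw [mul_sum]
      apply sum_le_sum; intro h hh
      rw [← mul_sum]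
      by_cases hc : c h = 0
      · rw [hc]; simp
      · have h3 := hR h hh hc
        rw [mul_comm]
        apply mul_le_mul_of_nonneg_right _ (by positivity)
        refine le_trans ?_ (fibre_sum K H2 T hT _ _ R h3)
        apply sum_le_sum; intro k hk
        apply sum_le_sum; intro k1 hk1
        have hk1' := mem_Icc.mp (hT hk1)
        exact fibre N K D A H H2 hNpos (by omega) (by omega) hKH h8 hAH hDH σ hσ y.1 h k k1 y.2
          hk1'.1 hk1'.2 hy.1 hy.2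
    calc _ ≤ ∑ y ∈ range H ×ˢ range H2,
          (R * (H2 * (1 + Real.log K) + K)) * ∑ h ∈ range N, ‖c h‖ ^ 2 := sum_le_sum h2
      _ = _ := by
          rw [sum_const, card_product, card_range, card_range, nsmul_eq_mul]
          push_cast; ring
  -- conclusion
  have hSS : 0 ≤ R * ∑ h ∈ range N, ‖c h‖ ^ 2 := by
    by_cases hall : ∀ h ∈ range N, c h = 0
    · rw [sum_eq_zero (fun h hh => by rw [hall h hh]; simp)]; simp
    · push Not at hall
      obtain ⟨h, hh, hc⟩ := hall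
      have : 0 ≤ R := le_trans (Nat.cast_nonneg _) (hR h hh hc)
      positivity
  rw [show (∑ a ∈ Ioc a0 (a0 + A), ∑ d ∈ Ioc D (2 * D),
      ‖∑ k ∈ T, ∑ h ∈ range N, c h * e (-(((a : ℝ) + σ * d * k) * h / N))‖ ^ 2) =
      ∑ a ∈ Ioc a0 (a0 + A), ∑ d ∈ Ioc D (2 * D), ‖S a d‖ ^ 2 from rfl, hL]
  refine hfull.trans ?_
  have hκ0 : 0 ≤ κ := by positivity
  have hlogK : 0 ≤ Real.log K := Real.log_nonneg (by exact_mod_cast hK)
  have hK4 : 4 * (K : ℝ) ≤ H2 := by exact_mod_cast hH24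
  calc κ * ∑ a ∈ range N, ∑ d ∈ range N,
        ‖∑ i ∈ I, z i * (e ((u i : ℝ) * a / N) * e ((v i : ℝ) * d / N))‖ ^ 2
      ≤ κ * ((N : ℝ) ^ 2 * ((H * H2) * ((R * (H2 * (1 + Real.log K) + K)) *
          ∑ h ∈ range N, ‖c h‖ ^ 2))) := by
        apply mul_le_mul_of_nonneg_left _ hκ0
        refine hpars.trans ?_
        exact mul_le_mul_of_nonneg_left hcount (by positivity)
    _ = (κ * (N : ℝ) ^ 2 * (H * H2)) * ((H2 * (1 + Real.log K) + K)) *
          (R * ∑ h ∈ range N, ‖c h‖ ^ 2) := by ring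
    _ ≤ (100 * A * N * (1 + Real.log K)) * (R * ∑ h ∈ range N, ‖c h‖ ^ 2) := by
        apply mul_le_mul_of_nonneg_right _ hSS
        have e1 : κ * (N : ℝ) ^ 2 * (H * H2) = Real.pi ^ 4 / 16 * (N ^ 2 / (H * H2)) := by
          rw [hκ]; field_simp; ring
        rw [e1]
        have e2 : (H2 * (1 + Real.log K) + K) ≤ (5 / 4) * H2 * (1 + Real.log K) := by
          nlinarith
        have e3 : Real.pi ^ 4 ≤ 99 := by
          have h1 := Real.pi_lt_d2
          have h2 : Real.pi ^ 2 ≤ 9.93 := by nlinarith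
          have h3 : Real.pi ^ 4 = (Real.pi ^ 2) ^ 2 := by ring
          rw [h3]; nlinarith [sq_nonneg Real.pi]
        have e4 : (N : ℝ) ≤ (5 / 2) * A * H := by
          have h1 : (N : ℝ) < 2 * A * (H + 1) := by exact_mod_cast hNH
          have h2 : (4 : ℝ) ≤ H := by exact_mod_cast hH4
          nlinarith
        calc Real.pi ^ 4 / 16 * ((N : ℝ) ^ 2 / (H * H2)) * (H2 * (1 + Real.log K) + K)
            ≤ 99 / 16 * ((N : ℝ) ^ 2 / (H * H2)) * ((5 / 4) * H2 * (1 + Real.log K)) := by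
              gcongr
          _ = (495 / 64) * (1 + Real.log K) * N * (N / H) := by
              field_simp; ring
          _ ≤ (495 / 64) * (1 + Real.log K) * N * ((5 / 2) * A) := by
              have : (N : ℝ) / H ≤ (5 / 2) * A := by rw [div_le_iff₀ hH0]; exact e4
              gcongr
          _ ≤ 100 * A * N * (1 + Real.log K) := by
              have : 0 ≤ A * N * (1 + Real.log K) := by positivity
              nlinarith
    _ = _ := by ring

end Pool.Agent.H442R2.EHI
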