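import Pool.Agent.H43.G.R_seed8.H442R2.EHI.Defs
import Pool.Agent.H43.G.R_seed8.H336R2.V.Raman

/-! T0: Ramanujan sums. -/

set_option autoImplicit false

namespace Pool.Agent.H442R2.EHI

open Finset
open Pool.Agent.H469R2.NK (e norm_e e_add)

theorem ex_eq_e (x : ℝ) : H343.ex x = e x := by
  unfold H343.ex e
  congr 1
  try push_cast
  try ring

theorem cq_eq (q n : ℕ) : cq q n =
    ∑ b ∈ (range q).filter (fun b => b.Coprime q), H343.ex ((b : ℝ) * (n : ℤ) / q) := by
  unfold cq
  refine sum_congr rfl fun b _ => ?_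
  rw [ex_eq_e]
  push_cast
  rfl

/-- T0 (Ram.lean). -/
theorem cq_coprime (q n : ℕ) (hq : 1 ≤ q) (h : n.Coprime q) :
    cq q n = ((ArithmeticFunction.moebius q : ℤ) : ℂ) := by
  rw [cq_eq, H336V.RamanAux.raman_eq q hq]
  rw [sum_eq_single q]
  · rw [Nat.div_self (by omega)]
    simp
  · intro d hd hdq
    rw [Nat.mem_divisors] at hd
    rw [if_neg, mul_zero]
    intro h1
    have h2 : q / d ∣ n := by exact_mod_cast h1
    have h3 : q / d ∣ q := Nat.div_dvd_of_dvd hd.1
    have h4 : q / d = 1 := Nat.eq_one_of_dvd_coprimes h h2 h3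
    apply hdq
    have h5 := Nat.div_mul_cancel hd.1
    rw [h4, one_mul] at h5
    exact h5
  · intro h1
    exact absurd (Nat.mem_divisors_self q (by omega)) h1

/-- T0 (Ram.lean). -/
theorem cq_norm (q n : ℕ) : ‖cq q n‖ ≤ (Nat.totient q : ℝ) := by
  unfold cq
  refine (norm_sum_le _ _).trans ?_
  simp only [norm_e, sum_const, nsmul_eq_mul, mul_one]
  rw [Nat.totient_eq_card_coprime]
  have : (range q).filter (fun b => b.Coprime q) = (range q).filter (fun b => q.Coprime b) := by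
    refine filter_congr fun b _ => ?_
    exact Nat.coprime_comm
  rw [this]

/-- T0 (Ram.lean). For `q ∤ d` the sum of `c_q` over a period of `a + d k` vanishes. -/
theorem cq_period (q d a : ℕ) (hq : 1 ≤ q) (hd : ¬ q ∣ d) :
    ∑ k ∈ range q, cq q (a + d * k) = 0 := by
  unfold cq
  rw [sum_comm]
  refine sum_eq_zero fun b hb => ?_
  rw [mem_filter] at hb
  have h1 : ∀ k ∈ range q, e ((b : ℝ) * ((a + d * k : ℕ) : ℝ) / q) =
      e ((b : ℝ) * a / q) * H343.ex ((k : ℝ) * ((b * d : ℕ) : ℤ) / q) := by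
    intro k _
    rw [ex_eq_e, ← e_add]
    congr 1
    push_cast
    ring
  rw [sum_congr rfl h1, ← mul_sum, H336V.RamanAux.geom q hq]
  rw [if_neg, mul_zero]
  intro h2
  have h3 : q ∣ b * d := by exact_mod_cast h2
  exact hd (hb.2.symm.dvd_of_dvd_mul_left h3)

end Pool.Agent.H442R2.EHI
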