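import Pool.Agent.H43.G.R_seed8.H442R2.EHI.Defs

/-!
T6a: smooth cutoff in the logarithmic variable and two bounds for the oscillatory integral.
-/

namespace Pool.Agent.H442R2.EHI

open MeasureTheory Set
open Pool.Agent.H469R2.NK (e norm_e)

theorem Cutoff_bounds : ∃ K : ℝ, 0 < K ∧ (∀ x, |deriv Real.smoothTransition x| ≤ K) ∧
    (∀ x, |deriv (deriv Real.smoothTransition) x| ≤ K) := by
  have hc : ContDiff ℝ 2 Real.smoothTransition := Real.smoothTransition.contDiff
  have h1 : ContDiff ℝ 1 (deriv Real.smoothTransition) := by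
    have : ContDiff ℝ (1 + 1) Real.smoothTransition := by
      rw [one_add_one_eq_two]
      exact hc
    exact (contDiff_succ_iff_deriv.1 this).2.2
  have h2 : Continuous (deriv (deriv Real.smoothTransition)) := h1.continuous_deriv le_rfl
  have hz : ∀ x, x ∉ Icc (0 : ℝ) 1 → deriv Real.smoothTransition x = 0 := by
    intro x hx
    rw [mem_Icc, not_and_or, not_le, not_le] at hx
    rcases hx with h | h
    · have : Real.smoothTransition =ᶠ[nhds x] fun _ => 0 := by
        filter_upwards [Iio_mem_nhds h] with y hy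
        exact Real.smoothTransition.zero_of_nonpos (le_of_lt hy)
      rw [this.deriv_eq, deriv_const]
    · have : Real.smoothTransition =ᶠ[nhds x] fun _ => 1 := by
        filter_upwards [Ioi_mem_nhds h] with y hy
        exact Real.smoothTransition.one_of_one_le (le_of_lt hy)
      rw [this.deriv_eq, deriv_const]
  have hz2 : ∀ x, x ∉ Icc (0 : ℝ) 1 → deriv (deriv Real.smoothTransition) x = 0 := by
    intro x hx
    have hopen : (Icc (0 : ℝ) 1)ᶜ ∈ nhds x := isClosed_Icc.isOpen_compl.mem_nhds hx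
    have : deriv Real.smoothTransition =ᶠ[nhds x] fun _ => 0 := by
      filter_upwards [hopen] with y hy
      exact hz y hy
    rw [this.deriv_eq, deriv_const]
  obtain ⟨K1, hK1⟩ := h1.continuous.bounded_above_of_compact_support
    (HasCompactSupport.intro isCompact_Icc hz)
  obtain ⟨K2, hK2⟩ := h2.bounded_above_of_compact_support
    (HasCompactSupport.intro isCompact_Icc hz2)
  refine ⟨max (max K1 K2) 1, by positivity, fun x => ?_, fun x => ?_⟩
  · exact (hK1 x).trans ((le_max_left _ _).trans (le_max_left _ _))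
  · exact (hK2 x).trans ((le_max_right _ _).trans (le_max_left _ _))

/-- the cutoff -/
noncomputable def rho (s0 s1 s : ℝ) : ℝ :=
  Real.smoothTransition (s - s0 + 1) * Real.smoothTransition (s1 + 1 - s)

noncomputable def rho1 (s0 s1 s : ℝ) : ℝ :=
  deriv Real.smoothTransition (s - s0 + 1) * Real.smoothTransition (s1 + 1 - s) -
    Real.smoothTransition (s - s0 + 1) * deriv Real.smoothTransition (s1 + 1 - s)

noncomputable def rho2 (s0 s1 s : ℝ) : ℝ :=
  deriv (deriv Real.smoothTransition) (s - s0 + 1) * Real.smoothTransition (s1 + 1 - s) -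
    2 * (deriv Real.smoothTransition (s - s0 + 1) * deriv Real.smoothTransition (s1 + 1 - s)) +
    Real.smoothTransition (s - s0 + 1) * deriv (deriv Real.smoothTransition) (s1 + 1 - s)

theorem Cutoff_hasDeriv (x : ℝ) : HasDerivAt Real.smoothTransition
    (deriv Real.smoothTransition x) x := by
  have : DifferentiableAt ℝ Real.smoothTransition x :=
    (Real.smoothTransition.contDiff (n := 1)).differentiable (by norm_num) x
  exact this.hasDerivAt

theorem Cutoff_contDiff1 : ContDiff ℝ 1 (deriv Real.smoothTransition) := by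
  have : ContDiff ℝ (1 + 1) Real.smoothTransition := by
    rw [one_add_one_eq_two]
    exact Real.smoothTransition.contDiff
  exact (contDiff_succ_iff_deriv.1 this).2.2

theorem Cutoff_hasDeriv1 (x : ℝ) : HasDerivAt (deriv Real.smoothTransition)
    (deriv (deriv Real.smoothTransition) x) x :=
  (Cutoff_contDiff1.differentiable (by norm_num) x).hasDerivAt

theorem rho_deriv (s0 s1 s : ℝ) : HasDerivAt (rho s0 s1) (rho1 s0 s1 s) s := by
  have h1 : HasDerivAt (fun s => s - s0 + 1) 1 s := ((hasDerivAt_id s).sub_const s0).add_const 1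
  have h2 : HasDerivAt (fun s => s1 + 1 - s) (-1) s := (hasDerivAt_id s).const_sub (s1 + 1)
  have h3 := ((Cutoff_hasDeriv (s - s0 + 1)).comp s h1).mul
    ((Cutoff_hasDeriv (s1 + 1 - s)).comp s h2)
  refine h3.congr_deriv ?_
  simp only [Function.comp, rho1]
  ring

theorem rho1_deriv (s0 s1 s : ℝ) : HasDerivAt (rho1 s0 s1) (rho2 s0 s1 s) s := by
  have h1 : HasDerivAt (fun s => s - s0 + 1) 1 s := ((hasDerivAt_id s).sub_const s0).add_const 1
  have h2 : HasDerivAt (fun s => s1 + 1 - s) (-1) s := (hasDerivAt_id s).const_sub (s1 + 1)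
  have h3 := (((Cutoff_hasDeriv1 (s - s0 + 1)).comp s h1).mul
    ((Cutoff_hasDeriv (s1 + 1 - s)).comp s h2)).sub
    (((Cutoff_hasDeriv (s - s0 + 1)).comp s h1).mul
    ((Cutoff_hasDeriv1 (s1 + 1 - s)).comp s h2))
  refine h3.congr_deriv ?_
  simp only [Function.comp, rho2]
  ring

theorem rho_cont (s0 s1 : ℝ) : Continuous (rho s0 s1) :=
  continuous_iff_continuousAt.2 fun s => (rho_deriv s0 s1 s).continuousAt

theorem rho1_cont (s0 s1 : ℝ) : Continuous (rho1 s0 s1) :=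
  continuous_iff_continuousAt.2 fun s => (rho1_deriv s0 s1 s).continuousAt

theorem rho2_cont (s0 s1 : ℝ) : Continuous (rho2 s0 s1) := by
  have h2 : Continuous (deriv (deriv Real.smoothTransition)) :=
    Cutoff_contDiff1.continuous_deriv le_rfl
  have h1 : Continuous (deriv Real.smoothTransition) := Cutoff_contDiff1.continuous
  have h0 : Continuous Real.smoothTransition := Real.smoothTransition.continuous
  unfold rho2
  fun_prop

theorem rho_zero {s0 s1 s : ℝ} (h : s ∉ Icc (s0 - 1) (s1 + 1)) : rho s0 s1 s = 0 := by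
  rw [mem_Icc, not_and_or, not_le, not_le] at h
  unfold rho
  rcases h with h | h
  · rw [Real.smoothTransition.zero_of_nonpos (by linarith), zero_mul]
  · rw [Real.smoothTransition.zero_of_nonpos (x := s1 + 1 - s) (by linarith), mul_zero]

theorem rho1_zero {s0 s1 s : ℝ} (h : s ∉ Icc (s0 - 1) (s1 + 1)) : rho1 s0 s1 s = 0 := by
  have : rho s0 s1 =ᶠ[nhds s] fun _ => 0 := by
    filter_upwards [isClosed_Icc.isOpen_compl.mem_nhds h] with y hy
    exact rho_zero hy
  rw [← (rho_deriv s0 s1 s).deriv, this.deriv_eq, deriv_const]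

theorem rho2_zero {s0 s1 s : ℝ} (h : s ∉ Icc (s0 - 1) (s1 + 1)) : rho2 s0 s1 s = 0 := by
  have : rho1 s0 s1 =ᶠ[nhds s] fun _ => 0 := by
    filter_upwards [isClosed_Icc.isOpen_compl.mem_nhds h] with y hy
    exact rho1_zero hy
  rw [← (rho1_deriv s0 s1 s).deriv, this.deriv_eq, deriv_const]

theorem rho_nonneg (s0 s1 s : ℝ) : 0 ≤ rho s0 s1 s :=
  mul_nonneg (Real.smoothTransition.nonneg _) (Real.smoothTransition.nonneg _)

theorem rho_le_one (s0 s1 s : ℝ) : rho s0 s1 s ≤ 1 :=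
  mul_le_one₀ (Real.smoothTransition.le_one _) (Real.smoothTransition.nonneg _)
    (Real.smoothTransition.le_one _)

/-- the phase -/
noncomputable def Phi (γ s : ℝ) : ℂ := e (-(Real.exp s * γ))

theorem Phi_norm (γ s : ℝ) : ‖Phi γ s‖ = 1 := norm_e _

theorem Phi_deriv (γ s : ℝ) : HasDerivAt (Phi γ)
    ((-(2 * Real.pi * γ : ℝ) : ℂ) * Complex.I * ((Real.exp s : ℝ) : ℂ) * Phi γ s) s := by
  have h1 : HasDerivAt (fun s : ℝ => 2 * Real.pi * (-(Real.exp s * γ)))
      (2 * Real.pi * (-(Real.exp s * γ))) s :=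
    (((Real.hasDerivAt_exp s).mul_const γ).neg).const_mul _
  have h2 := (h1.ofReal_comp.mul_const Complex.I).cexp
  refine h2.congr_deriv ?_
  simp only [Phi, e]
  push_cast
  ring

theorem Phi_cont (γ : ℝ) : Continuous (Phi γ) :=
  continuous_iff_continuousAt.2 fun s => (Phi_deriv γ s).continuousAt

/-- exponentials -/
noncomputable def EE (a : ℂ) (s : ℝ) : ℂ := Complex.exp (-a * s)

theorem EE_deriv (a : ℂ) (s : ℝ) : HasDerivAt (EE a) (-a * EE a s) s := by
  have h1 : HasDerivAt (fun s : ℝ => -a * (s : ℂ)) (-a * 1) s :=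
    (Complex.ofRealCLM.hasDerivAt (x := s)).const_mul (-a)
  have h2 := h1.cexp
  refine h2.congr_deriv ?_
  simp only [EE]
  ring

theorem EE_cont (a : ℂ) : Continuous (EE a) :=
  continuous_iff_continuousAt.2 fun s => (EE_deriv a s).continuousAt

theorem EE_norm (a : ℂ) (s : ℝ) : ‖EE a s‖ = Real.exp (-a.re * s) := by
  rw [EE, Complex.norm_exp]
  simp

/-- `κ = 1/2 + 2πiξ` -/
noncomputable def kap (ξ : ℝ) : ℂ := 1 / 2 + ((2 * Real.pi * ξ : ℝ) : ℂ) * Complex.I

noncomputable def fA (s0 s1 ξ s : ℝ) : ℂ := (rho s0 s1 s : ℂ) * EE (kap ξ) s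

noncomputable def fA' (s0 s1 ξ s : ℝ) : ℂ :=
  ((rho1 s0 s1 s : ℂ) - kap ξ * (rho s0 s1 s : ℂ)) * EE (kap ξ) s

noncomputable def fB (s0 s1 ξ s : ℝ) : ℂ :=
  ((rho1 s0 s1 s : ℂ) - kap ξ * (rho s0 s1 s : ℂ)) * EE (kap ξ + 1) s

noncomputable def fB' (s0 s1 ξ s : ℝ) : ℂ :=
  ((rho2 s0 s1 s : ℂ) - kap ξ * (rho1 s0 s1 s : ℂ) -
    (kap ξ + 1) * ((rho1 s0 s1 s : ℂ) - kap ξ * (rho s0 s1 s : ℂ))) * EE (kap ξ + 1) s

theorem fA_deriv (s0 s1 ξ s : ℝ) : HasDerivAt (fA s0 s1 ξ) (fA' s0 s1 ξ s) s := by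
  have h := (rho_deriv s0 s1 s).ofReal_comp.mul (EE_deriv (kap ξ) s)
  refine h.congr_deriv ?_
  simp only [fA']
  ring

theorem fB_deriv (s0 s1 ξ s : ℝ) : HasDerivAt (fB s0 s1 ξ) (fB' s0 s1 ξ s) s := by
  have h := (((rho1_deriv s0 s1 s).ofReal_comp).sub
    ((rho_deriv s0 s1 s).ofReal_comp.const_mul (kap ξ))).mul (EE_deriv (kap ξ + 1) s)
  refine h.congr_deriv ?_
  simp only [fB', Pi.sub_apply]
  ring

theorem fA'_cont (s0 s1 ξ : ℝ) : Continuous (fA' s0 s1 ξ) := by
  have h0 := rho_cont s0 s1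
  have h1 := rho1_cont s0 s1
  have h2 := EE_cont (kap ξ)
  unfold fA'
  fun_prop

theorem fB'_cont (s0 s1 ξ : ℝ) : Continuous (fB' s0 s1 ξ) := by
  have h0 := rho_cont s0 s1
  have h1 := rho1_cont s0 s1
  have h3 := rho2_cont s0 s1
  have h2 := EE_cont (kap ξ + 1)
  unfold fB'
  fun_prop

theorem Cutoff_int {s0 s1 : ℝ} {h k : ℝ → ℂ} (hc : Continuous h) (hk : Continuous k)
    (hz : ∀ s, s ∉ Icc (s0 - 1) (s1 + 1) → h s = 0) : Integrable (h * k) := by
  have hcs : HasCompactSupport (h * k) := by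
    refine HasCompactSupport.intro (K := Icc (s0 - 1) (s1 + 1)) isCompact_Icc fun x hx => ?_
    show h x * k x = 0
    rw [hz x hx, zero_mul]
  exact (hc.mul hk).integrable_of_hasCompactSupport hcs

theorem Cutoff_parts (s0 s1 ξ γ : ℝ) (hγ : γ ≠ 0) :
    ∫ s : ℝ, (((Real.exp (s / 2) * rho s0 s1 s : ℝ) : ℂ) * e (-(ξ * s))) *
      e (-(Real.exp s * γ)) =
    ((-(2 * Real.pi * γ : ℝ) : ℂ) * Complex.I)⁻¹ ^ 2 * ∫ s : ℝ, fB' s0 s1 ξ s * Phi γ s := by
  set c : ℂ := (-(2 * Real.pi * γ : ℝ) : ℂ) * Complex.I with hc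
  have hc0 : c ≠ 0 := by
    rw [hc]
    refine mul_ne_zero (neg_ne_zero.2 ?_) Complex.I_ne_zero
    rw [Complex.ofReal_ne_zero]
    have := Real.pi_pos
    positivity
  have hPc := Phi_cont γ
  have hPc' : Continuous fun s : ℝ => c * ((Real.exp s : ℝ) : ℂ) * Phi γ s := by fun_prop
  have hAc : Continuous (fA s0 s1 ξ) :=
    continuous_iff_continuousAt.2 fun s => (fA_deriv s0 s1 ξ s).continuousAt
  have hBc : Continuous (fB s0 s1 ξ) :=
    continuous_iff_continuousAt.2 fun s => (fB_deriv s0 s1 ξ s).continuousAt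
  have hAz : ∀ s, s ∉ Icc (s0 - 1) (s1 + 1) → fA s0 s1 ξ s = 0 := by
    intro s hs
    simp [fA, rho_zero hs]
  have hAz' : ∀ s, s ∉ Icc (s0 - 1) (s1 + 1) → fA' s0 s1 ξ s = 0 := by
    intro s hs
    simp [fA', rho_zero hs, rho1_zero hs]
  have hBz : ∀ s, s ∉ Icc (s0 - 1) (s1 + 1) → fB s0 s1 ξ s = 0 := by
    intro s hs
    simp [fB, rho_zero hs, rho1_zero hs]
  have hBz' : ∀ s, s ∉ Icc (s0 - 1) (s1 + 1) → fB' s0 s1 ξ s = 0 := by
    intro s hs
    simp [fB', rho_zero hs, rho1_zero hs, rho2_zero hs]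
  have hAP : ∫ s : ℝ, fA s0 s1 ξ s * (c * ((Real.exp s : ℝ) : ℂ) * Phi γ s) =
      - ∫ s : ℝ, fA' s0 s1 ξ s * Phi γ s :=
    integral_mul_deriv_eq_deriv_mul_of_integrable (fun x _ => fA_deriv s0 s1 ξ x)
      (fun x _ => Phi_deriv γ x) (Cutoff_int hAc hPc' hAz)
      (Cutoff_int (fA'_cont s0 s1 ξ) hPc hAz') (Cutoff_int hAc hPc hAz)
  have hBP : ∫ s : ℝ, fB s0 s1 ξ s * (c * ((Real.exp s : ℝ) : ℂ) * Phi γ s) =
      - ∫ s : ℝ, fB' s0 s1 ξ s * Phi γ s :=
    integral_mul_deriv_eq_deriv_mul_of_integrable (fun x _ => fB_deriv s0 s1 ξ x)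
      (fun x _ => Phi_deriv γ x) (Cutoff_int hBc hPc' hBz)
      (Cutoff_int (fB'_cont s0 s1 ξ) hPc hBz') (Cutoff_int hBc hPc hBz)
  have e1 : ∀ s : ℝ, (((Real.exp (s / 2) * rho s0 s1 s : ℝ) : ℂ) * e (-(ξ * s))) *
      e (-(Real.exp s * γ)) = c⁻¹ * (fA s0 s1 ξ s * (c * ((Real.exp s : ℝ) : ℂ) * Phi γ s)) := by
    intro s
    have h1 : ((Real.exp (s / 2) : ℝ) : ℂ) * e (-(ξ * s)) =
        EE (kap ξ) s * ((Real.exp s : ℝ) : ℂ) := by
      rw [EE, e, kap, Complex.ofReal_exp, Complex.ofReal_exp, ← Complex.exp_add,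
        ← Complex.exp_add]
      congr 1
      push_cast
      ring
    have h2 : c⁻¹ * (fA s0 s1 ξ s * (c * ((Real.exp s : ℝ) : ℂ) * Phi γ s)) =
        fA s0 s1 ξ s * (((Real.exp s : ℝ) : ℂ) * Phi γ s) := by
      field_simp
    rw [h2, fA, Phi]
    push_cast at h1 ⊢
    linear_combination ((rho s0 s1 s : ℂ) * e (-(Real.exp s * γ))) * h1
  have e2 : ∀ s : ℝ, fA' s0 s1 ξ s * Phi γ s =
      c⁻¹ * (fB s0 s1 ξ s * (c * ((Real.exp s : ℝ) : ℂ) * Phi γ s)) := by
    intro s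
    have h1 : EE (kap ξ) s = EE (kap ξ + 1) s * ((Real.exp s : ℝ) : ℂ) := by
      rw [EE, EE, Complex.ofReal_exp, ← Complex.exp_add]
      congr 1
      ring
    have h2 : c⁻¹ * (fB s0 s1 ξ s * (c * ((Real.exp s : ℝ) : ℂ) * Phi γ s)) =
        fB s0 s1 ξ s * (((Real.exp s : ℝ) : ℂ) * Phi γ s) := by
      field_simp
    rw [h2, fA', fB, h1]
    ring
  simp_rw [e1]
  rw [integral_const_mul, hAP]
  simp_rw [e2]
  rw [integral_const_mul, hBP]
  ring

theorem kap_norm (ξ : ℝ) : ‖kap ξ‖ ≤ 7 * (1 + |ξ|) ∧ ‖kap ξ + 1‖ ≤ 7 * (1 + |ξ|) := by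
  have hpi : Real.pi < 3.15 := Real.pi_lt_d2
  have h0 : ‖((2 * Real.pi * ξ : ℝ) : ℂ) * Complex.I‖ ≤ 6.3 * |ξ| := by
    rw [norm_mul, Complex.norm_I, mul_one, Complex.norm_real, Real.norm_eq_abs, abs_mul,
      abs_of_pos (by positivity : 0 < 2 * Real.pi)]
    nlinarith [abs_nonneg ξ]
  have hx := abs_nonneg ξ
  constructor
  · refine (norm_add_le _ _).trans ?_
    have : ‖(1 / 2 : ℂ)‖ = 1 / 2 := by norm_num
    rw [this]
    linarith
  · have h1 : kap ξ + 1 = 3 / 2 + ((2 * Real.pi * ξ : ℝ) : ℂ) * Complex.I := by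
      rw [kap]
      ring
    rw [h1]
    refine (norm_add_le _ _).trans ?_
    have : ‖(3 / 2 : ℂ)‖ = 3 / 2 := by norm_num
    rw [this]
    linarith

theorem cutoff : ∃ C : ℝ, 0 < C ∧ ∀ s0 s1 : ℝ, s0 ≤ s1 → ∃ ρ : ℝ → ℝ,
    ContDiff ℝ (⊤ : ℕ∞) ρ ∧ (∀ s, 0 ≤ ρ s ∧ ρ s ≤ 1) ∧ (∀ s ∈ Set.Icc s0 s1, ρ s = 1) ∧
    (∀ s, s ≤ s0 - 1 → ρ s = 0) ∧ (∀ s, s1 + 1 ≤ s → ρ s = 0) ∧ (∀ s, |deriv ρ s| ≤ C) ∧
    (∀ ξ γ : ℝ, ‖∫ s : ℝ, (((Real.exp (s / 2) * ρ s : ℝ) : ℂ) * e (-(ξ * s))) *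
      e (-(Real.exp s * γ))‖ ≤ C * Real.exp (s1 / 2)) ∧
    (∀ ξ γ : ℝ, γ ≠ 0 → ‖∫ s : ℝ, (((Real.exp (s / 2) * ρ s : ℝ) : ℂ) * e (-(ξ * s))) *
      e (-(Real.exp s * γ))‖ ≤ C * (1 + |ξ|) ^ 2 * Real.exp (-(3 / 2) * s0) / γ ^ 2) := by
  obtain ⟨K0, hK0, hK1, hK2⟩ := Cutoff_bounds
  obtain ⟨K, hK, hKK⟩ : ∃ K : ℝ, 1 ≤ K ∧ K0 ≤ K := ⟨max 1 K0, le_max_left _ _, le_max_right _ _⟩
  have hd1 : ∀ x, |deriv Real.smoothTransition x| ≤ K := fun x => (hK1 x).trans hKK
  have hd2 : ∀ x, |deriv (deriv Real.smoothTransition) x| ≤ K := fun x => (hK2 x).trans hKK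
  have hd0 : ∀ x, |Real.smoothTransition x| ≤ 1 := fun x => by
    rw [abs_of_nonneg (Real.smoothTransition.nonneg x)]
    exact Real.smoothTransition.le_one x
  have hr1 : ∀ s0 s1 s, |rho1 s0 s1 s| ≤ 2 * K := by
    intro s0 s1 s
    unfold rho1
    refine (abs_sub _ _).trans ?_
    rw [abs_mul, abs_mul]
    have a1 := mul_le_mul (hd1 (s - s0 + 1)) (hd0 (s1 + 1 - s)) (abs_nonneg _) (by linarith)
    have a2 := mul_le_mul (hd0 (s - s0 + 1)) (hd1 (s1 + 1 - s)) (abs_nonneg _) (by linarith)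
    linarith
  have hr2 : ∀ s0 s1 s, |rho2 s0 s1 s| ≤ 4 * K ^ 2 := by
    intro s0 s1 s
    unfold rho2
    refine (abs_add_le _ _).trans ?_
    have a0 := abs_sub (deriv (deriv Real.smoothTransition) (s - s0 + 1) *
      Real.smoothTransition (s1 + 1 - s)) (2 * (deriv Real.smoothTransition (s - s0 + 1) *
      deriv Real.smoothTransition (s1 + 1 - s)))
    rw [abs_mul, abs_mul, abs_mul, abs_two] at a0
    rw [abs_mul (Real.smoothTransition (s - s0 + 1))]
    have a1 := mul_le_mul (hd2 (s - s0 + 1)) (hd0 (s1 + 1 - s)) (abs_nonneg _) (by linarith)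
    have a2 := mul_le_mul (hd0 (s - s0 + 1)) (hd2 (s1 + 1 - s)) (abs_nonneg _) (by linarith)
    have a3 := mul_le_mul (hd1 (s - s0 + 1)) (hd1 (s1 + 1 - s)) (abs_nonneg _) (by linarith)
    nlinarith
  refine ⟨81 * K ^ 2 * Real.exp 3 + 2 * K + 2 * Real.exp (1 / 2), by positivity, ?_⟩
  intro s0 s1 hs
  refine ⟨rho s0 s1, ?_, fun s => ⟨rho_nonneg s0 s1 s, rho_le_one s0 s1 s⟩, ?_, ?_, ?_, ?_, ?_, ?_⟩
  · have h0 : ContDiff ℝ (⊤ : ℕ∞) Real.smoothTransition := Real.smoothTransition.contDiff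
    unfold rho
    exact (h0.comp ((contDiff_id.sub contDiff_const).add contDiff_const)).mul
      (h0.comp (contDiff_const.sub contDiff_id))
  · intro s hs'
    unfold rho
    rw [Real.smoothTransition.one_of_one_le (by linarith [hs'.1]),
      Real.smoothTransition.one_of_one_le (by linarith [hs'.2]), mul_one]
  · intro s hs'
    unfold rho
    rw [Real.smoothTransition.zero_of_nonpos (by linarith), zero_mul]
  · intro s hs'
    unfold rho
    rw [Real.smoothTransition.zero_of_nonpos (x := s1 + 1 - s) (by linarith), mul_zero]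
  · intro s
    rw [(rho_deriv s0 s1 s).deriv]
    have := hr1 s0 s1 s
    have : 0 < 81 * K ^ 2 * Real.exp 3 := by positivity
    have : 0 < 2 * Real.exp (1 / 2) := by positivity
    linarith
  · intro ξ γ
    have hg : IntegrableOn (fun s : ℝ => Real.exp (1 / 2 * s)) (Iic (s1 + 1)) :=
      integrableOn_exp_mul_Iic (by norm_num) _
    refine (norm_integral_le_of_norm_le ((integrable_indicator_iff measurableSet_Iic).2 hg)
      (Filter.Eventually.of_forall fun s => ?_)).trans ?_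
    · rw [norm_mul, norm_mul, norm_e, norm_e, mul_one, mul_one, Complex.norm_real,
        Real.norm_of_nonneg (mul_nonneg (Real.exp_pos _).le (rho_nonneg _ _ _))]
      by_cases h : s ∈ Iic (s1 + 1)
      · rw [indicator_of_mem h]
        have h1 := rho_le_one s0 s1 s
        have h2 := Real.exp_pos (s / 2)
        have h3 : (1 : ℝ) / 2 * s = s / 2 := by ring
        rw [h3]
        nlinarith
      · rw [indicator_of_notMem h]
        have : rho s0 s1 s = 0 := rho_zero fun h' => h h'.2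
        rw [this, mul_zero]
    · rw [integral_indicator measurableSet_Iic, integral_exp_mul_Iic (by norm_num)]
      have h1 : Real.exp (1 / 2 * (s1 + 1)) = Real.exp (1 / 2) * Real.exp (s1 / 2) := by
        rw [← Real.exp_add]
        congr 1
        ring
      rw [h1]
      have : 0 ≤ 81 * K ^ 2 * Real.exp 3 * Real.exp (s1 / 2) := by positivity
      have : 0 ≤ 2 * K * Real.exp (s1 / 2) := by positivity
      have h4 : Real.exp (1 / 2) * Real.exp (s1 / 2) / (1 / 2) =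
        2 * Real.exp (1 / 2) * Real.exp (s1 / 2) := by ring
      rw [h4]
      linarith
  · intro ξ γ hγ
    rw [Cutoff_parts s0 s1 ξ γ hγ, norm_mul]
    obtain ⟨hk1, hk2⟩ := kap_norm ξ
    have hx : (1 : ℝ) ≤ 1 + |ξ| := by linarith [abs_nonneg ξ]
    have hg : IntegrableOn (fun s : ℝ => 81 * K ^ 2 * (1 + |ξ|) ^ 2 * Real.exp (-(3 / 2) * s))
        (Ioi (s0 - 2)) :=
      (integrableOn_exp_mul_Ioi (by norm_num) _).const_mul _
    have hI : ‖∫ s : ℝ, fB' s0 s1 ξ s * Phi γ s‖ ≤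
        81 * K ^ 2 * (1 + |ξ|) ^ 2 * (Real.exp 3 * Real.exp (-(3 / 2) * s0)) := by
      refine (norm_integral_le_of_norm_le ((integrable_indicator_iff measurableSet_Ioi).2 hg)
        (Filter.Eventually.of_forall fun s => ?_)).trans ?_
      · rw [norm_mul, Phi_norm, mul_one]
        by_cases h : s ∈ Ioi (s0 - 2)
        · rw [indicator_of_mem h, fB', norm_mul, EE_norm]
          have hre : -(kap ξ + 1).re * s = -(3 / 2) * s := by
            have : (kap ξ + 1).re = 3 / 2 := by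
              simp [kap]
              norm_num
            rw [this]
          rw [hre]
          refine mul_le_mul_of_nonneg_right ?_ (Real.exp_pos _).le
          have n0 : ‖(rho s0 s1 s : ℂ)‖ ≤ 1 := by
            rw [Complex.norm_real, Real.norm_of_nonneg (rho_nonneg _ _ _)]
            exact rho_le_one _ _ _
          have n1 : ‖(rho1 s0 s1 s : ℂ)‖ ≤ 2 * K := by
            rw [Complex.norm_real]
            exact hr1 _ _ _
          have n2 : ‖(rho2 s0 s1 s : ℂ)‖ ≤ 4 * K ^ 2 := by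
            rw [Complex.norm_real]
            exact hr2 _ _ _
          have m1 : ‖kap ξ * (rho1 s0 s1 s : ℂ)‖ ≤ 7 * (1 + |ξ|) * (2 * K) := by
            rw [norm_mul]
            exact mul_le_mul hk1 n1 (norm_nonneg _) (by positivity)
          have m2 : ‖kap ξ * (rho s0 s1 s : ℂ)‖ ≤ 7 * (1 + |ξ|) * 1 := by
            rw [norm_mul]
            exact mul_le_mul hk1 n0 (norm_nonneg _) (by positivity)
          have m3 : ‖(kap ξ + 1) * ((rho1 s0 s1 s : ℂ) - kap ξ * (rho s0 s1 s : ℂ))‖ ≤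
              7 * (1 + |ξ|) * (2 * K + 7 * (1 + |ξ|) * 1) := by
            rw [norm_mul]
            exact mul_le_mul hk2 ((norm_sub_le _ _).trans (add_le_add n1 m2)) (norm_nonneg _)
              (by positivity)
          refine (norm_sub_le _ _).trans ?_
          refine (add_le_add ((norm_sub_le _ _).trans (add_le_add n2 m1)) m3).trans ?_
          set X := 1 + |ξ| with hX
          have p1 : K ^ 2 ≤ K ^ 2 * X ^ 2 := by
            have : (1 : ℝ) ≤ X ^ 2 := by nlinarith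
            nlinarith [sq_nonneg K]
          have p2 : X * K ≤ K ^ 2 * X ^ 2 := by
            have h1 : (1 : ℝ) ≤ X * K := by nlinarith
            nlinarith
          have p3 : X ^ 2 ≤ K ^ 2 * X ^ 2 := by
            have : (1 : ℝ) ≤ K ^ 2 := by nlinarith
            nlinarith [sq_nonneg X]
          nlinarith
        · rw [indicator_of_notMem h]
          have hs' : s ∉ Icc (s0 - 1) (s1 + 1) := by
            intro h'
            apply h
            rw [mem_Ioi]
            linarith [h'.1]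
          simp [fB', rho_zero hs', rho1_zero hs', rho2_zero hs']
      · rw [integral_indicator measurableSet_Ioi, integral_const_mul,
          integral_exp_mul_Ioi (by norm_num)]
        refine mul_le_mul_of_nonneg_left ?_ (by positivity)
        have h1 : Real.exp (-(3 / 2) * (s0 - 2)) = Real.exp 3 * Real.exp (-(3 / 2) * s0) := by
          rw [← Real.exp_add]
          congr 1
          ring
        rw [h1]
        have : 0 < Real.exp 3 * Real.exp (-(3 / 2) * s0) := by positivity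
        have h2 : -(Real.exp 3 * Real.exp (-(3 / 2) * s0)) / (-(3 / 2)) =
          2 / 3 * (Real.exp 3 * Real.exp (-(3 / 2) * s0)) := by ring
        rw [h2]
        linarith
    have hc : ‖((-(2 * Real.pi * γ : ℝ) : ℂ) * Complex.I)⁻¹ ^ 2‖ ≤ 1 / γ ^ 2 := by
      rw [norm_pow, norm_inv, norm_mul, Complex.norm_I, mul_one, norm_neg, Complex.norm_real,
        Real.norm_eq_abs, inv_pow, sq_abs, one_div]
      have hpi : 3 < Real.pi := Real.pi_gt_three
      have hγ2 : 0 < γ ^ 2 := by positivity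
      apply inv_anti₀ hγ2
      have : (2 * Real.pi * γ) ^ 2 = 4 * Real.pi ^ 2 * γ ^ 2 := by ring
      rw [this]
      have : (1 : ℝ) ≤ 4 * Real.pi ^ 2 := by nlinarith
      nlinarith
    calc _ ≤ 1 / γ ^ 2 * (81 * K ^ 2 * (1 + |ξ|) ^ 2 * (Real.exp 3 * Real.exp (-(3 / 2) * s0))) :=
          mul_le_mul hc hI (norm_nonneg _) (by positivity)
      _ = (81 * K ^ 2 * Real.exp 3) * ((1 + |ξ|) ^ 2 * Real.exp (-(3 / 2) * s0) / γ ^ 2) := by
          ring
      _ ≤ (81 * K ^ 2 * Real.exp 3 + 2 * K + 2 * Real.exp (1 / 2)) *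
          ((1 + |ξ|) ^ 2 * Real.exp (-(3 / 2) * s0) / γ ^ 2) := by
          refine mul_le_mul_of_nonneg_right ?_ (by positivity)
          have : 0 < 2 * Real.exp (1 / 2) := by positivity
          linarith
      _ = _ := by ring

end Pool.Agent.H442R2.EHI
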