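import Pool.Agent.H43.G.R_seed8.H442R2.EHI.Defs

/-!
T4 (`ksum`): Abel summation, Euler-Maclaurin and van der Corput for
`∑ k^(-1/2) e(ξ log k)` over `k ∈ (K1, K]`, `k ≡ r (mod q)`.
-/

namespace Pool.Agent.H442R2.EHI

open Finset
open Pool.Agent.H469R2.NK (e)

namespace KS

/-- the statement of T3 (`vdc_log`) -/
def VdcLog : Prop := ∀ M : ℕ, ∃ η : ℝ, 0 < η ∧ ∃ C : ℝ, 0 < C ∧ ∀ (J L : ℕ) (u ξ : ℝ), 1 ≤ J →
    (J : ℝ) ≤ u → L ≤ J → u + L ≤ 3 * J → (J : ℝ) ^ (1 / 2 : ℝ) ≤ |ξ| → |ξ| ≤ (J : ℝ) ^ M →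
    ‖∑ n ∈ range L, e (ξ * Real.log (u + n))‖ ≤ C * (J : ℝ) ^ (1 - η)

/-- polylogarithms are smaller than powers -/
lemma exists_x0 (c : ℝ) (hc : 0 < c) (Cst : ℝ) (n : ℕ) : ∃ x0 : ℕ, ∀ x : ℕ, x0 ≤ x →
    Cst * Real.log x ^ n ≤ (x : ℝ) ^ c := by
  have h := (isLittleO_log_rpow_rpow_atTop (n : ℝ) hc).bound (show (0 : ℝ) < 1 / (|Cst| + 1) by positivity)
  have h2 := (tendsto_natCast_atTop_atTop (R := ℝ)).eventually h
  obtain ⟨N, hN⟩ := Filter.eventually_atTop.mp (h2.and (Filter.eventually_ge_atTop 1))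
  refine ⟨N, fun x hx => ?_⟩
  obtain ⟨h3, h4⟩ := hN x hx
  have hx1 : (1 : ℝ) ≤ x := by exact_mod_cast h4
  have hl : 0 ≤ Real.log x := Real.log_nonneg hx1
  rw [Real.norm_of_nonneg (Real.rpow_nonneg hl _), Real.norm_of_nonneg (by positivity),
    Real.rpow_natCast] at h3
  calc Cst * Real.log x ^ n ≤ |Cst| * Real.log x ^ n :=
        mul_le_mul_of_nonneg_right (le_abs_self _) (by positivity)
    _ ≤ (|Cst| + 1) * Real.log x ^ n := by
        apply mul_le_mul_of_nonneg_right (by linarith) (by positivity)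
    _ ≤ (|Cst| + 1) * (1 / (|Cst| + 1) * (x : ℝ) ^ c) := by
        apply mul_le_mul_of_nonneg_left h3 (by positivity)
    _ = (x : ℝ) ^ c := by field_simp

/-- Abel summation with nonincreasing nonnegative weights -/
lemma abel (w : ℕ → ℝ) (g : ℕ → ℂ) (A : ℕ) (Bd : ℝ) (hBd : 0 ≤ Bd) (B : ℕ) (hAB : A ≤ B)
    (hw0 : ∀ j, A < j → 0 ≤ w j) (hw : ∀ j, A < j → w (j + 1) ≤ w j)
    (hg : ∀ b, A ≤ b → b ≤ B → ‖∑ j ∈ Ioc A b, g j‖ ≤ Bd) :
    ‖∑ j ∈ Ioc A B, (w j : ℂ) * g j‖ ≤ w (A + 1) * Bd := by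
  rcases hAB.eq_or_lt with rfl | hlt
  · simp only [Ioc_self, sum_empty, norm_zero]
    exact mul_nonneg (hw0 _ (by omega)) hBd
  have key : ∀ b, A + 1 ≤ b → b ≤ B →
      ‖∑ j ∈ Ioc A b, (w j : ℂ) * g j - (w b : ℂ) * ∑ j ∈ Ioc A b, g j‖ ≤ (w (A + 1) - w b) * Bd ∧
        w b ≤ w (A + 1) := by
    intro b hb
    induction b, hb using Nat.le_induction with
    | base =>
      intro _
      rw [← Finset.insert_Ioc_right_eq_Ioc_add_one (by omega)]
      simp
    | succ b hb ih =>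
      intro hbB
      obtain ⟨ih1, ih2⟩ := ih (by omega)
      have hwb := hw b (by omega)
      refine ⟨?_, hwb.trans ih2⟩
      rw [← Finset.insert_Ioc_right_eq_Ioc_add_one (by omega), sum_insert (by simp),
        sum_insert (by simp)]
      have e1 : (w (b + 1) : ℂ) * g (b + 1) + ∑ j ∈ Ioc A b, (w j : ℂ) * g j -
          (w (b + 1) : ℂ) * (g (b + 1) + ∑ j ∈ Ioc A b, g j) =
          (∑ j ∈ Ioc A b, (w j : ℂ) * g j - (w b : ℂ) * ∑ j ∈ Ioc A b, g j) +
            ((w b - w (b + 1) : ℝ) : ℂ) * ∑ j ∈ Ioc A b, g j := by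
        push_cast; ring
      rw [e1]
      refine (norm_add_le _ _).trans ?_
      rw [norm_mul, Complex.norm_real, Real.norm_of_nonneg (by linarith)]
      have h3 := hg b (by omega) (by omega)
      have h4 : (w b - w (b + 1)) * ‖∑ j ∈ Ioc A b, g j‖ ≤ (w b - w (b + 1)) * Bd :=
        mul_le_mul_of_nonneg_left h3 (by linarith)
      linarith
  obtain ⟨k1, k2⟩ := key B hlt le_rfl
  have k3 := hg B hAB le_rfl
  have hwB := hw0 B hlt
  calc ‖∑ j ∈ Ioc A B, (w j : ℂ) * g j‖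
      = ‖(∑ j ∈ Ioc A B, (w j : ℂ) * g j - (w B : ℂ) * ∑ j ∈ Ioc A B, g j) +
          (w B : ℂ) * ∑ j ∈ Ioc A B, g j‖ := by rw [sub_add_cancel]
    _ ≤ (w (A + 1) - w B) * Bd + w B * Bd := by
        refine (norm_add_le _ _).trans (add_le_add k1 ?_)
        rw [norm_mul, Complex.norm_real, Real.norm_of_nonneg hwB]
        exact mul_le_mul_of_nonneg_left k3 hwB
    _ = w (A + 1) * Bd := by ring

/-- dyadic decomposition -/
lemma dyadic (g : ℕ → ℂ) (A B : ℕ) (Bd : ℝ) (hBd : 0 ≤ Bd)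
    (h : ∀ a b, A ≤ a → a ≤ b → b ≤ 2 * a → b ≤ B → ‖∑ j ∈ Ioc a b, g j‖ ≤ Bd) (m : ℕ) :
    ∀ a b, A ≤ a → a ≤ b → b ≤ 2 ^ m * a → b ≤ B → ‖∑ j ∈ Ioc a b, g j‖ ≤ m * Bd := by
  induction m with
  | zero =>
    intro a b _ hab hb _
    have : a = b := by omega
    subst this
    simp
  | succ m ih =>
    intro a b hA hab hb hB
    rcases le_or_gt b (2 * a) with h1 | h1
    · refine (h a b hA hab h1 hB).trans ?_
      push_cast
      have : 0 ≤ (m : ℝ) * Bd := by positivity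
      linarith
    · rw [← Finset.Ioc_union_Ioc_eq_Ioc (show a ≤ 2 * a by omega) h1.le,
        sum_union (Finset.Ioc_disjoint_Ioc_of_le le_rfl)]
      have h2 := h a (2 * a) hA (by omega) le_rfl (by omega)
      have h3 := ih (2 * a) b (by omega) h1.le (by rw [pow_succ] at hb; nlinarith) hB
      refine (norm_add_le _ _).trans ?_
      push_cast
      linarith

lemma e_sub_le (α β : ℝ) : ‖e α - e β‖ ≤ 2 * Real.pi * |α - β| := by
  unfold e
  have h1 : Complex.exp (((2 * Real.pi * α : ℝ) : ℂ) * Complex.I) =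
      Complex.exp (((2 * Real.pi * β : ℝ) : ℂ) * Complex.I) *
        Complex.exp (Complex.I * ((2 * Real.pi * (α - β) : ℝ) : ℂ)) := by
    rw [← Complex.exp_add]; congr 1; push_cast; ring
  rw [h1]
  have h2 : Complex.exp (((2 * Real.pi * β : ℝ) : ℂ) * Complex.I) *
        Complex.exp (Complex.I * ((2 * Real.pi * (α - β) : ℝ) : ℂ)) -
        Complex.exp (((2 * Real.pi * β : ℝ) : ℂ) * Complex.I) =
      Complex.exp (((2 * Real.pi * β : ℝ) : ℂ) * Complex.I) *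
        (Complex.exp (Complex.I * ((2 * Real.pi * (α - β) : ℝ) : ℂ)) - 1) := by ring
  rw [h2, norm_mul, Complex.norm_exp_ofReal_mul_I, one_mul]
  refine (Real.norm_exp_I_mul_ofReal_sub_one_le).trans ?_
  rw [Real.norm_eq_abs, abs_mul, abs_of_nonneg (by positivity : 0 ≤ 2 * Real.pi)]

/-- the function `t ↦ e(ξ log (q t + r))` -/
noncomputable def gf (q r ξ t : ℝ) : ℂ := e (ξ * Real.log (q * t + r))

lemma hasDerivAt_e {f : ℝ → ℝ} {f' t : ℝ} (hf : HasDerivAt f f' t) :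
    HasDerivAt (fun t => e (f t)) (e (f t) * (((2 * Real.pi * f' : ℝ) : ℂ) * Complex.I)) t := by
  unfold e
  have h1 : HasDerivAt (fun t => (((2 * Real.pi * f t : ℝ) : ℂ) * Complex.I))
      (((2 * Real.pi * f' : ℝ) : ℂ) * Complex.I) t :=
    ((hf.const_mul (2 * Real.pi)).ofReal_comp).mul_const Complex.I
  exact h1.cexp

lemma hasDerivAt_log (q r ξ t : ℝ) (h : 0 < q * t + r) :
    HasDerivAt (fun t => ξ * Real.log (q * t + r)) (ξ * (q / (q * t + r))) t := by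
  have h1 : HasDerivAt (fun t : ℝ => q * t + r) q t := by
    simpa using ((hasDerivAt_id t).const_mul q).add_const r
  exact (h1.log h.ne').const_mul ξ

lemma hasDerivAt_gf (q r ξ t : ℝ) (h : 0 < q * t + r) :
    HasDerivAt (gf q r ξ) (gf q r ξ t * (((2 * Real.pi * (ξ * (q / (q * t + r))) : ℝ) : ℂ) * Complex.I)) t :=
  hasDerivAt_e (hasDerivAt_log q r ξ t h)

lemma norm_gf (q r ξ t : ℝ) : ‖gf q r ξ t‖ = 1 := Pool.Agent.H469R2.NK.norm_e _

lemma gf_integrable (q r ξ a b : ℝ) (hq : 0 < q) (hr : 0 ≤ r) (ha : 0 < a) (hab : a ≤ b) :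
    IntervalIntegrable (gf q r ξ) MeasureTheory.volume a b := by
  apply ContinuousOn.intervalIntegrable
  intro t ht
  rw [Set.uIcc_of_le hab] at ht
  have ht0 : 0 < t := ha.trans_le ht.1
  have : 0 < q * t + r := by positivity
  exact (hasDerivAt_gf q r ξ t this).continuousAt.continuousWithinAt

lemma riemann (q r ξ : ℝ) (hq : 1 ≤ q) (hr : 0 ≤ r) (A : ℕ) (hA : 1 ≤ A) (B : ℕ) (hAB : A ≤ B) :
    ‖∑ j ∈ Ioc A B, gf q r ξ j - ∫ t in (A : ℝ)..B, gf q r ξ t‖ ≤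
      2 * Real.pi * |ξ| * (Real.log (q * B + r) - Real.log (q * A + r)) := by
  induction B, hAB using Nat.le_induction with
  | base => simp
  | succ B hAB ih =>
    have hA0 : (0 : ℝ) < A := by exact_mod_cast hA
    have hAB' : (A : ℝ) ≤ B := by exact_mod_cast hAB
    have hB0 : (0 : ℝ) < B := hA0.trans_le hAB'
    have hq0 : 0 < q := by linarith
    rw [← Finset.insert_Ioc_right_eq_Ioc_add_one (by omega), sum_insert (by simp)]
    push_cast
    have hsplit : ∫ t in (A : ℝ)..((B : ℝ) + 1), gf q r ξ t =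
        (∫ t in (A : ℝ)..B, gf q r ξ t) + ∫ t in (B : ℝ)..((B : ℝ) + 1), gf q r ξ t :=
      (intervalIntegral.integral_add_adjacent_intervals
        (gf_integrable q r ξ _ _ hq0 hr hA0 hAB')
        (gf_integrable q r ξ _ _ hq0 hr hB0 (by linarith))).symm
    have hone : ‖gf q r ξ ((B : ℝ) + 1) - ∫ t in (B : ℝ)..((B : ℝ) + 1), gf q r ξ t‖ ≤
        2 * Real.pi * |ξ| * (Real.log (q * ((B : ℝ) + 1) + r) - Real.log (q * B + r)) := by
      have h1 : gf q r ξ ((B : ℝ) + 1) - ∫ t in (B : ℝ)..((B : ℝ) + 1), gf q r ξ t =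
          ∫ t in (B : ℝ)..((B : ℝ) + 1), (gf q r ξ ((B : ℝ) + 1) - gf q r ξ t) := by
        rw [intervalIntegral.integral_sub (by simp)
          (gf_integrable q r ξ _ _ hq0 hr hB0 (by linarith))]
        simp
      rw [h1]
      have h2 := intervalIntegral.norm_integral_le_of_norm_le_const (a := (B : ℝ)) (b := (B : ℝ) + 1)
        (f := fun t => gf q r ξ ((B : ℝ) + 1) - gf q r ξ t)
        (C := 2 * Real.pi * |ξ| * (Real.log (q * ((B : ℝ) + 1) + r) - Real.log (q * B + r))) ?_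
      · simpa using h2
      · intro t ht
        rw [Set.uIoc_of_le (by linarith)] at ht
        have ht0 : 0 < t := hB0.trans ht.1
        unfold gf
        refine (e_sub_le _ _).trans ?_
        rw [← mul_sub, abs_mul, ← mul_assoc]
        apply mul_le_mul_of_nonneg_left _ (by positivity)
        have m1 : Real.log (q * B + r) ≤ Real.log (q * t + r) :=
          Real.log_le_log (by positivity) (by nlinarith [ht.1])
        have m2 : Real.log (q * t + r) ≤ Real.log (q * ((B : ℝ) + 1) + r) :=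
          Real.log_le_log (by positivity) (by nlinarith [ht.2])
        rw [abs_of_nonneg (by linarith)]
        linarith
    rw [hsplit]
    have e1 : gf q r ξ ((B : ℝ) + 1) + ∑ j ∈ Ioc A B, gf q r ξ j -
        ((∫ t in (A : ℝ)..B, gf q r ξ t) + ∫ t in (B : ℝ)..((B : ℝ) + 1), gf q r ξ t) =
        (∑ j ∈ Ioc A B, gf q r ξ j - ∫ t in (A : ℝ)..B, gf q r ξ t) +
        (gf q r ξ ((B : ℝ) + 1) - ∫ t in (B : ℝ)..((B : ℝ) + 1), gf q r ξ t) := by ring
    rw [e1]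
    refine (norm_add_le _ _).trans ((add_le_add ih hone).trans ?_)
    rw [← mul_add]
    apply mul_le_mul_of_nonneg_left _ (by positivity)
    linarith

lemma integral_bound (q r ξ a b : ℝ) (hq : 1 ≤ q) (hr : 0 ≤ r) (ha : 0 < a) (hab : a ≤ b)
    (hξ : ξ ≠ 0) : ‖∫ t in a..b, gf q r ξ t‖ ≤ (q * b + r) / |ξ| := by
  have hq0 : 0 < q := by linarith
  set z : ℂ := 1 + ((2 * Real.pi * ξ : ℝ) : ℂ) * Complex.I with hz
  have hzim : z.im = 2 * Real.pi * ξ := by
    rw [hz, Complex.add_im, Complex.mul_I_im, Complex.ofReal_re, Complex.one_im, zero_add]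
  have hznorm : 2 * Real.pi * |ξ| ≤ ‖z‖ := by
    have h1 := Complex.abs_im_le_norm z
    rw [hzim, abs_mul, abs_of_nonneg (by positivity : 0 ≤ 2 * Real.pi)] at h1
    exact h1
  have hξ0 : 0 < |ξ| := abs_pos.mpr hξ
  have hz0 : z ≠ 0 := by
    intro h
    rw [h, norm_zero] at hznorm
    have : 0 < 2 * Real.pi * |ξ| := by positivity
    linarith
  have hqz : ((q : ℂ) * z) ≠ 0 := mul_ne_zero (by exact_mod_cast hq0.ne') hz0
  set F : ℝ → ℂ := fun t => ((q * t + r : ℝ) : ℂ) * gf q r ξ t / ((q : ℂ) * z) with hF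
  have hder : ∀ t ∈ Set.uIcc a b, HasDerivAt F (gf q r ξ t) t := by
    intro t ht
    rw [Set.uIcc_of_le hab] at ht
    have ht0 : 0 < t := ha.trans_le ht.1
    have hpos : 0 < q * t + r := by positivity
    have h1 : HasDerivAt (fun t : ℝ => q * t + r) q t := by
      simpa using ((hasDerivAt_id t).const_mul q).add_const r
    have h2 := (h1.ofReal_comp.mul (hasDerivAt_gf q r ξ t hpos)).div_const ((q : ℂ) * z)
    convert! h2 using 1
    rw [eq_div_iff hqz]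
    have hposc : ((q * t + r : ℝ) : ℂ) ≠ 0 := by exact_mod_cast hpos.ne'
    have h3 : ((q * t + r : ℝ) : ℂ) * (gf q r ξ t *
        (((2 * Real.pi * (ξ * (q / (q * t + r))) : ℝ) : ℂ) * Complex.I)) =
        gf q r ξ t * ((q : ℂ) * (((2 * Real.pi * ξ : ℝ) : ℂ) * Complex.I)) := by
      push_cast at hposc ⊢
      field_simp
    rw [h3, hz]
    ring
  have hint := intervalIntegral.integral_eq_sub_of_hasDerivAt hder
    (gf_integrable q r ξ a b hq0 hr ha hab)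
  rw [hint]
  have hb0 : 0 < b := ha.trans_le hab
  have hFn : ∀ t, 0 < t → t ≤ b → ‖F t‖ ≤ (q * b + r) / (2 * Real.pi * |ξ|) := by
    intro t ht0 htb
    have hpos : 0 < q * t + r := by positivity
    rw [hF]
    simp only
    rw [norm_div, norm_mul, norm_mul, norm_gf, mul_one, Complex.norm_real, Complex.norm_real,
      Real.norm_of_nonneg hpos.le, Real.norm_of_nonneg hq0.le]
    have hden : 0 < 2 * Real.pi * |ξ| := by positivity
    apply div_le_div₀ (by positivity) (by nlinarith) hden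
    calc 2 * Real.pi * |ξ| ≤ 1 * ‖z‖ := by rw [one_mul]; exact hznorm
      _ ≤ q * ‖z‖ := mul_le_mul_of_nonneg_right hq (norm_nonneg _)
  refine (norm_sub_le _ _).trans ((add_le_add (hFn b hb0 le_rfl) (hFn a ha hab)).trans ?_)
  rw [← add_div, div_le_div_iff₀ (by positivity) hξ0]
  have hpi := Real.pi_gt_three
  have h5 : 0 < (q * b + r) * |ξ| := by positivity
  nlinarith

lemma small_xi (q r ξ : ℝ) (hq : 1 ≤ q) (hr : 0 ≤ r) (A b : ℕ) (hA : 1 ≤ A) (hAb : A ≤ b)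
    (hξ : ξ ≠ 0) :
    ‖∑ j ∈ Ioc A b, gf q r ξ j‖ ≤ (q * b + r) / |ξ| + 2 * Real.pi * |ξ| * Real.log (q * b + r) := by
  have hA0 : (1 : ℝ) ≤ A := by exact_mod_cast hA
  have hAb' : (A : ℝ) ≤ b := by exact_mod_cast hAb
  have h1 := riemann q r ξ hq hr A hA b hAb
  have h2 := integral_bound q r ξ A b hq hr (by linarith) hAb' hξ
  have h3 : 0 ≤ Real.log (q * A + r) := Real.log_nonneg (by nlinarith)
  have h4 : 2 * Real.pi * |ξ| * (Real.log (q * b + r) - Real.log (q * A + r)) ≤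
      2 * Real.pi * |ξ| * Real.log (q * b + r) :=
    mul_le_mul_of_nonneg_left (by linarith) (by positivity)
  calc ‖∑ j ∈ Ioc A b, gf q r ξ j‖
      = ‖(∑ j ∈ Ioc A b, gf q r ξ j - ∫ t in (A : ℝ)..b, gf q r ξ t) +
          ∫ t in (A : ℝ)..b, gf q r ξ t‖ := by rw [sub_add_cancel]
    _ ≤ _ := (norm_add_le _ _).trans (by linarith)

lemma Ioc_sum_range (f : ℕ → ℂ) (a b : ℕ) :
    ∑ j ∈ Ioc a b, f j = ∑ n ∈ range (b - a), f (a + 1 + n) := by
  have h1 : Ioc a b = Ico (a + 1) (b + 1) := by ext j; simp only [mem_Ioc, mem_Ico]; omega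
  rw [h1, Finset.sum_Ico_eq_sum_range]
  congr 2
  omega

lemma gf_shift (q r ξ : ℝ) (hq : 0 < q) (hr : 0 ≤ r) (j : ℝ) (hj : 0 < j) :
    gf q r ξ j = e (ξ * Real.log q) * e (ξ * Real.log (j + r / q)) := by
  unfold gf
  rw [← Pool.Agent.H469R2.NK.e_add, ← mul_add, ← Real.log_mul hq.ne' (by positivity)]
  congr 3
  field_simp

lemma large_xi {M : ℕ} {η C : ℝ} (hη : 0 < η) (hC : 0 < C)
    (hv : ∀ (J L : ℕ) (u ξ : ℝ), 1 ≤ J →
      (J : ℝ) ≤ u → L ≤ J → u + L ≤ 3 * J → (J : ℝ) ^ (1 / 2 : ℝ) ≤ |ξ| → |ξ| ≤ (J : ℝ) ^ M →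
      ‖∑ n ∈ range L, e (ξ * Real.log (u + n))‖ ≤ C * (J : ℝ) ^ (1 - η))
    (q r ξ : ℝ) (hq : 1 ≤ q) (hr : 0 ≤ r) (hrq : r < q) (K A B : ℕ) (hA : 1 ≤ A) (hBK : B ≤ K)
    (hAK : (K : ℝ) ^ (1 / 2 : ℝ) ≤ (A : ℝ) + 1) (hξ1 : (K : ℝ) ^ (1 / 2 : ℝ) ≤ |ξ|)
    (hξ2 : |ξ| ≤ ((A : ℝ) + 1) ^ M) (m : ℕ) (hm : B ≤ 2 ^ m) (b : ℕ) (hAb : A ≤ b) (hbB : b ≤ B) :
    ‖∑ j ∈ Ioc A b, gf q r ξ j‖ ≤ m * (C * ((K : ℝ) * (K : ℝ) ^ (-(η / 2)))) := by
  have hq0 : 0 < q := by linarith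
  refine dyadic (fun j => gf q r ξ j) A B _ (by positivity) ?_ m A b le_rfl hAb ?_ hbB
  · intro a b haA hab hb2 hbB
    rcases hab.eq_or_lt with rfl | hlt
    · simp only [Ioc_self, sum_empty, norm_zero]; positivity
    have haK : (a : ℝ) + 1 ≤ K := by
      have : a + 1 ≤ K := by omega
      exact_mod_cast this
    have haA' : (A : ℝ) ≤ a := by exact_mod_cast haA
    have hK0 : (0 : ℝ) < K := by
      have : (0 : ℝ) ≤ a := Nat.cast_nonneg _
      linarith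
    have ha1 : (1 : ℝ) ≤ (a : ℝ) + 1 := by
      have : (0 : ℝ) ≤ a := Nat.cast_nonneg _
      linarith
    have hrq' : r / q < 1 := by rw [div_lt_one hq0]; exact hrq
    have hrq0 : 0 ≤ r / q := by positivity
    have hba : (b : ℝ) ≤ 2 * a := by exact_mod_cast hb2
    have h1 := hv (a + 1) (b - a) ((a : ℝ) + 1 + r / q) ξ (by omega) (by push_cast; linarith)
      (by omega)
      (by rw [Nat.cast_sub hab]; push_cast; linarith)
      (by
        push_cast
        exact (Real.rpow_le_rpow (by linarith) haK (by norm_num)).trans hξ1)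
      (by
        push_cast
        exact hξ2.trans (pow_le_pow_left₀ (by positivity) (by linarith) M))
    have h2 : ∑ j ∈ Ioc a b, gf q r ξ j = e (ξ * Real.log q) *
        ∑ n ∈ range (b - a), e (ξ * Real.log ((a : ℝ) + 1 + r / q + n)) := by
      rw [Ioc_sum_range (fun j => gf q r ξ j), mul_sum]
      apply sum_congr rfl
      intro n _
      rw [gf_shift q r ξ hq0 hr _ (by positivity)]
      congr 3
      push_cast
      ring_nf
    rw [h2, norm_mul, Pool.Agent.H469R2.NK.norm_e, one_mul]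
    refine h1.trans ?_
    push_cast
    apply mul_le_mul_of_nonneg_left _ hC.le
    rw [sub_eq_add_neg, Real.rpow_add (by linarith), Real.rpow_one]
    apply mul_le_mul haK _ (Real.rpow_nonneg (by linarith) _) hK0.le
    have h3 : (K : ℝ) ^ (-(η / 2)) = ((K : ℝ) ^ (1 / 2 : ℝ)) ^ (-η) := by
      rw [← Real.rpow_mul hK0.le]; congr 1; ring
    rw [h3]
    apply Real.rpow_le_rpow_of_nonpos (by positivity) (by linarith) (by linarith)
  · calc b ≤ B := hbB
      _ ≤ 2 ^ m := hm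
      _ ≤ 2 ^ m * A := Nat.le_mul_of_pos_right _ (by omega)

/-- T4 with T3 as a hypothesis -/
theorem ksum_of (hvdc : VdcLog) (ε : ℝ) (hε : 0 < ε) (E1 E2 U : ℕ) :
    ∃ (E4 x0 : ℕ), ∀ x : ℕ, x0 ≤ x →
    ∀ K K1 q r : ℕ, (x : ℝ) ^ ε ≤ K → K ≤ x → K1 ≤ K → (K : ℝ) ≤ K1 * Real.log x ^ E2 → 1 ≤ q →
    (q : ℝ) ≤ Real.log x ^ E1 → ∀ ξ : ℝ, Real.log x ^ E4 ≤ |ξ| → |ξ| ≤ (x : ℝ) ^ 2 →
    ‖∑ k ∈ (Ioc K1 K).filter (fun k => k % q = r),
      (((k : ℝ) ^ (-(1 / 2) : ℝ) : ℝ) : ℂ) * e (ξ * Real.log k)‖ ^ 2 ≤ K / Real.log x ^ U := by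
  set M : ℕ := ⌈4 / ε⌉₊ with hM
  obtain ⟨η, hη, C, hC, hv⟩ := hvdc M
  set V : ℕ := U + E2 with hV
  obtain ⟨X2, hX2⟩ := exists_x0 ε hε 2 (E1 + E2)
  obtain ⟨X3, hX3⟩ := exists_x0 (ε / 2) (by positivity) (4 * Real.pi) (V + 1)
  obtain ⟨X4, hX4⟩ := exists_x0 (ε / 2) (by positivity) 2 (E1 + E2)
  obtain ⟨X5, hX5⟩ := exists_x0 (ε * (η / 2)) (by positivity) (3 * C) (V + 1)
  refine ⟨V + 1, 8 + X2 + X3 + X4 + X5, ?_⟩
  intro x hx K K1 q r hεK hKx hK1K hKK1 hq hqL ξ hξ1 hξ2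
  have hx8 : 8 ≤ x := by omega
  have c2 := hX2 x (by omega)
  have c3 := hX3 x (by omega)
  have c4 := hX4 x (by omega)
  have c5 := hX5 x (by omega)
  set L := Real.log x with hL
  have hx8' : (8 : ℝ) ≤ x := by exact_mod_cast hx8
  have hx0 : (0 : ℝ) < x := by linarith
  have hL2 : 2 ≤ L := by
    rw [hL, Real.le_log_iff_exp_le hx0]
    have h1 := Real.exp_one_lt_d9
    have h2 : Real.exp 2 = Real.exp 1 ^ 2 := by rw [← Real.exp_nat_mul]; norm_num
    rw [h2]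
    have h3 := Real.exp_pos 1
    nlinarith
  have hL0 : 0 < L := by linarith
  have hK0 : (0 : ℝ) < K := lt_of_lt_of_le (Real.rpow_pos_of_pos hx0 ε) hεK
  have hKx' : (K : ℝ) ≤ x := by exact_mod_cast hKx
  have hKnn : 0 ≤ (K : ℝ) / L ^ U := by positivity
  rcases le_or_gt q r with hqr | hqr
  · -- empty sum
    have : (Ioc K1 K).filter (fun k => k % q = r) = ∅ := by
      rw [filter_eq_empty_iff]
      intro k _ hk
      have := Nat.mod_lt k (show q > 0 by omega)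
      omega
    rw [this, sum_empty, norm_zero]
    simpa using hKnn
  have hK1q : 2 * (q : ℝ) ≤ K1 := by
    have h1 : 2 * L ^ (E1 + E2) ≤ (K1 : ℝ) * L ^ E2 := c2.trans (hεK.trans hKK1)
    rw [pow_add, ← mul_assoc] at h1
    have h2 := le_of_mul_le_mul_right h1 (by positivity : 0 < L ^ E2)
    linarith
  have hK1q' : 2 * q ≤ K1 := by exact_mod_cast hK1q
  have hK10 : (0 : ℝ) < K1 := by
    have : (1 : ℝ) ≤ q := by exact_mod_cast hq
    linarith
  have hq1 : (1 : ℝ) ≤ q := by exact_mod_cast hq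
  have hrq : (r : ℝ) < q := by exact_mod_cast hqr
  have hr0 : (0 : ℝ) ≤ r := Nat.cast_nonneg _
  set A := (K1 - r) / q with hA
  set B := (K - r) / q with hB
  have hAB : A ≤ B := Nat.div_le_div_right (by omega)
  have hA1 : 1 ≤ A := by
    rw [hA, Nat.le_div_iff_mul_le (by omega)]; omega
  have hBK : B ≤ K := (Nat.div_le_self _ _).trans (Nat.sub_le _ _)
  have hqB : q * B + r ≤ K := by
    have := Nat.mul_div_le (K - r) q
    rw [← hB] at this
    omega
  have hqA : K1 < q * (A + 1) + r := by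
    have := Nat.lt_mul_div_succ (K1 - r) (show 0 < q by omega)
    rw [← hA] at this
    omega
  have hqA' : (K1 : ℝ) < q * ((A : ℝ) + 1) + r := by exact_mod_cast hqA
  -- rewriting the sum
  have hsum : ∑ k ∈ (Ioc K1 K).filter (fun k => k % q = r),
      (((k : ℝ) ^ (-(1 / 2) : ℝ) : ℝ) : ℂ) * e (ξ * Real.log k) =
      ∑ j ∈ Ioc A B, (((fun j : ℕ => ((q : ℝ) * j + r) ^ (-(1 / 2) : ℝ)) j : ℝ) : ℂ) *
        (fun j : ℕ => gf q r ξ j) j := by
    refine Finset.sum_nbij' (fun k => k / q) (fun j => q * j + r) ?_ ?_ ?_ ?_ ?_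
    · intro k hk
      rw [mem_filter, mem_Ioc] at hk
      have h1 := Nat.div_add_mod k q
      rw [hk.2] at h1
      rw [mem_Ioc, hA, hB, Nat.div_lt_iff_lt_mul (by omega), Nat.le_div_iff_mul_le (by omega)]
      have h2 : k / q * q = q * (k / q) := mul_comm _ _
      rw [h2]
      omega
    · intro j hj
      rw [mem_Ioc, hA, hB, Nat.div_lt_iff_lt_mul (by omega), Nat.le_div_iff_mul_le (by omega),
        mul_comm j q] at hj
      rw [mem_filter, mem_Ioc]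
      refine ⟨by omega, ?_⟩
      rw [Nat.mul_add_mod, Nat.mod_eq_of_lt hqr]
    · intro k hk
      rw [mem_filter] at hk
      have h1 := Nat.div_add_mod k q
      rw [hk.2] at h1
      exact h1
    · intro j _
      rw [Nat.mul_add_div (by omega), Nat.div_eq_of_lt hqr, add_zero]
    · intro k hk
      rw [mem_filter] at hk
      have h1 := Nat.div_add_mod k q
      rw [hk.2] at h1
      have h2 : (q : ℝ) * ((k / q : ℕ) : ℝ) + r = k := by exact_mod_cast h1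
      simp only [gf, h2]
  -- bound of the partial sums
  have hx1 : (1 : ℝ) ≤ x := by linarith
  have hKhalf : (x : ℝ) ^ (ε / 2) ≤ (K : ℝ) ^ (1 / 2 : ℝ) := by
    have h1 : (x : ℝ) ^ (ε / 2) = ((x : ℝ) ^ ε) ^ (1 / 2 : ℝ) := by
      rw [← Real.rpow_mul hx0.le]; congr 1; ring
    rw [h1]
    exact Real.rpow_le_rpow (by positivity) hεK (by norm_num)
  have hKsq : (K : ℝ) ^ (1 / 2 : ℝ) * (K : ℝ) ^ (1 / 2 : ℝ) = K := by
    rw [← Real.rpow_add hK0]; norm_num
  have hKh0 : 0 < (K : ℝ) ^ (1 / 2 : ℝ) := Real.rpow_pos_of_pos hK0 _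
  have hξ0 : 0 < |ξ| := lt_of_lt_of_le (by positivity) hξ1
  have hξne : ξ ≠ 0 := abs_pos.mp hξ0
  have hA1' : (K : ℝ) ^ (1 / 2 : ℝ) ≤ (A : ℝ) + 1 := by
    have h1 : (K1 : ℝ) ≤ 2 * (q * ((A : ℝ) + 1)) := by
      have : (0 : ℝ) ≤ A := Nat.cast_nonneg _
      nlinarith
    have h2 : (K : ℝ) ≤ (2 * L ^ (E1 + E2)) * ((A : ℝ) + 1) := by
      calc (K : ℝ) ≤ K1 * L ^ E2 := hKK1
        _ ≤ (2 * (q * ((A : ℝ) + 1))) * L ^ E2 := mul_le_mul_of_nonneg_right h1 (by positivity)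
        _ ≤ (2 * (L ^ E1 * ((A : ℝ) + 1))) * L ^ E2 := by gcongr
        _ = (2 * L ^ (E1 + E2)) * ((A : ℝ) + 1) := by rw [pow_add]; ring
    have h3 : (K : ℝ) ^ (1 / 2 : ℝ) * (K : ℝ) ^ (1 / 2 : ℝ) ≤ (K : ℝ) ^ (1 / 2 : ℝ) * ((A : ℝ) + 1) := by
      rw [hKsq]
      exact h2.trans (mul_le_mul_of_nonneg_right (c4.trans hKhalf) (by positivity))
    exact le_of_mul_le_mul_left h3 hKh0
  have hpart : ∀ b, A ≤ b → b ≤ B → ‖∑ j ∈ Ioc A b, gf q r ξ j‖ ≤ K / L ^ V := by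
    intro b hAb hbB
    rcases le_or_gt |ξ| ((K : ℝ) ^ (1 / 2 : ℝ)) with hsm | hlg
    · have h1 := small_xi q r ξ hq1 hr0 A b hA1 hAb hξne
      have hqb : (q : ℝ) * b + r ≤ K := by
        have : q * b + r ≤ K := le_trans (by gcongr) hqB
        exact_mod_cast this
      have hqb0 : 0 < (q : ℝ) * b + r := by
        have : (1 : ℝ) ≤ b := by exact_mod_cast (hA1.trans hAb)
        nlinarith
      have h2 : ((q : ℝ) * b + r) / |ξ| ≤ (K : ℝ) / L ^ (V + 1) := by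
        apply div_le_div₀ hK0.le hqb (by positivity) hξ1
      have h3 : Real.log ((q : ℝ) * b + r) ≤ L :=
        Real.log_le_log hqb0 (hqb.trans hKx')
      have h4 : 2 * Real.pi * |ξ| * Real.log ((q : ℝ) * b + r) ≤
          2 * Real.pi * (K : ℝ) ^ (1 / 2 : ℝ) * L := by
        have hpi := Real.pi_pos
        calc 2 * Real.pi * |ξ| * Real.log ((q : ℝ) * b + r) ≤ 2 * Real.pi * |ξ| * L :=
              mul_le_mul_of_nonneg_left h3 (by positivity)
          _ ≤ _ := by gcongr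
      have h5 : 2 * Real.pi * (K : ℝ) ^ (1 / 2 : ℝ) * L ≤ 1 / 2 * (K / L ^ V) := by
        rw [← mul_div_assoc, le_div_iff₀ (by positivity)]
        have h6 := mul_le_mul_of_nonneg_left (c3.trans hKhalf) hKh0.le
        rw [hKsq] at h6
        calc 2 * Real.pi * (K : ℝ) ^ (1 / 2 : ℝ) * L * L ^ V
            = 1 / 2 * ((K : ℝ) ^ (1 / 2 : ℝ) * (4 * Real.pi * L ^ (V + 1))) := by
              rw [pow_succ]; ring
          _ ≤ 1 / 2 * K := by linarith
      have h7 : (K : ℝ) / L ^ (V + 1) ≤ 1 / 2 * (K / L ^ V) := by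
        rw [pow_succ, ← div_div, div_le_iff₀ hL0]
        have : 0 ≤ (K : ℝ) / L ^ V := by positivity
        nlinarith
      linarith
    · set m := Nat.log 2 x + 1 with hm
      have hm2 : B ≤ 2 ^ m := by
        have h1 : x < 2 ^ (Nat.log 2 x + 1) := Nat.lt_pow_succ_log_self (by norm_num) x
        rw [hm]
        have h2 : B ≤ x := hBK.trans hKx
        omega
      have hmL : (m : ℝ) ≤ 3 * L := by
        have h1 : 2 ^ Nat.log 2 x ≤ x := Nat.pow_log_le_self 2 (by omega)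
        have h2 : (2 : ℝ) ^ Nat.log 2 x ≤ x := by exact_mod_cast h1
        have h3 : (Nat.log 2 x : ℝ) * Real.log 2 ≤ L := by
          rw [hL, ← Real.log_pow]
          exact Real.log_le_log (by positivity) h2
        have h4 : (1 / 2 : ℝ) ≤ Real.log 2 := by
          have := Real.log_two_gt_d9; linarith
        have h5 : (0 : ℝ) ≤ Nat.log 2 x := Nat.cast_nonneg _
        rw [hm]; push_cast
        nlinarith
      have hξM : |ξ| ≤ ((A : ℝ) + 1) ^ M := by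
        have h1 : (x : ℝ) ^ (ε / 2) ≤ (A : ℝ) + 1 := hKhalf.trans hA1'
        have h2 : (x : ℝ) ^ 2 ≤ ((x : ℝ) ^ (ε / 2)) ^ M := by
          rw [← Real.rpow_natCast ((x : ℝ) ^ (ε / 2)), ← Real.rpow_mul hx0.le, ← Real.rpow_natCast (x : ℝ) 2]
          apply Real.rpow_le_rpow_of_exponent_le hx1
          have h3 : 4 / ε ≤ M := Nat.le_ceil _
          rw [div_le_iff₀ hε] at h3
          push_cast
          linarith
        exact hξ2.trans (h2.trans (pow_le_pow_left₀ (by positivity) h1 M))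
      have h1 := large_xi hη hC hv q r ξ hq1 hr0 hrq K A B hA1 hBK hA1' hlg.le hξM m hm2 b hAb hbB
      refine h1.trans ?_
      rw [le_div_iff₀ (by positivity)]
      have h2 : (x : ℝ) ^ (ε * (η / 2)) ≤ (K : ℝ) ^ (η / 2) := by
        rw [Real.rpow_mul hx0.le]
        exact Real.rpow_le_rpow (by positivity) hεK (by positivity)
      have h3 : (K : ℝ) ^ (-(η / 2)) * (K : ℝ) ^ (η / 2) = 1 := by
        rw [← Real.rpow_add hK0]; simp
      have hKm : 0 < (K : ℝ) ^ (-(η / 2)) := Real.rpow_pos_of_pos hK0 _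
      calc (m : ℝ) * (C * ((K : ℝ) * (K : ℝ) ^ (-(η / 2)))) * L ^ V
          ≤ (3 * L) * (C * ((K : ℝ) * (K : ℝ) ^ (-(η / 2)))) * L ^ V := by gcongr
        _ = (K : ℝ) * (K : ℝ) ^ (-(η / 2)) * (3 * C * L ^ (V + 1)) := by rw [pow_succ]; ring
        _ ≤ (K : ℝ) * (K : ℝ) ^ (-(η / 2)) * (K : ℝ) ^ (η / 2) := by
            apply mul_le_mul_of_nonneg_left (c5.trans h2) (by positivity)
        _ = K := by rw [mul_assoc, h3, mul_one]
  -- Abel summation
  have hw0 : ∀ j : ℕ, A < j → 0 < (q : ℝ) * j + r := by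
    intro j hj
    have : (1 : ℝ) ≤ j := by exact_mod_cast (by omega : 1 ≤ j)
    nlinarith
  have habel := abel (fun j : ℕ => ((q : ℝ) * j + r) ^ (-(1 / 2) : ℝ)) (fun j : ℕ => gf q r ξ j) A
    (K / L ^ V) (by positivity) B hAB (fun j hj => Real.rpow_nonneg (hw0 j hj).le _)
    (by
      intro j hj
      have h1 := hw0 j hj
      apply Real.rpow_le_rpow_of_nonpos h1 _ (by norm_num)
      push_cast
      linarith) hpart
  rw [hsum]
  have hfin : ((q : ℝ) * ((A + 1 : ℕ) : ℝ) + r) ^ (-(1 / 2) : ℝ) ≤ (K1 : ℝ) ^ (-(1 / 2) : ℝ) := by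
    apply Real.rpow_le_rpow_of_nonpos hK10 _ (by norm_num)
    push_cast
    exact hqA'.le
  have h1 := habel.trans (mul_le_mul_of_nonneg_right hfin (by positivity : 0 ≤ (K : ℝ) / L ^ V))
  have h2 := pow_le_pow_left₀ (norm_nonneg _) h1 2
  refine h2.trans ?_
  have h3 : ((K1 : ℝ) ^ (-(1 / 2) : ℝ)) ^ 2 = (K1 : ℝ)⁻¹ := by
    rw [← Real.rpow_natCast, ← Real.rpow_mul hK10.le, ← Real.rpow_neg_one]
    congr 1; norm_num
  rw [mul_pow, h3]
  have h4 : ((K : ℝ) / L ^ V) ^ 2 = K * K / (L ^ V * L ^ V) := by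
    rw [div_pow]; ring
  rw [h4, inv_mul_eq_div, div_div, div_le_div_iff₀ (by positivity) (by positivity)]
  have h5 : L ^ U * L ^ E2 ≤ L ^ V * L ^ V := by
    rw [← pow_add, ← pow_add]
    exact pow_le_pow_right₀ (by linarith) (by omega)
  calc (K : ℝ) * K * L ^ U ≤ K * (K1 * L ^ E2) * L ^ U := by gcongr
    _ = K * (L ^ U * L ^ E2 * K1) := by ring
    _ ≤ K * (L ^ V * L ^ V * K1) := by gcongr

end KS

end Pool.Agent.H442R2.EHI
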