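import Pool.Agent.H43.G.R_seed8.H442R2.EHI.Defs

/-!
T5 Plancherel for a sum of translates
-/

namespace Pool.Agent.H442R2.EHI

open Finset
open Pool.Agent.H469R2.NK (e)

namespace PlanchAux

open MeasureTheory FourierTransform
open Pool.Agent.H469R2.NK (e_add norm_e)

lemma four_eq (h : ℝ → ℂ) (ξ : ℝ) : 𝓕 h ξ = ∫ s : ℝ, h s * e (-(ξ * s)) := by
  rw [Real.fourier_real_eq_integral_exp_smul]
  refine integral_congr_ae (Filter.Eventually.of_forall fun s => ?_)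
  simp only [e, smul_eq_mul]
  rw [mul_comm]
  congr 2
  push_cast
  ring

lemma planch0 (h : ℝ → ℂ) (hh : ContDiff ℝ (⊤ : ℕ∞) h) (hc : HasCompactSupport h) :
    ∫ ξ : ℝ, ‖∫ s : ℝ, h s * e (-(ξ * s))‖ ^ 2 = ∫ s : ℝ, ‖h s‖ ^ 2 := by
  have h1 := SchwartzMap.integral_norm_sq_fourier (hc.toSchwartzMap hh)
  have h2 : ⇑(hc.toSchwartzMap hh) = h := rfl
  simp only [SchwartzMap.fourier_coe, h2] at h1
  rw [← h1]
  simp only [four_eq]

lemma integ0 (h : ℝ → ℂ) (hh : ContDiff ℝ (⊤ : ℕ∞) h) (hc : HasCompactSupport h) :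
    Integrable (fun ξ : ℝ => ‖∫ s : ℝ, h s * e (-(ξ * s))‖ ^ 2) := by
  have h1 := ((𝓕 (hc.toSchwartzMap hh)).memLp 2 volume).integrable_norm_pow (by norm_num)
  have h2 : ⇑(hc.toSchwartzMap hh) = h := rfl
  simp only [SchwartzMap.fourier_coe, h2, four_eq] at h1
  simpa using h1

end PlanchAux

open PlanchAux in
/-- T5 (Planch.lean). Plancherel for a sum of translates. -/
theorem planch (h : ℝ → ℂ) (hh : ContDiff ℝ (⊤ : ℕ∞) h) (hc : HasCompactSupport h) (T : Finset ℕ)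
    (hT : ∀ k ∈ T, 1 ≤ k) :
    ∫ s : ℝ, ‖∑ k ∈ T, (((k : ℝ) ^ (-(1 / 2) : ℝ) : ℝ) : ℂ) * h (s + Real.log k)‖ ^ 2 =
    ∫ ξ : ℝ, ‖∫ s : ℝ, h s * e (-(ξ * s))‖ ^ 2 *
      ‖∑ k ∈ T, (((k : ℝ) ^ (-(1 / 2) : ℝ) : ℝ) : ℂ) * e (ξ * Real.log k)‖ ^ 2 := by
  set G : ℝ → ℂ := fun s => ∑ k ∈ T, (((k : ℝ) ^ (-(1 / 2) : ℝ) : ℝ) : ℂ) * h (s + Real.log k)
    with hG
  have hsm : ∀ a : ℝ, ContDiff ℝ (⊤ : ℕ∞) (fun s => h (s + a)) := fun a =>
    hh.comp (contDiff_id.add contDiff_const)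
  have hcs : ∀ a : ℝ, HasCompactSupport (fun s => h (s + a)) := fun a =>
    hc.comp_homeomorph (Homeomorph.addRight a)
  have hint : ∀ a : ℝ, MeasureTheory.Integrable (fun s => h (s + a)) := fun a =>
    (hsm a).continuous.integrable_of_hasCompactSupport (hcs a)
  have hGs : ContDiff ℝ (⊤ : ℕ∞) G := by
    refine ContDiff.sum fun k _ => ?_
    exact contDiff_const.mul (hsm _)
  have hGc : HasCompactSupport G := by
    rw [hG]
    clear hG hGs G
    clear hT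
    induction T using Finset.induction_on with
    | empty =>
      simp only [Finset.sum_empty]
      exact (HasCompactSupport.zero : HasCompactSupport (0 : ℝ → ℂ))
    | insert a s ha ih =>
      simp only [Finset.sum_insert ha]
      exact ((hcs (Real.log a)).mul_left).add ih
  rw [← planch0 G hGs hGc]
  refine MeasureTheory.integral_congr_ae (Filter.Eventually.of_forall fun ξ => ?_)
  simp only
  rw [← mul_pow, ← norm_mul]
  congr 2
  have hcont : Continuous (fun s : ℝ => e (-(ξ * s))) := by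
    unfold Pool.Agent.H469R2.NK.e
    fun_prop
  have hI : ∀ a : ℝ, MeasureTheory.Integrable (fun s => h (s + a) * e (-(ξ * s))) := fun a =>
    ((hsm a).continuous.mul hcont).integrable_of_hasCompactSupport ((hcs a).mul_right)
  have h1 : ∀ a : ℝ, ∫ s : ℝ, h (s + a) * e (-(ξ * s)) = (∫ s : ℝ, h s * e (-(ξ * s))) * e (ξ * a) := by
    intro a
    rw [← MeasureTheory.integral_add_right_eq_self (fun s => h s * e (-(ξ * s))) a,
      ← MeasureTheory.integral_mul_const]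
    refine MeasureTheory.integral_congr_ae (Filter.Eventually.of_forall fun s => ?_)
    simp only
    rw [mul_assoc, ← Pool.Agent.H469R2.NK.e_add]
    congr 2
    ring
  simp only [hG, Finset.sum_mul]
  rw [MeasureTheory.integral_finsetSum]
  · rw [Finset.mul_sum]
    refine Finset.sum_congr rfl fun k _ => ?_
    simp only [mul_assoc]
    rw [MeasureTheory.integral_const_mul, h1]
    ring
  · intro k _
    simp only [mul_assoc]
    exact (hI _).const_mul _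

open PlanchAux in
/-- T5b (Planch.lean). -/
theorem planch_tail (h : ℝ → ℂ) (hh : ContDiff ℝ (⊤ : ℕ∞) h) (hc : HasCompactSupport h)
    (Ξ : ℝ) (hΞ : 0 < Ξ) :
    MeasureTheory.Integrable (fun ξ : ℝ => ‖∫ s : ℝ, h s * e (-(ξ * s))‖ ^ 2) ∧
    ∫ ξ : ℝ, ‖∫ s : ℝ, h s * e (-(ξ * s))‖ ^ 2 = ∫ s : ℝ, ‖h s‖ ^ 2 ∧
    ∫ ξ in {ξ : ℝ | Ξ < |ξ|}, ‖∫ s : ℝ, h s * e (-(ξ * s))‖ ^ 2 ≤
      (1 / Ξ ^ 2) * ∫ s : ℝ, ‖deriv h s‖ ^ 2 := by
  refine ⟨integ0 h hh hc, planch0 h hh hc, ?_⟩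
  have hd : ContDiff ℝ (⊤ : ℕ∞) (deriv h) := by
    have h2 : ContDiff ℝ ((⊤ : ℕ∞) + 1) h := by simpa using hh
    exact ((contDiff_succ_iff_deriv.1 h2).2.2)
  have hcd : HasCompactSupport (deriv h) := hc.deriv
  rw [← planch0 _ hd hcd, ← MeasureTheory.integral_const_mul]
  have hfd : ∀ ξ : ℝ, (∫ s : ℝ, deriv h s * e (-(ξ * s))) =
      (2 * Real.pi * Complex.I * ξ) * (∫ s : ℝ, h s * e (-(ξ * s))) := by
    intro ξ
    have := congrFun (Real.fourier_deriv (f := h) (hh.continuous.integrable_of_hasCompactSupport hc)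
      (hh.differentiable (by simp)) (hd.continuous.integrable_of_hasCompactSupport hcd)) ξ
    rw [four_eq] at this
    rw [this, four_eq]
    simp [smul_eq_mul]
  have hint1 := integ0 h hh hc
  have hint2 := (integ0 _ hd hcd).const_mul (1 / Ξ ^ 2)
  calc ∫ ξ in {ξ : ℝ | Ξ < |ξ|}, ‖∫ s : ℝ, h s * e (-(ξ * s))‖ ^ 2
      ≤ ∫ ξ in {ξ : ℝ | Ξ < |ξ|}, 1 / Ξ ^ 2 * ‖∫ s : ℝ, deriv h s * e (-(ξ * s))‖ ^ 2 := by
        refine MeasureTheory.setIntegral_mono_on hint1.integrableOn hint2.integrableOn ?_ ?_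
        · exact measurableSet_lt measurable_const measurable_norm
        · intro ξ hξ
          have hξ' : Ξ < |ξ| := hξ
          rw [hfd, norm_mul, mul_pow]
          have h3 : ‖(2 * Real.pi * Complex.I * ξ : ℂ)‖ = 2 * Real.pi * |ξ| := by
            simp [abs_of_pos Real.pi_pos]
          rw [h3]
          have h4 : Ξ ^ 2 ≤ (2 * Real.pi * |ξ|) ^ 2 := by
            apply pow_le_pow_left₀ hΞ.le
            nlinarith [Real.pi_gt_three, abs_nonneg ξ]
          have h5 : 1 ≤ 1 / Ξ ^ 2 * (2 * Real.pi * |ξ|) ^ 2 := by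
            rw [one_div, inv_mul_eq_div, one_le_div (by positivity)]
            exact h4
          calc ‖∫ s : ℝ, h s * e (-(ξ * s))‖ ^ 2 = 1 * ‖∫ s : ℝ, h s * e (-(ξ * s))‖ ^ 2 := by ring
            _ ≤ (1 / Ξ ^ 2 * (2 * Real.pi * |ξ|) ^ 2) * ‖∫ s : ℝ, h s * e (-(ξ * s))‖ ^ 2 := by
              gcongr
            _ = _ := by ring
    _ ≤ ∫ ξ : ℝ, 1 / Ξ ^ 2 * ‖∫ s : ℝ, deriv h s * e (-(ξ * s))‖ ^ 2 := by
        refine MeasureTheory.setIntegral_le_integral hint2 ?_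
        exact Filter.Eventually.of_forall fun ξ => by positivity

end Pool.Agent.H442R2.EHI
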