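import Pool.Agent.H43.G.R_seed8.H442R2.EHI.Defs

namespace Pool.Agent.H442R2.EHI

open Finset
open Pool.Agent.H469R2.NK (e norm_e e_add conj_e e_zero)

lemma ps_hasDerivAt (lam y : ℝ) :
    HasDerivAt (fun y : ℝ => e (-(y * lam))) ((-(2 * Real.pi * lam) : ℝ) * Complex.I * e (-(y * lam))) y := by
  unfold e
  have h1 : HasDerivAt (fun y : ℝ => (((2 * Real.pi * (-(y * lam)) : ℝ) : ℂ) * Complex.I))
      (((-(2 * Real.pi * lam) : ℝ) : ℂ) * Complex.I) y := by
    have h2 : HasDerivAt (fun y : ℝ => (2 * Real.pi * (-(y * lam)) : ℝ)) (-(2 * Real.pi * lam)) y := by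
      have h3 := (((hasDerivAt_id' y).mul_const lam).fun_neg).const_mul (2 * Real.pi)
      have h4 : 2 * Real.pi * -(1 * lam) = -(2 * Real.pi * lam) := by ring
      rwa [h4] at h3
    exact (h2.ofReal_comp).mul_const Complex.I
  convert h1.cexp using 1
  ring

lemma ps_contDiff (lam : ℝ) : ContDiff ℝ (⊤ : ℕ∞) (fun y : ℝ => e (-(y * lam))) := by
  unfold e
  apply Complex.contDiff_exp.comp
  apply ContDiff.mul _ contDiff_const
  apply Complex.ofRealCLM.contDiff.comp
  exact contDiff_const.mul ((contDiff_id.mul contDiff_const).neg)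

lemma ps_int (N : ℕ) (hN : 1 ≤ N) (m : ℤ) (hm : m ≠ 0) :
    ∫ y in (0 : ℝ)..N, e (y * ((m : ℝ) / N)) = 0 := by
  have hN0 : (N : ℂ) ≠ 0 := by exact_mod_cast (by omega : N ≠ 0)
  set c : ℂ := 2 * Real.pi * Complex.I * (m / N) with hc
  have hc0 : c ≠ 0 := by
    rw [hc]
    have hm' : (m : ℂ) ≠ 0 := by exact_mod_cast hm
    have hpi : (Real.pi : ℂ) ≠ 0 := by exact_mod_cast Real.pi_ne_zero
    exact mul_ne_zero (mul_ne_zero (mul_ne_zero two_ne_zero hpi) Complex.I_ne_zero)
      (div_ne_zero hm' hN0)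
  have h1 : ∀ y : ℝ, e (y * ((m : ℝ) / N)) = Complex.exp (c * y) := by
    intro y
    unfold e
    congr 1
    rw [hc]
    push_cast
    ring
  simp_rw [h1]
  rw [integral_exp_mul_complex hc0]
  have h2 : Complex.exp (c * ((N : ℕ) : ℝ)) = 1 := by
    rw [hc]
    have : 2 * (Real.pi : ℂ) * Complex.I * (m / N) * ((N : ℕ) : ℝ) = m * (2 * Real.pi * Complex.I) := by
      push_cast
      field_simp
    rw [this]
    exact Complex.exp_int_mul_two_pi_mul_I m
  rw [h2]
  simp

/-- T6b (PolySq.lean). -/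
theorem poly_sq (N : ℕ) (hN : 1 ≤ N) (θ : ℝ) (S : Finset ℤ) (c : ℤ → ℂ) :
    ∫ y in (0 : ℝ)..N, ‖poly N θ S c y‖ ^ 2 = N * ∑ h ∈ S, ‖c h‖ ^ 2 := by
  have hkey : ∀ y : ℝ, ((‖poly N θ S c y‖ ^ 2 : ℝ) : ℂ) =
      ∑ h ∈ S, ∑ k ∈ S, (c h * (starRingEnd ℂ) (c k)) * e (y * (((k - h : ℤ) : ℝ) / N)) := by
    intro y
    have h1 : ((‖poly N θ S c y‖ ^ 2 : ℝ) : ℂ) =
        poly N θ S c y * (starRingEnd ℂ) (poly N θ S c y) := by
      rw [Complex.mul_conj']
      push_cast
      rfl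
    rw [h1]
    unfold poly
    rw [map_sum, Finset.sum_mul_sum]
    refine Finset.sum_congr rfl fun h _ => Finset.sum_congr rfl fun k _ => ?_
    rw [map_mul, conj_e]
    have h2 : e (y * (((k - h : ℤ) : ℝ) / N)) = e (-(y * (((h : ℝ) + θ) / N))) *
        e (-(-(y * (((k : ℝ) + θ) / N)))) := by
      rw [← e_add]
      congr 1
      push_cast
      ring
    rw [h2]
    ring
  have hcont : ∀ lam : ℝ, Continuous fun y : ℝ => e (y * lam) := by
    intro lam
    unfold e
    fun_prop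
  have hcomplex : ((∫ y in (0 : ℝ)..N, ‖poly N θ S c y‖ ^ 2 : ℝ) : ℂ) =
      ((N * ∑ h ∈ S, ‖c h‖ ^ 2 : ℝ) : ℂ) := by
    rw [← intervalIntegral.integral_ofReal]
    simp_rw [hkey]
    rw [intervalIntegral.integral_finsetSum]
    · rw [Complex.ofReal_mul, Complex.ofReal_sum, Finset.mul_sum]
      refine Finset.sum_congr rfl fun h hh => ?_
      rw [intervalIntegral.integral_finsetSum]
      · rw [Finset.sum_eq_single h]
        · rw [intervalIntegral.integral_const_mul]
          simp only [sub_self, Int.cast_zero, zero_div, mul_zero, e_zero,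
            intervalIntegral.integral_const, sub_zero]
          rw [Complex.mul_conj']
          simp [mul_comm]
        · intro k _ hk
          rw [intervalIntegral.integral_const_mul, ps_int N hN _ (sub_ne_zero.2 hk), mul_zero]
        · intro hc
          exact absurd hh hc
      · intro k _
        exact ((hcont _).const_mul _ |>.intervalIntegrable _ _) 
    · intro h _
      apply Continuous.intervalIntegrable
      refine continuous_finsetSum _ fun k _ => ?_
      exact continuous_const.mul (hcont _)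
  exact_mod_cast hcomplex

/-- T6b (PolySq.lean). -/
theorem poly_deriv (N : ℕ) (hN : 1 ≤ N) (θ : ℝ) (S : Finset ℤ) (c : ℤ → ℂ) (δ : ℝ)
    (hδ : ∀ h ∈ S, |((h : ℝ) + θ) / N| ≤ δ) :
    ContDiff ℝ (⊤ : ℕ∞) (poly N θ S c) ∧
    ∫ y in (0 : ℝ)..N, ‖deriv (poly N θ S c) y‖ ^ 2 ≤
      (2 * Real.pi * δ) ^ 2 * (N * ∑ h ∈ S, ‖c h‖ ^ 2) := by
  constructor
  · unfold poly
    refine ContDiff.sum fun h _ => ?_
    exact contDiff_const.mul (ps_contDiff _)
  · have h1 : ∀ y, deriv (poly N θ S c) y = poly N θ S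
        (fun h => c h * ((-(2 * Real.pi * (((h : ℝ) + θ) / N)) : ℝ) * Complex.I)) y := by
      intro y
      have h2 : HasDerivAt (poly N θ S c) (∑ h ∈ S, c h *
          ((-(2 * Real.pi * (((h : ℝ) + θ) / N)) : ℝ) * Complex.I *
            e (-(y * (((h : ℝ) + θ) / N))))) y := by
        unfold poly
        refine HasDerivAt.fun_sum fun h _ => ?_
        exact (ps_hasDerivAt _ y).const_mul (c h)
      rw [h2.deriv]
      unfold poly
      refine Finset.sum_congr rfl fun h _ => ?_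
      ring
    simp_rw [h1]
    rw [poly_sq N hN]
    have h3 : ∀ h ∈ S, ‖c h * ((-(2 * Real.pi * (((h : ℝ) + θ) / N)) : ℝ) * Complex.I)‖ ^ 2 ≤
        (2 * Real.pi * δ) ^ 2 * ‖c h‖ ^ 2 := by
      intro h hh
      rw [norm_mul, norm_mul, Complex.norm_I, mul_one, mul_pow, Complex.norm_real, Real.norm_eq_abs,
        abs_neg, abs_mul, abs_of_pos Real.two_pi_pos]
      have h4 := hδ h hh
      have h5 : (2 * Real.pi * |((h : ℝ) + θ) / N|) ^ 2 ≤ (2 * Real.pi * δ) ^ 2 := by
        apply pow_le_pow_left₀ (by positivity)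
        exact mul_le_mul_of_nonneg_left h4 Real.two_pi_pos.le
      nlinarith [sq_nonneg ‖c h‖]
    have h6 := Finset.sum_le_sum h3
    rw [← Finset.mul_sum] at h6
    have hN' : (0 : ℝ) ≤ N := Nat.cast_nonneg N
    nlinarith [mul_le_mul_of_nonneg_left h6 hN']

end Pool.Agent.H442R2.EHI
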