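import Pool.Agent.H43.G.R_seed8.H442R2.EHI.Defs

namespace Pool.Agent.H442R2.EHI

open Finset

lemma sb_cs (a b : ℝ) (hab : a ≤ b) (f g : ℝ → ℝ) (hf : Continuous f) (hg : Continuous g) :
    ∫ u in a..b, f u * g u ≤ √(∫ u in a..b, f u ^ 2) * √(∫ u in a..b, g u ^ 2) := by
  set A := ∫ u in a..b, f u ^ 2 with hA
  set B := ∫ u in a..b, g u ^ 2 with hB
  set C := ∫ u in a..b, f u * g u with hC
  have hA0 : 0 ≤ A := intervalIntegral.integral_nonneg hab fun u _ => sq_nonneg _
  have hB0 : 0 ≤ B := intervalIntegral.integral_nonneg hab fun u _ => sq_nonneg _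
  have hq : ∀ t : ℝ, 0 ≤ A * (t * t) + (-(2 * C)) * t + B := by
    intro t
    have h1 : 0 ≤ ∫ u in a..b, (t * f u - g u) ^ 2 :=
      intervalIntegral.integral_nonneg hab fun u _ => sq_nonneg _
    have h2 : ∫ u in a..b, (t * f u - g u) ^ 2 = A * (t * t) + (-(2 * C)) * t + B := by
      have h3 : ∀ u, (t * f u - g u) ^ 2 = (t * t) * f u ^ 2 + ((-(2 * t)) * (f u * g u) + g u ^ 2) := by
        intro u; ring
      simp_rw [h3]
      rw [intervalIntegral.integral_add, intervalIntegral.integral_add,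
        intervalIntegral.integral_const_mul, intervalIntegral.integral_const_mul]
      · ring
      · exact ((hf.mul hg).const_mul _ |>.intervalIntegrable _ _)
      · exact (hg.pow 2).intervalIntegrable _ _
      · exact ((hf.pow 2).const_mul _ |>.intervalIntegrable _ _)
      · exact (((hf.mul hg).const_mul _).add (hg.pow 2)).intervalIntegrable _ _
    rwa [h2] at h1
  have hd := discrim_le_zero hq
  unfold discrim at hd
  have h4 : C ^ 2 ≤ A * B := by nlinarith
  rw [← Real.sqrt_mul hA0]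
  exact Real.le_sqrt_of_sq_le h4

lemma sb_unit (g : ℝ → ℂ) (hg : ContDiff ℝ 1 g) (a : ℝ) :
    ‖g (a + 1)‖ ^ 2 ≤ (∫ u in a..(a + 1), ‖g u‖ ^ 2) +
      ∫ u in a..(a + 1), 2 * (‖g u‖ * ‖deriv g u‖) := by
  have hgc : Continuous g := hg.continuous
  have hdc : Continuous (deriv g) := hg.continuous_deriv le_rfl
  have hgd : ∀ u, HasDerivAt g (deriv g u) u := fun u =>
    (hg.differentiable one_ne_zero u).hasDerivAt
  have hF : ∀ u, HasDerivAt (fun u => ‖g u‖ ^ 2) (2 * inner ℝ (g u) (deriv g u)) u :=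
    fun u => (hgd u).norm_sq
  have hin : Continuous fun u => 2 * inner ℝ (g u) (deriv g u) :=
    continuous_const.mul (hgc.inner hdc)
  have hprod : Continuous fun u => 2 * (‖g u‖ * ‖deriv g u‖) :=
    continuous_const.mul (hgc.norm.mul hdc.norm)
  have hsq : Continuous fun u => ‖g u‖ ^ 2 := hgc.norm.pow 2
  set A := ∫ u in a..(a + 1), 2 * (‖g u‖ * ‖deriv g u‖) with hA
  have h1 : ∀ u ∈ Set.Icc a (a + 1), ‖g (a + 1)‖ ^ 2 ≤ ‖g u‖ ^ 2 + A := by
    intro u hu
    have h2 := intervalIntegral.integral_eq_sub_of_hasDerivAt (a := u) (b := a + 1)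
      (fun x _ => hF x) (hin.intervalIntegrable _ _)
    have h3 : ∫ x in u..(a + 1), 2 * inner ℝ (g x) (deriv g x) ≤
        ∫ x in u..(a + 1), 2 * (‖g x‖ * ‖deriv g x‖) := by
      apply intervalIntegral.integral_mono_on hu.2 (hin.intervalIntegrable _ _)
        (hprod.intervalIntegrable _ _)
      intro x _
      have := real_inner_le_norm (g x) (deriv g x)
      linarith
    have h4 : ∫ x in u..(a + 1), 2 * (‖g x‖ * ‖deriv g x‖) ≤ A := by
      rw [hA, ← intervalIntegral.integral_add_adjacent_intervals (a := a) (b := u) (c := a + 1)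
        (hprod.intervalIntegrable _ _) (hprod.intervalIntegrable _ _)]
      have : 0 ≤ ∫ x in a..u, 2 * (‖g x‖ * ‖deriv g x‖) :=
        intervalIntegral.integral_nonneg hu.1 fun x _ => by positivity
      linarith
    linarith
  have h5 : ∫ _u in a..(a + 1), ‖g (a + 1)‖ ^ 2 ≤ ∫ u in a..(a + 1), (‖g u‖ ^ 2 + A) := by
    apply intervalIntegral.integral_mono_on (by linarith) (continuous_const.intervalIntegrable _ _)
      ((hsq.add continuous_const).intervalIntegrable _ _)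
    intro x hx
    exact h1 x hx
  rw [intervalIntegral.integral_add (hsq.intervalIntegrable _ _)
    (continuous_const.intervalIntegrable _ _)] at h5
  simp only [intervalIntegral.integral_const, add_sub_cancel_left, smul_eq_mul, one_mul] at h5
  exact h5

/-- T6c (Sobolev.lean). -/
theorem sobolev (D : ℕ) (hD : 1 ≤ D) (g : ℝ → ℂ) (hg : ContDiff ℝ 1 g) :
    ∑ d ∈ Ioc D (2 * D), ‖g d‖ ^ 2 ≤ (∫ u in (D : ℝ)..(2 * D), ‖g u‖ ^ 2) +
      2 * √(∫ u in (D : ℝ)..(2 * D), ‖g u‖ ^ 2) * √(∫ u in (D : ℝ)..(2 * D), ‖deriv g u‖ ^ 2) := by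
  have hgc : Continuous g := hg.continuous
  have hdc : Continuous (deriv g) := hg.continuous_deriv le_rfl
  have hprod : Continuous fun u => 2 * (‖g u‖ * ‖deriv g u‖) :=
    continuous_const.mul (hgc.norm.mul hdc.norm)
  have hsq : Continuous fun u => ‖g u‖ ^ 2 := hgc.norm.pow 2
  have h1 : ∑ d ∈ Ioc D (2 * D), ‖g d‖ ^ 2 = ∑ k ∈ Ico D (2 * D), ‖g ((k + 1 : ℕ) : ℝ)‖ ^ 2 := by
    rw [Finset.sum_Ico_add' (fun k : ℕ => ‖g (k : ℝ)‖ ^ 2)]
    refine Finset.sum_congr ?_ fun _ _ => rfl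
    ext k
    simp only [Finset.mem_Ioc, Finset.mem_Ico]
    omega
  have h2 : ∀ k ∈ Ico D (2 * D), ‖g ((k + 1 : ℕ) : ℝ)‖ ^ 2 ≤
      (∫ u in ((k : ℕ) : ℝ)..((k + 1 : ℕ) : ℝ), ‖g u‖ ^ 2) +
      ∫ u in ((k : ℕ) : ℝ)..((k + 1 : ℕ) : ℝ), 2 * (‖g u‖ * ‖deriv g u‖) := by
    intro k _
    have := sb_unit g hg k
    push_cast
    exact this
  rw [h1]
  refine le_trans (Finset.sum_le_sum h2) ?_
  rw [Finset.sum_add_distrib,
    intervalIntegral.sum_integral_adjacent_intervals_Ico (a := fun k : ℕ => (k : ℝ)) (by omega)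
      (fun k _ => hsq.intervalIntegrable _ _),
    intervalIntegral.sum_integral_adjacent_intervals_Ico (a := fun k : ℕ => (k : ℝ)) (by omega)
      (fun k _ => hprod.intervalIntegrable _ _)]
  push_cast
  have hle : (D : ℝ) ≤ 2 * D := by
    have : (0 : ℝ) ≤ D := Nat.cast_nonneg D
    linarith
  have h3 := sb_cs (D : ℝ) (2 * D) hle (fun u => ‖g u‖) (fun u => ‖deriv g u‖) hgc.norm hdc.norm
  rw [intervalIntegral.integral_const_mul]
  nlinarith [h3]

end Pool.Agent.H442R2.EHI
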