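import Pool.Agent.H43.G.R_seed8.H442R2.EHI.Defs
import Pool.Agent.H43.G.R_seed8.H442R2.EHI.KSum
import Pool.Agent.H43.G.R_seed8.H442R2.EHI.VdC
import Pool.Agent.H43.G.R_seed8.H442R2.EHI.Cutoff
import Pool.Agent.H43.G.R_seed8.H442R2.EHI.Planch
import Pool.Agent.H43.G.R_seed8.H442R2.EHI.PolySq
import Pool.Agent.H43.G.R_seed8.H442R2.EHI.Sobolev

/-!
T6d: major arcs for exponential polynomials (task of helper457).
-/

namespace Pool.Agent.H442R2.EHI.MP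

open Finset MeasureTheory
open Pool.Agent.H469R2.NK (e norm_e)

/-! ### generalities -/

lemma contDiff_e : ContDiff ℝ (⊤ : ℕ∞) e := by
  unfold e
  apply ContDiff.cexp
  apply ContDiff.mul _ contDiff_const
  exact Complex.ofRealCLM.contDiff.comp (contDiff_const.mul contDiff_id)

lemma continuous_e : Continuous e := contDiff_e.continuous

lemma exp_subst {F : ℝ → ℝ} (hF : Continuous F) (a b : ℝ) :
    ∫ s in a..b, Real.exp s * F (Real.exp s) = ∫ y in Real.exp a..Real.exp b, F y := by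
  have h := intervalIntegral.integral_comp_mul_deriv (f := Real.exp) (f' := Real.exp) (g := F)
    (a := a) (b := b) (fun x _ => Real.hasDerivAt_exp x) Real.continuous_exp.continuousOn hF
  rw [← h]
  refine intervalIntegral.integral_congr fun s _ => ?_
  simp [mul_comm]

lemma int_le_of_supp {f g : ℝ → ℝ} {a b : ℝ} (hab : a ≤ b)
    (hfg : ∀ s ∈ Set.Icc a b, f s ≤ g s) (hf : ∀ s, s ∉ Set.Icc a b → f s = 0)
    (hfi : Continuous f) (hg : Continuous g) : ∫ s, f s ≤ ∫ s in a..b, g s := by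
  have h1 : ∫ s, f s = ∫ s in Set.Icc a b, f s :=
    (setIntegral_eq_integral_of_forall_compl_eq_zero hf).symm
  rw [h1, intervalIntegral.integral_of_le hab, ← integral_Icc_eq_integral_Ioc]
  exact setIntegral_mono_on hfi.continuousOn.integrableOn_Icc hg.continuousOn.integrableOn_Icc
    measurableSet_Icc hfg

lemma int_mono_interval {F : ℝ → ℝ} (hF : Continuous F) (h0 : ∀ y, 0 ≤ F y) {a b M : ℝ}
    (ha : 0 ≤ a) (hab : a ≤ b) (hb : b ≤ M) :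
    ∫ y in a..b, F y ≤ ∫ y in (0:ℝ)..M, F y := by
  apply intervalIntegral.integral_mono_interval ha hab hb
  · exact Filter.Eventually.of_forall fun y => h0 y
  · exact hF.intervalIntegrable _ _

/-! ### the function `h` -/

section H

variable {N : ℕ} {θ : ℝ} {S : Finset ℤ} {c : ℤ → ℂ} {ρ : ℝ → ℝ} {s0 s1 : ℝ}

/-- `h(s) = e^{s/2} ρ(s) φ(e^s)` -/
noncomputable def hh (N : ℕ) (θ : ℝ) (S : Finset ℤ) (c : ℤ → ℂ) (ρ : ℝ → ℝ) (s : ℝ) : ℂ :=
  ((Real.exp (s / 2) * ρ s : ℝ) : ℂ) * poly N θ S c (Real.exp s)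

lemma contDiff_poly : ContDiff ℝ (⊤ : ℕ∞) (poly N θ S c) := by
  unfold poly
  refine ContDiff.sum fun h _ => ?_
  refine contDiff_const.mul (contDiff_e.comp ?_)
  exact (contDiff_id.mul contDiff_const).neg

lemma contDiff_a (hρ : ContDiff ℝ (⊤ : ℕ∞) ρ) :
    ContDiff ℝ (⊤ : ℕ∞) fun s : ℝ => Real.exp (s / 2) * ρ s :=
  (Real.contDiff_exp.comp (contDiff_id.div_const 2)).mul hρ

lemma contDiff_hh (hρ : ContDiff ℝ (⊤ : ℕ∞) ρ) : ContDiff ℝ (⊤ : ℕ∞) (hh N θ S c ρ) := by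
  unfold hh
  refine ContDiff.mul ?_ (contDiff_poly.comp Real.contDiff_exp)
  exact Complex.ofRealCLM.contDiff.comp (contDiff_a hρ)

lemma hh_supp (h0 : ∀ s, s ≤ s0 - 1 → ρ s = 0) (h1 : ∀ s, s1 + 1 ≤ s → ρ s = 0) (s : ℝ)
    (hs : s ∉ Set.Icc (s0 - 1) (s1 + 1)) : hh N θ S c ρ s = 0 := by
  have : ρ s = 0 := by
    rw [Set.mem_Icc, not_and_or, not_le, not_le] at hs
    rcases hs with hs | hs
    · exact h0 s hs.le
    · exact h1 s hs.le
  simp [hh, this]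

lemma hasCompactSupport_hh (h0 : ∀ s, s ≤ s0 - 1 → ρ s = 0) (h1 : ∀ s, s1 + 1 ≤ s → ρ s = 0) :
    HasCompactSupport (hh N θ S c ρ) :=
  HasCompactSupport.intro isCompact_Icc (hh_supp h0 h1)

lemma normsq_hh (s : ℝ) :
    ‖hh N θ S c ρ s‖ ^ 2 = Real.exp s * ‖poly N θ S c (Real.exp s)‖ ^ 2 * ρ s ^ 2 := by
  unfold hh
  rw [norm_mul, mul_pow, Complex.norm_real, Real.norm_eq_abs, sq_abs, mul_pow,
    ← Real.exp_nat_mul]
  have : ((2:ℕ):ℝ) * (s / 2) = s := by push_cast; ring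
  rw [this]
  ring

lemma int_hh (hs : s0 ≤ s1) (hρc : ContDiff ℝ (⊤ : ℕ∞) ρ) (hρ : ∀ s, 0 ≤ ρ s ∧ ρ s ≤ 1)
    (h0 : ∀ s, s ≤ s0 - 1 → ρ s = 0) (h1 : ∀ s, s1 + 1 ≤ s → ρ s = 0)
    (hN : Real.exp (s1 + 1) ≤ N) :
    ∫ s, ‖hh N θ S c ρ s‖ ^ 2 ≤ ∫ y in (0:ℝ)..N, ‖poly N θ S c y‖ ^ 2 := by
  have hφ : Continuous fun y => ‖poly N θ S c y‖ ^ 2 := (contDiff_poly.continuous.norm).pow 2
  calc ∫ s, ‖hh N θ S c ρ s‖ ^ 2
      ≤ ∫ s in (s0 - 1)..(s1 + 1), Real.exp s * (fun y => ‖poly N θ S c y‖ ^ 2) (Real.exp s) := by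
        refine int_le_of_supp (by linarith) ?_ ?_ ?_ ?_
        · intro s _
          rw [normsq_hh]
          have := hρ s
          have h2 : ρ s ^ 2 ≤ 1 := pow_le_one₀ this.1 this.2
          exact mul_le_of_le_one_right (by positivity) h2
        · intro s hs
          rw [hh_supp h0 h1 s hs]
          simp
        · exact ((contDiff_hh hρc).continuous.norm).pow 2
        · exact Real.continuous_exp.mul (hφ.comp Real.continuous_exp)
    _ = ∫ y in Real.exp (s0 - 1)..Real.exp (s1 + 1), ‖poly N θ S c y‖ ^ 2 := exp_subst hφ _ _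
    _ ≤ _ := int_mono_interval hφ (fun y => by positivity) (Real.exp_pos _).le
        (Real.exp_le_exp.mpr (by linarith)) hN

lemma deriv_hh (hρc : ContDiff ℝ (⊤ : ℕ∞) ρ) (s : ℝ) :
    deriv (hh N θ S c ρ) s =
      ((Real.exp (s / 2) * (ρ s / 2 + deriv ρ s) : ℝ) : ℂ) * poly N θ S c (Real.exp s) +
      ((Real.exp (s / 2) * ρ s : ℝ) : ℂ) * ((Real.exp s : ℂ) * deriv (poly N θ S c) (Real.exp s))
      := by
  have hρd : HasDerivAt ρ (deriv ρ s) s :=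
    ((hρc.differentiable (by simp)) s).hasDerivAt
  have h1 : HasDerivAt (fun s : ℝ => Real.exp (s / 2) * ρ s)
      (Real.exp (s / 2) * (ρ s / 2 + deriv ρ s)) s := by
    have h3 : HasDerivAt (fun s : ℝ => Real.exp (s / 2)) (Real.exp (s / 2) * (1 / 2)) s :=
      ((hasDerivAt_id s).div_const 2).exp
    have := h3.mul hρd
    refine this.congr_deriv ?_
    ring
  have h2 : HasDerivAt (fun s : ℝ => poly N θ S c (Real.exp s))
      ((Real.exp s : ℂ) * deriv (poly N θ S c) (Real.exp s)) s := by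
    have hp : HasDerivAt (poly N θ S c) (deriv (poly N θ S c) (Real.exp s)) (Real.exp s) :=
      ((contDiff_poly.differentiable (by simp)) _).hasDerivAt
    have := HasDerivAt.scomp s hp (Real.hasDerivAt_exp s)
    rw [Complex.real_smul] at this
    exact this
  exact (h1.ofReal_comp.mul h2).deriv

lemma int_deriv_hh (hs : s0 ≤ s1) (hρc : ContDiff ℝ (⊤ : ℕ∞) ρ) (hρ : ∀ s, 0 ≤ ρ s ∧ ρ s ≤ 1)
    (h0 : ∀ s, s ≤ s0 - 1 → ρ s = 0) (h1 : ∀ s, s1 + 1 ≤ s → ρ s = 0)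
    (hN : Real.exp (s1 + 1) ≤ N) {C : ℝ} (hC : ∀ s, |deriv ρ s| ≤ C) :
    ∫ s, ‖deriv (hh N θ S c ρ) s‖ ^ 2 ≤ 2 * (1 / 2 + C) ^ 2 * (∫ y in (0:ℝ)..N, ‖poly N θ S c y‖ ^ 2)
      + 2 * (N:ℝ) ^ 2 * ∫ y in (0:ℝ)..N, ‖deriv (poly N θ S c) y‖ ^ 2 := by
  have hφ : Continuous fun y => ‖poly N θ S c y‖ ^ 2 := (contDiff_poly.continuous.norm).pow 2
  have hφ' : Continuous fun y => ‖deriv (poly N θ S c) y‖ ^ 2 :=
    ((contDiff_poly.continuous_deriv (by simp)).norm).pow 2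
  have hC0 : 0 ≤ C := (abs_nonneg _).trans (hC 0)
  set F : ℝ → ℝ := fun y => 2 * (1 / 2 + C) ^ 2 * ‖poly N θ S c y‖ ^ 2
      + 2 * (N:ℝ) ^ 2 * ‖deriv (poly N θ S c) y‖ ^ 2 with hF
  have hFc : Continuous F := (continuous_const.mul hφ).add (continuous_const.mul hφ')
  have hsupp : ∀ s, s ∉ Set.Icc (s0 - 1) (s1 + 1) → deriv (hh N θ S c ρ) s = 0 := by
    intro s hs
    rw [Set.mem_Icc, not_and_or, not_le, not_le] at hs
    have : hh N θ S c ρ =ᶠ[nhds s] fun _ => 0 := by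
      rcases hs with hs | hs
      · filter_upwards [Iio_mem_nhds hs] with t ht
        exact hh_supp h0 h1 t (fun h => absurd h.1 (not_le.mpr ht))
      · filter_upwards [Ioi_mem_nhds hs] with t ht
        exact hh_supp h0 h1 t (fun h => absurd h.2 (not_le.mpr ht))
    rw [this.deriv_eq]
    simp
  calc ∫ s, ‖deriv (hh N θ S c ρ) s‖ ^ 2
      ≤ ∫ s in (s0 - 1)..(s1 + 1), Real.exp s * F (Real.exp s) := by
        refine int_le_of_supp (by linarith) ?_ ?_ ?_ ?_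
        · intro s hs'
          rw [deriv_hh hρc]
          have hr := hρ s
          have h2 : ρ s ^ 2 ≤ 1 := pow_le_one₀ hr.1 hr.2
          have hd := hC s
          have hexp : Real.exp s ≤ N := (Real.exp_le_exp.mpr hs'.2).trans hN
          have hexp0 := Real.exp_pos s
          set A := ‖poly N θ S c (Real.exp s)‖
          set B := ‖deriv (poly N θ S c) (Real.exp s)‖
          have e2 : Real.exp (s / 2) ^ 2 = Real.exp s := by
            rw [← Real.exp_nat_mul]; congr 1; push_cast; ring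
          have n1 : ‖((Real.exp (s / 2) * (ρ s / 2 + deriv ρ s) : ℝ) : ℂ) *
              poly N θ S c (Real.exp s)‖ ^ 2 ≤ Real.exp s * (1 / 2 + C) ^ 2 * A ^ 2 := by
            rw [norm_mul, mul_pow, Complex.norm_real, Real.norm_eq_abs, sq_abs, mul_pow, e2]
            have : (ρ s / 2 + deriv ρ s) ^ 2 ≤ (1 / 2 + C) ^ 2 := by
              rw [← sq_abs (ρ s / 2 + deriv ρ s)]
              apply pow_le_pow_left₀ (abs_nonneg _)
              calc |ρ s / 2 + deriv ρ s| ≤ |ρ s / 2| + |deriv ρ s| := abs_add_le _ _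
                _ ≤ 1 / 2 + C := by
                  rw [abs_of_nonneg (by linarith [hr.1])]
                  linarith [hr.2]
            exact mul_le_mul_of_nonneg_right (mul_le_mul_of_nonneg_left this hexp0.le)
              (by positivity)
          have n2 : ‖((Real.exp (s / 2) * ρ s : ℝ) : ℂ) *
              ((Real.exp s : ℂ) * deriv (poly N θ S c) (Real.exp s))‖ ^ 2 ≤
              Real.exp s * (N:ℝ) ^ 2 * B ^ 2 := by
            rw [norm_mul, norm_mul, mul_pow, mul_pow, Complex.norm_real, Complex.norm_real,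
              Real.norm_eq_abs, Real.norm_eq_abs, sq_abs, sq_abs, mul_pow, e2]
            have h3 : Real.exp s ^ 2 ≤ (N:ℝ) ^ 2 := pow_le_pow_left₀ hexp0.le hexp 2
            calc Real.exp s * ρ s ^ 2 * (Real.exp s ^ 2 * B ^ 2)
                ≤ Real.exp s * 1 * ((N:ℝ) ^ 2 * B ^ 2) := by
                  apply mul_le_mul
                  · exact mul_le_mul_of_nonneg_left h2 hexp0.le
                  · exact mul_le_mul_of_nonneg_right h3 (by positivity)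
                  · positivity
                  · positivity
              _ = _ := by ring
          calc ‖_ + _‖ ^ 2 ≤ (‖((Real.exp (s / 2) * (ρ s / 2 + deriv ρ s) : ℝ) : ℂ) *
              poly N θ S c (Real.exp s)‖ + ‖((Real.exp (s / 2) * ρ s : ℝ) : ℂ) *
              ((Real.exp s : ℂ) * deriv (poly N θ S c) (Real.exp s))‖) ^ 2 :=
                pow_le_pow_left₀ (norm_nonneg _) (norm_add_le _ _) 2
            _ ≤ 2 * (‖((Real.exp (s / 2) * (ρ s / 2 + deriv ρ s) : ℝ) : ℂ) *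
              poly N θ S c (Real.exp s)‖ ^ 2 + ‖((Real.exp (s / 2) * ρ s : ℝ) : ℂ) *
              ((Real.exp s : ℂ) * deriv (poly N θ S c) (Real.exp s))‖ ^ 2) := add_sq_le
            _ ≤ 2 * (Real.exp s * (1 / 2 + C) ^ 2 * A ^ 2 + Real.exp s * (N:ℝ) ^ 2 * B ^ 2) := by
                linarith
            _ = Real.exp s * F (Real.exp s) := by rw [hF]; ring
        · intro s hs
          rw [hsupp s hs]
          simp
        · exact (((contDiff_hh hρc).continuous_deriv (by simp)).norm).pow 2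
        · exact Real.continuous_exp.mul (hFc.comp Real.continuous_exp)
    _ = ∫ y in Real.exp (s0 - 1)..Real.exp (s1 + 1), F y := exp_subst hFc _ _
    _ ≤ ∫ y in (0:ℝ)..N, F y := int_mono_interval hFc (fun y => by rw [hF]; positivity)
        (Real.exp_pos _).le (Real.exp_le_exp.mpr (by linarith)) hN
    _ = _ := by
        rw [hF, intervalIntegral.integral_add, intervalIntegral.integral_const_mul,
          intervalIntegral.integral_const_mul]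
        · exact (continuous_const.mul hφ).intervalIntegrable _ _
        · exact (continuous_const.mul hφ').intervalIntegrable _ _

lemma hhat_eq (hρc : ContDiff ℝ (⊤ : ℕ∞) ρ) (h0 : ∀ s, s ≤ s0 - 1 → ρ s = 0)
    (h1 : ∀ s, s1 + 1 ≤ s → ρ s = 0) (ξ : ℝ) :
    ∫ s : ℝ, hh N θ S c ρ s * e (-(ξ * s)) =
      ∑ h ∈ S, c h * ∫ s : ℝ, (((Real.exp (s / 2) * ρ s : ℝ) : ℂ) * e (-(ξ * s))) *
        e (-(Real.exp s * (((h : ℝ) + θ) / N))) := by
  have key : ∀ s, hh N θ S c ρ s * e (-(ξ * s)) = ∑ h ∈ S, c h *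
      ((((Real.exp (s / 2) * ρ s : ℝ) : ℂ) * e (-(ξ * s))) *
        e (-(Real.exp s * (((h : ℝ) + θ) / N)))) := by
    intro s
    unfold hh poly
    rw [mul_sum, sum_mul]
    refine sum_congr rfl fun h _ => ?_
    ring
  simp_rw [key]
  rw [integral_finsetSum]
  · exact sum_congr rfl fun h _ => integral_const_mul _ _
  · intro h _
    apply Integrable.const_mul
    apply Continuous.integrable_of_hasCompactSupport
    · have hc1 : Continuous fun s : ℝ => ((Real.exp (s / 2) * ρ s : ℝ) : ℂ) :=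
        Complex.continuous_ofReal.comp (contDiff_a hρc).continuous
      have hc2 : Continuous fun s : ℝ => e (-(ξ * s)) :=
        continuous_e.comp (continuous_const.mul continuous_id).neg
      have hc3 : Continuous fun s : ℝ => e (-(Real.exp s * (((h : ℝ) + θ) / N))) :=
        continuous_e.comp (Real.continuous_exp.mul continuous_const).neg
      exact (hc1.mul hc2).mul hc3
    · refine HasCompactSupport.intro (K := Set.Icc (s0 - 1) (s1 + 1)) isCompact_Icc ?_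
      intro s hs
      have : ρ s = 0 := by
        rw [Set.mem_Icc, not_and_or, not_le, not_le] at hs
        rcases hs with hs | hs
        · exact h0 s hs.le
        · exact h1 s hs.le
      simp [this]

/-- the function `G(s) = ∑ k^{-1/2} h(s + log k)` -/
lemma I_le {D K K1 : ℕ} (hD : 1 ≤ D) (hK1 : 1 ≤ K1) (hKK : K1 ≤ K) {T : Finset ℕ}
    (hT : T ⊆ Ioc K1 K)
    (hs0 : s0 = Real.log (D * K1)) (hs1 : s1 = Real.log (2 * D * K))
    (hρc : ContDiff ℝ (⊤ : ℕ∞) ρ) (hρ1 : ∀ s ∈ Set.Icc s0 s1, ρ s = 1)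
    (h0 : ∀ s, s ≤ s0 - 1 → ρ s = 0) (h1 : ∀ s, s1 + 1 ≤ s → ρ s = 0)
    (hpl : ∫ s : ℝ, ‖∑ k ∈ T, (((k : ℝ) ^ (-(1 / 2) : ℝ) : ℝ) : ℂ) *
        hh N θ S c ρ (s + Real.log k)‖ ^ 2 =
      ∫ ξ : ℝ, ‖∫ s : ℝ, hh N θ S c ρ s * e (-(ξ * s))‖ ^ 2 *
        ‖∑ k ∈ T, (((k : ℝ) ^ (-(1 / 2) : ℝ) : ℝ) : ℂ) * e (ξ * Real.log k)‖ ^ 2) :
    ∫ u in (D : ℝ)..(2 * D), ‖∑ k ∈ T, poly N θ S c (u * k)‖ ^ 2 ≤
      ∫ ξ : ℝ, ‖∫ s : ℝ, hh N θ S c ρ s * e (-(ξ * s))‖ ^ 2 *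
        ‖∑ k ∈ T, (((k : ℝ) ^ (-(1 / 2) : ℝ) : ℝ) : ℂ) * e (ξ * Real.log k)‖ ^ 2 := by
  have hD0 : (0:ℝ) < D := by exact_mod_cast hD
  have hK10 : (0:ℝ) < K1 := by exact_mod_cast hK1
  have hK0 : (0:ℝ) < K := lt_of_lt_of_le hK10 (by exact_mod_cast hKK)
  rw [← hpl]
  set F : ℝ → ℝ := fun u => ‖∑ k ∈ T, poly N θ S c (u * k)‖ ^ 2 with hF
  have hFc : Continuous F := by
    refine Continuous.pow (Continuous.norm (continuous_finsetSum _ fun k _ => ?_)) 2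
    exact contDiff_poly.continuous.comp (continuous_id.mul continuous_const)
  set G : ℝ → ℂ := fun s => ∑ k ∈ T, (((k : ℝ) ^ (-(1 / 2) : ℝ) : ℝ) : ℂ) *
      hh N θ S c ρ (s + Real.log k) with hG
  have hGc : Continuous G := by
    refine continuous_finsetSum _ fun k _ => continuous_const.mul ?_
    exact (contDiff_hh hρc).continuous.comp (continuous_id.add continuous_const)
  have hTk : ∀ k ∈ T, (K1:ℝ) ≤ k ∧ (k:ℝ) ≤ K ∧ (0:ℝ) < k := by
    intro k hk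
    have := mem_Ioc.mp (hT hk)
    refine ⟨by exact_mod_cast this.1.le, by exact_mod_cast this.2, ?_⟩
    have : 0 < k := by omega
    exact_mod_cast this
  have e1 : ∫ u in (D : ℝ)..(2 * D), F u =
      ∫ s in Real.log D..Real.log (2 * D), Real.exp s * F (Real.exp s) := by
    rw [exp_subst hFc, Real.exp_log hD0, Real.exp_log (by positivity)]
  have hle : Real.log D ≤ Real.log (2 * D) := Real.log_le_log hD0 (by linarith)
  have e2 : ∫ s in Real.log D..Real.log (2 * D), Real.exp s * F (Real.exp s) =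
      ∫ s in Real.log D..Real.log (2 * D), ‖G s‖ ^ 2 := by
    refine intervalIntegral.integral_congr fun s hs => ?_
    rw [Set.uIcc_of_le hle] at hs
    have hterm : ∀ k ∈ T, (((k : ℝ) ^ (-(1 / 2) : ℝ) : ℝ) : ℂ) *
        hh N θ S c ρ (s + Real.log k) =
        ((Real.exp (s / 2) : ℝ) : ℂ) * poly N θ S c (Real.exp s * k) := by
      intro k hk
      obtain ⟨hk1, hk2, hk0⟩ := hTk k hk
      have hmem : s + Real.log k ∈ Set.Icc s0 s1 := by
        rw [hs0, hs1]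
        constructor
        · rw [Real.log_mul hD0.ne' hK10.ne']
          have := Real.log_le_log hK10 hk1
          linarith [hs.1]
        · rw [Real.log_mul (by positivity) hK0.ne']
          have := Real.log_le_log hk0 hk2
          linarith [hs.2]
      unfold hh
      rw [hρ1 _ hmem, Real.exp_add, Real.exp_log hk0, mul_one, ← mul_assoc, ← Complex.ofReal_mul]
      congr 2
      rw [add_div, Real.exp_add]
      have : Real.exp (Real.log k / 2) = (k:ℝ) ^ (1 / 2 : ℝ) := by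
        rw [Real.rpow_def_of_pos hk0]; congr 1; ring
      rw [this]
      have h3 : (k:ℝ) ^ (-(1 / 2) : ℝ) * (k:ℝ) ^ (1 / 2 : ℝ) = 1 := by
        rw [← Real.rpow_add hk0]; norm_num
      linear_combination Real.exp (s / 2) * h3
    simp only [hF, hG]
    rw [sum_congr rfl hterm, ← mul_sum, norm_mul, mul_pow, Complex.norm_real, Real.norm_eq_abs,
      sq_abs, ← Real.exp_nat_mul]
    congr 2
    push_cast; ring
  rw [e1, e2, intervalIntegral.integral_of_le hle]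
  apply setIntegral_le_integral
  · apply Continuous.integrable_of_hasCompactSupport ((hGc.norm).pow 2)
    refine HasCompactSupport.intro
      (K := Set.Icc (s0 - 1 - Real.log K) (s1 + 1 - Real.log K1)) isCompact_Icc ?_
    intro s hs
    have : G s = 0 := by
      refine sum_eq_zero fun k hk => ?_
      obtain ⟨hk1, hk2, hk0⟩ := hTk k hk
      rw [hh_supp h0 h1, mul_zero]
      intro hm
      apply hs
      have a1 := Real.log_le_log hK10 hk1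
      have a2 := Real.log_le_log hk0 hk2
      exact ⟨by linarith [hm.1], by linarith [hm.2]⟩
    simp [this]
  · exact Filter.Eventually.of_forall fun s => by positivity

lemma J_le {D K K1 : ℕ} {T : Finset ℕ} (hT : T ⊆ Ioc K1 K) (hDK : 2 * D * K ≤ N) :
    ∫ u in (D : ℝ)..(2 * D), ‖deriv (fun u : ℝ => ∑ k ∈ T, poly N θ S c (u * k)) u‖ ^ 2 ≤
      (K:ℝ) ^ 3 * ∫ y in (0:ℝ)..N, ‖deriv (poly N θ S c) y‖ ^ 2 := by
  have hφ' : Continuous fun y => ‖deriv (poly N θ S c) y‖ ^ 2 :=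
    ((contDiff_poly.continuous_deriv (by simp)).norm).pow 2
  set B := ∫ y in (0:ℝ)..N, ‖deriv (poly N θ S c) y‖ ^ 2 with hB
  have hB0 : 0 ≤ B := intervalIntegral.integral_nonneg (by positivity) fun y _ => by positivity
  have hder : ∀ u : ℝ, deriv (fun u : ℝ => ∑ k ∈ T, poly N θ S c (u * k)) u =
      ∑ k ∈ T, (k:ℂ) * deriv (poly N θ S c) (u * k) := by
    intro u
    have : HasDerivAt (fun u : ℝ => ∑ k ∈ T, poly N θ S c (u * k))
        (∑ k ∈ T, (k:ℂ) * deriv (poly N θ S c) (u * k)) u := by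
      refine HasDerivAt.fun_sum fun k _ => ?_
      have hp : HasDerivAt (poly N θ S c) (deriv (poly N θ S c) (u * k)) (u * k) :=
        ((contDiff_poly.differentiable (by simp)) _).hasDerivAt
      have hm : HasDerivAt (fun u : ℝ => u * k) (k:ℝ) u := by
        simpa using (hasDerivAt_id u).mul_const (k:ℝ)
      have := HasDerivAt.scomp u hp hm
      rw [Complex.real_smul, Complex.ofReal_natCast] at this
      exact this
    exact this.deriv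
  have hD0 : (D:ℝ) ≤ 2 * D := by have : (0:ℝ) ≤ D := by positivity
                                 linarith
  have hcard : (T.card : ℝ) ≤ K := by
    have := card_le_card hT
    rw [Nat.card_Ioc] at this
    have h2 : T.card ≤ K := by omega
    exact_mod_cast h2
  have hpt : ∀ u : ℝ, ‖∑ k ∈ T, (k:ℂ) * deriv (poly N θ S c) (u * k)‖ ^ 2 ≤
      (K:ℝ) * ∑ k ∈ T, (k:ℝ) ^ 2 * ‖deriv (poly N θ S c) (u * k)‖ ^ 2 := by
    intro u
    calc ‖∑ k ∈ T, (k:ℂ) * deriv (poly N θ S c) (u * k)‖ ^ 2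
        ≤ (∑ k ∈ T, ‖(k:ℂ) * deriv (poly N θ S c) (u * k)‖) ^ 2 :=
          pow_le_pow_left₀ (norm_nonneg _) (norm_sum_le _ _) 2
      _ ≤ T.card * ∑ k ∈ T, ‖(k:ℂ) * deriv (poly N θ S c) (u * k)‖ ^ 2 :=
          sq_sum_le_card_mul_sum_sq
      _ ≤ (K:ℝ) * ∑ k ∈ T, ‖(k:ℂ) * deriv (poly N θ S c) (u * k)‖ ^ 2 :=
          mul_le_mul_of_nonneg_right hcard (sum_nonneg fun k _ => by positivity)
      _ = _ := by
          congr 1
          refine sum_congr rfl fun k _ => ?_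
          rw [norm_mul, mul_pow, Complex.norm_natCast]
  simp_rw [hder]
  have hcont1 : ∀ k : ℕ, Continuous fun u : ℝ =>
      (k:ℝ) ^ 2 * ‖deriv (poly N θ S c) (u * k)‖ ^ 2 := fun k =>
    continuous_const.mul (hφ'.comp (continuous_id.mul continuous_const))
  calc ∫ u in (D : ℝ)..(2 * D), ‖∑ k ∈ T, (k:ℂ) * deriv (poly N θ S c) (u * k)‖ ^ 2
      ≤ ∫ u in (D : ℝ)..(2 * D), (K:ℝ) * ∑ k ∈ T, (k:ℝ) ^ 2 *
          ‖deriv (poly N θ S c) (u * k)‖ ^ 2 := by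
        apply intervalIntegral.integral_mono_on hD0
        · apply Continuous.intervalIntegrable
          refine Continuous.pow (Continuous.norm (continuous_finsetSum _ fun k _ => ?_)) 2
          exact continuous_const.mul ((contDiff_poly.continuous_deriv (by simp)).comp
            (continuous_id.mul continuous_const))
        · apply Continuous.intervalIntegrable
          exact continuous_const.mul (continuous_finsetSum _ fun k _ => hcont1 k)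
        · exact fun u _ => hpt u
    _ = (K:ℝ) * ∑ k ∈ T, ∫ u in (D : ℝ)..(2 * D), (k:ℝ) ^ 2 *
          ‖deriv (poly N θ S c) (u * k)‖ ^ 2 := by
        rw [intervalIntegral.integral_const_mul, intervalIntegral.integral_finsetSum]
        exact fun k _ => (hcont1 k).intervalIntegrable _ _
    _ ≤ (K:ℝ) * ∑ k ∈ T, (K:ℝ) * B := by
        apply mul_le_mul_of_nonneg_left _ (by positivity)
        refine sum_le_sum fun k hk => ?_
        have hk' := mem_Ioc.mp (hT hk)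
        have hk0 : (0:ℝ) < k := by
          have : 0 < k := by omega
          exact_mod_cast this
        have hkK : (k:ℝ) ≤ K := by exact_mod_cast hk'.2
        rw [intervalIntegral.integral_const_mul,
          intervalIntegral.integral_comp_mul_right (fun y => ‖deriv (poly N θ S c) y‖ ^ 2) hk0.ne',
          smul_eq_mul]
        have h1 : ∫ y in (D:ℝ) * k..(2 * D) * k, ‖deriv (poly N θ S c) y‖ ^ 2 ≤ B := by
          apply int_mono_interval hφ' (fun y => by positivity) (by positivity)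
          · nlinarith
          · have h2 : ((2 * D * K : ℕ) : ℝ) ≤ N := by exact_mod_cast hDK
            push_cast at h2
            calc (2 * (D:ℝ)) * k ≤ (2 * D) * K := by
                  apply mul_le_mul_of_nonneg_left hkK (by positivity)
              _ ≤ N := h2
        calc (k:ℝ) ^ 2 * ((k:ℝ)⁻¹ * ∫ y in (D:ℝ) * k..(2 * D) * k,
              ‖deriv (poly N θ S c) y‖ ^ 2)
            = k * ∫ y in (D:ℝ) * k..(2 * D) * k, ‖deriv (poly N θ S c) y‖ ^ 2 := by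
              field_simp
          _ ≤ K * B := by
              apply mul_le_mul hkK h1
              · exact intervalIntegral.integral_nonneg (by nlinarith) fun y _ => by positivity
              · positivity
    _ ≤ (K:ℝ) * ((K:ℝ) * ((K:ℝ) * B)) := by
        rw [sum_const, nsmul_eq_mul]
        apply mul_le_mul_of_nonneg_left _ (by positivity)
        exact mul_le_mul_of_nonneg_right hcard (by positivity)
    _ = _ := by ring

end H

/-! ### arithmetic sums -/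

lemma sum_rpow_le (K : ℕ) : ∑ k ∈ Icc 1 K, (k : ℝ) ^ (-(1 / 2) : ℝ) ≤ 2 * √K := by
  induction K with
  | zero => simp
  | succ n ih =>
    rw [sum_Icc_succ_top (by omega)]
    have h1 : ((n + 1 : ℕ) : ℝ) ^ (-(1 / 2) : ℝ) = 1 / √((n + 1 : ℕ) : ℝ) := by
      rw [Real.rpow_neg (by positivity), ← Real.sqrt_eq_rpow]
      exact (one_div _).symm
    rw [h1]
    set a := √((n + 1 : ℕ) : ℝ) with ha
    set b := √(n : ℝ) with hb
    have ha2 : a ^ 2 = n + 1 := by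
      rw [ha, Real.sq_sqrt (by positivity)]; push_cast; ring
    have hb2 : b ^ 2 = n := by rw [hb, Real.sq_sqrt (by positivity)]
    have ha0 : 0 < a := Real.sqrt_pos.mpr (by positivity)
    have hb0 : 0 ≤ b := Real.sqrt_nonneg _
    have h2 : 1 / a ≤ 2 * a - 2 * b := by
      rw [div_le_iff₀ ha0]
      nlinarith [sq_nonneg (a - b)]
    linarith

lemma P_le {K K1 : ℕ} {T : Finset ℕ} (hT : T ⊆ Ioc K1 K) (ξ : ℝ) :
    ‖∑ k ∈ T, (((k : ℝ) ^ (-(1 / 2) : ℝ) : ℝ) : ℂ) * e (ξ * Real.log k)‖ ^ 2 ≤ 4 * K := by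
  have h1 : ‖∑ k ∈ T, (((k : ℝ) ^ (-(1 / 2) : ℝ) : ℝ) : ℂ) * e (ξ * Real.log k)‖ ≤ 2 * √K := by
    calc ‖∑ k ∈ T, (((k : ℝ) ^ (-(1 / 2) : ℝ) : ℝ) : ℂ) * e (ξ * Real.log k)‖
        ≤ ∑ k ∈ T, (k : ℝ) ^ (-(1 / 2) : ℝ) := by
          refine (norm_sum_le _ _).trans (sum_le_sum fun k _ => ?_)
          rw [norm_mul, norm_e, mul_one, Complex.norm_real, Real.norm_eq_abs,
            abs_of_nonneg (by positivity)]
      _ ≤ ∑ k ∈ Icc 1 K, (k : ℝ) ^ (-(1 / 2) : ℝ) := by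
          refine sum_le_sum_of_subset_of_nonneg ?_ fun k _ _ => by positivity
          intro k hk
          have := mem_Ioc.mp (hT hk)
          rw [mem_Icc]; omega
      _ ≤ _ := sum_rpow_le K
  calc _ ≤ (2 * √K) ^ 2 := pow_le_pow_left₀ (norm_nonneg _) h1 2
    _ = 4 * K := by rw [mul_pow, Real.sq_sqrt (by positivity)]; norm_num

lemma count_le (S : Finset ℤ) (θ Y : ℝ) (hY : 1 ≤ Y) :
    ((S.filter fun h : ℤ => |(h : ℝ) + θ| ≤ Y).card : ℝ) ≤ 3 * Y := by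
  have hsub : (S.filter fun h : ℤ => |(h : ℝ) + θ| ≤ Y) ⊆ Icc ⌈-Y - θ⌉ ⌊Y - θ⌋ := by
    intro h hh
    have := abs_le.mp (mem_filter.mp hh).2
    rw [mem_Icc, Int.ceil_le, Int.le_floor]
    constructor <;> linarith [this.1, this.2]
  have h1 := card_le_card hsub
  rw [Int.card_Icc] at h1
  have h2 : (⌊Y - θ⌋ : ℝ) ≤ Y - θ := Int.floor_le _
  have h3 : -Y - θ ≤ (⌈-Y - θ⌉ : ℝ) := Int.le_ceil _
  have h4 : (((⌊Y - θ⌋ + 1 - ⌈-Y - θ⌉).toNat : ℕ) : ℝ) ≤ 2 * Y + 1 := by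
    rcases le_or_gt 0 (⌊Y - θ⌋ + 1 - ⌈-Y - θ⌉) with h5 | h5
    · have h6 : (((⌊Y - θ⌋ + 1 - ⌈-Y - θ⌉).toNat : ℕ) : ℝ) =
          (⌊Y - θ⌋ : ℝ) + 1 - ⌈-Y - θ⌉ := by
        exact_mod_cast (Int.toNat_of_nonneg h5)
      rw [h6]
      linarith
    · rw [Int.toNat_of_nonpos h5.le]
      push_cast
      linarith
  have h7 : ((S.filter fun h : ℤ => |(h : ℝ) + θ| ≤ Y).card : ℝ) ≤
      (((⌊Y - θ⌋ + 1 - ⌈-Y - θ⌉).toNat : ℕ) : ℝ) := by exact_mod_cast h1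
  linarith

lemma summable_inv : Summable fun j : ℤ => 9 / ((|j| : ℤ) + 1 : ℝ) ^ 2 := by
  have h1 : Summable fun n : ℕ => 9 / ((n : ℝ) + 1) ^ 2 := by
    have h2 := (summable_nat_add_iff 1).mpr (Real.summable_one_div_nat_pow.mpr one_lt_two)
    have h3 := h2.mul_left 9
    refine h3.congr fun n => ?_
    push_cast
    ring
  refine Summable.of_nat_of_neg ?_ ?_
  · refine h1.congr fun n => ?_
    simp
  · refine h1.congr fun n => ?_
    simp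

lemma inv_sq_sum : ∃ C5 : ℝ, 0 < C5 ∧ ∀ (S : Finset ℤ) (θ : ℝ),
    ∑ h ∈ S.filter (fun h : ℤ => 1 ≤ |(h : ℝ) + θ|), 1 / ((h : ℝ) + θ) ^ 2 ≤ C5 := by
  refine ⟨(∑' j : ℤ, 9 / ((|j| : ℤ) + 1 : ℝ) ^ 2) + 1, ?_, fun S θ => ?_⟩
  · have : 0 ≤ ∑' j : ℤ, 9 / ((|j| : ℤ) + 1 : ℝ) ^ 2 := tsum_nonneg fun j => by positivity
    linarith
  · have hpt : ∀ h ∈ S.filter (fun h : ℤ => 1 ≤ |(h : ℝ) + θ|), 1 / ((h : ℝ) + θ) ^ 2 ≤
        9 / ((|h + round θ| : ℤ) + 1 : ℝ) ^ 2 := by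
      intro h hh
      have h1 := (mem_filter.mp hh).2
      have h2 : |θ - round θ| ≤ 1 / 2 := abs_sub_round θ
      set t : ℝ := ((|h + round θ| : ℤ) : ℝ) with ht
      have ht' : t = |(h : ℝ) + round θ| := by rw [ht]; push_cast; rfl
      have ht0 : 0 ≤ t := by rw [ht']; positivity
      have h3 : t - 1 / 2 ≤ |(h : ℝ) + θ| := by
        rw [ht']
        have : |(h : ℝ) + round θ| ≤ |(h : ℝ) + θ| + |θ - round θ| := by
          have := abs_sub_abs_le_abs_sub ((h : ℝ) + round θ) ((h : ℝ) + θ)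
          have e3 : (h : ℝ) + round θ - (h + θ) = -(θ - round θ) := by ring
          rw [e3, abs_neg] at this
          linarith
        linarith
      have h4 : (t + 1) / 3 ≤ |(h : ℝ) + θ| := by
        rcases le_or_gt t 1 with h5 | h5
        · linarith
        · linarith
      have h6 : ((t + 1) / 3) ^ 2 ≤ ((h : ℝ) + θ) ^ 2 := by
        rw [← sq_abs ((h : ℝ) + θ)]
        exact pow_le_pow_left₀ (by positivity) h4 2
      calc 1 / ((h : ℝ) + θ) ^ 2 ≤ 1 / ((t + 1) / 3) ^ 2 :=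
            one_div_le_one_div_of_le (by positivity) h6
        _ = 9 / (t + 1) ^ 2 := by field_simp; norm_num
    calc ∑ h ∈ S.filter (fun h : ℤ => 1 ≤ |(h : ℝ) + θ|), 1 / ((h : ℝ) + θ) ^ 2
        ≤ ∑ h ∈ S.filter (fun h : ℤ => 1 ≤ |(h : ℝ) + θ|),
            9 / ((|h + round θ| : ℤ) + 1 : ℝ) ^ 2 := sum_le_sum hpt
      _ = ∑ j ∈ (S.filter (fun h : ℤ => 1 ≤ |(h : ℝ) + θ|)).map
            (Equiv.addRight (round θ)).toEmbedding, 9 / ((|j| : ℤ) + 1 : ℝ) ^ 2 := by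
          rw [sum_map]
          rfl
      _ ≤ ∑' j : ℤ, 9 / ((|j| : ℤ) + 1 : ℝ) ^ 2 :=
          summable_inv.sum_le_tsum _ fun j _ => by positivity
      _ ≤ _ := by linarith

lemma lin_bound {N : ℕ} {θ : ℝ} {S : Finset ℤ} {c : ℤ → ℂ} {C5 : ℝ}
    (h5 : ∀ (S : Finset ℤ) (θ : ℝ),
      ∑ h ∈ S.filter (fun h : ℤ => 1 ≤ |(h : ℝ) + θ|), 1 / ((h : ℝ) + θ) ^ 2 ≤ C5)
    {Γ B1 B2 m V : ℝ} (hN : 1 ≤ N) (hΓ : 0 < Γ) (hNΓ : 1 ≤ N * Γ) (hm0 : 0 ≤ m) (hB1 : 0 ≤ B1)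
    (hV0 : 0 ≤ V)
    (Ψ : ℤ → ℂ) (h1 : ∀ h, ‖Ψ h‖ ≤ B1)
    (h2 : ∀ h : ℤ, ((h : ℝ) + θ) / N ≠ 0 → ‖Ψ h‖ ≤ B2 / (((h : ℝ) + θ) / N) ^ 2)
    (hm : ∀ h ∈ S, |((h : ℝ) + θ) / N| ≤ Γ → ‖c h‖ ≤ m) (hV : ∑ h ∈ S, ‖c h‖ ^ 2 ≤ V) :
    ‖∑ h ∈ S, c h * Ψ h‖ ^ 2 ≤
      2 * (3 * (N * Γ) * m * B1) ^ 2 + 2 * (V * (B2 ^ 2 * ((N:ℝ) ^ 2 / Γ ^ 2 * C5))) := by
  have hN0 : (0:ℝ) < N := by exact_mod_cast hN
  rw [← sum_filter_add_sum_filter_not S (fun h : ℤ => |((h : ℝ) + θ) / N| ≤ Γ)]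
  set S1 := S.filter (fun h : ℤ => |((h : ℝ) + θ) / N| ≤ Γ) with hS1
  set S2 := S.filter (fun h : ℤ => ¬ |((h : ℝ) + θ) / N| ≤ Γ) with hS2
  have habs : ∀ h : ℤ, |((h : ℝ) + θ) / N| = |(h : ℝ) + θ| / N := by
    intro h; rw [abs_div, abs_of_pos hN0]
  have b1 : ‖∑ h ∈ S1, c h * Ψ h‖ ≤ 3 * (N * Γ) * m * B1 := by
    have hcard : (S1.card : ℝ) ≤ 3 * (N * Γ) := by
      have : S1 = S.filter (fun h : ℤ => |(h : ℝ) + θ| ≤ N * Γ) := by
        rw [hS1]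
        refine filter_congr fun h _ => ?_
        rw [habs, div_le_iff₀ hN0, mul_comm]
      rw [this]
      exact count_le S θ _ hNΓ
    calc ‖∑ h ∈ S1, c h * Ψ h‖ ≤ ∑ h ∈ S1, m * B1 := by
          refine (norm_sum_le _ _).trans (sum_le_sum fun h hh => ?_)
          rw [norm_mul]
          have := mem_filter.mp hh
          exact mul_le_mul (hm h this.1 this.2) (h1 h) (norm_nonneg _) hm0
      _ = S1.card * (m * B1) := by rw [sum_const, nsmul_eq_mul]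
      _ ≤ 3 * (N * Γ) * (m * B1) := mul_le_mul_of_nonneg_right hcard (by positivity)
      _ = _ := by ring
  have b2 : ‖∑ h ∈ S2, c h * Ψ h‖ ^ 2 ≤ V * (B2 ^ 2 * ((N:ℝ) ^ 2 / Γ ^ 2 * C5)) := by
    have c1 : ‖∑ h ∈ S2, c h * Ψ h‖ ≤ ∑ h ∈ S2, ‖c h‖ * ‖Ψ h‖ := by
      refine (norm_sum_le _ _).trans (le_of_eq ?_)
      exact sum_congr rfl fun h _ => norm_mul _ _
    have c2 : ∑ h ∈ S2, ‖Ψ h‖ ^ 2 ≤ B2 ^ 2 * ((N:ℝ) ^ 2 / Γ ^ 2 * C5) := by
      have hsub : S2 ⊆ S.filter (fun h : ℤ => 1 ≤ |(h : ℝ) + θ|) := by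
        intro h hh
        have := mem_filter.mp hh
        rw [mem_filter]
        refine ⟨this.1, ?_⟩
        have h3 := this.2
        rw [habs, not_le, lt_div_iff₀ hN0] at h3
        linarith [mul_comm Γ (N:ℝ)]
      have hpt : ∀ h ∈ S2, ‖Ψ h‖ ^ 2 ≤
          B2 ^ 2 * ((N:ℝ) ^ 2 / Γ ^ 2) * (1 / ((h : ℝ) + θ) ^ 2) := by
        intro h hh
        have h3 := (mem_filter.mp hh).2
        have h4 := (mem_filter.mp (hsub hh)).2
        rw [not_le] at h3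
        set g : ℝ := ((h : ℝ) + θ) / N with hg
        have hg0 : g ≠ 0 := by
          intro h0
          rw [h0, abs_zero] at h3
          linarith
        have h6 := h2 h hg0
        have hθ : (h : ℝ) + θ = N * g := by rw [hg]; field_simp
        have hgΓ : Γ ^ 2 ≤ g ^ 2 := by
          rw [← sq_abs g]
          exact pow_le_pow_left₀ hΓ.le h3.le 2
        have hg2 : 0 < g ^ 2 := by positivity
        calc ‖Ψ h‖ ^ 2 ≤ (B2 / g ^ 2) ^ 2 := pow_le_pow_left₀ (norm_nonneg _) h6 2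
          _ = B2 ^ 2 * ((1 / g ^ 2) * (1 / g ^ 2)) := by rw [div_pow]; field_simp
          _ ≤ B2 ^ 2 * ((1 / Γ ^ 2) * (1 / g ^ 2)) := by
              apply mul_le_mul_of_nonneg_left _ (by positivity)
              apply mul_le_mul_of_nonneg_right _ (by positivity)
              exact one_div_le_one_div_of_le (by positivity) hgΓ
          _ = _ := by rw [hθ]; field_simp
      calc ∑ h ∈ S2, ‖Ψ h‖ ^ 2 ≤ ∑ h ∈ S2, B2 ^ 2 * ((N:ℝ) ^ 2 / Γ ^ 2) *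
            (1 / ((h : ℝ) + θ) ^ 2) := sum_le_sum hpt
        _ = B2 ^ 2 * ((N:ℝ) ^ 2 / Γ ^ 2) * ∑ h ∈ S2, 1 / ((h : ℝ) + θ) ^ 2 := by
            rw [mul_sum]
        _ ≤ B2 ^ 2 * ((N:ℝ) ^ 2 / Γ ^ 2) *
              ∑ h ∈ S.filter (fun h : ℤ => 1 ≤ |(h : ℝ) + θ|), 1 / ((h : ℝ) + θ) ^ 2 := by
            apply mul_le_mul_of_nonneg_left _ (by positivity)
            exact sum_le_sum_of_subset_of_nonneg hsub fun h _ _ => by positivity
        _ ≤ B2 ^ 2 * ((N:ℝ) ^ 2 / Γ ^ 2) * C5 :=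
            mul_le_mul_of_nonneg_left (h5 S θ) (by positivity)
        _ = _ := by ring
    have c3 : ∑ h ∈ S2, ‖c h‖ ^ 2 ≤ V :=
      (sum_le_sum_of_subset_of_nonneg (filter_subset _ _) fun h _ _ => by positivity).trans hV
    calc ‖∑ h ∈ S2, c h * Ψ h‖ ^ 2 ≤ (∑ h ∈ S2, ‖c h‖ * ‖Ψ h‖) ^ 2 :=
          pow_le_pow_left₀ (norm_nonneg _) c1 2
      _ ≤ (∑ h ∈ S2, ‖c h‖ ^ 2) * ∑ h ∈ S2, ‖Ψ h‖ ^ 2 := sum_mul_sq_le_sq_mul_sq _ _ _
      _ ≤ _ := mul_le_mul c3 c2 (sum_nonneg fun h _ => by positivity) hV0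
  calc ‖∑ h ∈ S1, c h * Ψ h + ∑ h ∈ S2, c h * Ψ h‖ ^ 2
      ≤ (‖∑ h ∈ S1, c h * Ψ h‖ + ‖∑ h ∈ S2, c h * Ψ h‖) ^ 2 :=
        pow_le_pow_left₀ (norm_nonneg _) (norm_add_le _ _) 2
    _ ≤ 2 * (‖∑ h ∈ S1, c h * Ψ h‖ ^ 2 + ‖∑ h ∈ S2, c h * Ψ h‖ ^ 2) := add_sq_le
    _ ≤ _ := by
        have := pow_le_pow_left₀ (norm_nonneg _) b1 2
        linarith

/-- the integral over `ξ`, split into three ranges -/
lemma three_ranges {f g : ℝ → ℝ} {a b M κ κ' : ℝ} (ha : 0 ≤ a)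
    (hf0 : ∀ ξ, 0 ≤ f ξ) (hg0 : ∀ ξ, 0 ≤ g ξ) (hg : Integrable g) (hM : 0 ≤ M) (hκ : 0 ≤ κ)
    (hκ' : 0 ≤ κ')
    (h1 : ∀ ξ, |ξ| < a → f ξ ≤ M) (h2 : ∀ ξ, a ≤ |ξ| → |ξ| ≤ b → f ξ ≤ κ * g ξ)
    (h3 : ∀ ξ, b < |ξ| → f ξ ≤ κ' * g ξ) :
    ∫ ξ, f ξ ≤ 2 * a * M + κ * (∫ ξ, g ξ) + κ' * ∫ ξ in {ξ : ℝ | b < |ξ|}, g ξ := by
  have hms : MeasurableSet {ξ : ℝ | b < |ξ|} := measurableSet_lt measurable_const
    continuous_abs.measurable
  have i1 : Integrable ((Set.Ioo (-a) a).indicator fun _ : ℝ => M) := by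
    rw [integrable_indicator_iff measurableSet_Ioo]
    exact integrableOn_const (by simp)
  have i2 : Integrable fun ξ => κ * g ξ := hg.const_mul κ
  have i3 : Integrable ({ξ : ℝ | b < |ξ|}.indicator fun ξ => κ' * g ξ) :=
    (hg.const_mul κ').indicator hms
  calc ∫ ξ, f ξ ≤ ∫ ξ, ((Set.Ioo (-a) a).indicator (fun _ : ℝ => M) ξ + κ * g ξ +
        {ξ : ℝ | b < |ξ|}.indicator (fun ξ => κ' * g ξ) ξ) := by
        apply integral_mono_of_nonneg (Filter.Eventually.of_forall hf0) ((i1.add i2).add i3)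
        refine Filter.Eventually.of_forall fun ξ => ?_
        change f ξ ≤ (Set.Ioo (-a) a).indicator (fun _ : ℝ => M) ξ + κ * g ξ +
          {ξ : ℝ | b < |ξ|}.indicator (fun ξ => κ' * g ξ) ξ
        have n1 : 0 ≤ (Set.Ioo (-a) a).indicator (fun _ : ℝ => M) ξ :=
          Set.indicator_nonneg (fun _ _ => hM) ξ
        have n2 : 0 ≤ κ * g ξ := mul_nonneg hκ (hg0 ξ)
        have n3 : 0 ≤ {ξ : ℝ | b < |ξ|}.indicator (fun ξ => κ' * g ξ) ξ :=
          Set.indicator_nonneg (fun ξ _ => mul_nonneg hκ' (hg0 ξ)) ξ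
        rcases lt_or_ge |ξ| a with h | h
        · have h4 : (Set.Ioo (-a) a).indicator (fun _ : ℝ => M) ξ = M :=
            Set.indicator_of_mem (show ξ ∈ Set.Ioo (-a) a from abs_lt.mp h) _
          have := h1 ξ h
          linarith
        · rcases le_or_gt |ξ| b with h' | h'
          · have := h2 ξ h h'
            linarith
          · have h4 : {ξ : ℝ | b < |ξ|}.indicator (fun ξ => κ' * g ξ) ξ = κ' * g ξ :=
              Set.indicator_of_mem (by exact h') _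
            have := h3 ξ h'
            linarith
    _ = _ := by
        have j1 : ∫ ξ, ((Set.Ioo (-a) a).indicator (fun _ : ℝ => M) ξ + κ * g ξ +
            {ξ : ℝ | b < |ξ|}.indicator (fun ξ => κ' * g ξ) ξ) =
            (∫ ξ, ((Set.Ioo (-a) a).indicator (fun _ : ℝ => M) ξ + κ * g ξ)) +
            ∫ ξ, {ξ : ℝ | b < |ξ|}.indicator (fun ξ => κ' * g ξ) ξ :=
          integral_add (i1.add i2) i3
        have j2 : ∫ ξ, ((Set.Ioo (-a) a).indicator (fun _ : ℝ => M) ξ + κ * g ξ) =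
            (∫ ξ, (Set.Ioo (-a) a).indicator (fun _ : ℝ => M) ξ) + ∫ ξ, κ * g ξ :=
          integral_add i1 i2
        rw [j1, j2, integral_indicator measurableSet_Ioo,
          integral_indicator hms, setIntegral_const, integral_const_mul, integral_const_mul,
          Real.volume_real_Ioo_of_le (by linarith), smul_eq_mul]
        ring

lemma hat_bound {C C5 : ℝ} (hC : 0 < C) (hC5 : 0 < C5)
    (h5 : ∀ (S : Finset ℤ) (θ : ℝ),
      ∑ h ∈ S.filter (fun h : ℤ => 1 ≤ |(h : ℝ) + θ|), 1 / ((h : ℝ) + θ) ^ 2 ≤ C5)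
    {x N D K K1 : ℕ} {L : ℝ} {E2 E3 E4 : ℕ} (hL : 1 ≤ L) (hx : 1 ≤ x) (hN1 : 8 * x ≤ N)
    (hN2 : N ≤ 100 * x) (hD : 1 ≤ D) (hK1 : 1 ≤ K1) (hK : 1 ≤ K) (hDK : D * K ≤ x)
    (hxDK : x ≤ 2 * D * K)
    (hKK1 : (K : ℝ) ≤ K1 * L ^ E2) {θ : ℝ} {S : Finset ℤ} {c : ℤ → ℂ} {ρ : ℝ → ℝ} {s0 s1 : ℝ}
    (hs0 : s0 = Real.log (D * K1)) (hs1 : s1 = Real.log (2 * D * K))
    (hρc : ContDiff ℝ (⊤ : ℕ∞) ρ)
    (h0 : ∀ s, s ≤ s0 - 1 → ρ s = 0) (h1 : ∀ s, s1 + 1 ≤ s → ρ s = 0)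
    (hΨ1 : ∀ ξ γ : ℝ, ‖∫ s : ℝ, (((Real.exp (s / 2) * ρ s : ℝ) : ℂ) * e (-(ξ * s))) *
      e (-(Real.exp s * γ))‖ ≤ C * Real.exp (s1 / 2))
    (hΨ2 : ∀ ξ γ : ℝ, γ ≠ 0 → ‖∫ s : ℝ, (((Real.exp (s / 2) * ρ s : ℝ) : ℂ) * e (-(ξ * s))) *
      e (-(Real.exp s * γ))‖ ≤ C * (1 + |ξ|) ^ 2 * Real.exp (-(3 / 2) * s0) / γ ^ 2)
    (hV : (N : ℝ) * ∑ h ∈ S, ‖c h‖ ^ 2 ≤ x * L ^ 2)
    (hsm : ∀ h ∈ S, |((h : ℝ) + θ) / N| ≤ L ^ E3 / x → (N : ℝ) * ‖c h‖ ≤ x / L ^ (2 * E3))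
    (ξ : ℝ) (hξ : |ξ| ≤ L ^ E4) :
    ‖∫ s : ℝ, hh N θ S c ρ s * e (-(ξ * s))‖ ^ 2 ≤
      (360000 * C ^ 2 + 2560000 * (C ^ 2 * C5)) * (x * L ^ (2 + 4 * E4 + 3 * E2) / L ^ (2 * E3))
      := by
  have hx0 : (0:ℝ) < x := by exact_mod_cast hx
  have hD0 : (0:ℝ) < D := by exact_mod_cast hD
  have hK0 : (0:ℝ) < K := by exact_mod_cast hK
  have hK10 : (0:ℝ) < K1 := by exact_mod_cast hK1
  have hN1' : 8 * (x:ℝ) ≤ N := by exact_mod_cast hN1
  have hN2' : (N:ℝ) ≤ 100 * x := by exact_mod_cast hN2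
  have hN0 : (0:ℝ) < N := by linarith
  have hDK' : (D:ℝ) * K ≤ x := by exact_mod_cast hDK
  have hxDK' : (x:ℝ) ≤ 2 * D * K := by exact_mod_cast hxDK
  have hL0 : 0 < L := by linarith
  have hLp : ∀ n : ℕ, 1 ≤ L ^ n := fun n => one_le_pow₀ hL
  have hLp0 : ∀ n : ℕ, 0 < L ^ n := fun n => by positivity
  have hNN : 1 ≤ N := by omega
  rw [hhat_eq hρc h0 h1]
  have hNΓ : (N:ℝ) * (L ^ E3 / x) ≤ 100 * L ^ E3 := by
    rw [mul_div_assoc', div_le_iff₀ hx0]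
    have := mul_le_mul_of_nonneg_right hN2' (hLp0 E3).le
    linarith
  have hNΓ1 : 1 ≤ (N:ℝ) * (L ^ E3 / x) := by
    rw [mul_div_assoc', le_div_iff₀ hx0]
    have := mul_le_mul hN1' (hLp E3) zero_le_one hN0.le
    linarith
  have key := lin_bound (N := N) (θ := θ) (S := S) (c := c) h5 (Γ := L ^ E3 / x)
    (B1 := C * Real.exp (s1 / 2)) (B2 := C * (1 + |ξ|) ^ 2 * Real.exp (-(3 / 2) * s0))
    (m := 1 / L ^ (2 * E3)) (V := L ^ 2) hNN (by positivity) hNΓ1 (by positivity)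
    (by positivity) (by positivity)
    (fun h => ∫ s : ℝ, (((Real.exp (s / 2) * ρ s : ℝ) : ℂ) * e (-(ξ * s))) *
        e (-(Real.exp s * (((h : ℝ) + θ) / N))))
    (fun h => hΨ1 ξ _) (fun h hh => hΨ2 ξ _ hh)
    (by
      intro h hh hγ
      have h2 := hsm h hh hγ
      have h3 : (x:ℝ) * ‖c h‖ ≤ x / L ^ (2 * E3) := by
        refine le_trans ?_ h2
        apply mul_le_mul_of_nonneg_right _ (norm_nonneg _)
        linarith
      rw [div_eq_mul_one_div] at h3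
      exact le_of_mul_le_mul_left h3 hx0)
    (by
      have h3 : (x:ℝ) * ∑ h ∈ S, ‖c h‖ ^ 2 ≤ x * L ^ 2 := by
        refine le_trans ?_ hV
        apply mul_le_mul_of_nonneg_right _ (sum_nonneg fun h _ => by positivity)
        linarith
      exact le_of_mul_le_mul_left h3 hx0)
  refine key.trans ?_
  have es1 : Real.exp (s1 / 2) ^ 2 ≤ 2 * x := by
    rw [← Real.exp_nat_mul]
    have : ((2:ℕ):ℝ) * (s1 / 2) = s1 := by push_cast; ring
    rw [this, hs1, Real.exp_log (by positivity)]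
    linarith
  have es0 : Real.exp (-(3 / 2) * s0) ^ 2 ≤ 8 * L ^ (3 * E2) / (x:ℝ) ^ 3 := by
    rw [← Real.exp_nat_mul]
    have e3 : ((2:ℕ):ℝ) * (-(3 / 2) * s0) = -((3:ℕ) * s0) := by push_cast; ring
    rw [e3, Real.exp_neg, Real.exp_nat_mul, hs0, Real.exp_log (by positivity)]
    have e4 : (x:ℝ) ≤ 2 * L ^ E2 * (D * K1) := by
      calc (x:ℝ) ≤ 2 * D * K := hxDK'
        _ ≤ 2 * D * (K1 * L ^ E2) := mul_le_mul_of_nonneg_left hKK1 (by positivity)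
        _ = _ := by ring
    have e5 : (x:ℝ) ^ 3 ≤ 8 * L ^ (3 * E2) * ((D:ℝ) * K1) ^ 3 := by
      calc (x:ℝ) ^ 3 ≤ (2 * L ^ E2 * (D * K1)) ^ 3 := pow_le_pow_left₀ hx0.le e4 3
        _ = _ := by rw [mul_pow, mul_pow, ← pow_mul, mul_comm E2 3]; norm_num
    rw [inv_eq_one_div, div_le_div_iff₀ (by positivity) (by positivity)]
    linarith
  have eξ : ((1 + |ξ|) ^ 2) ^ 2 ≤ 16 * L ^ (4 * E4) := by
    have h2 : 1 + |ξ| ≤ 2 * L ^ E4 := by linarith [hLp E4]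
    calc ((1 + |ξ|) ^ 2) ^ 2 = (1 + |ξ|) ^ 4 := by ring
      _ ≤ (2 * L ^ E4) ^ 4 := pow_le_pow_left₀ (by positivity) h2 4
      _ = _ := by rw [mul_pow, ← pow_mul, mul_comm E4 4]; norm_num
  have t1 : 2 * (3 * ((N:ℝ) * (L ^ E3 / x)) * (1 / L ^ (2 * E3)) * (C * Real.exp (s1 / 2))) ^ 2 ≤
      360000 * C ^ 2 * (x / L ^ (2 * E3)) := by
    calc 2 * (3 * ((N:ℝ) * (L ^ E3 / x)) * (1 / L ^ (2 * E3)) * (C * Real.exp (s1 / 2))) ^ 2
        = 18 * ((N:ℝ) * (L ^ E3 / x)) ^ 2 * (1 / L ^ (2 * E3)) ^ 2 * C ^ 2 *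
            Real.exp (s1 / 2) ^ 2 := by ring
      _ ≤ 18 * (100 * L ^ E3) ^ 2 * (1 / L ^ (2 * E3)) ^ 2 * C ^ 2 * (2 * x) := by
          gcongr
      _ = 360000 * C ^ 2 * (x / L ^ (2 * E3)) := by
          have : L ^ (2 * E3) = (L ^ E3) ^ 2 := by rw [← pow_mul, mul_comm]
          rw [this]
          have := hLp0 E3
          field_simp
          ring
  have t2 : 2 * (L ^ 2 * ((C * (1 + |ξ|) ^ 2 * Real.exp (-(3 / 2) * s0)) ^ 2 *
      ((N:ℝ) ^ 2 / (L ^ E3 / x) ^ 2 * C5))) ≤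
      2560000 * (C ^ 2 * C5) * (x * L ^ (2 + 4 * E4 + 3 * E2) / L ^ (2 * E3)) := by
    calc 2 * (L ^ 2 * ((C * (1 + |ξ|) ^ 2 * Real.exp (-(3 / 2) * s0)) ^ 2 *
          ((N:ℝ) ^ 2 / (L ^ E3 / x) ^ 2 * C5)))
        = 2 * (L ^ 2 * (C ^ 2 * ((1 + |ξ|) ^ 2) ^ 2 * Real.exp (-(3 / 2) * s0) ^ 2 *
          ((N:ℝ) ^ 2 / (L ^ E3 / x) ^ 2 * C5))) := by ring
      _ ≤ 2 * (L ^ 2 * (C ^ 2 * (16 * L ^ (4 * E4)) * (8 * L ^ (3 * E2) / (x:ℝ) ^ 3) *
          ((100 * (x:ℝ)) ^ 2 / (L ^ E3 / x) ^ 2 * C5))) := by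
          gcongr
      _ = _ := by
          have e6 : L ^ (2 * E3) = (L ^ E3) ^ 2 := by rw [← pow_mul, mul_comm]
          have e7 : L ^ (2 + 4 * E4 + 3 * E2) = L ^ 2 * L ^ (4 * E4) * L ^ (3 * E2) := by
            rw [pow_add, pow_add]
          rw [e6, e7]
          have := hLp0 E3
          field_simp
          ring
  have t3 : (x:ℝ) / L ^ (2 * E3) ≤ x * L ^ (2 + 4 * E4 + 3 * E2) / L ^ (2 * E3) := by
    apply div_le_div_of_nonneg_right _ (by positivity)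
    exact le_mul_of_one_le_right hx0.le (hLp _)
  have t4 := mul_le_mul_of_nonneg_left t3 (show 0 ≤ 360000 * C ^ 2 by positivity)
  linarith

/-- the numerical part: from the bounds for the two integrals -/
lemma final_num {A L I J S : ℝ} {U : ℕ} (hA : 0 ≤ A) (hL : 15 ≤ L) (hI : I ≤ A / L ^ (2 * U + 4))
    (hJ : J ≤ 40 * A * L ^ 2) (hS : S ≤ I + 2 * √I * √J) : S ≤ A / L ^ U := by
  have hL0 : 0 < L := by linarith
  have hp : ∀ n : ℕ, 0 < L ^ n := fun n => by positivity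
  have hs : √A ^ 2 = A := Real.sq_sqrt hA
  have h1 : √I ≤ √A / L ^ (U + 2) := by
    apply Real.sqrt_le_iff.mpr
    refine ⟨by positivity, hI.trans (le_of_eq ?_)⟩
    rw [div_pow, hs, ← pow_mul]
    congr 2
    ring
  have h2 : √J ≤ 7 * √A * L := by
    apply Real.sqrt_le_iff.mpr
    refine ⟨by positivity, hJ.trans ?_⟩
    rw [mul_pow, mul_pow, hs]
    have : 0 ≤ A * L ^ 2 := by positivity
    linarith
  have h3 : 2 * √I * √J ≤ 14 * (A / L ^ (U + 1)) := by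
    calc 2 * √I * √J ≤ 2 * (√A / L ^ (U + 2)) * (7 * √A * L) := by
          apply mul_le_mul _ h2 (Real.sqrt_nonneg _) (by positivity)
          linarith
      _ = 14 * (√A ^ 2 / L ^ (U + 1)) := by
          have : L ^ (U + 2) = L ^ (U + 1) * L := by rw [← pow_succ]
          rw [this]
          have := hp (U + 1)
          field_simp
          ring
      _ = _ := by rw [hs]
  have h4 : I ≤ A / L ^ (U + 1) := by
    refine hI.trans ?_
    apply div_le_div_of_nonneg_left hA (hp _)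
    exact pow_le_pow_right₀ (by linarith) (by omega)
  have h5 : A / L ^ (U + 1) ≤ A / L ^ U / 15 := by
    rw [pow_succ, ← div_div]
    apply div_le_div_of_nonneg_left (by positivity) (by norm_num) hL
  linarith

/-- The core of `major_poly` for one value of the parameters. -/
lemma core_ineq {C C5 : ℝ} (hC : 0 < C) (hC5 : 0 < C5)
    (hcut : ∀ s0 s1 : ℝ, s0 ≤ s1 → ∃ ρ : ℝ → ℝ,
      ContDiff ℝ (⊤ : ℕ∞) ρ ∧ (∀ s, 0 ≤ ρ s ∧ ρ s ≤ 1) ∧ (∀ s ∈ Set.Icc s0 s1, ρ s = 1) ∧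
      (∀ s, s ≤ s0 - 1 → ρ s = 0) ∧ (∀ s, s1 + 1 ≤ s → ρ s = 0) ∧ (∀ s, |deriv ρ s| ≤ C) ∧
      (∀ ξ γ : ℝ, ‖∫ s : ℝ, (((Real.exp (s / 2) * ρ s : ℝ) : ℂ) * e (-(ξ * s))) *
        e (-(Real.exp s * γ))‖ ≤ C * Real.exp (s1 / 2)) ∧
      (∀ ξ γ : ℝ, γ ≠ 0 → ‖∫ s : ℝ, (((Real.exp (s / 2) * ρ s : ℝ) : ℂ) * e (-(ξ * s))) *
        e (-(Real.exp s * γ))‖ ≤ C * (1 + |ξ|) ^ 2 * Real.exp (-(3 / 2) * s0) / γ ^ 2))
    (h5 : ∀ (S : Finset ℤ) (θ : ℝ),
      ∑ h ∈ S.filter (fun h : ℤ => 1 ≤ |(h : ℝ) + θ|), 1 / ((h : ℝ) + θ) ^ 2 ≤ C5)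
    {x N D K K1 : ℕ} {L δ : ℝ} {E2 E3 E4 U : ℕ}
    (hE3 : E3 = 5 * E4 + 3 * E2 + 2 * U + 8) (hL : 15 ≤ L)
    (hL2 : 32 * (360000 * C ^ 2 + 2560000 * (C ^ 2 * C5)) ≤ L)
    (hx : 1 ≤ x)
    (hxL : 16 * (2 * (1 / 2 + C) ^ 2 + 800000) * L ^ (2 * U + 6) ≤ (x : ℝ) ^ 2)
    (hN1 : 8 * x ≤ N) (hN2 : N ≤ 100 * x) (hD : 1 ≤ D) (hK1 : 1 ≤ K1) (hKK : K1 ≤ K)
    (hDK : D * K ≤ x) (hxDK : x ≤ 2 * D * K)
    (hKK1 : (K : ℝ) ≤ K1 * L ^ E2) {θ : ℝ} {S : Finset ℤ} {c : ℤ → ℂ}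
    (hδ0 : 0 ≤ δ) (hδK : δ * K ≤ 1) (hδ : ∀ h ∈ S, |((h : ℝ) + θ) / N| ≤ δ)
    (hV : (N : ℝ) * ∑ h ∈ S, ‖c h‖ ^ 2 ≤ x * L ^ 2)
    (hsm : ∀ h ∈ S, |((h : ℝ) + θ) / N| ≤ L ^ E3 / x → (N : ℝ) * ‖c h‖ ≤ x / L ^ (2 * E3))
    {T : Finset ℕ} (hT : T ⊆ Ioc K1 K)
    (hks : ∀ ξ : ℝ, L ^ E4 ≤ |ξ| → |ξ| ≤ (x : ℝ) ^ 2 →
      ‖∑ k ∈ T, (((k : ℝ) ^ (-(1 / 2) : ℝ) : ℝ) : ℂ) * e (ξ * Real.log k)‖ ^ 2 ≤
        K / L ^ (2 * U + 8)) :
    ∑ d ∈ Ioc D (2 * D), ‖∑ k ∈ T, poly N θ S c ((d : ℝ) * k)‖ ^ 2 ≤ x * K / L ^ U := by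
  have hx0 : (0:ℝ) < x := by exact_mod_cast hx
  have hx1 : (1:ℝ) ≤ x := by exact_mod_cast hx
  have hD0 : (0:ℝ) < D := by exact_mod_cast hD
  have hK : 1 ≤ K := hK1.trans hKK
  have hK0 : (0:ℝ) < K := by exact_mod_cast hK
  have hK1' : (1:ℝ) ≤ K := by exact_mod_cast hK
  have hK10 : (0:ℝ) < K1 := by exact_mod_cast hK1
  have hKK' : (K1:ℝ) ≤ K := by exact_mod_cast hKK
  have hN1' : 8 * (x:ℝ) ≤ N := by exact_mod_cast hN1
  have hN2' : (N:ℝ) ≤ 100 * x := by exact_mod_cast hN2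
  have hN0 : (0:ℝ) < N := by linarith
  have hNN : 1 ≤ N := by omega
  have hDK' : (D:ℝ) * K ≤ x := by exact_mod_cast hDK
  have hL0 : 0 < L := by linarith
  have hL1 : 1 ≤ L := by linarith
  have hLp : ∀ n : ℕ, 1 ≤ L ^ n := fun n => one_le_pow₀ hL1
  have hLp0 : ∀ n : ℕ, 0 < L ^ n := fun n => by positivity
  set s0 := Real.log (D * K1) with hs0
  set s1 := Real.log (2 * D * K) with hs1
  have hs : s0 ≤ s1 := by
    rw [hs0, hs1]
    apply Real.log_le_log (by positivity)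
    calc (D:ℝ) * K1 ≤ D * K := mul_le_mul_of_nonneg_left hKK' hD0.le
      _ ≤ 2 * D * K := by nlinarith [mul_pos hD0 hK0]
  obtain ⟨ρ, hρc, hρ, hρ1, h0, h1, hdρ, hΨ1, hΨ2⟩ := hcut s0 s1 hs
  have hexp : Real.exp (s1 + 1) ≤ N := by
    rw [Real.exp_add, hs1, Real.exp_log (by positivity)]
    have := Real.exp_one_lt_d9
    calc 2 * (D:ℝ) * K * Real.exp 1 ≤ 2 * (D:ℝ) * K * 3 := by
          apply mul_le_mul_of_nonneg_left _ (by positivity)
          linarith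
      _ = 6 * (D * K) := by ring
      _ ≤ N := by linarith
  have hδ1 : δ ≤ 1 := by
    calc δ = δ * 1 := (mul_one _).symm
      _ ≤ δ * K := mul_le_mul_of_nonneg_left hK1' hδ0
      _ ≤ 1 := hδK
  -- the two integrals of the polynomial
  have hV0 : ∫ y in (0:ℝ)..N, ‖poly N θ S c y‖ ^ 2 ≤ x * L ^ 2 := by
    rw [poly_sq N hNN θ S c]; exact hV
  have hpi : (2 * Real.pi) ^ 2 ≤ 40 := by
    have := Real.pi_lt_d2
    have h3 := Real.pi_pos
    nlinarith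
  have hB : ∫ y in (0:ℝ)..N, ‖deriv (poly N θ S c) y‖ ^ 2 ≤ 40 * δ ^ 2 * (x * L ^ 2) := by
    refine (poly_deriv N hNN θ S c δ hδ).2.trans ?_
    have h2 : (2 * Real.pi * δ) ^ 2 ≤ 40 * δ ^ 2 := by
      rw [mul_pow]
      exact mul_le_mul_of_nonneg_right hpi (by positivity)
    exact mul_le_mul h2 hV (by positivity) (by positivity)
  -- the function h
  have hhc : ContDiff ℝ (⊤ : ℕ∞) (hh N θ S c ρ) := contDiff_hh hρc
  have hhs : HasCompactSupport (hh N θ S c ρ) := hasCompactSupport_hh h0 h1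
  have hpl := planch (hh N θ S c ρ) hhc hhs T (fun k hk => by
    have := mem_Ioc.mp (hT hk); omega)
  obtain ⟨hgi, hge, hgt⟩ := planch_tail (hh N θ S c ρ) hhc hhs ((x:ℝ) ^ 2) (by positivity)
  have hI1 := I_le (N := N) (θ := θ) (S := S) (c := c) hD hK1 hKK hT hs0 hs1 hρc hρ1 h0 h1 hpl
  have hH : ∫ s, ‖hh N θ S c ρ s‖ ^ 2 ≤ x * L ^ 2 :=
    (int_hh hs hρc hρ h0 h1 hexp).trans hV0
  have hH' : ∫ s, ‖deriv (hh N θ S c ρ) s‖ ^ 2 ≤
      (2 * (1 / 2 + C) ^ 2 + 800000) * ((x:ℝ) ^ 3 * L ^ 2) := by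
    refine (int_deriv_hh hs hρc hρ h0 h1 hexp hdρ).trans ?_
    have a1 : 2 * (1 / 2 + C) ^ 2 * (∫ y in (0:ℝ)..N, ‖poly N θ S c y‖ ^ 2) ≤
        2 * (1 / 2 + C) ^ 2 * ((x:ℝ) ^ 3 * L ^ 2) := by
      apply mul_le_mul_of_nonneg_left _ (by positivity)
      refine hV0.trans (mul_le_mul_of_nonneg_right ?_ (by positivity))
      exact le_self_pow₀ hx1 (by norm_num)
    have a2 : 2 * (N:ℝ) ^ 2 * ∫ y in (0:ℝ)..N, ‖deriv (poly N θ S c) y‖ ^ 2 ≤
        800000 * ((x:ℝ) ^ 3 * L ^ 2) := by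
      have b1 : ∫ y in (0:ℝ)..N, ‖deriv (poly N θ S c) y‖ ^ 2 ≤ 40 * (x * L ^ 2) := by
        refine hB.trans ?_
        have : δ ^ 2 ≤ 1 := pow_le_one₀ hδ0 hδ1
        apply mul_le_mul_of_nonneg_right _ (by positivity)
        linarith
      have b2 : (N:ℝ) ^ 2 ≤ (100 * x) ^ 2 := pow_le_pow_left₀ hN0.le hN2' 2
      calc 2 * (N:ℝ) ^ 2 * ∫ y in (0:ℝ)..N, ‖deriv (poly N θ S c) y‖ ^ 2
          ≤ 2 * (N:ℝ) ^ 2 * (40 * (x * L ^ 2)) := mul_le_mul_of_nonneg_left b1 (by positivity)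
        _ ≤ 2 * (100 * (x:ℝ)) ^ 2 * (40 * (x * L ^ 2)) := by
            apply mul_le_mul_of_nonneg_right _ (by positivity)
            linarith
        _ = _ := by ring
    calc _ ≤ 2 * (1 / 2 + C) ^ 2 * ((x:ℝ) ^ 3 * L ^ 2) + 800000 * ((x:ℝ) ^ 3 * L ^ 2) :=
          add_le_add a1 a2
      _ = _ := by ring
  set C6 : ℝ := 360000 * C ^ 2 + 2560000 * (C ^ 2 * C5) with hC6
  have hC60 : 0 < C6 := by positivity
  set Cd : ℝ := 2 * (1 / 2 + C) ^ 2 + 800000 with hCd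
  have hCd0 : 0 < Cd := by positivity
  set H2 : ℝ := C6 * (x * L ^ (2 + 4 * E4 + 3 * E2) / L ^ (2 * E3)) with hH2
  have hH20 : 0 ≤ H2 := by positivity
  have hI2 : ∫ ξ : ℝ, ‖∫ s : ℝ, hh N θ S c ρ s * e (-(ξ * s))‖ ^ 2 *
        ‖∑ k ∈ T, (((k : ℝ) ^ (-(1 / 2) : ℝ) : ℝ) : ℂ) * e (ξ * Real.log k)‖ ^ 2 ≤
      2 * L ^ E4 * (H2 * (4 * K)) +
        K / L ^ (2 * U + 8) * (∫ ξ : ℝ, ‖∫ s : ℝ, hh N θ S c ρ s * e (-(ξ * s))‖ ^ 2) +
        4 * K * ∫ ξ in {ξ : ℝ | (x:ℝ) ^ 2 < |ξ|},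
          ‖∫ s : ℝ, hh N θ S c ρ s * e (-(ξ * s))‖ ^ 2 := by
    refine three_ranges (by positivity) (fun ξ => by positivity) (fun ξ => by positivity) hgi
      (by positivity) (by positivity) (by positivity) ?_ ?_ ?_
    · intro ξ hξ
      have := hat_bound (N := N) (θ := θ) (S := S) (c := c) hC hC5 h5 hL1 hx hN1 hN2 hD hK1 hK hDK
        hxDK hKK1 hs0 hs1 hρc h0 h1 hΨ1 hΨ2 hV hsm ξ hξ.le
      exact mul_le_mul this (P_le hT ξ) (by positivity) hH20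
    · intro ξ h2 h3
      rw [mul_comm]
      exact mul_le_mul_of_nonneg_right (hks ξ h2 h3) (by positivity)
    · intro ξ _
      rw [mul_comm]
      exact mul_le_mul_of_nonneg_right (P_le hT ξ) (by positivity)
  set A : ℝ := x * K with hA
  have hA0 : 0 < A := by positivity
  have hI3 : ∫ ξ : ℝ, ‖∫ s : ℝ, hh N θ S c ρ s * e (-(ξ * s))‖ ^ 2 *
        ‖∑ k ∈ T, (((k : ℝ) ^ (-(1 / 2) : ℝ) : ℝ) : ℂ) * e (ξ * Real.log k)‖ ^ 2 ≤
      A / L ^ (2 * U + 4) := by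
    have b1 : 2 * L ^ E4 * (H2 * (4 * K)) ≤ A / L ^ (2 * U + 4) / 4 := by
      have c1 : 2 * L ^ E4 * (H2 * (4 * K)) = 8 * C6 * (A * L ^ (2 + 5 * E4 + 3 * E2) /
          L ^ (2 * E3)) := by
        rw [hH2, hA]
        have : L ^ (2 + 5 * E4 + 3 * E2) = L ^ E4 * L ^ (2 + 4 * E4 + 3 * E2) := by
          rw [← pow_add]; congr 1; ring
        rw [this]
        ring
      rw [c1, le_div_iff₀ (by norm_num : (0:ℝ) < 4), le_div_iff₀ (hLp0 _)]
      have c2 : L ^ (2 * E3) = L ^ (2 + 5 * E4 + 3 * E2) * L ^ (2 * U + 4) * L *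
          L ^ (5 * E4 + 3 * E2 + 2 * U + 9) := by
        rw [← pow_add, ← pow_succ, ← pow_add, hE3]
        congr 1
        ring
      have c3 : 8 * C6 * (A * L ^ (2 + 5 * E4 + 3 * E2) / L ^ (2 * E3)) * 4 * L ^ (2 * U + 4) =
          A * (32 * C6 / (L * L ^ (5 * E4 + 3 * E2 + 2 * U + 9))) := by
        rw [c2]
        have := hLp0 (2 + 5 * E4 + 3 * E2)
        have := hLp0 (2 * U + 4)
        have := hLp0 (5 * E4 + 3 * E2 + 2 * U + 9)
        field_simp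
        ring
      rw [c3]
      apply mul_le_of_le_one_right hA0.le
      rw [div_le_one (by positivity)]
      calc 32 * C6 ≤ L := hL2
        _ ≤ L * L ^ (5 * E4 + 3 * E2 + 2 * U + 9) := le_mul_of_one_le_right hL0.le (hLp _)
    have b2 : K / L ^ (2 * U + 8) *
        (∫ ξ : ℝ, ‖∫ s : ℝ, hh N θ S c ρ s * e (-(ξ * s))‖ ^ 2) ≤ A / L ^ (2 * U + 4) / 4 := by
      rw [hge]
      calc K / L ^ (2 * U + 8) * ∫ s, ‖hh N θ S c ρ s‖ ^ 2
          ≤ K / L ^ (2 * U + 8) * (x * L ^ 2) := mul_le_mul_of_nonneg_left hH (by positivity)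
        _ = A / L ^ (2 * U + 4) / L ^ 2 := by
            have : L ^ (2 * U + 8) = L ^ (2 * U + 4) * (L ^ 2 * L ^ 2) := by
              rw [← pow_add, ← pow_add]
            rw [this, hA]
            have := hLp0 (2 * U + 4)
            field_simp
        _ ≤ A / L ^ (2 * U + 4) / 4 := by
            apply div_le_div_of_nonneg_left (by positivity) (by norm_num)
            nlinarith
    have b3 : 4 * K * ∫ ξ in {ξ : ℝ | (x:ℝ) ^ 2 < |ξ|},
          ‖∫ s : ℝ, hh N θ S c ρ s * e (-(ξ * s))‖ ^ 2 ≤ A / L ^ (2 * U + 4) / 4 := by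
      calc 4 * K * ∫ ξ in {ξ : ℝ | (x:ℝ) ^ 2 < |ξ|},
            ‖∫ s : ℝ, hh N θ S c ρ s * e (-(ξ * s))‖ ^ 2
          ≤ 4 * K * (1 / ((x:ℝ) ^ 2) ^ 2 * (Cd * ((x:ℝ) ^ 3 * L ^ 2))) := by
            apply mul_le_mul_of_nonneg_left _ (by positivity)
            refine hgt.trans (mul_le_mul_of_nonneg_left hH' (by positivity))
        _ = 4 * K * (Cd * L ^ 2 / x) := by
            field_simp
        _ ≤ A / L ^ (2 * U + 4) / 4 := by
            rw [le_div_iff₀ (by norm_num : (0:ℝ) < 4), le_div_iff₀ (hLp0 _), hA]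
            have c4 : 4 * (K:ℝ) * (Cd * L ^ 2 / x) * 4 * L ^ (2 * U + 4) =
                K * ((16 * Cd * L ^ (2 * U + 6)) / x) := by
              have : L ^ (2 * U + 6) = L ^ 2 * L ^ (2 * U + 4) := by
                rw [← pow_add]; congr 1; ring
              rw [this]
              ring
            rw [c4, mul_comm (x:ℝ)]
            apply mul_le_mul_of_nonneg_left _ hK0.le
            rw [div_le_iff₀ hx0]
            calc _ ≤ _ := hxL
              _ = _ := by ring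
    have b4 : 0 ≤ A / L ^ (2 * U + 4) / 4 := by positivity
    linarith
  -- Sobolev
  set g : ℝ → ℂ := fun u => ∑ k ∈ T, poly N θ S c (u * k) with hg
  have hgc : ContDiff ℝ 1 g := by
    refine ContDiff.sum fun k _ => ?_
    have : ContDiff ℝ (⊤ : ℕ∞) fun u : ℝ => poly N θ S c (u * k) :=
      contDiff_poly.comp (contDiff_id.mul contDiff_const)
    exact this.of_le (by simp)
  have hsob := sobolev D hD g hgc
  have hJ : ∫ u in (D : ℝ)..(2 * D), ‖deriv g u‖ ^ 2 ≤ 40 * A * L ^ 2 := by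
    have hDN : 2 * D * K ≤ N := by nlinarith
    refine (J_le (N := N) (θ := θ) (S := S) (c := c) hT hDN).trans ?_
    calc (K:ℝ) ^ 3 * ∫ y in (0:ℝ)..N, ‖deriv (poly N θ S c) y‖ ^ 2
        ≤ (K:ℝ) ^ 3 * (40 * δ ^ 2 * (x * L ^ 2)) := mul_le_mul_of_nonneg_left hB (by positivity)
      _ = (δ * K) ^ 2 * (40 * (x * K) * L ^ 2) := by ring
      _ ≤ 1 * (40 * (x * K) * L ^ 2) := by
          apply mul_le_mul_of_nonneg_right _ (by positivity)
          exact pow_le_one₀ (by positivity) hδK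
      _ = _ := by rw [one_mul]
  exact final_num hA0.le hL (hI1.trans hI3) hJ hsob

/-- the inequality `C (log x)^n ≤ x^2` for large `x` -/
lemma log_pow_le (C : ℝ) (n : ℕ) : ∃ x0 : ℕ, ∀ x : ℕ, x0 ≤ x → C * Real.log x ^ n ≤ (x:ℝ) ^ 2 := by
  have h1 : (fun y : ℝ => Real.log y ^ n) =o[Filter.atTop] fun y : ℝ => y :=
    Real.isLittleO_pow_log_id_atTop
  have h2 := h1.bound (show (0:ℝ) < 1 / (|C| + 1) by positivity)
  have h3 := tendsto_natCast_atTop_atTop (R := ℝ) |>.eventually h2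
  obtain ⟨x0, hx0⟩ := Filter.eventually_atTop.mp h3
  refine ⟨max x0 1, fun x hx => ?_⟩
  have h4 := hx0 x ((le_max_left _ _).trans hx)
  have hx1 : (1:ℝ) ≤ x := by exact_mod_cast (le_max_right _ _).trans hx
  rw [Real.norm_eq_abs, Real.norm_eq_abs, abs_of_nonneg (by linarith : (0:ℝ) ≤ x)] at h4
  have h5 : 0 < |C| + 1 := by positivity
  calc C * Real.log x ^ n ≤ |C| * |Real.log x ^ n| := by
        rw [← abs_mul]; exact le_abs_self _
    _ ≤ (|C| + 1) * (1 / (|C| + 1) * x) := by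
        apply mul_le_mul (by linarith) h4 (abs_nonneg _) h5.le
    _ = x := by field_simp
    _ ≤ (x:ℝ) ^ 2 := le_self_pow₀ hx1 (by norm_num)

lemma log_large (Λ : ℝ) : ∃ x0 : ℕ, ∀ x : ℕ, x0 ≤ x → Λ ≤ Real.log x := by
  have h3 := (Real.tendsto_log_atTop.comp (tendsto_natCast_atTop_atTop (R := ℝ))).eventually
    (Filter.eventually_ge_atTop Λ)
  obtain ⟨x0, hx0⟩ := Filter.eventually_atTop.mp h3
  exact ⟨x0, fun x hx => hx0 x hx⟩

end Pool.Agent.H442R2.EHI.MP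

namespace Pool.Agent.H442R2.EHI

open Finset
open Pool.Agent.H469R2.NK (e)

/-- T6d with T4 (`ksum`, for these `ε E1 E2` and the exponent `2 U + 8`) as a hypothesis. -/
theorem major_poly_of (ε : ℝ) (E1 E2 U : ℕ)
    (hksum : ∃ (E4 x0 : ℕ), ∀ x : ℕ, x0 ≤ x →
      ∀ K K1 q r : ℕ, (x : ℝ) ^ ε ≤ K → K ≤ x → K1 ≤ K → (K : ℝ) ≤ K1 * Real.log x ^ E2 → 1 ≤ q →
      (q : ℝ) ≤ Real.log x ^ E1 → ∀ ξ : ℝ, Real.log x ^ E4 ≤ |ξ| → |ξ| ≤ (x : ℝ) ^ 2 →
      ‖∑ k ∈ (Ioc K1 K).filter (fun k => k % q = r),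
        (((k : ℝ) ^ (-(1 / 2) : ℝ) : ℝ) : ℂ) * e (ξ * Real.log k)‖ ^ 2 ≤
          K / Real.log x ^ (2 * U + 8)) : ∃ (E3 x0 : ℕ), ∀ x : ℕ, x0 ≤ x →
    ∀ (N D K K1 q r : ℕ) (δ θ : ℝ) (S : Finset ℤ) (c : ℤ → ℂ), 8 * x ≤ N → N ≤ 100 * x → 1 ≤ D →
    D * K ≤ x → x ≤ 2 * D * K → (x : ℝ) ^ ε ≤ K → K1 ≤ K → (K : ℝ) ≤ K1 * Real.log x ^ E2 →
    1 ≤ q → (q : ℝ) ≤ Real.log x ^ E1 → 0 ≤ δ → δ * K ≤ 1 →
    (∀ h ∈ S, |((h : ℝ) + θ) / N| ≤ δ) →
    (N : ℝ) * ∑ h ∈ S, ‖c h‖ ^ 2 ≤ x * Real.log x ^ 2 →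
    (∀ h ∈ S, |((h : ℝ) + θ) / N| ≤ Real.log x ^ E3 / x →
      (N : ℝ) * ‖c h‖ ≤ x / Real.log x ^ (2 * E3)) →
    ∑ d ∈ Ioc D (2 * D), ‖∑ k ∈ (Ioc K1 K).filter (fun k => k % q = r),
      poly N θ S c ((d : ℝ) * k)‖ ^ 2 ≤ x * K / Real.log x ^ U := by
  obtain ⟨C, hC, hcut⟩ := cutoff
  obtain ⟨C5, hC5, h5⟩ := MP.inv_sq_sum
  obtain ⟨E4, x1, hk⟩ := hksum
  obtain ⟨x2, hx2⟩ := MP.log_pow_le (16 * (2 * (1 / 2 + C) ^ 2 + 800000)) (2 * U + 6)
  obtain ⟨x3, hx3⟩ := MP.log_large (max 15 (32 * (360000 * C ^ 2 + 2560000 * (C ^ 2 * C5))))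
  refine ⟨5 * E4 + 3 * E2 + 2 * U + 8, max (max x1 x2) (max x3 1), ?_⟩
  intro x hx N D K K1 q r δ θ S c hN1 hN2 hD hDK hxDK hxK hKK hKK1 hq hqL hδ0 hδK hδ hV hsm
  have hx1' : x1 ≤ x := ((le_max_left _ _).trans (le_max_left _ _)).trans hx
  have hx2' : x2 ≤ x := ((le_max_right _ _).trans (le_max_left _ _)).trans hx
  have hx3' : x3 ≤ x := ((le_max_left _ _).trans (le_max_right _ _)).trans hx
  have hx' : 1 ≤ x := ((le_max_right _ _).trans (le_max_right _ _)).trans hx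
  have hx0 : (0:ℝ) < x := by exact_mod_cast hx'
  have hL := hx3 x hx3'
  have hL15 : 15 ≤ Real.log x := (le_max_left _ _).trans hL
  have hL2 := (le_max_right _ _).trans hL
  have hKpos : (0:ℝ) < K := lt_of_lt_of_le (Real.rpow_pos_of_pos hx0 ε) hxK
  have hK1 : 1 ≤ K1 := by
    rcases Nat.eq_zero_or_pos K1 with h | h
    · rw [h] at hKK1
      simp at hKK1
      exact absurd hKK1 (by
        intro h'
        rw [h'] at hKpos
        simp at hKpos)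
    · exact h
  have hKx : K ≤ x := (Nat.le_mul_of_pos_left K hD).trans hDK
  exact MP.core_ineq hC hC5 hcut h5 rfl hL15 hL2 hx' (hx2 x hx2') hN1 hN2 hD hK1 hKK hDK hxDK hKK1
    hδ0 hδK hδ hV hsm (filter_subset _ _)
    (fun ξ h1 h2 => hk x hx1' K K1 q r hxK hKx hKK hKK1 hq hqL ξ h1 h2)

/-- T6d (MajorPoly.lean). Major arcs: exponential polynomials with frequencies in `[-δ, δ]`,
spacing `1/N`, small coefficients near `0`. -/
theorem major_poly (ε : ℝ) (hε : 0 < ε) (E1 E2 U : ℕ) : ∃ (E3 x0 : ℕ), ∀ x : ℕ, x0 ≤ x →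
    ∀ (N D K K1 q r : ℕ) (δ θ : ℝ) (S : Finset ℤ) (c : ℤ → ℂ), 8 * x ≤ N → N ≤ 100 * x → 1 ≤ D →
    D * K ≤ x → x ≤ 2 * D * K → (x : ℝ) ^ ε ≤ K → K1 ≤ K → (K : ℝ) ≤ K1 * Real.log x ^ E2 →
    1 ≤ q → (q : ℝ) ≤ Real.log x ^ E1 → 0 ≤ δ → δ * K ≤ 1 →
    (∀ h ∈ S, |((h : ℝ) + θ) / N| ≤ δ) →
    (N : ℝ) * ∑ h ∈ S, ‖c h‖ ^ 2 ≤ x * Real.log x ^ 2 →
    (∀ h ∈ S, |((h : ℝ) + θ) / N| ≤ Real.log x ^ E3 / x →
      (N : ℝ) * ‖c h‖ ≤ x / Real.log x ^ (2 * E3)) →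
    ∑ d ∈ Ioc D (2 * D), ‖∑ k ∈ (Ioc K1 K).filter (fun k => k % q = r),
      poly N θ S c ((d : ℝ) * k)‖ ^ 2 ≤ x * K / Real.log x ^ U :=
  major_poly_of ε E1 E2 U (KS.ksum_of vdc_log ε hε E1 E2 (2 * U + 8))

end Pool.Agent.H442R2.EHI
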