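import Pool.Agent.H43.G.R_seed8.H442R2.EHI.Defs

namespace Pool.Agent.H442R2.EHI

open Finset

lemma dio_card_class (s : Finset ℤ) (K q : ℕ) (hq : 1 ≤ q) (hs : ∀ g ∈ s, -(K : ℤ) ≤ g ∧ g ≤ K)
    (hd : ∀ g ∈ s, ∀ g' ∈ s, (q : ℤ) ∣ g - g') : s.card ≤ 2 * K / q + 1 := by
  rcases s.eq_empty_or_nonempty with rfl | hne
  · simp
  set g1 := s.min' hne with hg1
  have hg1s : g1 ∈ s := Finset.min'_mem s hne
  have hqz : (0 : ℤ) < q := by exact_mod_cast hq
  have hcard : s.card ≤ (Icc (0 : ℤ) (2 * K / q)).card := by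
    apply Finset.card_le_card_of_injOn (fun g => (g - g1) / q)
    · intro g hg
      have h1 : g1 ≤ g := Finset.min'_le s g hg
      have h2 := hs g hg
      have h3 := hs g1 hg1s
      simp only [Finset.coe_Icc, Set.mem_Icc]
      constructor
      · exact Int.ediv_nonneg (by linarith) hqz.le
      · exact Int.ediv_le_ediv hqz (by linarith)
    · intro g hg g' hg' heq
      have h1 := hd g hg g1 hg1s
      have h2 := hd g' hg' g1 hg1s
      have h3 : (g - g1) / q = (g' - g1) / q := heq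
      have h4 := Int.ediv_mul_cancel h1
      have h5 := Int.ediv_mul_cancel h2
      rw [h3] at h4
      linarith
  have h6 : (Icc (0 : ℤ) (2 * K / q)).card = 2 * K / q + 1 := by
    rw [Int.card_Icc]
    have : ((2 * K / q : ℕ) : ℤ) = 2 * K / q := by push_cast; rfl
    rw [← this]
    have h8 : (((2 * K / q : ℕ) : ℤ) + 1 - 0) = ((2 * K / q + 1 : ℕ) : ℤ) := by push_cast; ring
    rw [h8, Int.toNat_natCast]
  rw [h6] at hcard
  exact hcard

/-- T2 (Dio.lean). Diophantine counting. -/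
theorem dioph (K Q : ℕ) (hQ : 1 ≤ Q) (hK : Q ≤ K) (Δ : ℝ) (hΔ0 : 0 < Δ) (hΔ : Δ * Q ≤ 1 / 8)
    (α : ℝ) (h : ∀ q ∈ Icc 1 Q, ∀ b : ℤ, Δ * Q / K < |α - (b : ℝ) / (q : ℝ)|) :
    (nu K Δ α : ℝ) ≤ 100 * K / Q := by
  have hK1 : 1 ≤ K := le_trans hQ hK
  have hKR : (1 : ℝ) ≤ K := by exact_mod_cast hK1
  have hQR : (1 : ℝ) ≤ Q := by exact_mod_cast hQ
  have hQK : (Q : ℝ) ≤ K := by exact_mod_cast hK
  have hQ0 : (0 : ℝ) < Q := by linarith
  have hKQ : 1 ≤ (K : ℝ) / Q := by rw [le_div_iff₀ hQ0]; linarith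
  obtain ⟨r, hr1, hr2⟩ := Real.exists_rat_abs_sub_le_and_den_le α (n := 4 * K) (by omega)
  set q : ℕ := r.den with hqdef
  set b : ℤ := r.num with hbdef
  have hq1 : 1 ≤ q := r.den_pos
  have hqR : (1 : ℝ) ≤ q := by exact_mod_cast hq1
  have hq0 : (0 : ℝ) < q := by linarith
  have hcop : Int.gcd b q = 1 := by
    have := r.reduced
    rw [Int.gcd, Int.natAbs_natCast]
    exact this
  have hrb : (r : ℝ) = (b : ℝ) / (q : ℝ) := by
    rw [hbdef, hqdef]
    exact (Rat.cast_def r)
  rw [hrb] at hr1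
  push_cast at hr1
  -- basic estimate
  have hest : ∀ g : ℤ, -(K : ℤ) ≤ g → g ≤ K → nint (g * α) ≤ Δ →
      |(g : ℝ) * b - (round (g * α) : ℝ) * q| ≤ q * Δ + 1 / 4 := by
    intro g hg1 hg2 hg
    unfold nint at hg
    have hgK : |(g : ℝ)| ≤ K := by
      rw [abs_le]
      constructor
      · have : ((-(K : ℤ) : ℤ) : ℝ) ≤ g := by exact_mod_cast hg1
        push_cast at this
        exact this
      · exact_mod_cast hg2
    have e1 : (g : ℝ) * b - (round (g * α) : ℝ) * q =
        q * ((g * α - round (g * α)) - g * (α - (b : ℝ) / q)) := by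
      field_simp
      ring
    rw [e1, abs_mul, abs_of_pos hq0]
    have e2 : |g * α - round (g * α) - g * (α - (b : ℝ) / q)| ≤
        Δ + K * (1 / ((4 * K + 1) * q)) := by
      refine le_trans (abs_sub _ _) ?_
      rw [abs_mul]
      exact add_le_add hg (mul_le_mul hgK hr1 (abs_nonneg _) (by linarith))
    have e3 : (K : ℝ) * (1 / ((4 * K + 1) * q)) ≤ 1 / (4 * q) := by
      rw [mul_one_div, div_le_div_iff₀ (by positivity) (by positivity)]
      nlinarith
    have e4 : (q : ℝ) * (1 / (4 * q)) = 1 / 4 := by field_simp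
    calc (q : ℝ) * |g * α - round (g * α) - g * (α - (b : ℝ) / q)|
        ≤ q * (Δ + 1 / (4 * q)) := mul_le_mul_of_nonneg_left (le_trans e2 (by linarith)) hq0.le
      _ = q * Δ + 1 / 4 := by rw [mul_add, e4]
  have hdvd : ∀ g : ℤ, (q : ℤ) ∣ g * b → (q : ℤ) ∣ g := by
    intro g hg
    refine Int.dvd_of_dvd_mul_left_of_gcd_one hg ?_
    rw [Int.gcd_comm]
    exact hcop
  by_cases hqQ : q ≤ Q
  · -- small denominators
    have hqQR : (q : ℝ) ≤ Q := by exact_mod_cast hqQ
    have hh := h q (Finset.mem_Icc.2 ⟨hq1, hqQ⟩) b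
    have hsub : (Icc (-(K : ℤ)) K).filter (fun g : ℤ => nint (g * α) ≤ Δ) ⊆
        Icc (-(⌊(K : ℝ) / Q⌋)) ⌊(K : ℝ) / Q⌋ := by
      intro g hg
      rw [Finset.mem_filter, Finset.mem_Icc] at hg
      obtain ⟨⟨hg1, hg2⟩, hg3⟩ := hg
      have h1 := hest g hg1 hg2 hg3
      have h2 : (q : ℝ) * Δ + 1 / 4 < 1 := by nlinarith
      have h3 : |((g * b - round (g * α) * q : ℤ) : ℝ)| < 1 := by
        push_cast
        exact lt_of_le_of_lt h1 h2
      have h4 : g * b - round (g * α) * q = 0 := by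
        rw [← Int.cast_abs] at h3
        have : |g * b - round ((g : ℝ) * α) * q| < 1 := by exact_mod_cast h3
        exact Int.abs_lt_one_iff.1 this
      have h5 : (g : ℝ) * b = (round (g * α) : ℝ) * q := by
        have h6 : g * b = round ((g : ℝ) * α) * q := by linarith
        exact_mod_cast h6
      have h7 : (round (g * α) : ℝ) = g * ((b : ℝ) / q) := by
        field_simp
        linarith
      unfold nint at hg3
      rw [h7, ← mul_sub, abs_mul] at hg3
      have h8 : |(g : ℝ)| ≤ (K : ℝ) / Q := by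
        by_contra hcon
        push Not at hcon
        have h9 : (K : ℝ) / Q * (Δ * Q / K) < |(g : ℝ)| * |α - (b : ℝ) / q| :=
          mul_lt_mul'' hcon hh (by positivity) (by positivity)
        have h10 : (K : ℝ) / Q * (Δ * Q / K) = Δ := by field_simp
        linarith
      rw [abs_le] at h8
      rw [Finset.mem_Icc]
      constructor
      · have h11 : -g ≤ ⌊(K : ℝ) / Q⌋ := by
          rw [Int.le_floor]
          push_cast
          linarith [h8.1]
        linarith
      · rw [Int.le_floor]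
        exact h8.2
    have hcard := Finset.card_le_card hsub
    rw [Int.card_Icc] at hcard
    have hfl0 : 0 ≤ ⌊(K : ℝ) / Q⌋ := Int.floor_nonneg.2 (by positivity)
    have hfl := Int.floor_le ((K : ℝ) / Q)
    have hnu : (nu K Δ α : ℝ) ≤ 2 * ⌊(K : ℝ) / Q⌋ + 1 := by
      have : nu K Δ α ≤ (⌊(K : ℝ) / Q⌋ + 1 - -⌊(K : ℝ) / Q⌋).toNat := hcard
      have h12 : ((⌊(K : ℝ) / Q⌋ + 1 - -⌊(K : ℝ) / Q⌋).toNat : ℤ) = 2 * ⌊(K : ℝ) / Q⌋ + 1 := by
        rw [Int.toNat_of_nonneg (by linarith)]
        ring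
      have h13 : (nu K Δ α : ℤ) ≤ 2 * ⌊(K : ℝ) / Q⌋ + 1 := by
        rw [← h12]
        exact_mod_cast this
      exact_mod_cast h13
    have : 100 * (K : ℝ) / Q = 100 * (K / Q) := by ring
    rw [this]
    linarith
  · -- large denominators
    push Not at hqQ
    have hqQR : (Q : ℝ) ≤ q := by exact_mod_cast hqQ.le
    have hq4 : (q : ℝ) ≤ 4 * K := by exact_mod_cast hr2
    set R : ℤ := ⌊(q : ℝ) * Δ + 1 / 4⌋ with hR
    have hR0 : 0 ≤ R := Int.floor_nonneg.2 (by positivity)
    have hcard : ((Icc (-(K : ℤ)) K).filter (fun g : ℤ => nint (g * α) ≤ Δ)).card ≤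
        (2 * K / q + 1) * (Icc (-R) R).card := by
      apply Finset.card_le_mul_card_image_of_maps_to
        (f := fun g : ℤ => g * b - round ((g : ℝ) * α) * q)
      · intro g hg
        rw [Finset.mem_filter, Finset.mem_Icc] at hg
        obtain ⟨⟨hg1, hg2⟩, hg3⟩ := hg
        have h1 := hest g hg1 hg2 hg3
        rw [abs_le] at h1
        rw [Finset.mem_Icc]
        constructor
        · have : -(g * b - round ((g : ℝ) * α) * q) ≤ R := by
            rw [hR, Int.le_floor]
            push_cast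
            linarith [h1.1]
          linarith
        · rw [hR, Int.le_floor]
          push_cast
          linarith [h1.2]
      · intro c _
        apply dio_card_class _ K q hq1
        · intro g hg
          rw [Finset.mem_filter, Finset.mem_filter, Finset.mem_Icc] at hg
          exact hg.1.1
        · intro g hg g' hg'
          rw [Finset.mem_filter] at hg hg'
          apply hdvd
          have h1 : (g - g') * b = (round ((g : ℝ) * α) - round ((g' : ℝ) * α)) * q := by
            linarith [hg.2, hg'.2]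
          rw [h1]
          exact Dvd.intro_left _ rfl
    rw [Int.card_Icc] at hcard
    have h12 : (((R + 1 - -R).toNat : ℕ) : ℝ) = 2 * R + 1 := by
      have : (((R + 1 - -R).toNat : ℕ) : ℤ) = 2 * R + 1 := by
        rw [Int.toNat_of_nonneg (by linarith)]
        ring
      exact_mod_cast this
    have h13 : ((2 * K / q : ℕ) : ℝ) ≤ 2 * K / q := by
      have := Nat.cast_div_le (α := ℝ) (m := 2 * K) (n := q)
      push_cast at this
      exact this
    have hRle : (R : ℝ) ≤ q * Δ + 1 / 4 := Int.floor_le _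
    have hR0' : (0 : ℝ) ≤ R := by exact_mod_cast hR0
    have hnu : (nu K Δ α : ℝ) ≤ (2 * K / q + 1) * (2 * (q * Δ + 1 / 4) + 1) := by
      have h14 : (nu K Δ α : ℝ) ≤ (((2 * K / q : ℕ) : ℝ) + 1) * (((R + 1 - -R).toNat : ℕ) : ℝ) := by
        exact_mod_cast hcard
      rw [h12] at h14
      refine le_trans h14 ?_
      apply mul_le_mul
      · linarith
      · linarith
      · linarith
      · positivity
    have hexp : (2 * (K : ℝ) / q + 1) * (2 * (q * Δ + 1 / 4) + 1) =
        4 * (K * Δ) + 3 * (K / q) + 2 * (q * Δ) + 3 / 2 := by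
      field_simp
      ring
    rw [hexp] at hnu
    have h15 : (K : ℝ) * Δ ≤ K / Q / 8 := by
      have : Δ ≤ 1 / 8 / Q := by rw [le_div_iff₀ hQ0]; exact hΔ
      calc (K : ℝ) * Δ ≤ K * (1 / 8 / Q) := mul_le_mul_of_nonneg_left this (by linarith)
        _ = K / Q / 8 := by ring
    have h16 : (K : ℝ) / q ≤ K / Q := div_le_div_of_nonneg_left (by linarith) hQ0 hqQR
    have h17 : (q : ℝ) * Δ ≤ 4 * (K * Δ) := by nlinarith
    have : 100 * (K : ℝ) / Q = 100 * (K / Q) := by ring
    rw [this]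
    linarith

end Pool.Agent.H442R2.EHI
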