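import Mathlib
import Pool.Agent.H43.G.R_seed8.H442R2.EHI.Defs

/-!
Task T9 (helper793): bounds for the primes minus the model.
-/

set_option autoImplicit false

namespace Pool.Agent.H442R2.EHI

open Finset
open Pool.Agent.H469R2.NK (e)

namespace Bd

open Pool.Agent.H469R2.NK

theorem cq_norm' (q n : ℕ) : ‖cq q n‖ ≤ (Nat.totient q : ℝ) := by
  unfold cq
  refine (norm_sum_le _ _).trans ?_
  simp only [norm_e]
  rw [sum_const, nsmul_eq_mul, mul_one]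
  have h : ((range q).filter (fun b => b.Coprime q)).card = Nat.totient q := by
    rw [Nat.totient_eq_card_coprime]
    congr 1
    ext b
    simp only [mem_filter, Nat.coprime_comm]
  rw [h]

theorem mu_norm_le (q : ℕ) : ‖((ArithmeticFunction.moebius q : ℤ) : ℂ)‖ ≤ 1 := by
  rw [Complex.norm_intCast]
  exact_mod_cast ArithmeticFunction.abs_moebius_le_one

theorem gg_norm (Q n : ℕ) : ‖gg Q n‖ ≤ Q := by
  unfold gg
  refine (norm_sum_le _ _).trans ?_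
  have h : ∀ q ∈ Icc 1 Q, ‖(((ArithmeticFunction.moebius q : ℤ) : ℂ) / (Nat.totient q : ℂ)) *
      cq q n‖ ≤ 1 := by
    intro q hq
    rw [mem_Icc] at hq
    have hφ : 0 < (Nat.totient q : ℝ) := by
      exact_mod_cast Nat.totient_pos.mpr (by omega)
    rw [norm_mul, norm_div, Complex.norm_natCast]
    calc ‖((ArithmeticFunction.moebius q : ℤ) : ℂ)‖ / (Nat.totient q : ℝ) * ‖cq q n‖
        ≤ 1 / (Nat.totient q : ℝ) * (Nat.totient q : ℝ) := by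
          apply mul_le_mul _ (cq_norm' q n) (norm_nonneg _) (by positivity)
          exact div_le_div_of_nonneg_right (mu_norm_le q) hφ.le
      _ = 1 := by field_simp
  refine (sum_le_sum h).trans ?_
  rw [sum_const, nsmul_eq_mul, mul_one, Nat.card_Icc, Nat.add_sub_cancel]

theorem inv_log_le (n : ℕ) (hn : 2 ≤ n) : 1 / Real.log n ≤ 2 := by
  have h2 : (1 / 2 : ℝ) ≤ Real.log 2 := by
    have := Real.log_two_gt_d9
    linarith
  have h3 : Real.log 2 ≤ Real.log n := by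
    apply Real.log_le_log (by norm_num)
    exact_mod_cast hn
  rw [div_le_iff₀ (by linarith)]
  linarith

theorem gl_norm (Q n : ℕ) (hn : 2 ≤ n) : ‖gg Q n / (Real.log n : ℂ)‖ ≤ 2 * ‖gg Q n‖ := by
  have h := inv_log_le n hn
  have h0 : 0 ≤ Real.log n := Real.log_nonneg (by exact_mod_cast (by omega : 1 ≤ n))
  rw [norm_div, Complex.norm_real, Real.norm_eq_abs, abs_of_nonneg h0, div_eq_mul_one_div,
    mul_comm]
  exact mul_le_mul_of_nonneg_right h (norm_nonneg _)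

end Bd

/-- T9 (Bounds.lean). -/
theorem ff_bound (x Q n : ℕ) : ‖ff x Q n‖ ≤ 1 + 2 * (Q : ℝ) ^ 2 := by
  unfold ff
  split_ifs with h
  all_goals try rw [norm_zero]; positivity
  all_goals
    have h1 := Bd.gl_norm Q n h.1
    have h2 := Bd.gg_norm Q n
    have h3 : (Q : ℝ) ≤ (Q : ℝ) ^ 2 := by
      have : Q ≤ Q ^ 2 := Nat.le_self_pow (by norm_num) Q
      exact_mod_cast this
  · calc ‖(1 : ℂ) - gg Q n / (Real.log n : ℂ)‖ ≤ ‖(1 : ℂ)‖ + ‖gg Q n / (Real.log n : ℂ)‖ :=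
          norm_sub_le _ _
      _ ≤ 1 + 2 * (Q : ℝ) ^ 2 := by
        rw [norm_one]
        linarith
  · calc ‖(0 : ℂ) - gg Q n / (Real.log n : ℂ)‖ ≤ ‖(0 : ℂ)‖ + ‖gg Q n / (Real.log n : ℂ)‖ :=
          norm_sub_le _ _
      _ ≤ 1 + 2 * (Q : ℝ) ^ 2 := by
        rw [norm_zero]
        linarith

namespace Bd

open Pool.Agent.H469R2.NK

theorem geo_tel (δ : ℝ) (x : ℕ) :
    (∑ n ∈ Icc 1 x, e (δ * n)) * (1 - e δ) = e δ - e (δ * ((x : ℝ) + 1)) := by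
  induction x with
  | zero => simp
  | succ x ih =>
    rw [sum_Icc_succ_top (by omega), add_mul, ih]
    have h : e (δ * (((x + 1 : ℕ) : ℝ) + 1)) = e (δ * ((x + 1 : ℕ) : ℝ)) * e δ := by
      rw [← e_add]
      congr 1
      ring
    rw [h]
    push_cast
    ring

theorem geo (δ θ : ℝ) (hθ : 0 < θ) (h0 : θ ≤ δ) (h1 : δ ≤ 1 - θ) (x : ℕ) :
    ‖∑ n ∈ Icc 1 x, e (δ * n)‖ ≤ 1 + 1 / (2 * θ) := by
  have hs := sin_ge hθ h0 h1
  have h2 := cc_mul (δ := δ) (by linarith)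
  have h3 : ∑ n ∈ Icc 1 x, e (δ * n) = cc δ * (e δ - e (δ * ((x : ℝ) + 1))) := by
    rw [← geo_tel]
    linear_combination (-(∑ n ∈ Icc 1 x, e (δ * n))) * h2
  rw [h3, norm_mul]
  have h4 : ‖e δ - e (δ * ((x : ℝ) + 1))‖ ≤ 2 := by
    refine (norm_sub_le _ _).trans ?_
    rw [norm_e, norm_e]
    norm_num
  have h5 := norm_cc_le hθ h0 h1
  calc ‖cc δ‖ * ‖e δ - e (δ * ((x : ℝ) + 1))‖ ≤ (1 / 2 + 1 / (4 * θ)) * 2 := by
        apply mul_le_mul h5 h4 (norm_nonneg _)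
        positivity
    _ = 1 + 1 / (2 * θ) := by
        field_simp
        ring

theorem geo' (δ θ : ℝ) (hθ : 0 < θ) (h0 : θ ≤ |δ|) (h1 : |δ| ≤ 1 - θ) (x : ℕ) :
    ‖∑ n ∈ Icc 1 x, e (δ * n)‖ ≤ 1 + 1 / (2 * θ) := by
  rcases le_total 0 δ with h | h
  · rw [abs_of_nonneg h] at h0 h1
    exact geo δ θ hθ h0 h1 x
  · rw [abs_of_nonpos h] at h0 h1
    have h2 := geo (-δ) θ hθ h0 h1 x
    have h3 : ∑ n ∈ Icc 1 x, e (-δ * n) = (starRingEnd ℂ) (∑ n ∈ Icc 1 x, e (δ * n)) := by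
      rw [map_sum]
      refine sum_congr rfl fun n _ => ?_
      rw [conj_e]
      congr 1
      ring
    rw [h3] at h2
    rwa [RCLike.norm_conj] at h2

/-- index set of the reduced fractions of denominator at most `Q` -/
def PQ (Q : ℕ) : Finset (Σ _ : ℕ, ℕ) :=
  (Icc 1 Q).sigma (fun q => (range q).filter (fun b => b.Coprime q))

/-- weights -/
noncomputable def wt (q : ℕ) : ℝ := ((ArithmeticFunction.moebius q : ℤ) : ℝ) / (Nat.totient q : ℝ)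

theorem wt_abs (q : ℕ) (hq : 1 ≤ q) : |wt q| ≤ 1 / (Nat.totient q : ℝ) := by
  have hφ : 0 < (Nat.totient q : ℝ) := by
    exact_mod_cast Nat.totient_pos.mpr (by omega)
  unfold wt
  rw [abs_div, abs_of_pos hφ]
  apply div_le_div_of_nonneg_right _ hφ.le
  exact_mod_cast ArithmeticFunction.abs_moebius_le_one

theorem wt_abs_one (q : ℕ) (hq : 1 ≤ q) : |wt q| ≤ 1 := by
  refine (wt_abs q hq).trans ?_
  have hφ : 1 ≤ (Nat.totient q : ℝ) := by
    exact_mod_cast Nat.totient_pos.mpr (by omega)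
  rw [div_le_one (by linarith)]
  exact hφ

theorem gg_eq (Q n : ℕ) :
    gg Q n = ∑ z ∈ PQ Q, ((wt z.1 : ℝ) : ℂ) * e (((z.2 : ℝ) / z.1) * n) := by
  unfold gg PQ
  rw [sum_sigma]
  refine sum_congr rfl fun q _ => ?_
  unfold cq wt
  rw [mul_sum]
  refine sum_congr rfl fun b _ => ?_
  congr 1
  · push_cast
    rfl
  · congr 1
    ring

theorem gg_sq (Q n : ℕ) :
    ((‖gg Q n‖ ^ 2 : ℝ) : ℂ) = ∑ z ∈ PQ Q, ∑ z' ∈ PQ Q,
      ((wt z.1 * wt z'.1 : ℝ) : ℂ) * e (((z.2 : ℝ) / z.1 - (z'.2 : ℝ) / z'.1) * n) := by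
  have h1 : ((‖gg Q n‖ ^ 2 : ℝ) : ℂ) = gg Q n * (starRingEnd ℂ) (gg Q n) := by
    rw [Complex.mul_conj, Complex.normSq_eq_norm_sq]
  rw [h1, gg_eq, map_sum, sum_mul_sum]
  refine sum_congr rfl fun z _ => sum_congr rfl fun z' _ => ?_
  rw [map_mul, Complex.conj_ofReal, conj_e, sub_mul, sub_eq_add_neg, e_add]
  push_cast
  ring

theorem gg_sq_sum (Q x : ℕ) :
    ∑ n ∈ Icc 1 x, ‖gg Q n‖ ^ 2 ≤ ∑ z ∈ PQ Q, ∑ z' ∈ PQ Q,
      (|wt z.1| * |wt z'.1|) * ‖∑ n ∈ Icc 1 x, e (((z.2 : ℝ) / z.1 - (z'.2 : ℝ) / z'.1) * n)‖ := by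
  have h1 : ((∑ n ∈ Icc 1 x, ‖gg Q n‖ ^ 2 : ℝ) : ℂ) = ∑ z ∈ PQ Q, ∑ z' ∈ PQ Q,
      ((wt z.1 * wt z'.1 : ℝ) : ℂ) *
        ∑ n ∈ Icc 1 x, e (((z.2 : ℝ) / z.1 - (z'.2 : ℝ) / z'.1) * n) := by
    rw [Complex.ofReal_sum]
    rw [sum_congr rfl (fun n _ => gg_sq Q n), sum_comm]
    refine sum_congr rfl fun z _ => ?_
    rw [sum_comm]
    refine sum_congr rfl fun z' _ => ?_
    rw [mul_sum]
  have h0 : 0 ≤ ∑ n ∈ Icc 1 x, ‖gg Q n‖ ^ 2 := sum_nonneg fun n _ => by positivity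
  have h2 : ∑ n ∈ Icc 1 x, ‖gg Q n‖ ^ 2 = ‖((∑ n ∈ Icc 1 x, ‖gg Q n‖ ^ 2 : ℝ) : ℂ)‖ := by
    rw [Complex.norm_real, Real.norm_eq_abs, abs_of_nonneg h0]
  rw [h2, h1]
  refine (norm_sum_le _ _).trans (sum_le_sum fun z _ => ?_)
  refine (norm_sum_le _ _).trans (sum_le_sum fun z' _ => ?_)
  rw [norm_mul, Complex.norm_real, Real.norm_eq_abs, abs_mul]

theorem PQ_mem {Q : ℕ} {z : Σ _ : ℕ, ℕ} (h : z ∈ PQ Q) :
    1 ≤ z.1 ∧ z.1 ≤ Q ∧ z.2 < z.1 ∧ z.2.Coprime z.1 := by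
  unfold PQ at h
  rw [mem_sigma, mem_Icc, mem_filter, mem_range] at h
  exact ⟨h.1.1, h.1.2, h.2.1, h.2.2⟩

theorem PQ_card (Q : ℕ) : (PQ Q).card ≤ Q * Q := by
  unfold PQ
  rw [card_sigma]
  calc ∑ a ∈ Icc 1 Q, ((range a).filter (fun b => b.Coprime a)).card
      ≤ ∑ a ∈ Icc 1 Q, Q := by
        refine sum_le_sum fun a ha => ?_
        rw [mem_Icc] at ha
        refine (card_filter_le _ _).trans ?_
        rw [card_range]
        exact ha.2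
    _ = Q * Q := by
        rw [sum_const, Nat.card_Icc, Nat.add_sub_cancel, smul_eq_mul]

theorem PQ_ne {Q : ℕ} {z z' : Σ _ : ℕ, ℕ} (h : z ∈ PQ Q) (h' : z' ∈ PQ Q) (hne : z ≠ z') :
    z.2 * z'.1 ≠ z'.2 * z.1 := by
  obtain ⟨q, b⟩ := z
  obtain ⟨q', b'⟩ := z'
  have h1 := PQ_mem h
  have h1' := PQ_mem h'
  simp only at h1 h1'
  simp only
  intro heq
  apply hne
  have hd : q ∣ q' := by
    have : q ∣ b * q' := by
      rw [heq]
      exact Dvd.intro_left b' rfl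
    exact h1.2.2.2.symm.dvd_of_dvd_mul_left this
  have hd' : q' ∣ q := by
    have : q' ∣ b' * q := by
      rw [← heq]
      exact Dvd.intro_left b rfl
    exact h1'.2.2.2.symm.dvd_of_dvd_mul_left this
  have hqq : q = q' := Nat.dvd_antisymm hd hd'
  subst hqq
  have hb : b = b' := Nat.eq_of_mul_eq_mul_right (by omega) heq
  subst hb
  rfl

theorem PQ_gap {Q : ℕ} {z z' : Σ _ : ℕ, ℕ} (h : z ∈ PQ Q) (h' : z' ∈ PQ Q) (hne : z ≠ z') :
    1 / ((Q : ℝ) ^ 2) ≤ |(z.2 : ℝ) / z.1 - (z'.2 : ℝ) / z'.1| ∧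
      |(z.2 : ℝ) / z.1 - (z'.2 : ℝ) / z'.1| ≤ 1 - 1 / ((Q : ℝ) ^ 2) := by
  have h0 := PQ_ne h h' hne
  obtain ⟨q, b⟩ := z
  obtain ⟨q', b'⟩ := z'
  have h1 := PQ_mem h
  have h1' := PQ_mem h'
  simp only at h1 h1' h0
  simp only
  have hq : (1 : ℝ) ≤ q := by exact_mod_cast h1.1
  have hq' : (1 : ℝ) ≤ q' := by exact_mod_cast h1'.1
  have hQ : (q : ℝ) ≤ Q := by exact_mod_cast h1.2.1
  have hQ' : (q' : ℝ) ≤ Q := by exact_mod_cast h1'.2.1
  have hQ1 : (1 : ℝ) ≤ Q := hq.trans hQ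
  have hb : (b : ℝ) + 1 ≤ q := by exact_mod_cast h1.2.2.1
  have hb' : (b' : ℝ) + 1 ≤ q' := by exact_mod_cast h1'.2.2.1
  have hb0 : (0 : ℝ) ≤ b := Nat.cast_nonneg b
  have hb0' : (0 : ℝ) ≤ b' := Nat.cast_nonneg b'
  have e1 : (b : ℝ) / q - (b' : ℝ) / q' = (b * q' - b' * q) / (q * q') := by
    field_simp
  constructor
  · rw [e1, abs_div, abs_of_pos (by positivity : (0 : ℝ) < q * q')]
    have h3 : (1 : ℝ) ≤ |(b : ℝ) * q' - b' * q| := by
      have h4 : ((b : ℤ) * q' - b' * q) ≠ 0 := by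
        intro h5
        apply h0
        have : (b : ℤ) * q' = b' * q := by linarith
        exact_mod_cast this
      have h5 := Int.one_le_abs h4
      have h6 : ((1 : ℤ) : ℝ) ≤ ((|(b : ℤ) * q' - b' * q| : ℤ) : ℝ) := by exact_mod_cast h5
      push_cast at h6
      exact h6
    calc 1 / ((Q : ℝ) ^ 2) ≤ 1 / (q * q') := by
          apply one_div_le_one_div_of_le (by positivity)
          nlinarith
      _ ≤ |(b : ℝ) * q' - b' * q| / (q * q') := by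
          apply div_le_div_of_nonneg_right h3
          positivity
  · have hA : ∀ (b q : ℝ), 0 ≤ b → b + 1 ≤ q → 1 ≤ q → q ≤ Q →
        0 ≤ b / q ∧ b / q ≤ 1 - 1 / ((Q : ℝ) ^ 2) := by
      intro b q hb0 hb hq hQ
      refine ⟨by positivity, ?_⟩
      have h3 : 1 / ((Q : ℝ) ^ 2) ≤ 1 / q := by
        apply one_div_le_one_div_of_le (by linarith)
        nlinarith
      have h4 : b / q ≤ 1 - 1 / q := by
        rw [div_le_iff₀ (by linarith), sub_mul, one_mul, one_div, inv_mul_cancel₀ (by linarith)]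
        linarith
      linarith
    have h3 := hA b q hb0 hb hq hQ
    have h3' := hA b' q' hb0' hb' hq' hQ'
    rw [abs_le]
    constructor <;> linarith [h3.1, h3.2, h3'.1, h3'.2]

theorem off_diag {Q : ℕ} {z z' : Σ _ : ℕ, ℕ} (h : z ∈ PQ Q) (h' : z' ∈ PQ Q) (hne : z ≠ z')
    (x : ℕ) : ‖∑ n ∈ Icc 1 x, e (((z.2 : ℝ) / z.1 - (z'.2 : ℝ) / z'.1) * n)‖ ≤
      2 * (Q : ℝ) ^ 2 := by
  have hQ1 : (1 : ℝ) ≤ Q := by
    have := PQ_mem h
    exact_mod_cast this.1.trans this.2.1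
  obtain ⟨h1, h2⟩ := PQ_gap h h' hne
  refine (geo' _ _ (by positivity) h1 h2 x).trans ?_
  have h3 : 1 / (2 * (1 / (Q : ℝ) ^ 2)) = (Q : ℝ) ^ 2 / 2 := by
    field_simp
  rw [h3]
  nlinarith

theorem prod_ge (S : Finset ℕ) : (∀ p ∈ S, 2 ≤ p) →
    1 / ((S.card : ℝ) + 1) ≤ ∏ p ∈ S, (1 - (p : ℝ)⁻¹) := by
  induction S using Finset.induction_on_max with
  | empty => intro _; simp
  | insert a T hT ih =>
    intro h2
    have haT : a ∉ T := fun ha => lt_irrefl a (hT a ha)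
    have ih' := ih (fun p hp => h2 p (mem_insert_of_mem hp))
    rw [prod_insert haT, card_insert_of_notMem haT]
    have hcard : T.card + 2 ≤ a := by
      have hsub : T ⊆ Ico 2 a := by
        intro p hp
        rw [mem_Ico]
        exact ⟨h2 p (mem_insert_of_mem hp), hT p hp⟩
      have h3 := card_le_card hsub
      rw [Nat.card_Ico] at h3
      have h4 := h2 a (mem_insert_self a T)
      omega
    have hc : ((T.card : ℝ) + 2) ≤ a := by exact_mod_cast hcard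
    have hc0 : (0 : ℝ) ≤ T.card := Nat.cast_nonneg _
    have h5 : 1 - ((T.card : ℝ) + 2)⁻¹ ≤ 1 - (a : ℝ)⁻¹ := by
      have : (a : ℝ)⁻¹ ≤ ((T.card : ℝ) + 2)⁻¹ := by
        apply inv_anti₀ (by linarith) hc
      linarith
    have h6 : (0 : ℝ) ≤ 1 - ((T.card : ℝ) + 2)⁻¹ := by
      have : ((T.card : ℝ) + 2)⁻¹ ≤ 1 := by
        apply inv_le_one_of_one_le₀
        linarith
      linarith
    calc 1 / (((T.card + 1 : ℕ) : ℝ) + 1)
        = (1 - ((T.card : ℝ) + 2)⁻¹) * (1 / ((T.card : ℝ) + 1)) := by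
          push_cast
          field_simp
          ring
      _ ≤ (1 - (a : ℝ)⁻¹) * ∏ p ∈ T, (1 - (p : ℝ)⁻¹) := by
          apply mul_le_mul h5 ih' (by positivity) (h6.trans h5)

theorem inv_tot (q : ℕ) (hq : 1 ≤ q) :
    1 / (Nat.totient q : ℝ) ≤ 2 * (1 + Real.log q) / q := by
  have h1 : ((Nat.totient q : ℚ) : ℝ) = ((q * ∏ p ∈ q.primeFactors, (1 - (p : ℚ)⁻¹) : ℚ) : ℝ) := by
    rw [Nat.totient_eq_mul_prod_factors]
  push_cast at h1
  have h2 := prod_ge q.primeFactors (fun p hp => (Nat.prime_of_mem_primeFactors hp).two_le)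
  have hq' : (1 : ℝ) ≤ q := by exact_mod_cast hq
  have hlog : 0 ≤ Real.log q := Real.log_nonneg hq'
  have h3 : (q.primeFactors.card : ℝ) ≤ 2 * Real.log q := by
    have h4 : 2 ^ q.primeFactors.card ≤ q := by
      calc 2 ^ q.primeFactors.card ≤ ∏ p ∈ q.primeFactors, p := by
            apply Finset.pow_card_le_prod
            intro p hp
            exact (Nat.prime_of_mem_primeFactors hp).two_le
        _ ≤ q := Nat.le_of_dvd (by omega) (Nat.prod_primeFactors_dvd q)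
    have h5 : ((2 : ℝ) ^ q.primeFactors.card) ≤ q := by exact_mod_cast h4
    have h6 := Real.log_le_log (by positivity) h5
    rw [Real.log_pow] at h6
    have h7 := Real.log_two_gt_d9
    have h8 : (0 : ℝ) ≤ q.primeFactors.card := Nat.cast_nonneg _
    nlinarith
  have h4 : (q : ℝ) / (2 * (1 + Real.log q)) ≤ Nat.totient q := by
    rw [h1]
    calc (q : ℝ) / (2 * (1 + Real.log q)) ≤ q * (1 / ((q.primeFactors.card : ℝ) + 1)) := by
          rw [div_eq_mul_one_div]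
          apply mul_le_mul_of_nonneg_left _ (by linarith)
          apply one_div_le_one_div_of_le (by positivity)
          linarith
      _ ≤ _ := mul_le_mul_of_nonneg_left h2 (by linarith)
  have h5 : 0 < (q : ℝ) / (2 * (1 + Real.log q)) := by positivity
  calc 1 / (Nat.totient q : ℝ) ≤ 1 / ((q : ℝ) / (2 * (1 + Real.log q))) :=
        one_div_le_one_div_of_le h5 h4
    _ = 2 * (1 + Real.log q) / q := by
        rw [one_div_div]

theorem sum_inv_tot (Q : ℕ) (hQ : 1 ≤ Q) :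
    ∑ q ∈ Icc 1 Q, 1 / (Nat.totient q : ℝ) ≤ 2 * (1 + Real.log Q) ^ 2 := by
  have hQ' : (1 : ℝ) ≤ Q := by exact_mod_cast hQ
  have hlog : 0 ≤ Real.log Q := Real.log_nonneg hQ'
  have h1 : ∀ q ∈ Icc 1 Q, 1 / (Nat.totient q : ℝ) ≤ 2 * (1 + Real.log Q) * (q : ℝ)⁻¹ := by
    intro q hq
    rw [mem_Icc] at hq
    refine (inv_tot q hq.1).trans ?_
    rw [div_eq_mul_inv]
    apply mul_le_mul_of_nonneg_right _ (by positivity)
    have h2 : Real.log q ≤ Real.log Q := by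
      apply Real.log_le_log
      · exact_mod_cast hq.1
      · exact_mod_cast hq.2
    linarith
  refine (sum_le_sum h1).trans ?_
  rw [← mul_sum]
  have h2 := harmonic_le_one_add_log Q
  rw [harmonic_eq_sum_Icc] at h2
  push_cast at h2
  calc 2 * (1 + Real.log Q) * ∑ q ∈ Icc 1 Q, (q : ℝ)⁻¹
      ≤ 2 * (1 + Real.log Q) * (1 + Real.log Q) := by
        apply mul_le_mul_of_nonneg_left h2
        linarith
    _ = 2 * (1 + Real.log Q) ^ 2 := by ring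

theorem diag_sum (Q : ℕ) (hQ : 1 ≤ Q) :
    ∑ z ∈ PQ Q, |wt z.1| * |wt z.1| ≤ 2 * (1 + Real.log Q) ^ 2 := by
  refine le_trans ?_ (sum_inv_tot Q hQ)
  unfold PQ
  rw [sum_sigma]
  refine sum_le_sum fun q hq => ?_
  rw [mem_Icc] at hq
  have hφ : 0 < (Nat.totient q : ℝ) := by
    exact_mod_cast Nat.totient_pos.mpr (by omega)
  simp only
  rw [sum_const, nsmul_eq_mul]
  have h : ((range q).filter (fun b => b.Coprime q)).card = Nat.totient q := by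
    rw [Nat.totient_eq_card_coprime]
    congr 1
    ext b
    simp only [mem_filter, Nat.coprime_comm]
  rw [h]
  have h2 := wt_abs q hq.1
  calc (Nat.totient q : ℝ) * (|wt q| * |wt q|)
      ≤ (Nat.totient q : ℝ) * (1 / (Nat.totient q : ℝ) * (1 / (Nat.totient q : ℝ))) := by
        apply mul_le_mul_of_nonneg_left _ hφ.le
        exact mul_le_mul h2 h2 (abs_nonneg _) (by positivity)
    _ = 1 / (Nat.totient q : ℝ) := by
        field_simp

theorem gg_l2 (x Q : ℕ) (hQ : 1 ≤ Q) :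
    ∑ n ∈ Icc 1 x, ‖gg Q n‖ ^ 2 ≤ 2 * (x * (1 + Real.log Q) ^ 2 + (Q : ℝ) ^ 8) := by
  classical
  refine (gg_sq_sum Q x).trans ?_
  have hQ' : (1 : ℝ) ≤ Q := by exact_mod_cast hQ
  have h1 : ∀ z ∈ PQ Q, ∀ z' ∈ PQ Q, (|wt z.1| * |wt z'.1|) *
      ‖∑ n ∈ Icc 1 x, e (((z.2 : ℝ) / z.1 - (z'.2 : ℝ) / z'.1) * n)‖ ≤
      (if z = z' then (|wt z.1| * |wt z.1|) * x else 0) + 2 * (Q : ℝ) ^ 2 := by
    intro z hz z' hz'
    by_cases hne : z = z'
    · subst hne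
      rw [if_pos rfl, sub_self]
      simp only [zero_mul, e_zero, sum_const, nsmul_eq_mul, mul_one, Nat.card_Icc,
        Nat.add_sub_cancel, Complex.norm_natCast]
      have : (0 : ℝ) ≤ 2 * (Q : ℝ) ^ 2 := by positivity
      linarith
    · rw [if_neg hne, zero_add]
      have h2 := off_diag hz hz' hne x
      have h3 := wt_abs_one z.1 (PQ_mem hz).1
      have h4 := wt_abs_one z'.1 (PQ_mem hz').1
      calc (|wt z.1| * |wt z'.1|) *
          ‖∑ n ∈ Icc 1 x, e (((z.2 : ℝ) / z.1 - (z'.2 : ℝ) / z'.1) * n)‖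
          ≤ (1 * 1) * (2 * (Q : ℝ) ^ 2) := by
            apply mul_le_mul _ h2 (norm_nonneg _) (by norm_num)
            exact mul_le_mul h3 h4 (abs_nonneg _) (by norm_num)
        _ = 2 * (Q : ℝ) ^ 2 := by ring
  refine (sum_le_sum fun z hz => sum_le_sum fun z' hz' => h1 z hz z' hz').trans ?_
  have h2 : ∀ z ∈ PQ Q, ∑ z' ∈ PQ Q, ((if z = z' then (|wt z.1| * |wt z.1|) * x else 0) +
      2 * (Q : ℝ) ^ 2) = (|wt z.1| * |wt z.1|) * x + (PQ Q).card * (2 * (Q : ℝ) ^ 2) := by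
    intro z hz
    rw [sum_add_distrib, sum_ite_eq, if_pos hz, sum_const, nsmul_eq_mul]
  rw [sum_congr rfl h2, sum_add_distrib, ← sum_mul, sum_const, nsmul_eq_mul]
  have h3 := diag_sum Q hQ
  have h4 : ((PQ Q).card : ℝ) ≤ (Q : ℝ) * Q := by exact_mod_cast PQ_card Q
  have hx : (0 : ℝ) ≤ x := Nat.cast_nonneg x
  have h5 : (∑ z ∈ PQ Q, |wt z.1| * |wt z.1|) * x ≤ 2 * (1 + Real.log Q) ^ 2 * x :=
    mul_le_mul_of_nonneg_right h3 hx
  have h6 : ((PQ Q).card : ℝ) * ((PQ Q).card * (2 * (Q : ℝ) ^ 2)) ≤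
      ((Q : ℝ) * Q) * (((Q : ℝ) * Q) * (2 * (Q : ℝ) ^ 2)) := by
    apply mul_le_mul h4 _ (by positivity) (by positivity)
    apply mul_le_mul_of_nonneg_right h4 (by positivity)
  have h7 : ((Q : ℝ) * Q) * (((Q : ℝ) * Q) * (2 * (Q : ℝ) ^ 2)) = 2 * (Q : ℝ) ^ 6 := by ring
  have h8 : (Q : ℝ) ^ 6 ≤ (Q : ℝ) ^ 8 := pow_le_pow_right₀ hQ' (by norm_num)
  linarith

theorem ff_sq_le (x Q n : ℕ) : ‖ff x Q n‖ ^ 2 ≤ 2 + 8 * ‖gg Q n‖ ^ 2 := by
  have h0 : 0 ≤ ‖gg Q n‖ := norm_nonneg _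
  have key : ‖ff x Q n‖ ≤ 1 + 2 * ‖gg Q n‖ := by
    unfold ff
    split_ifs with h
    all_goals try rw [norm_zero]; positivity
    all_goals
      have h1 := Bd.gl_norm Q n h.1
    · calc ‖(1 : ℂ) - gg Q n / (Real.log n : ℂ)‖ ≤ ‖(1 : ℂ)‖ + ‖gg Q n / (Real.log n : ℂ)‖ :=
            norm_sub_le _ _
        _ ≤ 1 + 2 * ‖gg Q n‖ := by
          rw [norm_one]
          linarith
    · calc ‖(0 : ℂ) - gg Q n / (Real.log n : ℂ)‖ ≤ ‖(0 : ℂ)‖ + ‖gg Q n / (Real.log n : ℂ)‖ :=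
            norm_sub_le _ _
        _ ≤ 1 + 2 * ‖gg Q n‖ := by
          rw [norm_zero]
          linarith
  have h2 : ‖ff x Q n‖ ^ 2 ≤ (1 + 2 * ‖gg Q n‖) ^ 2 :=
    pow_le_pow_left₀ (norm_nonneg _) key 2
  nlinarith [sq_nonneg (1 - 2 * ‖gg Q n‖)]

end Bd

/-- T9 (Bounds.lean). -/
theorem ff_sq : ∃ C : ℝ, ∀ x Q : ℕ, 1 ≤ x → 1 ≤ Q →
    ∑ n ∈ Icc 1 x, ‖ff x Q n‖ ^ 2 ≤ C * (x * (1 + Real.log Q) ^ 2 + (Q : ℝ) ^ 8) := by
  refine ⟨18, fun x Q _ hQ => ?_⟩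
  have h1 := Bd.gg_l2 x Q hQ
  have h2 : ∑ n ∈ Icc 1 x, ‖ff x Q n‖ ^ 2 ≤ ∑ n ∈ Icc 1 x, (2 + 8 * ‖gg Q n‖ ^ 2) :=
    sum_le_sum fun n _ => Bd.ff_sq_le x Q n
  rw [sum_add_distrib, ← mul_sum, sum_const, nsmul_eq_mul, Nat.card_Icc, Nat.add_sub_cancel] at h2
  have hx : (0 : ℝ) ≤ x := Nat.cast_nonneg x
  have hQ' : (1 : ℝ) ≤ Q := by exact_mod_cast hQ
  have hlog : 0 ≤ Real.log Q := Real.log_nonneg hQ'
  have h3 : (x : ℝ) ≤ x * (1 + Real.log Q) ^ 2 := by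
    have : (1 : ℝ) ≤ (1 + Real.log Q) ^ 2 := by nlinarith
    nlinarith
  have h4 : (0 : ℝ) ≤ (Q : ℝ) ^ 8 := by positivity
  linarith

end Pool.Agent.H442R2.EHI
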