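import Pool.Agent.H43.G.R_seed8.H442R2.EHI.Defs
import Pool.Agent.H43.G.R_seed8.H442R2.EHI.Ram
import Pool.Agent.H43.G.R_seed8.H442R2.EHI.PntErr
import Pool.Agent.H43.G.R_seed8.H442R2.EHI.Bounds
import Pool.Agent.H43.G.R_seed8.H343R2.EH.Psi
import Pool.Agent.H43.G.R_seed8.H343R2.EH.Primes

/-!
T8 of the EHI project (helper442), by helper483: the Fourier transform of `ff` (primes minus the
truncated Ramanujan model) is small near rationals with small denominator.
-/

namespace Pool.Agent.H442R2.EHI.Four8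

open Finset
open Pool.Agent.H469R2.NK (e norm_e e_add e_zero e_nat)
open Pool.Agent.H442R2.EHI

lemma e_int (m : ℤ) : e m = 1 := by
  unfold e
  rw [Complex.exp_eq_one_iff]
  exact ⟨m, by push_cast; ring⟩

lemma e_add_int (t : ℝ) (m : ℤ) : e (t + m) = e t := by
  rw [e_add, e_int, mul_one]

lemma e_eq_of {s t : ℝ} (m : ℤ) (h : s = t + m) : e s = e t := by
  rw [h, e_add_int]

lemma e_nsmul (n : ℕ) (t : ℝ) : e (n * t) = e t ^ n := by
  unfold e
  rw [← Complex.exp_nat_mul]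
  congr 1
  push_cast
  ring

lemma norm_e_sub_one (t : ℝ) : ‖e t - 1‖ = 2 * |Real.sin (Real.pi * t)| := by
  have h := Complex.norm_exp_I_mul_ofReal_sub_one (2 * Real.pi * t)
  unfold e
  rw [mul_comm] at h
  rw [h, norm_mul]
  have h2 : 2 * Real.pi * t / 2 = Real.pi * t := by ring
  rw [h2]
  simp

lemma norm_e_sub_one_le (t : ℝ) : ‖e t - 1‖ ≤ 2 * Real.pi * |t| := by
  rw [norm_e_sub_one]
  have h := Real.abs_sin_le_abs (x := Real.pi * t)
  rw [abs_mul, abs_of_pos Real.pi_pos] at h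
  linarith

/-- `|e(t) - 1| ≥ 4 ‖t‖` -/
lemma norm_e_sub_one_ge {t δ : ℝ} (_hδ : 0 ≤ δ) (h : ∀ m : ℤ, δ ≤ |t - m|) : 4 * δ ≤ ‖e t - 1‖ := by
  set s : ℝ := t - round t with hs
  have hst : e t = e s := e_eq_of (round t) (by rw [hs]; ring)
  rw [hst, norm_e_sub_one]
  have h1 : |s| ≤ 1 / 2 := abs_sub_round t
  have h2 : δ ≤ |s| := h (round t)
  have h3 : |Real.sin (Real.pi * s)| = Real.sin (Real.pi * |s|) := by
    have hp := Real.pi_pos
    rcases le_or_gt 0 s with h0 | h0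
    · rw [abs_of_nonneg h0, abs_of_nonneg]
      apply Real.sin_nonneg_of_nonneg_of_le_pi (by positivity)
      rw [abs_of_nonneg h0] at h1
      nlinarith
    · rw [abs_of_neg h0, mul_neg, Real.sin_neg, abs_of_nonpos]
      rw [abs_of_neg h0] at h1
      have : 0 ≤ Real.sin (Real.pi * (-s)) := by
        apply Real.sin_nonneg_of_nonneg_of_le_pi
        · nlinarith
        · nlinarith
      rw [mul_neg, Real.sin_neg] at this
      linarith
  rw [h3]
  have h4 := Real.mul_le_sin (x := Real.pi * |s|) (by positivity) (by nlinarith [Real.pi_pos])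
  have h5 : 2 / Real.pi * (Real.pi * |s|) = 2 * |s| := by
    field_simp
  rw [h5] at h4
  linarith

/-- Abel summation: decreasing weights against a geometric sequence. -/
lemma geom_weight (w : ℕ → ℝ) (hw0 : ∀ n, 2 ≤ n → 0 ≤ w n)
    (hw : ∀ n, 2 ≤ n → w (n + 1) ≤ w n) (z : ℂ) (hz : ‖z‖ = 1) (y : ℕ) (hy : 2 ≤ y) :
    ‖(z - 1) * ∑ n ∈ Icc 2 y, (w n : ℂ) * z ^ n - (w y : ℂ) * z ^ (y + 1)‖ ≤ 2 * w 2 - w y := by
  induction y, hy using Nat.le_induction with
  | base =>
    rw [Icc_self, sum_singleton]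
    have h : (z - 1) * ((w 2 : ℂ) * z ^ 2) - (w 2 : ℂ) * z ^ (2 + 1) = -((w 2 : ℂ) * z ^ 2) := by ring
    rw [h, norm_neg, norm_mul, norm_pow, hz, Complex.norm_real, Real.norm_of_nonneg (hw0 2 le_rfl)]
    linarith
  | succ y hy ih =>
    rw [sum_Icc_succ_top (by omega)]
    have h : (z - 1) * (∑ n ∈ Icc 2 y, (w n : ℂ) * z ^ n + (w (y + 1) : ℂ) * z ^ (y + 1)) -
        (w (y + 1) : ℂ) * z ^ (y + 1 + 1) =
        ((z - 1) * ∑ n ∈ Icc 2 y, (w n : ℂ) * z ^ n - (w y : ℂ) * z ^ (y + 1)) +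
        (((w y - w (y + 1) : ℝ) : ℂ)) * z ^ (y + 1) := by
      push_cast
      ring
    rw [h]
    refine (norm_add_le _ _).trans ?_
    have h2 : ‖(((w y - w (y + 1) : ℝ) : ℂ)) * z ^ (y + 1)‖ = w y - w (y + 1) := by
      rw [norm_mul, norm_pow, hz, one_pow, mul_one, Complex.norm_real, Real.norm_of_nonneg]
      linarith [hw y hy]
    rw [h2]
    linarith

/-- `∑_{2 ≤ n ≤ y} e(n α) / log n` -/
noncomputable def TT (y : ℕ) (α : ℝ) : ℂ := ∑ n ∈ Icc 2 y, ((1 / Real.log n : ℝ) : ℂ) * e (n * α)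

lemma TT_int (y : ℕ) (m : ℤ) : TT y m = (lis y : ℂ) := by
  unfold TT lis
  push_cast
  apply sum_congr rfl
  intro n _
  have : e ((n : ℝ) * (m : ℝ)) = 1 := by
    have := e_int ((n : ℤ) * m)
    push_cast at this
    exact this
  rw [this, mul_one]

lemma TT_bound (y Q : ℕ) (hQ : 1 ≤ Q) (α : ℝ) (h : ∀ m : ℤ, 1 / (Q : ℝ) ^ 2 ≤ |α - m|) :
    ‖TT y α‖ ≤ (Q : ℝ) ^ 2 := by
  have hQ0 : (0 : ℝ) < Q := by exact_mod_cast hQ
  rcases lt_or_ge y 2 with hy | hy
  · have : TT y α = 0 := by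
      unfold TT
      rw [Icc_eq_empty (by omega), sum_empty]
    rw [this, norm_zero]
    positivity
  have hlog2 := Real.log_two_gt_d9
  have h1 := geom_weight (fun n => 1 / Real.log n) (fun n hn => by
      have : 0 ≤ Real.log n := Real.log_natCast_nonneg n
      positivity) (fun n hn => by
      have h2 : (2 : ℝ) ≤ n := by exact_mod_cast hn
      have h3 : 0 < Real.log n := Real.log_pos (by linarith)
      apply one_div_le_one_div_of_le h3
      apply Real.log_le_log (by linarith)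
      push_cast
      linarith) (e α) (norm_e α) y hy
  have h2 : ∑ n ∈ Icc 2 y, ((1 / Real.log n : ℝ) : ℂ) * e α ^ n = TT y α := by
    unfold TT
    apply sum_congr rfl
    intro n _
    rw [e_nsmul]
  rw [h2] at h1
  have h3 : 0 < Real.log y := Real.log_pos (by exact_mod_cast hy)
  have h4 : ‖((1 / Real.log y : ℝ) : ℂ) * e α ^ (y + 1)‖ = 1 / Real.log y := by
    rw [norm_mul, norm_pow, norm_e, one_pow, mul_one, Complex.norm_real,
      Real.norm_of_nonneg (by positivity)]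
  have h5 : ‖(e α - 1) * TT y α‖ ≤ 2 * (1 / Real.log 2) := by
    have h6 : (e α - 1) * TT y α = ((e α - 1) * TT y α - ((1 / Real.log y : ℝ) : ℂ) * e α ^ (y + 1)) +
      ((1 / Real.log y : ℝ) : ℂ) * e α ^ (y + 1) := by ring
    rw [h6]
    refine (norm_add_le _ _).trans ?_
    rw [h4]
    have h7 := h1
    push_cast at h7
    norm_num at h7 ⊢
    linarith
  rw [norm_mul] at h5
  have h6 := norm_e_sub_one_ge (t := α) (δ := 1 / (Q : ℝ) ^ 2) (by positivity) h
  have h7 : 4 * (1 / (Q : ℝ) ^ 2) * ‖TT y α‖ ≤ 2 * (1 / Real.log 2) :=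
    (mul_le_mul_of_nonneg_right h6 (norm_nonneg _)).trans h5
  have h8 : 2 * (1 / Real.log 2) ≤ 4 := by
    have h9 : 1 / Real.log 2 ≤ 2 := by
      rw [div_le_iff₀ (by linarith)]
      linarith
    linarith
  have h9 : 4 * (1 / (Q : ℝ) ^ 2) * ‖TT y α‖ ≤ 4 := h7.trans h8
  rw [mul_one_div, div_mul_eq_mul_div, div_le_iff₀ (by positivity)] at h9
  linarith


lemma ev_log (k : ℕ) (c : ℝ) : ∃ x0 : ℕ, ∀ x : ℕ, x0 ≤ x → c * Real.log x ^ k ≤ √x := by
  have h1 : (fun x : ℝ => Real.log x ^ (k : ℝ)) =o[Filter.atTop] fun x : ℝ => x ^ (1 / 2 : ℝ) :=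
    isLittleO_log_rpow_rpow_atTop (k : ℝ) (by norm_num)
  have h2 : (fun x : ℝ => c * Real.log x ^ (k : ℝ)) =o[Filter.atTop] fun x : ℝ => x ^ (1 / 2 : ℝ) :=
    h1.const_mul_left c
  have h3 := (h2.comp_tendsto (tendsto_natCast_atTop_atTop (R := ℝ))).def (c := 1) one_pos
  rw [Filter.eventually_atTop] at h3
  obtain ⟨x0, hx0⟩ := h3
  refine ⟨x0, fun x hx => ?_⟩
  have h4 := hx0 x hx
  simp only [Function.comp, one_mul, Real.rpow_natCast] at h4
  have h5 : ‖(x : ℝ) ^ (1 / 2 : ℝ)‖ = √x := by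
    rw [Real.sqrt_eq_rpow, Real.norm_of_nonneg (by positivity)]
  rw [h5] at h4
  exact (le_abs_self _).trans h4

lemma ev_L (c : ℝ) : ∃ x0 : ℕ, ∀ x : ℕ, x0 ≤ x → c ≤ Real.log x := by
  have h := (Real.tendsto_log_atTop.comp (tendsto_natCast_atTop_atTop (R := ℝ))).eventually_ge_atTop c
  rw [Filter.eventually_atTop] at h
  obtain ⟨x0, hx0⟩ := h
  exact ⟨x0, fun x hx => hx0 x hx⟩

/-- Siegel-Walfisz, from helper343's unsmoothed theorem. -/
lemma sw (U K : ℕ) : ∃ y0 : ℕ, ∀ y : ℕ, y0 ≤ y → ∀ q : ℕ, 1 ≤ q → (q : ℝ) ≤ Real.log y ^ K →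
    ∀ c : ℕ, c < q → c.Coprime q →
    |H343E.piAP y q c - H343E.pi1 y / (Nat.totient q : ℝ)| ≤ y / Real.log y ^ U := by
  obtain ⟨B, x0, h0⟩ := H343E.primes_of U (H343E.unsmoothed (U + 2))
  obtain ⟨x1, h1⟩ := ev_log (2 * K + B) 1
  obtain ⟨x2, h2⟩ := ev_L 1
  refine ⟨max (max x0 x1) (max x2 1), fun y hy q hq hqy c hc hcop => ?_⟩
  have hy0 : x0 ≤ y := le_trans (le_trans (le_max_left _ _) (le_max_left _ _)) hy
  have hy1 : x1 ≤ y := le_trans (le_trans (le_max_right _ _) (le_max_left _ _)) hy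
  have hy2 : x2 ≤ y := le_trans (le_trans (le_max_left _ _) (le_max_right _ _)) hy
  have hy3 : 1 ≤ y := le_trans (le_trans (le_max_right _ _) (le_max_right _ _)) hy
  have hyR : (1 : ℝ) ≤ y := by exact_mod_cast hy3
  have hL := h2 y hy2
  have hL0 : 0 < Real.log y := by linarith
  have hA := h1 y hy1
  rw [one_mul, pow_add, pow_mul'] at hA
  have hsq : √(y : ℝ) ≤ y := by
    rw [Real.sqrt_le_left (by positivity)]
    nlinarith
  have hq1 : (1 : ℝ) ≤ q := by exact_mod_cast hq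
  have hD2 : (q : ℝ) ^ 2 ≤ 1 * y / Real.log y ^ B := by
    rw [le_div_iff₀ (by positivity), one_mul]
    refine le_trans ?_ (hA.trans hsq)
    gcongr
  have hD1 : (q : ℝ) ≤ y / Real.log y ^ B := by
    rw [one_mul] at hD2
    refine le_trans ?_ hD2
    nlinarith
  have h4 := h0 y hy0 1 le_rfl q hD1 hD2 (fun q' => if q' = q then {c} else ∅)
    ⟨fun q' a ha => by
      split_ifs at ha with hh
      · rw [mem_singleton] at ha
        rw [ha, hh]
        exact ⟨hc, hcop⟩
      · simp at ha, fun q' => by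
      split_ifs <;> simp⟩
  rw [one_mul] at h4
  refine le_trans ?_ h4
  have h5 := single_le_sum (f := fun q' => ∑ a ∈ (if q' = q then ({c} : Finset ℕ) else ∅),
    |H343E.piAP y q' a - H343E.pi1 y / (Nat.totient q' : ℝ)|)
    (s := Icc 1 q) (fun i _ => sum_nonneg (fun _ _ => abs_nonneg _)) (mem_Icc.2 ⟨hq, le_rfl⟩)
  refine le_trans (le_of_eq ?_) h5
  simp

/-- primes in a class which is not coprime to the modulus -/
lemma piAP_noncop (y q c : ℕ) (_hc : c < q) (h : ¬ c.Coprime q) : H343E.piAP y q c ≤ 1 := by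
  unfold H343E.piAP
  have : ((Icc 1 y).filter (fun p : ℕ => p.Prime ∧ p ≡ c [MOD q])).card ≤ 1 := by
    rw [card_le_one]
    have key : ∀ p : ℕ, p ∈ (Icc 1 y).filter (fun p : ℕ => p.Prime ∧ p ≡ c [MOD q]) →
        p = Nat.gcd c q := by
      intro p hp
      rw [mem_filter] at hp
      obtain ⟨_, hp, hpc⟩ := hp
      have h1 : Nat.gcd c q ∣ p := by
        have h2 : Nat.gcd c q ∣ q := Nat.gcd_dvd_right _ _
        have h3 : Nat.gcd c q ∣ c := Nat.gcd_dvd_left _ _
        exact (hpc.dvd_iff h2).2 h3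
      rcases (Nat.dvd_prime hp).1 h1 with h4 | h4
      · exact absurd h4 h
      · exact h4.symm
    intro p hp p' hp'
    rw [key p hp, key p' hp']
  exact_mod_cast this

lemma prime_part (y q : ℕ) (hq : 1 ≤ q) (n0 : ℕ) (δ : ℝ) (hδ : 0 ≤ δ)
    (hSW : ∀ c : ℕ, c < q → c.Coprime q →
      |H343E.piAP y q c - H343E.pi1 y / (Nat.totient q : ℝ)| ≤ δ) :
    ‖∑ p ∈ (Icc 1 y).filter (fun p : ℕ => p.Prime), e ((p : ℝ) * n0 / q) -
      ((H343E.pi1 y / (Nat.totient q : ℝ) : ℝ) : ℂ) * cq q n0‖ ≤ q * δ + q := by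
  have hq0 : (0 : ℝ) < q := by exact_mod_cast hq
  have h1 : ∑ p ∈ (Icc 1 y).filter (fun p : ℕ => p.Prime), e ((p : ℝ) * n0 / q) =
      ∑ c ∈ range q, ((H343E.piAP y q c : ℝ) : ℂ) * e ((c : ℝ) * n0 / q) := by
    rw [← sum_fiberwise_of_maps_to (s := (Icc 1 y).filter (fun p : ℕ => p.Prime)) (t := range q)
      (g := fun p => p % q) (fun p _ => mem_range.2 (Nat.mod_lt _ (by omega)))]
    apply sum_congr rfl
    intro c hc
    rw [mem_range] at hc
    have h2 : ((Icc 1 y).filter (fun p : ℕ => p.Prime)).filter (fun p => p % q = c) =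
        (Icc 1 y).filter (fun p : ℕ => p.Prime ∧ p ≡ c [MOD q]) := by
      rw [filter_filter]
      apply filter_congr
      intro p _
      unfold Nat.ModEq
      rw [Nat.mod_eq_of_lt hc]
    rw [h2]
    have h3 : ∀ p ∈ (Icc 1 y).filter (fun p : ℕ => p.Prime ∧ p ≡ c [MOD q]),
        e ((p : ℝ) * n0 / q) = e ((c : ℝ) * n0 / q) := by
      intro p hp
      rw [mem_filter] at hp
      have h4 : p % q = c := by
        have := hp.2.2
        unfold Nat.ModEq at this
        rwa [Nat.mod_eq_of_lt hc] at this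
      obtain ⟨k, hk⟩ : ∃ k : ℕ, p = c + q * k := by
        have := Nat.mod_add_div p q
        rw [h4] at this
        exact ⟨_, this.symm⟩
      apply e_eq_of ((k : ℤ) * n0)
      rw [hk]
      push_cast
      field_simp
    rw [sum_congr rfl h3, sum_const, nsmul_eq_mul]
    unfold H343E.piAP
    push_cast
    rfl
  have h2 : ((H343E.pi1 y / (Nat.totient q : ℝ) : ℝ) : ℂ) * cq q n0 =
      ∑ c ∈ range q, if c.Coprime q then
        ((H343E.pi1 y / (Nat.totient q : ℝ) : ℝ) : ℂ) * e ((c : ℝ) * n0 / q) else 0 := by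
    unfold cq
    rw [mul_sum, sum_filter]
  rw [h1, h2, ← sum_sub_distrib]
  refine (norm_sum_le _ _).trans ?_
  have h3 : ∀ c ∈ range q, ‖((H343E.piAP y q c : ℝ) : ℂ) * e ((c : ℝ) * n0 / q) -
      (if c.Coprime q then
        ((H343E.pi1 y / (Nat.totient q : ℝ) : ℝ) : ℂ) * e ((c : ℝ) * n0 / q) else 0)‖ ≤ δ + 1 := by
    intro c hc
    rw [mem_range] at hc
    split_ifs with h
    · rw [← sub_mul, norm_mul, norm_e, mul_one, ← Complex.ofReal_sub, Complex.norm_real,
        Real.norm_eq_abs]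
      linarith [hSW c hc h]
    · rw [sub_zero, norm_mul, norm_e, mul_one, Complex.norm_real, Real.norm_eq_abs]
      have h5 := piAP_noncop y q c hc h
      have h6 : 0 ≤ H343E.piAP y q c := by
        unfold H343E.piAP
        positivity
      rw [abs_of_nonneg h6]
      linarith
  refine (sum_le_sum h3).trans ?_
  rw [sum_const, card_range, nsmul_eq_mul]
  linarith

lemma model_part (y Q q : ℕ) (hq1 : 1 ≤ q) (hqQ : q ≤ Q) (n0 : ℕ) (hn0 : n0.Coprime q) :
    ‖∑ n ∈ Icc 2 y, (gg Q n / (Real.log n : ℂ)) * e ((n : ℝ) * (n0 / q)) -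
      (((ArithmeticFunction.moebius q : ℤ) : ℂ) / (Nat.totient q : ℂ)) * (lis y : ℂ)‖ ≤
      (Q : ℝ) ^ 3 := by
  have hq0 : (0 : ℝ) < q := by exact_mod_cast hq1
  have hQ1 : 1 ≤ Q := hq1.trans hqQ
  have hQ0 : (0 : ℝ) < Q := by exact_mod_cast hQ1
  -- the special residue
  set b0 : ℕ := (q - n0 % q) % q with hb0
  have hb0lt : b0 < q := Nat.mod_lt _ (by omega)
  have hb0d : q ∣ b0 + n0 := by
    have h1 : (b0 + n0) % q = 0 := by
      rw [hb0, Nat.add_mod, Nat.mod_mod, ← Nat.add_mod]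
      have h2 : n0 % q < q := Nat.mod_lt _ (by omega)
      have h3 := Nat.mod_add_div n0 q
      have h4 : q - n0 % q + n0 = q * (1 + n0 / q) := by
        rw [mul_add]
        omega
      rw [h4]
      exact Nat.mul_mod_right _ _
    exact Nat.dvd_of_mod_eq_zero h1
  have hb0c : b0.Coprime q := by
    have h1 : Nat.gcd b0 q ∣ n0 := by
      have h2 : Nat.gcd b0 q ∣ b0 + n0 := (Nat.gcd_dvd_right _ _).trans hb0d
      exact (Nat.dvd_add_right (Nat.gcd_dvd_left _ _)).1 h2
    have h2 : Nat.gcd b0 q ∣ Nat.gcd n0 q := Nat.dvd_gcd h1 (Nat.gcd_dvd_right _ _)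
    have h3 : Nat.gcd n0 q = 1 := hn0
    rw [h3] at h2
    exact Nat.dvd_one.1 h2
  -- rewriting the sum
  have h1 : ∑ n ∈ Icc 2 y, (gg Q n / (Real.log n : ℂ)) * e ((n : ℝ) * (n0 / q)) =
      ∑ q' ∈ Icc 1 Q, (((ArithmeticFunction.moebius q' : ℤ) : ℂ) / (Nat.totient q' : ℂ)) *
        ∑ b ∈ (range q').filter (fun b => b.Coprime q'), TT y ((b : ℝ) / q' + n0 / q) := by
    unfold gg cq TT
    simp_rw [sum_div, sum_mul, mul_sum]
    rw [sum_comm]
    apply sum_congr rfl
    intro q' hq'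
    rw [sum_comm]
    apply sum_congr rfl
    intro n hn
    rw [sum_div, sum_mul]
    apply sum_congr rfl
    intro b hb
    have h2 : (n : ℝ) * ((b : ℝ) / q' + n0 / q) = (b : ℝ) * n / q' + (n : ℝ) * (n0 / q) := by ring
    rw [h2, e_add]
    push_cast
    ring
  have h2 : (((ArithmeticFunction.moebius q : ℤ) : ℂ) / (Nat.totient q : ℂ)) * (lis y : ℂ) =
      ∑ q' ∈ Icc 1 Q, (((ArithmeticFunction.moebius q' : ℤ) : ℂ) / (Nat.totient q' : ℂ)) *
        ∑ b ∈ (range q').filter (fun b => b.Coprime q'),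
          (if q' = q ∧ b = b0 then (lis y : ℂ) else 0) := by
    rw [sum_eq_single q]
    · congr 1
      rw [sum_eq_single b0]
      · simp
      · intro b _ hb
        rw [if_neg]
        exact fun h => hb h.2
      · intro h
        exact absurd (mem_filter.2 ⟨mem_range.2 hb0lt, hb0c⟩) h
    · intro q' _ hne
      rw [sum_eq_zero, mul_zero]
      intro b _
      rw [if_neg]
      exact fun h => hne h.1
    · intro h
      exact absurd (mem_Icc.2 ⟨hq1, hqQ⟩) h
  rw [h1, h2, ← sum_sub_distrib]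
  refine (norm_sum_le _ _).trans ?_
  have h3 : ∀ q' ∈ Icc 1 Q, ‖(((ArithmeticFunction.moebius q' : ℤ) : ℂ) / (Nat.totient q' : ℂ)) *
        ∑ b ∈ (range q').filter (fun b => b.Coprime q'), TT y ((b : ℝ) / q' + n0 / q) -
      (((ArithmeticFunction.moebius q' : ℤ) : ℂ) / (Nat.totient q' : ℂ)) *
        ∑ b ∈ (range q').filter (fun b => b.Coprime q'),
          (if q' = q ∧ b = b0 then (lis y : ℂ) else 0)‖ ≤ (Q : ℝ) ^ 2 := by
    intro q' hq'
    rw [mem_Icc] at hq'
    have hq'0 : (0 : ℝ) < q' := by exact_mod_cast hq'.1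
    have hφ : (0 : ℝ) < Nat.totient q' := by exact_mod_cast Nat.totient_pos.2 hq'.1
    rw [← mul_sub, ← sum_sub_distrib, norm_mul]
    have h4 : ‖(((ArithmeticFunction.moebius q' : ℤ) : ℂ) / (Nat.totient q' : ℂ))‖ ≤
        1 / (Nat.totient q' : ℝ) := by
      rw [norm_div, Complex.norm_natCast]
      apply div_le_div_of_nonneg_right _ hφ.le
      have h5 := ArithmeticFunction.abs_moebius_le_one (n := q')
      rw [Complex.norm_intCast]
      exact_mod_cast h5
    have h5 : ‖∑ b ∈ (range q').filter (fun b => b.Coprime q'),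
        (TT y ((b : ℝ) / q' + n0 / q) - (if q' = q ∧ b = b0 then (lis y : ℂ) else 0))‖ ≤
        (Nat.totient q' : ℝ) * (Q : ℝ) ^ 2 := by
      refine (norm_sum_le _ _).trans ?_
      have h6 : ∀ b ∈ (range q').filter (fun b => b.Coprime q'),
          ‖TT y ((b : ℝ) / q' + n0 / q) - (if q' = q ∧ b = b0 then (lis y : ℂ) else 0)‖ ≤
          (Q : ℝ) ^ 2 := by
        intro b hb
        rw [mem_filter, mem_range] at hb
        obtain ⟨hbq, hbc⟩ := hb
        split_ifs with h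
        · obtain ⟨hqq, hbb⟩ := h
          obtain ⟨m, hm⟩ := hb0d
          have h7 : (b : ℝ) / q' + n0 / q = ((m : ℤ) : ℝ) := by
            rw [hqq, hbb, ← add_div]
            have h8 : (b0 : ℝ) + n0 = q * m := by exact_mod_cast hm
            rw [h8]
            push_cast
            field_simp
          rw [h7, TT_int, sub_self, norm_zero]
          positivity
        · rw [sub_zero]
          apply TT_bound y Q hQ1
          intro m
          have h8 : (b : ℝ) / q' + n0 / q - m =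
              (((b : ℤ) * q + n0 * q' - m * (q * q') : ℤ) : ℝ) / (q * q') := by
            push_cast
            field_simp
          rw [h8, abs_div, abs_of_pos (mul_pos hq0 hq'0)]
          have h9 : ((b : ℤ) * q + n0 * q' - m * (q * q') : ℤ) ≠ 0 := by
            intro h10
            apply h
            have h11 : (q' : ℤ) ∣ (b : ℤ) * q := ⟨m * q - n0, by linarith⟩
            have h12 : q' ∣ b * q := by exact_mod_cast h11
            have h13 : q' ∣ q := (Nat.Coprime.dvd_of_dvd_mul_left hbc.symm h12)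
            have h14 : (q : ℤ) ∣ (n0 : ℤ) * q' := ⟨m * q' - b, by linarith⟩
            have h15 : q ∣ n0 * q' := by exact_mod_cast h14
            have h16 : q ∣ q' := (Nat.Coprime.dvd_of_dvd_mul_left hn0.symm h15)
            have h17 : q' = q := Nat.dvd_antisymm h13 h16
            refine ⟨h17, ?_⟩
            subst h17
            have h18 : (q' : ℤ) ∣ (b : ℤ) + n0 := by
              refine ⟨m, ?_⟩
              have h19 : ((b : ℤ) + n0 - q' * m) * q' = 0 := by linarith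
              have h20 : (q' : ℤ) ≠ 0 := by
                have := hq'.1
                omega
              have h21 := (mul_eq_zero.1 h19).resolve_right h20
              linarith
            have h19 : q' ∣ b + n0 := by exact_mod_cast h18
            have h20 : b ≡ b0 [MOD q'] := by
              have h21 : b + n0 ≡ b0 + n0 [MOD q'] :=
                ((Nat.modEq_zero_iff_dvd).2 h19).trans ((Nat.modEq_zero_iff_dvd).2 hb0d).symm
              exact Nat.ModEq.add_right_cancel' n0 h21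
            exact Nat.ModEq.eq_of_lt_of_lt h20 hbq hb0lt
          have h10 : (1 : ℝ) ≤ |(((b : ℤ) * q + n0 * q' - m * (q * q') : ℤ) : ℝ)| := by
            have := Int.one_le_abs h9
            exact_mod_cast this
          apply div_le_div₀ (by positivity) h10 (by positivity)
          have hqQ' : (q : ℝ) ≤ Q := by exact_mod_cast hqQ
          have hq'Q' : (q' : ℝ) ≤ Q := by exact_mod_cast hq'.2
          rw [pow_two]
          gcongr
      refine (sum_le_sum h6).trans ?_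
      rw [sum_const, nsmul_eq_mul]
      apply mul_le_mul_of_nonneg_right _ (by positivity)
      have : ((range q').filter (fun b => b.Coprime q')).card = Nat.totient q' := by
        rw [Nat.totient_eq_card_coprime]
        congr 1
        apply filter_congr
        intro b _
        rw [Nat.coprime_comm]
      rw [this]
    calc _ ≤ 1 / (Nat.totient q' : ℝ) * ((Nat.totient q' : ℝ) * (Q : ℝ) ^ 2) := by gcongr
      _ = (Q : ℝ) ^ 2 := by field_simp
  refine (sum_le_sum h3).trans ?_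
  rw [sum_const, Nat.card_Icc, nsmul_eq_mul]
  have : ((Q + 1 - 1 : ℕ) : ℝ) = Q := by
    rw [Nat.add_sub_cancel]
  rw [this]
  exact le_of_eq (by ring)


lemma abel_bound (F : ℕ → ℂ) (γ M0 : ℝ) (x : ℕ)
    (hA : ∀ y : ℕ, y ≤ x → ‖∑ n ∈ Icc 1 y, F n‖ ≤ M0) :
    ‖∑ n ∈ Icc 1 x, F n * e (n * γ)‖ ≤ M0 * (1 + x * ‖e γ - 1‖) := by
  have key : ∀ y : ℕ, y ≤ x → ‖∑ n ∈ Icc 1 y, F n * e (n * γ) -
      (∑ n ∈ Icc 1 y, F n) * e (y * γ)‖ ≤ M0 * (y * ‖e γ - 1‖) := by
    intro y
    induction y with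
    | zero => intro _; simp
    | succ y ih =>
      intro hy
      have h1 := ih (by omega)
      rw [sum_Icc_succ_top (by omega), sum_Icc_succ_top (by omega)]
      have h2 : e (((y + 1 : ℕ) : ℝ) * γ) = e (y * γ) * e γ := by
        rw [← e_add]
        congr 1
        push_cast
        ring
      rw [h2]
      have h3 : (∑ n ∈ Icc 1 y, F n * e (n * γ) + F (y + 1) * (e (y * γ) * e γ)) -
          (∑ n ∈ Icc 1 y, F n + F (y + 1)) * (e (y * γ) * e γ) =
          (∑ n ∈ Icc 1 y, F n * e (n * γ) - (∑ n ∈ Icc 1 y, F n) * e (y * γ)) -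
          (∑ n ∈ Icc 1 y, F n) * e (y * γ) * (e γ - 1) := by ring
      rw [h3]
      refine (norm_sub_le _ _).trans ?_
      have h4 : ‖(∑ n ∈ Icc 1 y, F n) * e (y * γ) * (e γ - 1)‖ ≤ M0 * ‖e γ - 1‖ := by
        rw [norm_mul, norm_mul, norm_e, mul_one]
        exact mul_le_mul_of_nonneg_right (hA y (by omega)) (norm_nonneg _)
      push_cast
      linarith
  have h1 := key x le_rfl
  have h2 : ∑ n ∈ Icc 1 x, F n * e (n * γ) = (∑ n ∈ Icc 1 x, F n * e (n * γ) -
      (∑ n ∈ Icc 1 x, F n) * e (x * γ)) + (∑ n ∈ Icc 1 x, F n) * e (x * γ) := by ring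
  rw [h2]
  refine (norm_add_le _ _).trans ?_
  have h3 : ‖(∑ n ∈ Icc 1 x, F n) * e (x * γ)‖ ≤ M0 := by
    rw [norm_mul, norm_e, mul_one]
    exact hA x le_rfl
  linarith

/-- the partial sums of `ff` at a rational point, in terms of primes and model -/
lemma ff_split (x Q y q : ℕ) (hyx : y ≤ x) (hq1 : 1 ≤ q) (b k : ℤ) (n0 : ℕ)
    (hb : b = n0 + q * k) :
    ∑ n ∈ Icc 1 y, ff x Q n * e (n * ((b : ℝ) / q)) =
      ∑ p ∈ (Icc 1 y).filter (fun p : ℕ => p.Prime), e ((p : ℝ) * n0 / q) -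
      ∑ n ∈ Icc 2 y, (gg Q n / (Real.log n : ℂ)) * e ((n : ℝ) * (n0 / q)) := by
  have hq0 : (q : ℝ) ≠ 0 := by
    have : (0 : ℝ) < q := by exact_mod_cast hq1
    exact this.ne'
  have he : ∀ n : ℕ, e (n * ((b : ℝ) / q)) = e ((n : ℝ) * (n0 / q)) := by
    intro n
    apply e_eq_of ((n : ℤ) * k)
    rw [hb]
    push_cast
    field_simp
  have h1 : ∑ p ∈ (Icc 1 y).filter (fun p : ℕ => p.Prime), e ((p : ℝ) * n0 / q) =
      ∑ n ∈ Icc 1 y, if n.Prime then e ((n : ℝ) * (n0 / q)) else 0 := by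
    rw [sum_filter]
    apply sum_congr rfl
    intro n _
    rw [mul_div_assoc]
  have h2 : ∑ n ∈ Icc 2 y, (gg Q n / (Real.log n : ℂ)) * e ((n : ℝ) * (n0 / q)) =
      ∑ n ∈ Icc 1 y, if 2 ≤ n then (gg Q n / (Real.log n : ℂ)) * e ((n : ℝ) * (n0 / q)) else 0 := by
    rw [← sum_filter]
    apply sum_congr _ (fun _ _ => rfl)
    ext n
    simp only [mem_filter, mem_Icc]
    omega
  rw [h1, h2, ← sum_sub_distrib]
  apply sum_congr rfl
  intro n hn
  rw [mem_Icc] at hn
  rw [he]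
  unfold ff
  by_cases h3 : 2 ≤ n
  · rw [if_pos ⟨h3, hn.2.trans hyx⟩, if_pos h3]
    by_cases h4 : n.Prime
    · rw [if_pos h4, if_pos h4]
      ring
    · rw [if_neg h4, if_neg h4]
      ring
  · rw [if_neg (fun h => h3 h.1), if_neg h3, if_neg (fun h => h3 h.two_le)]
    simp

end Pool.Agent.H442R2.EHI.Four8

namespace Pool.Agent.H442R2.EHI

open Finset
open Pool.Agent.H469R2.NK (e norm_e e_add e_zero e_nat)
open Four8

/-- T8: Siegel-Walfisz for `ff` near rationals. -/
theorem ff_fourier (E1 E : ℕ) : ∃ x0 : ℕ, ∀ x : ℕ, x0 ≤ x → ∀ Q : ℕ, 1 ≤ Q →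
    (Q : ℝ) ≤ Real.log x ^ E1 → ∀ q ∈ Icc 1 Q, ∀ b : ℤ, IsCoprime b (q : ℤ) → ∀ β : ℝ,
    |β - (b : ℝ) / (q : ℝ)| ≤ Real.log x ^ E / x →
    ‖∑ n ∈ Icc 1 x, ff x Q n * e (n * β)‖ ≤ x / Real.log x ^ (2 * E) := by
  obtain ⟨C7, hC7⟩ := pnt_err (E1 + 3 * E + 3)
  obtain ⟨y0, hsw⟩ := sw (E1 + 3 * E + 3) (E1 + 1)
  obtain ⟨x1, hx1⟩ := ev_log (2 * E1 + 3 * E + 3) 1
  obtain ⟨x2, hx2⟩ := ev_log (3 * E1 + 3 * E + 1) 4
  obtain ⟨x3, hx3⟩ := ev_L (8 + 2 * ((1 + |C7|) * 2 ^ (E1 + 3 * E + 3)) + 2 * 2 ^ E1)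
  refine ⟨max (max x1 x2) (max x3 (max (y0 ^ 2) 4)), ?_⟩
  intro x hx Q hQ1 hQL q hqQ b hbq β hβ
  have hxx1 : x1 ≤ x := le_trans (le_trans (le_max_left _ _) (le_max_left _ _)) hx
  have hxx2 : x2 ≤ x := le_trans (le_trans (le_max_right _ _) (le_max_left _ _)) hx
  have hxx3 : x3 ≤ x := le_trans (le_trans (le_max_left _ _) (le_max_right _ _)) hx
  have hxx4 : y0 ^ 2 ≤ x :=
    le_trans (le_trans (le_trans (le_max_left _ _) (le_max_right _ _)) (le_max_right _ _)) hx
  have hxx5 : 4 ≤ x :=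
    le_trans (le_trans (le_trans (le_max_right _ _) (le_max_right _ _)) (le_max_right _ _)) hx
  have hxR : (4 : ℝ) ≤ x := by exact_mod_cast hxx5
  have hx0 : (0 : ℝ) < x := by linarith
  set L : ℝ := Real.log x with hL
  have hA := hx1 x hxx1
  have hB := hx2 x hxx2
  have hc := hx3 x hxx3
  rw [← hL] at hA hB hc
  rw [one_mul] at hA
  set c0 : ℝ := (1 + |C7|) * 2 ^ (E1 + 3 * E + 3) with hc0
  have hc00 : 0 < c0 := by positivity
  have h2E : (0 : ℝ) < 2 ^ E1 := by positivity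
  have hL8 : 8 ≤ L := by linarith
  have hL0 : 0 < L := by linarith
  have hL1 : 1 ≤ L := by linarith
  have hLc : 2 * c0 ≤ L := by linarith
  have hL2E : 2 ^ E1 * 2 ≤ L := by linarith
  rw [mem_Icc] at hqQ
  obtain ⟨hq1, hqQ⟩ := hqQ
  have hqQR : (q : ℝ) ≤ Q := by exact_mod_cast hqQ
  have hQR : (1 : ℝ) ≤ Q := by exact_mod_cast hQ1
  have hq1R : (1 : ℝ) ≤ q := by exact_mod_cast hq1
  have hsqx : √(x : ℝ) ≤ x := by
    rw [Real.sqrt_le_left (by positivity)]
    nlinarith
  have hsqx0 : 0 < √(x : ℝ) := Real.sqrt_pos.2 hx0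
  have hsq2 : √(x : ℝ) * √(x : ℝ) = x := Real.mul_self_sqrt hx0.le
  -- the partial sums
  have hpart : ∀ y : ℕ, y ≤ x →
      ‖∑ n ∈ Icc 1 y, ff x Q n * e (n * ((b : ℝ) / q))‖ ≤ x / L ^ (3 * E + 1) := by
    intro y hyx
    rcases le_or_gt (y : ℝ) (x / L ^ (2 * E1 + 3 * E + 3)) with hy | hy
    · have h1 : ‖∑ n ∈ Icc 1 y, ff x Q n * e (n * ((b : ℝ) / q))‖ ≤ y * (1 + 2 * (Q : ℝ) ^ 2) := by
        refine (norm_sum_le _ _).trans ?_
        have h2 : ∀ n ∈ Icc 1 y, ‖ff x Q n * e (n * ((b : ℝ) / q))‖ ≤ 1 + 2 * (Q : ℝ) ^ 2 := by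
          intro n _
          rw [norm_mul, norm_e, mul_one]
          exact ff_bound x Q n
        refine (sum_le_sum h2).trans ?_
        rw [sum_const, Nat.card_Icc, nsmul_eq_mul, Nat.add_sub_cancel]
      refine h1.trans ?_
      have h2 : 1 + 2 * (Q : ℝ) ^ 2 ≤ 3 * L ^ (2 * E1) := by
        have h3 : (Q : ℝ) ^ 2 ≤ L ^ (2 * E1) := by
          rw [pow_mul']
          gcongr
        nlinarith
      calc (y : ℝ) * (1 + 2 * (Q : ℝ) ^ 2)
          ≤ (x / L ^ (2 * E1 + 3 * E + 3)) * (3 * L ^ (2 * E1)) := by gcongr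
        _ = 3 / L ^ 2 * (x / L ^ (3 * E + 1)) := by
            field_simp
            ring
        _ ≤ 1 * (x / L ^ (3 * E + 1)) := by
            apply mul_le_mul_of_nonneg_right _ (by positivity)
            rw [div_le_one (by positivity)]
            nlinarith
        _ = x / L ^ (3 * E + 1) := one_mul _
    · have hysq : √(x : ℝ) ≤ y := by
        refine le_trans ?_ hy.le
        rw [le_div_iff₀ (by positivity)]
        calc √(x : ℝ) * L ^ (2 * E1 + 3 * E + 3) ≤ √(x : ℝ) * √(x : ℝ) := by gcongr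
          _ = x := hsq2
      have hyy0 : y0 ≤ y := by
        have h1 : (y0 : ℝ) ≤ √(x : ℝ) := by
          apply Real.le_sqrt_of_sq_le
          exact_mod_cast hxx4
        exact_mod_cast h1.trans hysq
      have hy2 : 2 ≤ y := by
        have h1 : (2 : ℝ) ≤ √(x : ℝ) := by
          apply Real.le_sqrt_of_sq_le
          linarith
        exact_mod_cast h1.trans hysq
      have hyR : (2 : ℝ) ≤ y := by exact_mod_cast hy2
      have hlogy : L / 2 ≤ Real.log y := by
        have h1 := Real.log_le_log hsqx0 hysq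
        rw [Real.log_sqrt hx0.le] at h1
        exact h1
      have hlogy0 : 0 < Real.log y := by linarith
      -- choose n0
      set n0 : ℕ := (b % (q : ℤ)).toNat with hn0
      have hq' : (q : ℤ) ≠ 0 := by omega
      have hn0' : (n0 : ℤ) = b % q := Int.toNat_of_nonneg (Int.emod_nonneg _ hq')
      have hbk : b = n0 + q * (b / q) := by
        rw [hn0']
        exact (Int.emod_add_mul_ediv b q).symm
      have hn0c : n0.Coprime q := by
        have h1 : IsCoprime (n0 : ℤ) (q : ℤ) := by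
          have h2 : (n0 : ℤ) = b + q * (-(b / q)) := by linarith
          rw [h2]
          exact IsCoprime.add_mul_left_left hbq _
        exact Nat.isCoprime_iff_coprime.1 h1
      rw [ff_split x Q y q hyx hq1 b (b / q) n0 hbk]
      set δ : ℝ := y / Real.log y ^ (E1 + 3 * E + 3) with hδ
      have hδ0 : 0 ≤ δ := by positivity
      have hqlog : (q : ℝ) ≤ Real.log y ^ (E1 + 1) := by
        calc (q : ℝ) ≤ L ^ E1 := hqQR.trans hQL
          _ = (2 * (L / 2)) ^ E1 := by ring_nf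
          _ ≤ (2 * Real.log y) ^ E1 := by gcongr
          _ = 2 ^ E1 * Real.log y ^ E1 := mul_pow _ _ _
          _ ≤ Real.log y * Real.log y ^ E1 := by
              apply mul_le_mul_of_nonneg_right _ (by positivity)
              linarith
          _ = Real.log y ^ (E1 + 1) := by ring
      have hP := prime_part y q hq1 n0 δ hδ0 (hsw y hyy0 q hq1 hqlog)
      have hM := model_part y Q q hq1 hqQ n0 hn0c
      rw [cq_coprime q n0 hq1 hn0c] at hP
      have h7 := hC7 y hy2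
      have hpi : H343E.pi1 y = (((Icc 1 y).filter (fun p : ℕ => p.Prime)).card : ℝ) := rfl
      rw [← hpi] at h7
      set P : ℂ := ∑ p ∈ (Icc 1 y).filter (fun p : ℕ => p.Prime), e ((p : ℝ) * n0 / q) with hPd
      set M : ℂ := ∑ n ∈ Icc 2 y, (gg Q n / (Real.log n : ℂ)) * e ((n : ℝ) * (n0 / q)) with hMd
      set μ : ℂ := ((ArithmeticFunction.moebius q : ℤ) : ℂ) with hμ
      have hφ : (1 : ℝ) ≤ Nat.totient q := by exact_mod_cast Nat.totient_pos.2 hq1
      have hμ1 : ‖μ‖ ≤ 1 := by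
        rw [hμ, Complex.norm_intCast]
        exact_mod_cast ArithmeticFunction.abs_moebius_le_one (n := q)
      have h8 : P - M = (P - ((H343E.pi1 y / (Nat.totient q : ℝ) : ℝ) : ℂ) * μ) -
          (M - μ / (Nat.totient q : ℂ) * (lis y : ℂ)) +
          (μ / (Nat.totient q : ℂ)) * ((H343E.pi1 y - lis y : ℝ) : ℂ) := by
        push_cast
        ring
      have h9 : ‖(μ / (Nat.totient q : ℂ)) * ((H343E.pi1 y - lis y : ℝ) : ℂ)‖ ≤ |C7| * δ := by
        rw [norm_mul, norm_div, Complex.norm_natCast, Complex.norm_real, Real.norm_eq_abs]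
        have h10 : ‖μ‖ / (Nat.totient q : ℝ) ≤ 1 := by
          rw [div_le_one (by linarith)]
          linarith
        have h11 : |H343E.pi1 y - lis y| ≤ |C7| * δ := by
          refine h7.trans ?_
          rw [mul_div_assoc]
          exact mul_le_mul_of_nonneg_right (le_abs_self _) hδ0
        calc ‖μ‖ / (Nat.totient q : ℝ) * |H343E.pi1 y - lis y| ≤ 1 * (|C7| * δ) := by gcongr
          _ = |C7| * δ := one_mul _
      have h10 : ‖P - M‖ ≤ (q * δ + q) + (Q : ℝ) ^ 3 + |C7| * δ := by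
        rw [h8]
        refine (norm_add_le _ _).trans (add_le_add ((norm_sub_le _ _).trans (add_le_add hP hM)) h9)
      refine h10.trans ?_
      have h11 : δ ≤ 2 ^ (E1 + 3 * E + 3) * (x / L ^ (E1 + 3 * E + 3)) := by
        have h12 : (L / 2) ^ (E1 + 3 * E + 3) ≤ Real.log y ^ (E1 + 3 * E + 3) := by gcongr
        calc δ ≤ x / (L / 2) ^ (E1 + 3 * E + 3) := by
              rw [hδ]
              apply div_le_div₀ hx0.le (by exact_mod_cast hyx) (by positivity) h12
          _ = 2 ^ (E1 + 3 * E + 3) * (x / L ^ (E1 + 3 * E + 3)) := by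
              rw [div_pow]
              field_simp
      have h12 : (q : ℝ) * δ + |C7| * δ ≤ (1 / 2) * (x / L ^ (3 * E + 1)) := by
        have h13 : (q : ℝ) + |C7| ≤ (1 + |C7|) * L ^ E1 := by
          have h14 : (q : ℝ) ≤ L ^ E1 := hqQR.trans hQL
          have h15 : |C7| * 1 ≤ |C7| * L ^ E1 :=
            mul_le_mul_of_nonneg_left (one_le_pow₀ hL1) (abs_nonneg _)
          linarith
        calc (q : ℝ) * δ + |C7| * δ = (q + |C7|) * δ := by ring
          _ ≤ ((1 + |C7|) * L ^ E1) * (2 ^ (E1 + 3 * E + 3) * (x / L ^ (E1 + 3 * E + 3))) := by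
              gcongr
          _ = (c0 / L ^ 2) * (x / L ^ (3 * E + 1)) := by
              rw [hc0]
              field_simp
              ring
          _ ≤ (1 / 2) * (x / L ^ (3 * E + 1)) := by
              apply mul_le_mul_of_nonneg_right _ (by positivity)
              rw [div_le_div_iff₀ (by positivity) (by norm_num)]
              nlinarith
      have h13 : (q : ℝ) + (Q : ℝ) ^ 3 ≤ (1 / 2) * (x / L ^ (3 * E + 1)) := by
        have h14 : (q : ℝ) + (Q : ℝ) ^ 3 ≤ 2 * (Q : ℝ) ^ 3 := by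
          have : (Q : ℝ) ≤ (Q : ℝ) ^ 3 := le_self_pow₀ hQR (by norm_num)
          linarith
        have h15 : (Q : ℝ) ^ 3 ≤ L ^ (3 * E1) := by
          rw [pow_mul']
          gcongr
        have h16 : 4 * L ^ (3 * E1 + 3 * E + 1) ≤ x := hB.trans hsqx
        rw [mul_div_assoc', le_div_iff₀ (by positivity)]
        calc ((q : ℝ) + (Q : ℝ) ^ 3) * L ^ (3 * E + 1)
            ≤ (2 * L ^ (3 * E1)) * L ^ (3 * E + 1) := by
              apply mul_le_mul_of_nonneg_right _ (by positivity)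
              linarith
          _ = 2 * L ^ (3 * E1 + 3 * E + 1) := by ring
          _ ≤ 1 / 2 * x := by linarith
      linarith
  -- Abel summation
  set γ : ℝ := β - (b : ℝ) / q with hγ
  have h1 := abel_bound (fun n => ff x Q n * e (n * ((b : ℝ) / q))) γ (x / L ^ (3 * E + 1)) x hpart
  have h2 : ∑ n ∈ Icc 1 x, ff x Q n * e (n * β) =
      ∑ n ∈ Icc 1 x, (ff x Q n * e (n * ((b : ℝ) / q))) * e (n * γ) := by
    apply sum_congr rfl
    intro n _
    rw [mul_assoc, ← e_add]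
    congr 2
    rw [hγ]
    ring
  rw [h2]
  refine h1.trans ?_
  have h3 : (x : ℝ) * ‖e γ - 1‖ ≤ 7 * L ^ E := by
    have h4 := norm_e_sub_one_le γ
    have h5 : |γ| * x ≤ L ^ E := by
      rw [le_div_iff₀ hx0] at hβ
      exact hβ
    have hpi : Real.pi < 3.15 := Real.pi_lt_d2
    have h6 : 0 ≤ |γ| * x := by positivity
    calc (x : ℝ) * ‖e γ - 1‖ ≤ x * (2 * Real.pi * |γ|) := by gcongr
      _ = 2 * Real.pi * (|γ| * x) := by ring
      _ ≤ 7 * (|γ| * x) := by
          apply mul_le_mul_of_nonneg_right _ h6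
          linarith
      _ ≤ 7 * L ^ E := by linarith
  have h4 : 1 ≤ L ^ E := one_le_pow₀ hL1
  calc x / L ^ (3 * E + 1) * (1 + x * ‖e γ - 1‖) ≤ x / L ^ (3 * E + 1) * (8 * L ^ E) := by
        apply mul_le_mul_of_nonneg_left _ (by positivity)
        linarith
    _ = (8 / L) * (x / L ^ (2 * E)) := by
        field_simp
        ring
    _ ≤ 1 * (x / L ^ (2 * E)) := by
        apply mul_le_mul_of_nonneg_right _ (by positivity)
        rw [div_le_one hL0]
        exact hL8
    _ = x / L ^ (2 * E) := one_mul _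

end Pool.Agent.H442R2.EHI
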