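import Pool.Agent.H43.G.R_seed8.H442R2.EHI.Arcs
import Pool.Agent.H43.G.R_seed8.H442R2.EHI.Minor
import Pool.Agent.H43.G.R_seed8.H442R2.EHI.Dio
import Pool.Agent.H43.G.R_seed8.H442R2.EHI.MajorPoly
import Pool.Agent.H43.G.R_seed8.H442R2.EHI.Fourier
import Pool.Agent.H43.G.R_seed8.H442R2.EHI.Bounds
import Pool.Agent.H43.G.R_seed8.H442R2.EHI.Model
import Pool.Agent.H43.G.R_seed8.H442R2.EHI.Ram

/-!
Second moment: major arcs.
-/

namespace Pool.Agent.H442R2.EHI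

open Finset
open Pool.Agent.H469R2.NK (e norm_e e_add conj_e e_zero)

lemma twist (N : ℕ) (hN : 1 ≤ N) (S : Finset ℤ) (c : ℤ → ℂ) (a β : ℝ) (σ : ℤ)
    (hσ : σ = 1 ∨ σ = -1) : ∃ (θ : ℝ) (S' : Finset ℤ) (c' : ℤ → ℂ),
    (∀ y : ℝ, ∑ h ∈ S, c h * e (-((a + σ * y) * h / N)) =
      e (-((a + σ * y) * β)) * poly N θ S' c' y) ∧
    (∑ h ∈ S', ‖c' h‖ ^ 2 = ∑ h ∈ S, ‖c h‖ ^ 2) ∧
    (∀ δ : ℝ, (∀ h ∈ S, |(h : ℝ) / N - β| ≤ δ) → ∀ h ∈ S', |((h : ℝ) + θ) / N| ≤ δ) ∧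
    (∀ Γ B : ℝ, (∀ h ∈ S, |(h : ℝ) / N - β| ≤ Γ → (N : ℝ) * ‖c h‖ ≤ B) →
      ∀ h ∈ S', |((h : ℝ) + θ) / N| ≤ Γ → (N : ℝ) * ‖c' h‖ ≤ B) := by
  have hN0 : (N : ℝ) ≠ 0 := by positivity
  rcases hσ with rfl | rfl
  · refine ⟨-(N * β), S, fun h => c h * e (-(a * ((h : ℝ) / N - β))), ?_, ?_, ?_, ?_⟩
    · intro y
      unfold poly
      rw [mul_sum]
      refine sum_congr rfl fun h _ => ?_
      rw [show ∀ p q r s : ℂ, p * (q * r * s) = q * (p * r * s) from fun p q r s => by ring]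
      congr 1
      rw [← e_add, ← e_add]
      congr 1
      push_cast
      field_simp
      ring
    · refine sum_congr rfl fun h _ => ?_
      rw [norm_mul, norm_e, mul_one]
    · intro δ hδ h hh
      have : ((h : ℝ) + -(N * β)) / N = (h : ℝ) / N - β := by field_simp; ring
      rw [this]; exact hδ h hh
    · intro Γ B hB h hh hΓ
      have : ((h : ℝ) + -(N * β)) / N = (h : ℝ) / N - β := by field_simp; ring
      rw [this] at hΓ
      rw [norm_mul, norm_e, mul_one]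
      exact hB h hh hΓ
  · have hinj : Set.InjOn (fun h : ℤ => -h) (S : Set ℤ) := fun x _ y _ h => by simpa using h
    refine ⟨N * β, S.image (fun h => -h),
      fun h => c (-h) * e (-(a * (((-h : ℤ) : ℝ) / N - β))), ?_, ?_, ?_, ?_⟩
    · intro y
      unfold poly
      rw [mul_sum, sum_image hinj]
      refine sum_congr rfl fun h _ => ?_
      simp only [neg_neg]
      rw [show ∀ p q r s : ℂ, p * (q * r * s) = q * (p * r * s) from
        fun p q r s => by ring]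
      congr 1
      rw [← e_add, ← e_add]
      congr 1
      push_cast
      field_simp
      ring
    · rw [sum_image hinj]
      refine sum_congr rfl fun h _ => ?_
      simp only [neg_neg]
      rw [norm_mul, norm_e, mul_one]
    · intro δ hδ h hh
      rw [mem_image] at hh
      obtain ⟨g, hg, rfl⟩ := hh
      have : (((-g : ℤ) : ℝ) + N * β) / N = -((g : ℝ) / N - β) := by
        push_cast; field_simp; ring
      rw [this, abs_neg]; exact hδ g hg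
    · intro Γ B hB h hh hΓ
      rw [mem_image] at hh
      obtain ⟨g, hg, rfl⟩ := hh
      have : (((-g : ℤ) : ℝ) + N * β) / N = -((g : ℝ) / N - β) := by
        push_cast; field_simp; ring
      rw [this, abs_neg] at hΓ
      simp only [neg_neg]
      rw [norm_mul, norm_e, mul_one]
      exact hB g hg hΓ

/-- splitting of the `k`-sum into classes modulo `q` -/
lemma split_classes (q b : ℕ) (hq : 1 ≤ q) (K1 K d : ℕ) (a : ℝ) (σ : ℤ) (F : ℕ → ℂ) :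
    ‖∑ k ∈ Ioc K1 K, e (-((a + σ * ((d : ℝ) * k)) * ((b : ℝ) / q))) * F k‖ ≤
    ∑ r ∈ range q, ‖∑ k ∈ (Ioc K1 K).filter (fun k => k % q = r), F k‖ := by
  have hmaps : ∀ k ∈ Ioc K1 K, k % q ∈ range q := fun k _ =>
    mem_range.mpr (Nat.mod_lt _ (by omega))
  rw [← sum_fiberwise_of_maps_to hmaps]
  refine (norm_sum_le _ _).trans (sum_le_sum fun r _ => ?_)
  have hq0 : (q : ℝ) ≠ 0 := by positivity
  have : ∀ k ∈ (Ioc K1 K).filter (fun k => k % q = r),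
      e (-((a + σ * ((d : ℝ) * k)) * ((b : ℝ) / q))) * F k =
      e (-((a + σ * ((d : ℝ) * r)) * ((b : ℝ) / q))) * F k := by
    intro k hk
    have hkr := (mem_filter.mp hk).2
    obtain ⟨j, h1⟩ : ∃ j, k = q * j + r := ⟨k / q, by rw [← hkr]; exact (Nat.div_add_mod k q).symm⟩
    congr 1
    have h2 : (k : ℝ) = q * (j : ℝ) + r := by exact_mod_cast h1
    have : -((a + σ * ((d : ℝ) * k)) * ((b : ℝ) / q)) =
        -((a + σ * ((d : ℝ) * r)) * ((b : ℝ) / q)) + ((-(σ * d * (j : ℤ) * b) : ℤ) : ℝ) := by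
      rw [h2]; push_cast; field_simp; ring
    rw [this, e_add_int]
  rw [sum_congr rfl this, ← mul_sum, norm_mul, norm_e, one_mul]

lemma major_sm (ε : ℝ) (hε : 0 < ε) (E1 E2 U : ℕ) : ∃ x0 : ℕ, ∀ x : ℕ, x0 ≤ x →
    ∀ (Q D K K1 : ℕ) (δ : ℝ), 1 ≤ Q → (Q : ℝ) ≤ Real.log x ^ E1 → 1 ≤ D →
    D * K ≤ x → x ≤ 2 * D * K → (x : ℝ) ^ ε ≤ K → K1 ≤ K → (K : ℝ) ≤ K1 * Real.log x ^ E2 →
    0 ≤ δ → δ * K ≤ 1 →
    ∑ n ∈ Icc 1 x, ‖ff x Q n‖ ^ 2 ≤ x * Real.log x ^ 2 → ∀ (a : ℝ) (σ : ℤ), σ = 1 ∨ σ = -1 →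
    ∑ d ∈ Ioc D (2 * D), ‖∑ k ∈ Ioc K1 K,
      ∑ p ∈ Pairs Q, ∑ h ∈ (Classical.choose (major_decomp x Q (16 * x + 1) (by omega) δ)) p,
        ch x Q (16 * x + 1) h * e (-((a + σ * ((d : ℝ) * k)) * h / ((16 * x + 1 : ℕ) : ℝ)))‖ ^ 2 ≤
      (Q : ℝ) ^ 6 * (x * K / Real.log x ^ U) := by
  obtain ⟨E3, x1, hmp⟩ := major_poly ε hε E1 E2 U
  obtain ⟨x2, hfour⟩ := ff_fourier E1 E3
  refine ⟨max (max x1 x2) 3, fun x hx Q D K K1 δ hQ hQL hD hDK hDK2 hK hK1 hK1L hδ0 hδK hsq a σ hσ => ?_⟩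
  have hx1 : x1 ≤ x := ((le_max_left _ _).trans (le_max_left _ _)).trans hx
  have hx2 : x2 ≤ x := ((le_max_right _ _).trans (le_max_left _ _)).trans hx
  have hx3 : 3 ≤ x := (le_max_right _ _).trans hx
  set N := 16 * x + 1 with hN
  have hN1 : 1 ≤ N := by omega
  set S := Classical.choose (major_decomp x Q N (by omega) δ) with hS
  obtain ⟨-, hS2, hS3⟩ := Classical.choose_spec (major_decomp x Q N (by omega) δ)
  rw [← hS] at hS2 hS3
  have hNr : (0:ℝ) < N := by positivity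
  have hpars := ch_parseval x Q N (by omega)
  -- bound for one pair
  have hpair : ∀ p ∈ Pairs Q, ∃ (θ : ℝ) (S' : Finset ℤ) (c' : ℤ → ℂ),
      (∀ y : ℝ, ∑ h ∈ S p, ch x Q N h * e (-((a + σ * y) * h / N)) =
        e (-((a + σ * y) * ((p.2 : ℝ) / p.1))) * poly N θ S' c' y) ∧
      ∀ r : ℕ, ∑ d ∈ Ioc D (2 * D), ‖∑ k ∈ (Ioc K1 K).filter (fun k => k % p.1 = r),
        poly N θ S' c' ((d : ℝ) * k)‖ ^ 2 ≤ x * K / Real.log x ^ U := by
    intro p hp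
    obtain ⟨θ, S', c', h1, h2, h3, h4⟩ := twist N hN1 (S p) (fun h => ch x Q N h) a
      ((p.2 : ℝ) / p.1) σ hσ
    refine ⟨θ, S', c', h1, fun r => ?_⟩
    have hp' : (1 ≤ p.1 ∧ p.1 ≤ Q) ∧ p.2 < Q := by
      simpa only [Pairs, mem_product, mem_Icc, mem_range] using hp
    apply hmp x hx1 N D K K1 p.1 r δ θ S' c' (by omega) (by omega) hD hDK hDK2 hK hK1 hK1L hp'.1.1
      ((by exact_mod_cast hp'.1.2 : (p.1 : ℝ) ≤ Q).trans hQL) hδ0 hδK
      (h3 δ (fun h hh => (hS2 p hp h hh).2))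
    · rw [h2]
      calc (N : ℝ) * ∑ h ∈ S p, ‖ch x Q N h‖ ^ 2 ≤ N * ∑ h ∈ range N, ‖ch x Q N h‖ ^ 2 := by
            apply mul_le_mul_of_nonneg_left (hS3 p hp) hNr.le
        _ ≤ _ := by rw [hpars]; exact hsq
    · apply h4
      intro h hh hsmall
      have hc : (N : ℝ) * ‖ch x Q N h‖ = ‖∑ n ∈ Icc 1 x, ff x Q n * e ((n : ℝ) * ((h : ℝ) / N))‖ := by
        unfold ch
        rw [norm_mul, norm_div, norm_one, Complex.norm_natCast, ← mul_assoc,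
          mul_one_div_cancel hNr.ne', one_mul]
      rw [hc]
      have hcop : IsCoprime ((p.2 : ℕ) : ℤ) ((p.1 : ℕ) : ℤ) :=
        Nat.isCoprime_iff_coprime.mpr (hS2 p hp h hh).1
      exact hfour x hx2 Q hQ hQL p.1 (mem_Icc.mpr hp'.1) p.2 hcop _ (by simpa using hsmall)
  choose! θ S' c' hp1 hp2 using hpair
  -- pointwise in d
  have hd : ∀ d ∈ Ioc D (2 * D), ‖∑ k ∈ Ioc K1 K,
      ∑ p ∈ Pairs Q, ∑ h ∈ S p, ch x Q N h * e (-((a + σ * ((d : ℝ) * k)) * h / (N : ℝ)))‖ ^ 2 ≤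
      (Q : ℝ) ^ 3 * ∑ p ∈ Pairs Q, ∑ r ∈ range Q, ‖∑ k ∈ (Ioc K1 K).filter (fun k => k % p.1 = r),
        poly N (θ p) (S' p) (c' p) ((d : ℝ) * k)‖ ^ 2 := by
    intro d _
    have e1 : ‖∑ k ∈ Ioc K1 K,
        ∑ p ∈ Pairs Q, ∑ h ∈ S p, ch x Q N h * e (-((a + σ * ((d : ℝ) * k)) * h / (N : ℝ)))‖ ≤
        ∑ p ∈ Pairs Q, ∑ r ∈ range Q, ‖∑ k ∈ (Ioc K1 K).filter (fun k => k % p.1 = r),
          poly N (θ p) (S' p) (c' p) ((d : ℝ) * k)‖ := by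
      rw [sum_comm]
      refine (norm_sum_le _ _).trans (sum_le_sum fun p hp => ?_)
      have hp' : (1 ≤ p.1 ∧ p.1 ≤ Q) ∧ p.2 < Q := by
        simpa only [Pairs, mem_product, mem_Icc, mem_range] using hp
      have : ∀ k ∈ Ioc K1 K, ∑ h ∈ S p, ch x Q N h * e (-((a + σ * ((d : ℝ) * k)) * h / (N : ℝ))) =
          e (-((a + σ * ((d : ℝ) * k)) * ((p.2 : ℝ) / p.1))) *
            poly N (θ p) (S' p) (c' p) ((d : ℝ) * k) := fun k _ => hp1 p hp ((d : ℝ) * k)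
      rw [sum_congr rfl this]
      refine (split_classes p.1 p.2 hp'.1.1 K1 K d a σ _).trans ?_
      apply sum_le_sum_of_subset_of_nonneg
      · intro r hr
        rw [mem_range] at hr ⊢
        omega
      · intros; positivity
    calc _ ≤ (∑ p ∈ Pairs Q, ∑ r ∈ range Q, ‖∑ k ∈ (Ioc K1 K).filter (fun k => k % p.1 = r),
          poly N (θ p) (S' p) (c' p) ((d : ℝ) * k)‖) ^ 2 := by
          apply pow_le_pow_left₀ (norm_nonneg _) e1
      _ = (∑ z ∈ Pairs Q ×ˢ range Q, ‖∑ k ∈ (Ioc K1 K).filter (fun k => k % z.1.1 = z.2),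
          poly N (θ z.1) (S' z.1) (c' z.1) ((d : ℝ) * k)‖) ^ 2 := by rw [sum_product]
      _ ≤ ((Pairs Q ×ˢ range Q).card : ℝ) * ∑ z ∈ Pairs Q ×ˢ range Q,
          ‖∑ k ∈ (Ioc K1 K).filter (fun k => k % z.1.1 = z.2),
          poly N (θ z.1) (S' z.1) (c' z.1) ((d : ℝ) * k)‖ ^ 2 := sq_sum_le_card_mul_sum_sq
      _ = _ := by
          rw [sum_product, card_product, card_pairs, card_range]
          push_cast
          ring
  calc _ ≤ ∑ d ∈ Ioc D (2 * D), (Q : ℝ) ^ 3 * ∑ p ∈ Pairs Q, ∑ r ∈ range Q,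
        ‖∑ k ∈ (Ioc K1 K).filter (fun k => k % p.1 = r),
        poly N (θ p) (S' p) (c' p) ((d : ℝ) * k)‖ ^ 2 := sum_le_sum hd
    _ = (Q : ℝ) ^ 3 * ∑ p ∈ Pairs Q, ∑ r ∈ range Q, ∑ d ∈ Ioc D (2 * D),
        ‖∑ k ∈ (Ioc K1 K).filter (fun k => k % p.1 = r),
        poly N (θ p) (S' p) (c' p) ((d : ℝ) * k)‖ ^ 2 := by
        rw [← mul_sum, sum_comm]
        congr 1
        refine sum_congr rfl fun p _ => ?_
        rw [sum_comm]
    _ ≤ (Q : ℝ) ^ 3 * ∑ p ∈ Pairs Q, ∑ r ∈ range Q, (x * K / Real.log x ^ U) := by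
        gcongr with p hp r hr
        exact hp2 p hp r
    _ = _ := by
        rw [sum_const, sum_const, card_pairs, card_range, nsmul_eq_mul, nsmul_eq_mul]
        push_cast
        ring

end Pool.Agent.H442R2.EHI
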