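import Pool.Agent.H43.G.R_seed8.H442R2.EHI.Defs

/-!
T13: the final assembly of the EHI project, with the statements of `core` (T11) and
`lower` (T12) as hypotheses.
-/

namespace Pool.Agent.H442R2.EHI.FinalOf

open Finset
open Pool.Agent.H442R2.EHI

/-- statement of T11 for a given `ε` -/
def CoreS (ε : ℝ) : Prop := ∀ U : ℕ, ∃ (B x0 : ℕ), ∀ x : ℕ, x0 ≤ x → ∀ D A a0 : ℕ,
    (x : ℝ) ^ (1 / 2 : ℝ) ≤ D → (D : ℝ) ≤ (x : ℝ) ^ (1 - ε) → x * Real.log x ^ B ≤ (A : ℝ) * D →
    a0 + A ≤ x →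
    ∑ a ∈ Ioc a0 (a0 + A), ∑ d ∈ (Ioc D (2 * D)).filter (fun d => a.Coprime d),
      |piAP x d a - lis x / (Nat.totient d : ℝ)| ≤ A * x / Real.log x ^ U

/-- statement of T12 -/
def LowerS : Prop := ∀ U : ℕ, ∃ (B x0 : ℕ), ∀ x : ℕ, x0 ≤ x → ∀ D A a0 : ℕ,
    (D : ℝ) ^ 2 * Real.log x ^ B ≤ (A : ℝ) * x → (D : ℝ) * Real.log x ^ B ≤ x →
    (A : ℝ) * Real.log x ^ B ≤ x →
    ∑ a ∈ Ioc a0 (a0 + A), ∑ d ∈ (Icc 1 D).filter (fun d => a.Coprime d),
      |piAP x d a - lis x / (Nat.totient d : ℝ)| ≤ A * x / Real.log x ^ U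

lemma block (A1 : ℕ) (hA1 : 1 ≤ A1) (F : ℕ → ℝ) (V : ℝ) (x : ℕ)
    (h : ∀ a0 A' : ℕ, A1 ≤ A' → A' ≤ 2 * A1 → a0 + A' ≤ x →
      ∑ a ∈ Ioc a0 (a0 + A'), F a ≤ A' * V) :
    ∀ A a0 : ℕ, A1 ≤ A → a0 + A ≤ x → ∑ a ∈ Ioc a0 (a0 + A), F a ≤ A * V := by
  intro A
  induction A using Nat.strong_induction_on with
  | _ A ih =>
    intro a0 hA hx
    rcases le_or_gt A (2 * A1) with h2 | h2
    · exact h a0 A hA h2 hx
    · have h3 := h a0 A1 le_rfl (by omega) (by omega)
      have h4 := ih (A - A1) (by omega) (a0 + A1) (by omega) (by omega)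
      have h5 : a0 + A1 + (A - A1) = a0 + A := by omega
      rw [h5] at h4
      have h6 : ∑ a ∈ Ioc a0 (a0 + A), F a =
          ∑ a ∈ Ioc a0 (a0 + A1), F a + ∑ a ∈ Ioc (a0 + A1) (a0 + A), F a := by
        rw [← sum_union]
        · congr 1
          ext n
          simp only [mem_union, mem_Ioc]
          omega
        · rw [disjoint_left]
          intro n hn hn'
          rw [mem_Ioc] at hn hn'
          omega
      rw [h6]
      have h7 : (A : ℝ) = A1 + ((A - A1 : ℕ) : ℝ) := by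
        rw [Nat.cast_sub (by omega)]; ring
      rw [h7]
      linarith [h3, h4, add_mul (A1 : ℝ) ((A - A1 : ℕ) : ℝ) V]

lemma dyad_eq (g : ℕ → ℝ) (D0 : ℕ) (J : ℕ) :
    ∑ d ∈ Icc 1 (2 ^ J * D0), g d = ∑ d ∈ Icc 1 D0, g d +
      ∑ j ∈ range J, ∑ d ∈ Ioc (2 ^ j * D0) (2 * (2 ^ j * D0)), g d := by
  induction J with
  | zero => simp
  | succ J ih =>
    rw [sum_range_succ, ← add_assoc, ← ih]
    rw [← sum_union]
    · congr 1
      ext n
      simp only [mem_union, mem_Icc, mem_Ioc]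
      rw [pow_succ]
      constructor
      · intro h
        rcases le_or_gt n (2 ^ J * D0) with h1 | h1
        · left; omega
        · right
          refine ⟨h1, ?_⟩
          have : 2 ^ J * 2 * D0 = 2 * (2 ^ J * D0) := by ring
          omega
      · intro h
        have : 2 ^ J * 2 * D0 = 2 * (2 ^ J * D0) := by ring
        omega
    · rw [disjoint_left]
      intro n hn hn'
      rw [mem_Icc] at hn
      rw [mem_Ioc] at hn'
      omega

lemma dyad (g : ℕ → ℝ) (hg : ∀ d, 0 ≤ g d) (D0 P : ℕ) (hD0 : 1 ≤ D0) :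
    ∃ J : ℕ, (∀ j < J, 2 ^ j * D0 < P) ∧
    ∑ d ∈ Icc 1 P, g d ≤ ∑ d ∈ Icc 1 D0, g d +
      ∑ j ∈ range J, ∑ d ∈ Ioc (2 ^ j * D0) (2 * (2 ^ j * D0)), g d := by
  classical
  have hex : ∃ J : ℕ, P ≤ 2 ^ J * D0 := by
    refine ⟨P, ?_⟩
    have h1 : P < 2 ^ P := Nat.lt_two_pow_self
    nlinarith
  refine ⟨Nat.find hex, fun j hj => ?_, ?_⟩
  · have := Nat.find_min hex hj
    omega
  · rw [← dyad_eq]
    apply sum_le_sum_of_subset_of_nonneg
    · apply Icc_subset_Icc_right (Nat.find_spec hex)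
    · intro d _ _
      exact hg d

lemma lis_sub (x : ℕ) (hx : 2 ≤ x) :
    |lis x - ∫ t in (2 : ℝ)..x, 1 / Real.log t| ≤ 2 := by
  have hanti : AntitoneOn (fun t : ℝ => 1 / Real.log t) (Set.Icc ((2 : ℕ) : ℝ) (x : ℝ)) := by
    intro s hs t ht hst
    have hs2 : (2 : ℝ) ≤ s := by exact_mod_cast hs.1
    have h1 : 0 < Real.log s := Real.log_pos (by linarith)
    exact one_div_le_one_div_of_le h1 (Real.log_le_log (by linarith) hst)
  have h1 := AntitoneOn.integral_le_sum_Ico hx hanti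
  have h2 := AntitoneOn.sum_le_integral_Ico hx hanti
  push_cast at h1 h2
  have hsplit1 : lis x = ∑ n ∈ Ico 2 x, 1 / Real.log (n : ℝ) + 1 / Real.log (x : ℝ) := by
    unfold lis
    rw [← Finset.sum_Ico_succ_top hx]
    congr 1
  have hsplit2 : lis x = 1 / Real.log 2 + ∑ n ∈ Ico 2 x, 1 / Real.log ((n : ℝ) + 1) := by
    unfold lis
    have e1 : Icc 2 x = Ico 2 (x + 1) := rfl
    rw [e1, Finset.sum_eq_sum_Ico_succ_bot (by omega)]
    congr 1
    rw [Finset.sum_Ico_eq_sum_range, Finset.sum_Ico_eq_sum_range]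
    have e2 : x + 1 - (2 + 1) = x - 2 := by omega
    rw [e2]
    apply sum_congr rfl
    intro i _
    push_cast
    ring_nf
  have hlogx : 0 ≤ 1 / Real.log (x : ℝ) := by
    have : (2 : ℝ) ≤ x := by exact_mod_cast hx
    have := Real.log_pos (show (1 : ℝ) < x by linarith)
    positivity
  have hlog2 : 1 / Real.log 2 ≤ 2 := by
    have := Real.log_two_gt_d9
    rw [div_le_iff₀ (by linarith)]
    linarith
  rw [abs_le]
  constructor <;> linarith

lemma ev (k : ℕ) (δ : ℝ) (hδ : 0 < δ) (c : ℝ) (hc : 0 < c) : ∀ᶠ x : ℝ in Filter.atTop,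
    c * Real.log x ^ k ≤ x ^ δ := by
  have h := isLittleO_log_rpow_rpow_atTop (k : ℝ) hδ
  have h1 := h.bound (show (0 : ℝ) < 1 / c by positivity)
  filter_upwards [h1, Filter.eventually_ge_atTop (1 : ℝ)] with x hx hx1
  have hl : 0 ≤ Real.log x := Real.log_nonneg hx1
  rw [Real.norm_of_nonneg (by positivity), Real.norm_of_nonneg (by positivity),
    Real.rpow_natCast] at hx
  rw [div_mul_eq_mul_div, one_mul, le_div_iff₀ hc] at hx
  linarith

lemma piAP_le (x d a : ℕ) : piAP x d a ≤ x := by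
  unfold piAP
  exact_mod_cast (card_filter_le _ _).trans (by simp)

lemma piAP_nonneg (x d a : ℕ) : 0 ≤ piAP x d a := Nat.cast_nonneg _

lemma lis_nonneg (x : ℕ) : 0 ≤ lis x := by
  unfold lis
  apply sum_nonneg
  intro n hn
  rw [mem_Icc] at hn
  have : (2 : ℝ) ≤ n := by exact_mod_cast hn.1
  have := Real.log_pos (show (1 : ℝ) < n by linarith)
  positivity

lemma lis_le (x : ℕ) : lis x ≤ 2 * x := by
  unfold lis
  have h : ∀ n ∈ Icc 2 x, 1 / Real.log (n : ℝ) ≤ 2 := by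
    intro n hn
    rw [mem_Icc] at hn
    have h2 : (2 : ℝ) ≤ n := by exact_mod_cast hn.1
    have h3 : Real.log 2 ≤ Real.log n := Real.log_le_log (by norm_num) h2
    have := Real.log_two_gt_d9
    rw [div_le_iff₀ (by linarith)]
    linarith
  refine (sum_le_sum h).trans ?_
  rw [sum_const, Nat.card_Icc, nsmul_eq_mul]
  have : ((x + 1 - 2 : ℕ) : ℝ) ≤ x := by
    exact_mod_cast (by omega : x + 1 - 2 ≤ x)
  linarith

/-- pointwise passage from `lis` to the logarithmic integral -/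
lemma disc_le (x d a : ℕ) (hx : 2 ≤ x) (hd : 1 ≤ d) :
    |piAP x d a - (∫ t in (2 : ℝ)..x, 1 / Real.log t) / (Nat.totient d : ℝ)| ≤
      |piAP x d a - lis x / (Nat.totient d : ℝ)| + 2 := by
  have hφ : (1 : ℝ) ≤ Nat.totient d := by exact_mod_cast Nat.totient_pos.mpr (by omega)
  have h := lis_sub x hx
  set I := ∫ t in (2 : ℝ)..x, 1 / Real.log t
  have e : piAP x d a - I / (Nat.totient d : ℝ) =
      (piAP x d a - lis x / (Nat.totient d : ℝ)) + (lis x - I) / (Nat.totient d : ℝ) := by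
    ring
  rw [e]
  refine (abs_add_le _ _).trans ?_
  have h2 : |(lis x - I) / (Nat.totient d : ℝ)| ≤ 2 := by
    rw [abs_div, abs_of_pos (by linarith : (0:ℝ) < Nat.totient d), div_le_iff₀ (by linarith)]
    nlinarith
  linarith

lemma disc_triv (x d a : ℕ) (hx : 3 ≤ x) (hd : 1 ≤ d) :
    |piAP x d a - (∫ t in (2 : ℝ)..x, 1 / Real.log t) / (Nat.totient d : ℝ)| ≤ 4 * x := by
  have hφ : (1 : ℝ) ≤ Nat.totient d := by exact_mod_cast Nat.totient_pos.mpr (by omega)
  have h := disc_le x d a (by omega) hd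
  have hx3 : (3 : ℝ) ≤ x := by exact_mod_cast hx
  have h1 := piAP_le x d a
  have h2 := piAP_nonneg x d a
  have h3 := lis_le x
  have h4 := lis_nonneg x
  have h5 : lis x / (Nat.totient d : ℝ) ≤ 2 * x := by
    rw [div_le_iff₀ (by linarith)]
    nlinarith
  have h6 : 0 ≤ lis x / (Nat.totient d : ℝ) := by positivity
  have h7 : |piAP x d a - lis x / (Nat.totient d : ℝ)| ≤ 2 * x := by
    rw [abs_le]
    constructor <;> linarith
  linarith

theorem final_of (ε : ℝ) (hε : 0 < ε) (hcore : CoreS ε) (hlower : LowerS) (U : ℕ) :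
    ∃ (B : ℕ) (C : ℝ), ∀ x : ℕ, 3 ≤ x →
    ∀ A a0 : ℕ, a0 + A ≤ x →
    ((x : ℝ) ^ (1 / 3 : ℝ) * Real.log x ^ B ≤ A →
      ∑ a ∈ Ioc a0 (a0 + A), ∑ d ∈ (Icc 1 ⌊(x : ℝ) ^ (1 - ε)⌋₊).filter (fun d => a.Coprime d),
        |piAP x d a - (∫ t in (2 : ℝ)..x, 1 / Real.log t) / (Nat.totient d : ℝ)| ≤
      C * (A * x / Real.log x ^ U)) ∧
    (∀ D : ℕ, (x : ℝ) ^ (1 / 2 : ℝ) ≤ D → (D : ℝ) ≤ (x : ℝ) ^ (1 - ε) →
      x * Real.log x ^ B ≤ (A : ℝ) * D →
      ∑ a ∈ Ioc a0 (a0 + A), ∑ d ∈ (Ioc D (2 * D)).filter (fun d => a.Coprime d),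
        |piAP x d a - (∫ t in (2 : ℝ)..x, 1 / Real.log t) / (Nat.totient d : ℝ)| ≤
      C * (A * x / Real.log x ^ U)) := by
  obtain ⟨B1, x1, hlow⟩ := hlower (U + 2)
  obtain ⟨B2, x2, hcor⟩ := hcore (U + 2)
  obtain ⟨B', hB'⟩ : ∃ B' : ℕ, B' = B1 + B2 + 1 := ⟨_, rfl⟩
  have hev1 := ev B1 (1 / 3) (by norm_num) 1 one_pos
  have hev2 := ev (B' + B1) (2 / 3) (by norm_num) 4 (by norm_num)
  have hev3 := ev U ε hε 2 (by norm_num)
  have hev4 := ev 0 (1 / 6) (by norm_num) 2 (by norm_num)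
  have hev5 : ∀ᶠ X : ℝ in Filter.atTop, (3 : ℝ) ≤ Real.log X :=
    Real.tendsto_log_atTop.eventually (Filter.eventually_ge_atTop _)
  have hev6 : ∀ᶠ X : ℝ in Filter.atTop, (3 : ℝ) ≤ X := Filter.eventually_ge_atTop _
  obtain ⟨Y, hY⟩ := Filter.eventually_atTop.mp
    (hev1.and (hev2.and (hev3.and (hev4.and (hev5.and hev6)))))
  obtain ⟨X1, hX1⟩ : ∃ X1 : ℕ, X1 = max (max x1 x2) (max ⌈Y⌉₊ 3) := ⟨_, rfl⟩
  have hX1x1 : x1 ≤ X1 := by rw [hX1]; exact (le_max_left _ _).trans (le_max_left _ _)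
  have hX1x2 : x2 ≤ X1 := by rw [hX1]; exact (le_max_right _ _).trans (le_max_left _ _)
  have hX1Y : ⌈Y⌉₊ ≤ X1 := by rw [hX1]; exact (le_max_left _ _).trans (le_max_right _ _)
  have hX13 : 3 ≤ X1 := by rw [hX1]; exact (le_max_right _ _).trans (le_max_right _ _)
  obtain ⟨C, hC⟩ : ∃ C : ℝ, C = max 2 (4 * X1 * Real.log X1 ^ U) := ⟨_, rfl⟩
  have hC2 : 2 ≤ C := by rw [hC]; exact le_max_left _ _
  have hCX : 4 * X1 * Real.log X1 ^ U ≤ C := by rw [hC]; exact le_max_right _ _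
  refine ⟨B' + 1, C, fun x hx A a0 hAx => ?_⟩
  have hx3 : (3 : ℝ) ≤ x := by exact_mod_cast hx
  have hx0 : (0 : ℝ) < x := by linarith
  have hlog1 : 1 ≤ Real.log x := by
    rw [Real.le_log_iff_exp_le hx0]
    have := Real.exp_one_lt_d9
    linarith
  have hA0 : (0 : ℝ) ≤ A := Nat.cast_nonneg _
  have hPx : ((x : ℝ) ^ (1 - ε)) ≤ x := by
    calc (x : ℝ) ^ (1 - ε) ≤ (x : ℝ) ^ (1 : ℝ) :=
          Real.rpow_le_rpow_of_exponent_le (by linarith) (by linarith)
      _ = x := Real.rpow_one _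
  set Li : ℝ := ∫ t in (2 : ℝ)..x, 1 / Real.log t with hLi
  -- the trivial bound
  have htriv : x < X1 → ∀ S : ℕ → Finset ℕ, (∀ a, ∀ d ∈ S a, 1 ≤ d) →
      (∀ a, ((S a).card : ℝ) ≤ x) →
      ∑ a ∈ Ioc a0 (a0 + A), ∑ d ∈ S a, |piAP x d a - Li / (Nat.totient d : ℝ)| ≤
        C * (A * x / Real.log x ^ U) := by
    intro hlt S hS1 hSc
    have hle : (x : ℝ) ≤ X1 := by exact_mod_cast hlt.le
    have h1 : ∀ a ∈ Ioc a0 (a0 + A), ∑ d ∈ S a, |piAP x d a - Li / (Nat.totient d : ℝ)| ≤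
        x * (4 * x) := by
      intro a _
      calc ∑ d ∈ S a, |piAP x d a - Li / (Nat.totient d : ℝ)| ≤ ∑ d ∈ S a, 4 * (x : ℝ) :=
            sum_le_sum fun d hd => disc_triv x d a hx (hS1 a d hd)
        _ = (S a).card * (4 * (x : ℝ)) := by rw [sum_const, nsmul_eq_mul]
        _ ≤ x * (4 * x) := mul_le_mul_of_nonneg_right (hSc a) (by positivity)
    refine (sum_le_sum h1).trans ?_
    rw [sum_const, Nat.card_Ioc, nsmul_eq_mul]
    have h2 : ((a0 + A - a0 : ℕ) : ℝ) = A := by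
      congr 1; omega
    rw [h2]
    have h3 : 4 * (x : ℝ) * Real.log x ^ U ≤ C := by
      refine le_trans ?_ hCX
      have hl : Real.log x ≤ Real.log X1 := Real.log_le_log hx0 hle
      gcongr
    have hLU : 0 < Real.log x ^ U := by positivity
    have h4 : (4 : ℝ) * x ≤ C / Real.log x ^ U := by
      rw [le_div_iff₀ hLU]
      exact h3
    calc (A : ℝ) * (x * (4 * x)) = A * x * (4 * x) := by ring
      _ ≤ A * x * (C / Real.log x ^ U) := mul_le_mul_of_nonneg_left h4 (by positivity)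
      _ = C * (A * x / Real.log x ^ U) := by ring
  have hfl : ((⌊(x : ℝ) ^ (1 - ε)⌋₊ : ℕ) : ℝ) ≤ (x : ℝ) ^ (1 - ε) := Nat.floor_le (by positivity)
  rcases lt_or_ge x X1 with hlt | hge
  · constructor
    · intro _
      apply htriv hlt
      · intro a d hd
        rw [mem_filter, mem_Icc] at hd
        exact hd.1.1
      · intro a
        have h1 : ((Icc 1 ⌊(x : ℝ) ^ (1 - ε)⌋₊).filter (fun d => a.Coprime d)).card ≤
            ⌊(x : ℝ) ^ (1 - ε)⌋₊ := (card_filter_le _ _).trans (by simp)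
        have h2 : (((Icc 1 ⌊(x : ℝ) ^ (1 - ε)⌋₊).filter (fun d => a.Coprime d)).card : ℝ) ≤
            ⌊(x : ℝ) ^ (1 - ε)⌋₊ := by exact_mod_cast h1
        linarith
    · intro D _ hD _
      apply htriv hlt
      · intro a d hd
        rw [mem_filter, mem_Ioc] at hd
        omega
      · intro a
        have h1 : ((Ioc D (2 * D)).filter (fun d => a.Coprime d)).card ≤ D := by
          refine (card_filter_le _ _).trans ?_
          rw [Nat.card_Ioc]
          omega
        have h2 : (((Ioc D (2 * D)).filter (fun d => a.Coprime d)).card : ℝ) ≤ D := by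
          exact_mod_cast h1
        linarith
  · have hYx : Y ≤ x := (Nat.le_ceil Y).trans (by exact_mod_cast hX1Y.trans hge)
    obtain ⟨e1, e2, e3, e4, e5, -⟩ := hY x hYx
    rw [one_mul] at e1
    have hL3 : (3 : ℝ) ≤ Real.log x := e5
    set L := Real.log (x : ℝ) with hL
    have hLpos : 0 < L := by linarith
    -- passage from lis to Li: error 2 for each pair
    have hpass : ∀ S : ℕ → Finset ℕ, (∀ a, ∀ d ∈ S a, 1 ≤ d) →
        (∀ a, ((S a).card : ℝ) ≤ (x : ℝ) ^ (1 - ε)) → ∀ V : ℝ,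
        ∑ a ∈ Ioc a0 (a0 + A), ∑ d ∈ S a, |piAP x d a - lis x / (Nat.totient d : ℝ)| ≤
          A * V →
        V ≤ x / L ^ U →
        ∑ a ∈ Ioc a0 (a0 + A), ∑ d ∈ S a, |piAP x d a - Li / (Nat.totient d : ℝ)| ≤
          C * (A * x / L ^ U) := by
      intro S hS1 hSc V hV hVle
      have h1 : ∑ a ∈ Ioc a0 (a0 + A), ∑ d ∈ S a, |piAP x d a - Li / (Nat.totient d : ℝ)| ≤
          ∑ a ∈ Ioc a0 (a0 + A), (∑ d ∈ S a, |piAP x d a - lis x / (Nat.totient d : ℝ)| +
            (x : ℝ) ^ (1 - ε) * 2) := by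
        apply sum_le_sum
        intro a _
        calc ∑ d ∈ S a, |piAP x d a - Li / (Nat.totient d : ℝ)| ≤
              ∑ d ∈ S a, (|piAP x d a - lis x / (Nat.totient d : ℝ)| + 2) :=
              sum_le_sum fun d hd => disc_le x d a (by omega) (hS1 a d hd)
          _ = ∑ d ∈ S a, |piAP x d a - lis x / (Nat.totient d : ℝ)| + (S a).card * 2 := by
              rw [sum_add_distrib, sum_const, nsmul_eq_mul]
          _ ≤ _ := by
              have := mul_le_mul_of_nonneg_right (hSc a) (show (0 : ℝ) ≤ 2 by norm_num)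
              linarith
      have h2 : ((a0 + A - a0 : ℕ) : ℝ) = A := by
        congr 1; omega
      rw [sum_add_distrib, sum_const, Nat.card_Ioc, nsmul_eq_mul, h2] at h1
      have hLU : 0 < L ^ U := by positivity
      have h3 : (x : ℝ) ^ (1 - ε) * 2 ≤ x / L ^ U := by
        rw [le_div_iff₀ hLU]
        have h4 : (x : ℝ) ^ (1 - ε) * (x : ℝ) ^ ε = x := by
          rw [← Real.rpow_add hx0]
          simp
        calc (x : ℝ) ^ (1 - ε) * 2 * L ^ U = (x : ℝ) ^ (1 - ε) * (2 * L ^ U) := by ring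
          _ ≤ (x : ℝ) ^ (1 - ε) * (x : ℝ) ^ ε := mul_le_mul_of_nonneg_left e3 (by positivity)
          _ = x := h4
      have h5 : (A : ℝ) * V ≤ A * (x / L ^ U) := mul_le_mul_of_nonneg_left hVle hA0
      have h6 : (A : ℝ) * ((x : ℝ) ^ (1 - ε) * 2) ≤ A * (x / L ^ U) :=
        mul_le_mul_of_nonneg_left h3 hA0
      have h7 : 0 ≤ (A : ℝ) * (x / L ^ U) := by positivity
      calc _ ≤ A * V + A * ((x : ℝ) ^ (1 - ε) * 2) := by linarith
        _ ≤ 2 * (A * (x / L ^ U)) := by linarith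
        _ ≤ C * (A * (x / L ^ U)) := mul_le_mul_of_nonneg_right hC2 h7
        _ = C * (A * x / L ^ U) := by ring
    have hUL : L ^ U ≤ L ^ (U + 2) := pow_le_pow_right₀ (by linarith) (by omega)
    constructor
    · intro hA
      set P := ⌊(x : ℝ) ^ (1 - ε)⌋₊ with hP
      set D0 := ⌊(x : ℝ) ^ (2 / 3 : ℝ)⌋₊ with hD0
      set A1 := ⌈(x : ℝ) ^ (1 / 3 : ℝ) * L ^ B'⌉₊ with hA1
      have hx13 : (1 : ℝ) ≤ (x : ℝ) ^ (1 / 3 : ℝ) := Real.one_le_rpow (by linarith) (by norm_num)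
      have hLB' : (1 : ℝ) ≤ L ^ B' := one_le_pow₀ (by linarith)
      have hA1le : (x : ℝ) ^ (1 / 3 : ℝ) * L ^ B' ≤ A1 := Nat.le_ceil _
      have hA1lt : (A1 : ℝ) < (x : ℝ) ^ (1 / 3 : ℝ) * L ^ B' + 1 := Nat.ceil_lt_add_one (by positivity)
      have hprod1 : (1 : ℝ) ≤ (x : ℝ) ^ (1 / 3 : ℝ) * L ^ B' := by nlinarith
      have hA1one : 1 ≤ A1 := by
        have : (1 : ℝ) ≤ A1 := hprod1.trans hA1le
        exact_mod_cast this
      have hA1A : A1 ≤ A := by
        have h1 : (x : ℝ) ^ (1 / 3 : ℝ) * L ^ B' + 1 ≤ (x : ℝ) ^ (1 / 3 : ℝ) * L ^ (B' + 1) := by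
          rw [pow_succ, ← mul_assoc]
          nlinarith
        have h2 : (A1 : ℝ) ≤ A := by linarith
        exact_mod_cast h2
      -- D0
      have hx23 : (x : ℝ) ^ (2 / 3 : ℝ) = (x : ℝ) ^ (1 / 2 : ℝ) * (x : ℝ) ^ (1 / 6 : ℝ) := by
        rw [← Real.rpow_add hx0]; norm_num
      have hx12 : (1 : ℝ) ≤ (x : ℝ) ^ (1 / 2 : ℝ) := Real.one_le_rpow (by linarith) (by norm_num)
      have e4' : (2 : ℝ) ≤ (x : ℝ) ^ (1 / 6 : ℝ) := by simpa using e4
      have hx23' : 2 * (x : ℝ) ^ (1 / 2 : ℝ) ≤ (x : ℝ) ^ (2 / 3 : ℝ) := by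
        rw [hx23]; nlinarith
      have hD0le : (D0 : ℝ) ≤ (x : ℝ) ^ (2 / 3 : ℝ) := Nat.floor_le (by positivity)
      have hD0lt : (x : ℝ) ^ (2 / 3 : ℝ) < D0 + 1 := Nat.lt_floor_add_one _
      have hD0half : (x : ℝ) ^ (2 / 3 : ℝ) / 2 ≤ D0 := by linarith
      have hD0sq : (x : ℝ) ^ (1 / 2 : ℝ) ≤ D0 := by linarith
      have hD0one : 1 ≤ D0 := by
        have : (1 : ℝ) ≤ D0 := hx12.trans hD0sq
        exact_mod_cast this
      refine hpass _ ?_ ?_ (x / L ^ U) ?_ le_rfl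
      · intro a d hd
        rw [mem_filter, mem_Icc] at hd
        exact hd.1.1
      · intro a
        have h1 : ((Icc 1 P).filter (fun d => a.Coprime d)).card ≤ P :=
          (card_filter_le _ _).trans (by simp)
        have h2 : (((Icc 1 P).filter (fun d => a.Coprime d)).card : ℝ) ≤ P := by
          exact_mod_cast h1
        exact h2.trans hfl
      · refine block A1 hA1one _ _ x ?_ A a0 hA1A hAx
        intro b0 A' hA'1 hA'2 hb
        have hA'1r : (A1 : ℝ) ≤ A' := by exact_mod_cast hA'1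
        have hA'2r : (A' : ℝ) ≤ 2 * A1 := by exact_mod_cast hA'2
        have hA'0 : (0 : ℝ) ≤ A' := Nat.cast_nonneg _
        have hx1x : x1 ≤ x := hX1x1.trans hge
        have hx2x : x2 ≤ x := hX1x2.trans hge
        -- decomposition
        obtain ⟨J, hJ, hJ2⟩ : ∃ J : ℕ, (∀ j < J, 2 ^ j * D0 < P) ∧ ∀ a : ℕ,
            ∑ d ∈ (Icc 1 P).filter (fun d => a.Coprime d),
              |piAP x d a - lis x / (Nat.totient d : ℝ)| ≤
            ∑ d ∈ (Icc 1 D0).filter (fun d => a.Coprime d),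
              |piAP x d a - lis x / (Nat.totient d : ℝ)| +
            ∑ j ∈ range J, ∑ d ∈ (Ioc (2 ^ j * D0) (2 * (2 ^ j * D0))).filter
              (fun d => a.Coprime d), |piAP x d a - lis x / (Nat.totient d : ℝ)| := by
          classical
          have hex : ∃ J : ℕ, P ≤ 2 ^ J * D0 := by
            refine ⟨P, ?_⟩
            have h1 : P < 2 ^ P := Nat.lt_two_pow_self
            nlinarith
          refine ⟨Nat.find hex, fun j hj => ?_, fun a => ?_⟩
          · have := Nat.find_min hex hj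
            omega
          · simp only [sum_filter]
            rw [← dyad_eq]
            apply sum_le_sum_of_subset_of_nonneg
            · apply Icc_subset_Icc_right (Nat.find_spec hex)
            · intro d _ _
              split_ifs
              · exact abs_nonneg _
              · exact le_rfl
        have hsum : ∑ a ∈ Ioc b0 (b0 + A'), ∑ d ∈ (Icc 1 P).filter (fun d => a.Coprime d),
              |piAP x d a - lis x / (Nat.totient d : ℝ)| ≤
            ∑ a ∈ Ioc b0 (b0 + A'), ∑ d ∈ (Icc 1 D0).filter (fun d => a.Coprime d),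
              |piAP x d a - lis x / (Nat.totient d : ℝ)| +
            ∑ j ∈ range J, ∑ a ∈ Ioc b0 (b0 + A'),
              ∑ d ∈ (Ioc (2 ^ j * D0) (2 * (2 ^ j * D0))).filter
              (fun d => a.Coprime d), |piAP x d a - lis x / (Nat.totient d : ℝ)| := by
          rw [sum_comm (s := range J), ← sum_add_distrib]
          exact sum_le_sum fun a _ => hJ2 a
        refine hsum.trans ?_
        -- the lower part
        have hlowb : ∑ a ∈ Ioc b0 (b0 + A'), ∑ d ∈ (Icc 1 D0).filter (fun d => a.Coprime d),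
              |piAP x d a - lis x / (Nat.totient d : ℝ)| ≤ A' * x / L ^ (U + 2) := by
          apply hlow x hx1x D0 A' b0
          · -- D0² L^B1 ≤ A' x
            have h1 : (D0 : ℝ) ^ 2 ≤ (x : ℝ) ^ (1 / 3 : ℝ) * x := by
              calc (D0 : ℝ) ^ 2 ≤ ((x : ℝ) ^ (2 / 3 : ℝ)) ^ 2 := by gcongr
                _ = (x : ℝ) ^ (1 / 3 : ℝ) * (x : ℝ) ^ (1 : ℝ) := by
                    rw [← Real.rpow_natCast, ← Real.rpow_mul hx0.le, ← Real.rpow_add hx0]
                    norm_num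
                _ = (x : ℝ) ^ (1 / 3 : ℝ) * x := by rw [Real.rpow_one]
            have h2 : L ^ B1 ≤ L ^ B' := pow_le_pow_right₀ (by linarith) (by omega)
            calc (D0 : ℝ) ^ 2 * L ^ B1 ≤ ((x : ℝ) ^ (1 / 3 : ℝ) * x) * L ^ B' := by gcongr
              _ = ((x : ℝ) ^ (1 / 3 : ℝ) * L ^ B') * x := by ring
              _ ≤ A' * x := mul_le_mul_of_nonneg_right (hA1le.trans hA'1r) hx0.le
          · have h1 : (x : ℝ) ^ (2 / 3 : ℝ) * (x : ℝ) ^ (1 / 3 : ℝ) = x := by
              rw [← Real.rpow_add hx0]; norm_num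
            calc (D0 : ℝ) * L ^ B1 ≤ (x : ℝ) ^ (2 / 3 : ℝ) * (x : ℝ) ^ (1 / 3 : ℝ) := by
                  gcongr
              _ = x := h1
          · have h1 : (x : ℝ) ^ (1 / 3 : ℝ) * (x : ℝ) ^ (2 / 3 : ℝ) = x := by
              rw [← Real.rpow_add hx0]; norm_num
            have h2 : (A' : ℝ) ≤ 4 * ((x : ℝ) ^ (1 / 3 : ℝ) * L ^ B') := by linarith
            calc (A' : ℝ) * L ^ B1 ≤ 4 * ((x : ℝ) ^ (1 / 3 : ℝ) * L ^ B') * L ^ B1 := by
                  gcongr
              _ = (x : ℝ) ^ (1 / 3 : ℝ) * (4 * L ^ (B' + B1)) := by rw [pow_add]; ring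
              _ ≤ (x : ℝ) ^ (1 / 3 : ℝ) * (x : ℝ) ^ (2 / 3 : ℝ) := by gcongr
              _ = x := h1
        -- the dyadic parts
        have hcorb : ∀ j ∈ range J, ∑ a ∈ Ioc b0 (b0 + A'),
              ∑ d ∈ (Ioc (2 ^ j * D0) (2 * (2 ^ j * D0))).filter
              (fun d => a.Coprime d), |piAP x d a - lis x / (Nat.totient d : ℝ)| ≤
            A' * x / L ^ (U + 2) := by
          intro j hj
          rw [mem_range] at hj
          have h2j : 1 ≤ 2 ^ j := Nat.one_le_two_pow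
          have hge0 : D0 ≤ 2 ^ j * D0 := Nat.le_mul_of_pos_left D0 (by positivity)
          have hge0r : (D0 : ℝ) ≤ ((2 ^ j * D0 : ℕ) : ℝ) := by exact_mod_cast hge0
          apply hcor x hx2x (2 ^ j * D0) A' b0
          · exact hD0sq.trans hge0r
          · have h1 : ((2 ^ j * D0 : ℕ) : ℝ) ≤ P := by exact_mod_cast (hJ j hj).le
            exact h1.trans hfl
          · have h1 : (x : ℝ) ^ (1 / 3 : ℝ) * (x : ℝ) ^ (2 / 3 : ℝ) = x := by
              rw [← Real.rpow_add hx0]; norm_num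
            have h2 : 2 * L ^ B2 ≤ L ^ B' := by
              have h3 : L ^ (B2 + 1) ≤ L ^ B' := pow_le_pow_right₀ (by linarith) (by omega)
              rw [pow_succ] at h3
              have h4 : 0 < L ^ B2 := by positivity
              nlinarith
            calc (x : ℝ) * L ^ B2 = ((x : ℝ) ^ (1 / 3 : ℝ) * (x : ℝ) ^ (2 / 3 : ℝ)) * L ^ B2 := by
                  rw [h1]
              _ = ((x : ℝ) ^ (1 / 3 : ℝ) * (2 * L ^ B2)) * ((x : ℝ) ^ (2 / 3 : ℝ) / 2) := by ring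
              _ ≤ ((x : ℝ) ^ (1 / 3 : ℝ) * L ^ B') * ((x : ℝ) ^ (2 / 3 : ℝ) / 2) := by gcongr
              _ ≤ A' * ((2 ^ j * D0 : ℕ) : ℝ) := by
                  apply mul_le_mul (hA1le.trans hA'1r) (hD0half.trans hge0r) (by positivity) hA'0
          · exact hb
        -- number of dyadic parts
        have hJle : (J : ℝ) + 1 ≤ L ^ 2 := by
          rcases Nat.eq_zero_or_pos J with h0 | hpos
          · rw [h0]
            push_cast
            nlinarith
          · have h1 := hJ (J - 1) (by omega)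
            have h2 : 2 ^ (J - 1) ≤ P := by
              have : 2 ^ (J - 1) ≤ 2 ^ (J - 1) * D0 := Nat.le_mul_of_pos_right _ (by omega)
              omega
            have h3 : ((2 : ℝ) ^ (J - 1)) ≤ x := by
              have : ((2 : ℝ) ^ (J - 1)) ≤ P := by exact_mod_cast h2
              linarith
            have h4 : ((J - 1 : ℕ) : ℝ) * Real.log 2 ≤ L := by
              have := Real.log_le_log (by positivity) h3
              rwa [Real.log_pow] at this
            have h5 : ((J - 1 : ℕ) : ℝ) = J - 1 := by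
              rw [Nat.cast_sub (by omega)]; simp
            rw [h5] at h4
            have hlog2 := Real.log_two_gt_d9
            have h6 : (1 : ℝ) ≤ J := by exact_mod_cast hpos
            have h7 : ((J : ℝ) - 1) * 0.69 ≤ L := by nlinarith
            nlinarith
        have hfin : ∑ j ∈ range J, ∑ a ∈ Ioc b0 (b0 + A'),
              ∑ d ∈ (Ioc (2 ^ j * D0) (2 * (2 ^ j * D0))).filter
              (fun d => a.Coprime d), |piAP x d a - lis x / (Nat.totient d : ℝ)| ≤
            J * (A' * x / L ^ (U + 2)) := by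
          refine (sum_le_sum hcorb).trans ?_
          rw [sum_const, card_range, nsmul_eq_mul]
        have hpos : 0 ≤ (A' : ℝ) * x / L ^ (U + 2) := by positivity
        calc _ ≤ A' * x / L ^ (U + 2) + J * (A' * x / L ^ (U + 2)) := add_le_add hlowb hfin
          _ = ((J : ℝ) + 1) * (A' * x / L ^ (U + 2)) := by ring
          _ ≤ L ^ 2 * (A' * x / L ^ (U + 2)) := mul_le_mul_of_nonneg_right hJle hpos
          _ = A' * (x / L ^ U) := by
              rw [pow_add]
              field_simp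
    · intro D hD1 hD2 hAD
      have hx2x : x2 ≤ x := hX1x2.trans hge
      have hB2 : L ^ B2 ≤ L ^ (B' + 1) := pow_le_pow_right₀ (by linarith) (by omega)
      have h := hcor x hx2x D A a0 hD1 hD2
        ((mul_le_mul_of_nonneg_left hB2 hx0.le).trans hAD) hAx
      refine hpass _ ?_ ?_ (x / L ^ (U + 2)) ?_ ?_
      · intro a d hd
        rw [mem_filter, mem_Ioc] at hd
        omega
      · intro a
        have h1 : ((Ioc D (2 * D)).filter (fun d => a.Coprime d)).card ≤ D := by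
          refine (card_filter_le _ _).trans ?_
          rw [Nat.card_Ioc]
          omega
        have h2 : (((Ioc D (2 * D)).filter (fun d => a.Coprime d)).card : ℝ) ≤ D := by
          exact_mod_cast h1
        exact h2.trans hD2
      · rw [← mul_div_assoc]
        exact h
      · exact div_le_div_of_nonneg_left hx0.le (by positivity) hUL

end Pool.Agent.H442R2.EHI.FinalOf
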